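import Pool.Agent.H.MP_732d27_an.CurveDefs

/-!
# Structure of periodic rotating curves
-/

namespace Pool.Agent.H.MP_732d27_an

open Set Filter Topology

theorem sign_near {x : ℝ → ℝ} {x0' t0 : ℝ} (hd : HasDerivAt x x0' t0) (h0 : x t0 = 0)
    (hpos : 0 < x0') : ∃ ε > 0, (∀ t, t0 < t → t < t0 + ε → 0 < x t) ∧
      (∀ t, t0 - ε < t → t < t0 → x t < 0) := by
  have h1 := (hasDerivAt_iff_tendsto_slope.1 hd).eventually (lt_mem_nhds hpos)
  rw [eventually_nhdsWithin_iff, Metric.eventually_nhds_iff] at h1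
  obtain ⟨ε, hε, h2⟩ := h1
  refine ⟨ε, hε, ?_, ?_⟩
  · intro t ht1 ht2
    have h3 := h2 (y := t) (by rw [Real.dist_eq, abs_lt]; constructor <;> linarith)
      (by simp only [mem_compl_iff, mem_singleton_iff]; exact ne_of_gt ht1)
    rw [slope_def_field, h0, sub_zero] at h3
    have h4 : 0 < t - t0 := by linarith
    exact (div_pos_iff_of_pos_right h4).1 h3
  · intro t ht1 ht2
    have h3 := h2 (y := t) (by rw [Real.dist_eq, abs_lt]; constructor <;> linarith)
      (by simp only [mem_compl_iff, mem_singleton_iff]; exact ne_of_lt ht2)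
    rw [slope_def_field, h0, sub_zero] at h3
    have h4 : t - t0 < 0 := by linarith
    by_contra h5
    push Not at h5
    have h6 : x t / (t - t0) ≤ 0 := div_nonpos_of_nonneg_of_nonpos h5 h4.le
    linarith

/-- job C1 -/
theorem periodic_ne_zero {h h' : ℝ → ℝ} {T : ℝ} (hT : 0 < T) (hp : ∀ t, h (t + T) = h t)
    (hd : ∀ t, HasDerivAt h (h' t) t) (hneg : ∀ t, h t = 0 → h' t < 0) : ∀ t, h t ≠ 0 := by
  intro t0 h0
  have hcont : Continuous h := continuous_iff_continuousAt.2 fun t => (hd t).continuousAt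
  have key : ∀ ⦃t⦄, t ∈ Icc t0 (t0 + T) → h t ≤ (fun _ => (0:ℝ)) t := by
    refine image_le_of_deriv_right_lt_deriv_boundary (f' := h') (B := fun _ => (0:ℝ))
      (B' := fun _ => (0:ℝ)) hcont.continuousOn ?_ ?_ ?_ ?_
    · intro t _; exact (hd t).hasDerivWithinAt
    · simp [h0]
    · intro t; exact hasDerivAt_const t 0
    · intro t _ ht; exact hneg t ht
  have h1 : h (t0 + T) = 0 := by rw [hp, h0]
  have h2 := hneg _ h1
  have h3 : HasDerivAt (fun t => - h t) (- h' (t0 + T)) (t0 + T) := (hd _).neg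
  obtain ⟨ε, hε, -, h4⟩ := sign_near h3 (by simp [h1]) (by linarith)
  have h5 : (0:ℝ) < min ε T / 2 := by have := lt_min hε hT; linarith
  have h6 : min ε T ≤ ε := min_le_left _ _
  have h7 : min ε T ≤ T := min_le_right _ _
  have h8 := h4 (t0 + T - min ε T / 2) (by linarith) (by linarith)
  have h9 := key (t := t0 + T - min ε T / 2) ⟨by linarith, by linarith⟩
  simp only at h9
  linarith

theorem next_zero {x : ℝ → ℝ} {x0' t0 t1 : ℝ} (hc : Continuous x) (hd : HasDerivAt x x0' t0)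
    (h0 : x t0 = 0) (hpos : 0 < x0') (h01 : t0 < t1) (h1 : x t1 = 0) :
    ∃ b, t0 < b ∧ b ≤ t1 ∧ x b = 0 ∧ ∀ t ∈ Ioo t0 b, 0 < x t := by
  obtain ⟨ε, hε, hr, -⟩ := sign_near hd h0 hpos
  have ht1 : t0 + ε ≤ t1 := by
    by_contra h
    push Not at h
    have := hr t1 h01 h
    linarith
  set K : Set ℝ := Icc (t0 + ε) t1 ∩ x ⁻¹' {0} with hK
  have hKc : IsCompact K := isCompact_Icc.inter_right (isClosed_singleton.preimage hc)
  have hKn : K.Nonempty := ⟨t1, ⟨ht1, le_rfl⟩, h1⟩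
  have hb : sInf K ∈ K := hKc.sInf_mem hKn
  refine ⟨sInf K, by linarith [hb.1.1], hb.1.2, hb.2, ?_⟩
  intro t ht
  by_contra hxt
  push Not at hxt
  have hmid : 0 < x (t0 + ε / 2) := hr _ (by linarith) (by linarith)
  have hte : t0 + ε ≤ t := by
    by_contra h
    push Not at h
    have := hr t ht.1 h
    linarith
  have h3 : (0:ℝ) ∈ x '' Icc (t0 + ε / 2) t :=
    intermediate_value_Icc' (by linarith) hc.continuousOn ⟨hxt, hmid.le⟩
  obtain ⟨s, hs, hs0⟩ := h3
  have hse : t0 + ε ≤ s := by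
    by_contra h
    push Not at h
    have := hr s (by linarith [hs.1]) h
    linarith
  have hsK : s ∈ K := ⟨⟨hse, by linarith [hs.2, ht.2, hb.1.2]⟩, hs0⟩
  have := csInf_le hKc.bddBelow hsK
  linarith [hs.2, ht.2]

theorem prev_zero {x : ℝ → ℝ} {x0' t0 t1 : ℝ} (hc : Continuous x) (hd : HasDerivAt x x0' t0)
    (h0 : x t0 = 0) (hpos : x0' < 0) (h01 : t1 < t0) (h1 : x t1 = 0) :
    ∃ a, a < t0 ∧ t1 ≤ a ∧ x a = 0 ∧ ∀ t ∈ Ioo a t0, 0 < x t := by
  have hd' : HasDerivAt (fun t => x (-t)) (-x0') (-t0) := by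
    have h2 : HasDerivAt x x0' (- (-t0)) := by simpa using hd
    have h3 := h2.comp (-t0) (hasDerivAt_neg (-t0))
    simpa [Function.comp_def] using h3
  obtain ⟨b, hb1, hb2, hb3, hb4⟩ := next_zero (x := fun t => x (-t)) (hc.comp continuous_neg) hd'
    (by simpa using h0) (by linarith) (t1 := -t1) (by linarith) (by simpa using h1)
  refine ⟨-b, by linarith, by linarith, hb3, ?_⟩
  intro t ht
  have := hb4 (-t) ⟨by linarith [ht.2], by linarith [ht.1]⟩
  simpa using this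

/-- A maximal arc of `{x > 0}`. -/
def RArc (x : ℝ → ℝ) (a b : ℝ) : Prop := a < b ∧ x a = 0 ∧ x b = 0 ∧ ∀ t ∈ Ioo a b, 0 < x t

theorem Rot.neg_neg {x y x' y' : ℝ → ℝ} (hr : Rot x y x' y') :
    Rot (fun t => - x t) (fun t => - y t) (fun t => - x' t) (fun t => - y' t) where
  hx t := (hr.hx t).neg
  hy t := (hr.hy t).neg
  pos t ht := by
    have := hr.neg t (by linarith)
    linarith
  neg t ht := by
    have := hr.pos t (by linarith)
    linarith
  cross t ht := by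
    have := hr.cross t (by linarith)
    simpa using this

theorem Meet.neg_neg {x y : ℝ → ℝ} (hm : Meet x y x y) :
    Meet (fun t => - x t) (fun t => - y t) (fun t => - x t) (fun t => - y t) := by
  intro t₁ t₂ h1 h2 t
  have := hm t₁ t₂ (by simpa using h1) (by simpa using h2) t
  simp [this.1, this.2]

theorem Rot.cx {x y x' y' : ℝ → ℝ} (hr : Rot x y x' y') : Continuous x :=
  continuous_iff_continuousAt.2 fun t => (hr.hx t).continuousAt

theorem Rot.cy {x y x' y' : ℝ → ℝ} (hr : Rot x y x' y') : Continuous y :=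
  continuous_iff_continuousAt.2 fun t => (hr.hy t).continuousAt

theorem RArc.facts {x y x' y' : ℝ → ℝ} (hr : Rot x y x' y') {a b : ℝ} (h : RArc x a b) :
    StrictMonoOn y (Icc a b) ∧ y a < 0 ∧ 0 < y b := by
  obtain ⟨hab, ha, hb, hpos⟩ := h
  refine ⟨?_, ?_, ?_⟩
  · apply strictMonoOn_of_deriv_pos (convex_Icc a b) hr.cy.continuousOn
    intro t ht
    rw [interior_Icc] at ht
    rw [(hr.hy t).deriv]
    exact hr.pos t (hpos t ht)
  · by_contra hya
    push Not at hya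
    have h1 := hr.cross a ha
    have h2 : x' a < 0 := by
      by_contra h3
      push Not at h3
      have := mul_nonneg h3 hya
      linarith
    obtain ⟨ε, hε, h4, -⟩ := sign_near (hr.hx a).neg (by simp [ha]) (by linarith : 0 < - x' a)
    have h5 : (0:ℝ) < min ε (b - a) / 2 := by
      have := lt_min hε (by linarith : (0:ℝ) < b - a); linarith
    have h6 : min ε (b - a) ≤ ε := min_le_left _ _
    have h7 : min ε (b - a) ≤ b - a := min_le_right _ _
    have h8 := h4 (a + min ε (b - a) / 2) (by linarith) (by linarith)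
    have h9 := hpos (a + min ε (b - a) / 2) ⟨by linarith, by linarith⟩
    simp only [Pi.neg_apply] at h8
    linarith
  · by_contra hyb
    push Not at hyb
    have h1 := hr.cross b hb
    have h2 : 0 < x' b := by
      by_contra h3
      push Not at h3
      have := mul_nonneg_of_nonpos_of_nonpos h3 hyb
      linarith
    obtain ⟨ε, hε, -, h4⟩ := sign_near (hr.hx b) hb h2
    have h5 : (0:ℝ) < min ε (b - a) / 2 := by
      have := lt_min hε (by linarith : (0:ℝ) < b - a); linarith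
    have h6 : min ε (b - a) ≤ ε := min_le_left _ _
    have h7 : min ε (b - a) ≤ b - a := min_le_right _ _
    have h8 := h4 (b - min ε (b - a) / 2) (by linarith) (by linarith)
    have h9 := hpos (b - min ε (b - a) / 2) ⟨by linarith, by linarith⟩
    linarith

/-- Inverse of an increasing continuous function on an interval. -/
theorem exists_inv {y : ℝ → ℝ} (hc : Continuous y) {a b : ℝ} (hab : a < b)
    (hm : StrictMonoOn y (Icc a b)) : ∃ τ : ℝ → ℝ, Continuous τ ∧
      (∀ w ∈ Icc (y a) (y b), τ w ∈ Icc a b ∧ y (τ w) = w) ∧ (∀ t ∈ Icc a b, τ (y t) = t) ∧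
      (∀ w ∈ Ioo (y a) (y b), τ w ∈ Ioo a b) := by
  have hyab : y a < y b := hm ⟨le_rfl, hab.le⟩ ⟨hab.le, le_rfl⟩ hab
  have hmaps : ∀ t ∈ Icc a b, y t ∈ Icc (y a) (y b) := fun t ht =>
    ⟨hm.monotoneOn ⟨le_rfl, hab.le⟩ ht ht.1, hm.monotoneOn ht ⟨hab.le, le_rfl⟩ ht.2⟩
  let F : Icc a b → Icc (y a) (y b) := fun t => ⟨y t, hmaps t t.2⟩
  have hF : StrictMono F := fun s t hst => by
    have := hm s.2 t.2 hst
    exact this
  have hsurj : Function.Surjective F := by
    rintro ⟨w, hw⟩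
    obtain ⟨t, ht, htw⟩ := intermediate_value_Icc hab.le hc.continuousOn hw
    exact ⟨⟨t, ht⟩, Subtype.ext htw⟩
  let e := StrictMono.orderIsoOfSurjective F hF hsurj
  have he : ∀ t, e t = F t := fun t => rfl
  have hinv : ∀ w ∈ Icc (y a) (y b), ((e.symm (projIcc (y a) (y b) hyab.le w) : Icc a b) : ℝ) ∈
      Icc a b ∧ y ((e.symm (projIcc (y a) (y b) hyab.le w) : Icc a b) : ℝ) = w := by
    intro w hw
    refine ⟨(e.symm (projIcc (y a) (y b) hyab.le w)).2, ?_⟩
    have h1 : F (e.symm (projIcc (y a) (y b) hyab.le w)) = projIcc (y a) (y b) hyab.le w := by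
      rw [← he, OrderIso.apply_symm_apply]
    have h2 := congrArg Subtype.val h1
    rw [projIcc_of_mem hyab.le hw] at h2
    rw [projIcc_of_mem hyab.le hw]
    exact h2
  refine ⟨fun w => (e.symm (projIcc (y a) (y b) hyab.le w) : Icc a b), ?_, hinv, ?_, ?_⟩
  · exact continuous_subtype_val.comp (e.symm.continuous.comp continuous_projIcc)
  · intro t ht
    have h1 := hinv (y t) (hmaps t ht)
    exact hm.injOn h1.1 ht h1.2
  · intro w hw
    have h1 := hinv w ⟨hw.1.le, hw.2.le⟩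
    refine ⟨lt_of_le_of_ne h1.1.1 ?_, lt_of_le_of_ne h1.1.2 ?_⟩
    · intro h2
      have h3 := h1.2
      simp only at h2
      rw [← h2] at h3
      linarith [hw.1]
    · intro h2
      have h3 := h1.2
      simp only at h2
      rw [h2] at h3
      linarith [hw.2]

/-- Comparison of two right arcs. -/
theorem RArc.compare {x y x' y' : ℝ → ℝ} (hr : Rot x y x' y') (hm : Meet x y x y)
    {a b a' b' : ℝ} (h : RArc x a b) (h' : RArc x a' b') (hle : y a ≤ y a') : y b' ≤ y b := by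
  obtain ⟨hs, hya, hyb⟩ := h.facts hr
  obtain ⟨hs', hya', hyb'⟩ := h'.facts hr
  obtain ⟨hab, ha, hb, hpos⟩ := h
  obtain ⟨hab', ha', hb', hpos'⟩ := h'
  by_contra hlt
  push Not at hlt
  obtain ⟨τ, hτc, hτ1, hτ2, hτ3⟩ := exists_inv hr.cy hab hs
  obtain ⟨σ, hσc, hσ1, hσ2, hσ3⟩ := exists_inv hr.cy hab' hs'
  have huv : y a' ≤ y b := by linarith
  have hD : ContinuousOn (fun w => x (τ w) - x (σ w)) (Icc (y a') (y b)) :=
    ((hr.cx.comp hτc).sub (hr.cx.comp hσc)).continuousOn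
  have hu : 0 ≤ x (τ (y a')) - x (σ (y a')) := by
    rw [hσ2 a' ⟨le_rfl, hab'.le⟩, ha', sub_zero]
    have h1 := (hτ1 (y a') ⟨hle, huv⟩).1
    rcases eq_or_lt_of_le h1.1 with h2 | h2
    · rw [← h2, ha]
    · rcases eq_or_lt_of_le h1.2 with h3 | h3
      · rw [h3, hb]
      · exact (hpos _ ⟨h2, h3⟩).le
  have hv : x (τ (y b)) - x (σ (y b)) < 0 := by
    rw [hτ2 b ⟨hab.le, le_rfl⟩, hb, zero_sub]
    have h1 := hpos' _ (hσ3 (y b) ⟨by linarith, hlt⟩)
    linarith
  obtain ⟨w, hw, hw0⟩ := intermediate_value_Icc' huv hD ⟨hv.le, hu⟩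
  have hwne : w ≠ y b := by
    rintro rfl
    simp only at hw0
    linarith
  have hwlt : w < y b := lt_of_le_of_ne hw.2 hwne
  have e1 := hτ1 w ⟨by linarith [hw.1], hw.2⟩
  have e2 := hσ1 w ⟨hw.1, by linarith⟩
  have hx12 : x (τ w) = x (σ w) := by simp only at hw0; linarith
  have hM := hm (τ w) (σ w) hx12 (by rw [e1.2, e2.2])
  have hτlt : τ w < b := by
    refine lt_of_le_of_ne e1.1.2 ?_
    intro h2
    have h3 := e1.2
    rw [h2] at h3
    exact hwne h3.symm
  have hσlt : σ w < b' := by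
    refine lt_of_le_of_ne e2.1.2 ?_
    intro h2
    have h3 := e2.2
    rw [h2] at h3
    linarith
  -- compare times to the next zero
  have h5 := hM (b - τ w)
  have h6 := hM (b' - σ w)
  rw [show τ w + (b - τ w) = b by ring] at h5
  rw [show σ w + (b' - σ w) = b' by ring] at h6
  have h7 : b' ≤ σ w + (b - τ w) := by
    by_contra h8
    push Not at h8
    have := hpos' (σ w + (b - τ w)) ⟨by linarith [e2.1.1], h8⟩
    linarith [h5.1]
  have h8 : b ≤ τ w + (b' - σ w) := by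
    by_contra h9
    push Not at h9
    have := hpos (τ w + (b' - σ w)) ⟨by linarith [e1.1.1], h9⟩
    linarith [h6.1]
  have h9 : σ w + (b - τ w) = b' := by linarith
  rw [h9] at h5
  linarith [h5.2]

theorem exists_min_periodic {y : ℝ → ℝ} (hc : Continuous y) {T : ℝ} (hT : 0 < T)
    (hyp : ∀ t, y (t + T) = y t) : ∃ t0, ∀ t, y t0 ≤ y t := by
  obtain ⟨t0, -, h0⟩ := isCompact_Icc.exists_isMinOn (s := Icc (0:ℝ) T) ⟨0, le_rfl, hT.le⟩
    hc.continuousOn
  refine ⟨t0, fun t => ?_⟩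
  have hper : Function.Periodic y T := hyp
  obtain ⟨s, hs, hst⟩ := hper.exists_mem_Ico₀ hT t
  rw [hst]
  exact h0 ⟨hs.1, hs.2.le⟩

/-- A right arc from a minimum point of `y`. -/
theorem arc_of_min {x y x' y' : ℝ → ℝ} (hr : Rot x y x' y') {T : ℝ} (hT : 0 < T)
    (hxp : ∀ t, x (t + T) = x t) {t0 : ℝ} (h0 : ∀ t, y t0 ≤ y t) :
    x t0 = 0 ∧ (∃ b, RArc x t0 b) ∧ ∃ a, RArc (fun t => - x t) a t0 := by
  have hx0 : x t0 = 0 := by
    have hloc : IsLocalMin y t0 := Filter.Eventually.of_forall h0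
    have h1 : y' t0 = 0 := hloc.hasDerivAt_eq_zero (hr.hy t0)
    rcases lt_trichotomy (x t0) 0 with h | h | h
    · have := hr.neg t0 h; linarith
    · exact h
    · have := hr.pos t0 h; linarith
  have hcr := hr.cross t0 hx0
  have hxT : x (t0 + T) = 0 := by rw [hxp, hx0]
  have hxT' : x (t0 - T) = 0 := by
    have := hxp (t0 - T)
    rw [sub_add_cancel] at this
    rw [← this, hx0]
  have hx' : 0 < x' t0 := by
    by_contra h1
    push Not at h1
    have h2 : x' t0 < 0 := by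
      rcases eq_or_lt_of_le h1 with h | h
      · rw [h] at hcr; simp at hcr
      · exact h
    obtain ⟨b, hb1, hb2, hb3, hb4⟩ := next_zero hr.neg_neg.cx (hr.hx t0).neg
      (by simp [hx0]) (by linarith) (by linarith : t0 < t0 + T) (by simp [hxT])
    have h3 := (RArc.facts hr.neg_neg (a := t0) (b := b) ⟨hb1, by simp [hx0], hb3, hb4⟩)
    have h4 := h0 b
    linarith [h3.2.1, h3.2.2]
  refine ⟨hx0, ?_, ?_⟩
  · obtain ⟨b, hb1, hb2, hb3, hb4⟩ := next_zero hr.cx (hr.hx t0) hx0 hx'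
      (by linarith : t0 < t0 + T) hxT
    exact ⟨b, hb1, hx0, hb3, hb4⟩
  · obtain ⟨a, ha1, ha2, ha3, ha4⟩ := prev_zero hr.neg_neg.cx (hr.hx t0).neg (by simp [hx0])
      (by linarith) (by linarith : t0 - T < t0) (by simp [hxT'])
    exact ⟨a, ha1, ha3, by simp [hx0], ha4⟩

/-- The graph of a right arc. -/
theorem graph_of_arc {f g : ℝ → ℝ → ℝ} {x y : ℝ → ℝ}
    (hr : Rot x y (fun t => f (x t) (y t)) (fun t => g (x t) (y t))) {a b : ℝ}
    (h : RArc x a b) : ∃ φ : ℝ → ℝ, Continuous φ ∧ φ (y a) = 0 ∧ φ (y b) = 0 ∧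
      (∀ v ∈ Ioo (y a) (y b), 0 < φ v) ∧
      (∀ v ∈ Ioo (y a) (y b), HasDerivAt φ (f (φ v) v / g (φ v) v) v) ∧
      (∀ v ∈ Ioo (y a) (y b), 0 < g (φ v) v) ∧
      (∀ t ∈ Icc a b, y t ∈ Icc (y a) (y b) ∧ φ (y t) = x t) ∧
      (∀ v ∈ Icc (y a) (y b), ∃ t ∈ Icc a b, y t = v ∧ x t = φ v) := by
  obtain ⟨hs, hya, hyb⟩ := h.facts hr
  obtain ⟨hab, ha, hb, hpos⟩ := h
  obtain ⟨τ, hτc, hτ1, hτ2, hτ3⟩ := exists_inv hr.cy hab hs
  refine ⟨fun v => x (τ v), hr.cx.comp hτc, ?_, ?_, ?_, ?_, ?_, ?_, ?_⟩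
  · simp only; rw [hτ2 a ⟨le_rfl, hab.le⟩, ha]
  · simp only; rw [hτ2 b ⟨hab.le, le_rfl⟩, hb]
  · intro v hv
    exact hpos _ (hτ3 v hv)
  · intro v hv
    have hyv : y (τ v) = v := (hτ1 v ⟨hv.1.le, hv.2.le⟩).2
    have hg : 0 < g (x (τ v)) (y (τ v)) := hr.pos _ (hpos _ (hτ3 v hv))
    have hd : HasDerivAt τ (g (x (τ v)) (y (τ v)))⁻¹ v := by
      refine HasDerivAt.of_local_left_inverse hτc.continuousAt (hr.hy (τ v)) hg.ne' ?_
      filter_upwards [isOpen_Ioo.mem_nhds hv] with w hw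
      exact (hτ1 w ⟨hw.1.le, hw.2.le⟩).2
    have hd2 := (hr.hx (τ v)).comp v hd
    simp only [hyv] at hd2 ⊢
    rw [div_eq_mul_inv]
    exact hd2
  · intro v hv
    have hyv : y (τ v) = v := (hτ1 v ⟨hv.1.le, hv.2.le⟩).2
    have hg : 0 < g (x (τ v)) (y (τ v)) := hr.pos _ (hpos _ (hτ3 v hv))
    rw [hyv] at hg
    exact hg
  · intro t ht
    refine ⟨⟨hs.monotoneOn ⟨le_rfl, hab.le⟩ ht ht.1, hs.monotoneOn ht ⟨hab.le, le_rfl⟩ ht.2⟩, ?_⟩
    simp only
    rw [hτ2 t ht]
  · intro v hv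
    exact ⟨τ v, (hτ1 v hv).1, (hτ1 v hv).2, rfl⟩

/-- job C2: structure of a periodic rotating curve -/
theorem exists_oval {f g : ℝ → ℝ → ℝ} {x y : ℝ → ℝ} {T : ℝ} (hT : 0 < T)
    (hxp : ∀ t, x (t + T) = x t) (hyp : ∀ t, y (t + T) = y t)
    (hr : Rot x y (fun t => f (x t) (y t)) (fun t => g (x t) (y t))) (hm : Meet x y x y) :
    ∃ c d φ ψ, IsOval f g (range fun t => (x t, y t)) c d φ ψ := by
  obtain ⟨t0, h0⟩ := exists_min_periodic hr.cy hT hyp
  obtain ⟨s1, hs1⟩ := exists_min_periodic hr.neg_neg.cy hT (fun t => by simp [hyp])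
  obtain ⟨hx0, ⟨t1, hR⟩, ⟨s0, hL⟩⟩ := arc_of_min hr hT hxp h0
  obtain ⟨hxs1, -, ⟨a', hR'⟩⟩ := arc_of_min hr.neg_neg hT (fun t => by simp [hxp]) hs1
  simp only [_root_.neg_neg] at hR'
  -- maximum at `t1`
  have hmax : ∀ t, y t ≤ y t1 := by
    have h1 : y s1 ≤ y t1 := RArc.compare hr hm hR hR' (h0 a')
    intro t
    have := hs1 t
    linarith
  -- the left arc from `t1`
  obtain ⟨hxt1, ⟨t2, hL2⟩, -⟩ := arc_of_min hr.neg_neg hT (fun t => by simp [hxp])
    (t0 := t1) (fun t => by have := hmax t; linarith)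
  have hmin2 : y t2 = y t0 := by
    have h1 := RArc.compare hr.neg_neg hm.neg_neg hL2 hL (by have := hmax s0; linarith)
    have h2 := h0 t2
    linarith
  obtain ⟨φ, hφc, hφa, hφb, hφpos, hφd, hφg, hφ1, hφ2⟩ := graph_of_arc hr hR
  -- the left arc as a right arc of the reflected curve
  have hr2 : Rot (fun t => - x t) (fun t => - y t)
      (fun t => (fun u v => - f (-u) (-v)) (- x t) (- y t))
      (fun t => (fun u v => - g (-u) (-v)) (- x t) (- y t)) := by
    have := hr.neg_neg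
    simpa using this
  obtain ⟨ψ, hψc, hψa, hψb, hψpos, hψd, hψg, hψ1, hψ2⟩ := graph_of_arc
    (f := fun u v => - f (-u) (-v)) (g := fun u v => - g (-u) (-v)) (x := fun t => - x t)
    (y := fun t => - y t) hr2 hL2
  have hcd := hR.facts hr
  refine ⟨y t0, y t1, φ, fun v => - ψ (-v), ?_⟩
  rw [hmin2] at hψb hψpos hψd hψg hψ1 hψ2
  have hxt1' : x t1 = 0 := hR.2.2.1
  have hxt2 : x t2 = 0 := by
    have := hL2.2.2.1
    linarith
  refine
    { c_neg := hcd.2.1
      d_pos := hcd.2.2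
      φ_cont := hφc.continuousOn
      ψ_cont := ((hψc.comp continuous_neg).neg).continuousOn
      φ_c := hφa
      φ_d := hφb
      ψ_c := by simp [hψb]
      ψ_d := by simp [hψa]
      φ_pos := hφpos
      ψ_neg := ?_
      φ_deriv := hφd
      ψ_deriv := ?_
      g_pos := hφg
      g_neg := ?_
      eq := ?_ }
  · intro v hv
    have := hψpos (-v) ⟨by linarith [hv.2], by linarith [hv.1]⟩
    linarith
  · intro v hv
    have h1 := hψd (-v) ⟨by linarith [hv.2], by linarith [hv.1]⟩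
    have h2 := (h1.comp v (hasDerivAt_neg v)).neg
    have e1 : f (-ψ (-v)) v / g (-ψ (-v)) v =
        -((fun u v => - f (-u) (-v)) (ψ (-v)) (-v) / (fun u v => - g (-u) (-v)) (ψ (-v)) (-v) *
          (-1)) := by
      simp only [_root_.neg_neg, neg_div_neg_eq]
      ring
    simp only at e1 ⊢
    rw [e1]
    exact h2
  · intro v hv
    have := hψg (-v) ⟨by linarith [hv.2], by linarith [hv.1]⟩
    simp only [_root_.neg_neg] at this
    linarith
  · -- the range
    have hlt01 : t0 < t1 := hR.1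
    have hlt12 : t1 < t2 := hL2.1
    have hM := hm t2 t0 (by rw [hxt2, hx0]) hmin2
    have hper : Function.Periodic (fun t => (x t, y t)) (t2 - t0) := by
      intro t
      have h1 := hM (t - t0)
      rw [show t2 + (t - t0) = t + (t2 - t0) by ring, show t0 + (t - t0) = t by ring] at h1
      simp [h1.1, h1.2]
    have himg : (fun t => (x t, y t)) '' Icc t0 (t0 + (t2 - t0)) = range fun t => (x t, y t) :=
      hper.image_Icc (by linarith) t0
    rw [← himg, show t0 + (t2 - t0) = t2 by ring]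
    ext ⟨u, v⟩
    simp only [mem_image, Prod.mk.injEq, mem_ofPred_eq]
    constructor
    · rintro ⟨t, ht, rfl, rfl⟩
      rcases le_total t t1 with h | h
      · have h1 := hφ1 t ⟨ht.1, h⟩
        exact ⟨h1.1, Or.inl h1.2.symm⟩
      · have h1 := hψ1 t ⟨h, ht.2⟩
        refine ⟨⟨by linarith [h1.1.2], by linarith [h1.1.1]⟩, Or.inr ?_⟩
        rw [h1.2]; ring
    · rintro ⟨hv, h | h⟩
      · obtain ⟨t, ht, h1, h2⟩ := hφ2 v hv
        exact ⟨t, ⟨ht.1, by linarith [ht.2]⟩, by rw [h2, h], h1⟩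
      · obtain ⟨t, ht, h1, h2⟩ := hψ2 (-v) ⟨by linarith [hv.2], by linarith [hv.1]⟩
        exact ⟨t, ⟨by linarith [ht.1], ht.2⟩, by rw [h, ← h2]; ring, by linarith⟩

end Pool.Agent.H.MP_732d27_an
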