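import Pool.Agent.H.MP_732d27_an.PerDefs
import Pool.Agent.H.MP_732d27_an.CurveA

namespace Pool.Agent.H.MP_732d27_an
open Set

theorem contDiff_field : ContDiff ℝ 1 (fun z : ℝ × ℝ => (fP z.1 z.2, z.1 * fL z.1 z.2)) := by
  unfold fP fL
  fun_prop

theorem PerSol.hasDerivAt {x y : ℝ → ℝ} {T : ℝ} (h : PerSol x y T) (t : ℝ) :
    HasDerivAt (fun t => (x t, y t)) (fP (x t) (y t), x t * fL (x t) (y t)) t :=
  (h.hx t).prodMk (h.hy t)

theorem PerSol.continuous {x y : ℝ → ℝ} {T : ℝ} (h : PerSol x y T) :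
    Continuous (fun t => (x t, y t)) :=
  continuous_iff_continuousAt.2 fun t => (h.hasDerivAt t).continuousAt

theorem PerSol.contx {x y : ℝ → ℝ} {T : ℝ} (h : PerSol x y T) : Continuous x :=
  continuous_iff_continuousAt.2 fun t => (h.hx t).continuousAt

theorem PerSol.conty {x y : ℝ → ℝ} {T : ℝ} (h : PerSol x y T) : Continuous y :=
  continuous_iff_continuousAt.2 fun t => (h.hy t).continuousAt

theorem PerSol.periodic {x y : ℝ → ℝ} {T : ℝ} (h : PerSol x y T) :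
    Function.Periodic (fun t => (x t, y t)) T := by
  intro t
  simp only [h.px t, h.py t]

theorem PerSol.isCompact {x y : ℝ → ℝ} {T : ℝ} (h : PerSol x y T) :
    IsCompact (range fun t => (x t, y t)) :=
  h.periodic.compact_of_continuous h.T_pos.ne' h.continuous

/-- uniqueness of bounded solutions -/
theorem unique_aux {f g : ℝ → ℝ × ℝ} {K : Set (ℝ × ℝ)} (hK : IsCompact K)
    (hf : ∀ t, HasDerivAt f (fP (f t).1 (f t).2, (f t).1 * fL (f t).1 (f t).2) t ∧ f t ∈ K)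
    (hg : ∀ t, HasDerivAt g (fP (g t).1 (g t).2, (g t).1 * fL (g t).1 (g t).2) t ∧ g t ∈ K)
    (h0 : f 0 = g 0) : f = g := by
  obtain ⟨L, hL⟩ := (contDiff_field.locallyLipschitz.locallyLipschitzOn (s := K)).exists_lipschitzOnWith_of_compact hK
  exact ODE_solution_unique_univ (v := fun _ z => (fP z.1 z.2, z.1 * fL z.1 z.2)) (s := fun _ => K)
    (t₀ := 0) (fun _ => hL) hf hg h0

/-- uniqueness of solutions: job B1 -/
theorem PerSol.meet {x₁ y₁ x₂ y₂ : ℝ → ℝ} {T₁ T₂ : ℝ} (h₁ : PerSol x₁ y₁ T₁) (h₂ : PerSol x₂ y₂ T₂) :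
    Meet x₁ y₁ x₂ y₂ := by
  intro t₁ t₂ hx hy t
  have hK := h₁.isCompact.union h₂.isCompact
  have key := unique_aux (f := fun s => (x₁ (t₁ + s), y₁ (t₁ + s)))
    (g := fun s => (x₂ (t₂ + s), y₂ (t₂ + s))) hK
    (fun s => ⟨((h₁.hx (t₁ + s)).comp_const_add t₁ s).prodMk ((h₁.hy (t₁ + s)).comp_const_add t₁ s),
      Or.inl ⟨t₁ + s, rfl⟩⟩)
    (fun s => ⟨((h₂.hx (t₂ + s)).comp_const_add t₂ s).prodMk ((h₂.hy (t₂ + s)).comp_const_add t₂ s),
      Or.inr ⟨t₂ + s, rfl⟩⟩)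
    (by simp [hx, hy])
  have := congrFun key t
  simp only [Prod.mk.injEq] at this
  exact this

/-- a periodic solution through an equilibrium is constant -/
theorem PerSol.not_zero {x y : ℝ → ℝ} {T : ℝ} (h : PerSol x y T) {a b : ℝ} (h1 : fP a b = 0)
    (h2 : a * fL a b = 0) (t : ℝ) : ¬ (x t = a ∧ y t = b) := by
  rintro ⟨hx, hy⟩
  have hK : IsCompact ((range fun t => (x t, y t)) ∪ {(a, b)}) := h.isCompact.union isCompact_singleton
  have key := unique_aux (f := fun s => (x (t + s), y (t + s))) (g := fun _ => (a, b)) hK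
    (fun s => ⟨((h.hx (t + s)).comp_const_add t s).prodMk ((h.hy (t + s)).comp_const_add t s),
      Or.inl ⟨t + s, rfl⟩⟩)
    (fun s => ⟨by simp only [h1, h2]; exact hasDerivAt_const s (a, b), Or.inr rfl⟩)
    (by simp [hx, hy])
  obtain ⟨t₁, t₂, hne⟩ := h.ne
  apply hne
  have e1 := congrFun key (t₁ - t)
  have e2 := congrFun key (t₂ - t)
  simp only [add_sub_cancel] at e1 e2
  rw [e1, e2]

/-- a non-constant periodic solution avoids the equilibria `(0,0)`, `(0,1)` -/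
theorem PerSol.not_equil {x y : ℝ → ℝ} {T : ℝ} (h : PerSol x y T) (t : ℝ) :
    ¬ (x t = 0 ∧ y t = 0) ∧ ¬ (x t = 0 ∧ y t = 1) :=
  ⟨h.not_zero (by simp [fP]) (by simp) t, h.not_zero (by simp [fP]) (by simp) t⟩

theorem PerSol.range_subset {x₁ y₁ x₂ y₂ : ℝ → ℝ} {T₁ T₂ : ℝ} (h₁ : PerSol x₁ y₁ T₁)
    (h₂ : PerSol x₂ y₂ T₂) {s₁ s₂ : ℝ} (h : (x₁ s₁, y₁ s₁) = (x₂ s₂, y₂ s₂)) :
    range (fun t => (x₁ t, y₁ t)) ⊆ range (fun t => (x₂ t, y₂ t)) := by
  rintro _ ⟨t, rfl⟩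
  simp only [Prod.mk.injEq] at h
  obtain ⟨e1, e2⟩ := h₁.meet h₂ s₁ s₂ h.1 h.2 (t - s₁)
  refine ⟨s₂ + (t - s₁), ?_⟩
  simp only [← e1, ← e2, add_sub_cancel]

theorem PerSol.range_eq_or_disjoint {x₁ y₁ x₂ y₂ : ℝ → ℝ} {T₁ T₂ : ℝ} (h₁ : PerSol x₁ y₁ T₁)
    (h₂ : PerSol x₂ y₂ T₂) :
    range (fun t => (x₁ t, y₁ t)) = range (fun t => (x₂ t, y₂ t)) ∨
      Disjoint (range fun t => (x₁ t, y₁ t)) (range fun t => (x₂ t, y₂ t)) := by
  by_cases hd : Disjoint (range fun t => (x₁ t, y₁ t)) (range fun t => (x₂ t, y₂ t))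
  · exact Or.inr hd
  · left
    rw [Set.not_disjoint_iff] at hd
    obtain ⟨_, ⟨s₁, rfl⟩, ⟨s₂, hs⟩⟩ := hd
    exact Subset.antisymm (h₁.range_subset h₂ (s₁ := s₁) (s₂ := s₂) hs.symm)
      (h₂.range_subset h₁ (s₁ := s₂) (s₂ := s₁) hs)

/-- every periodic orbit of Shi's field comes from a `PerSol` -/
theorem exists_perSol {C : Set (ℝ × ℝ)} (h : IsPeriodicOrbit shiField C) :
    ∃ x y T, PerSol x y T ∧ C = range (fun t => (x t, y t)) := by
  obtain ⟨γ, hγ, ⟨T, hT, hp⟩, ⟨t₁, t₂, hne⟩, hC⟩ := h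
  refine ⟨fun t => (γ t).1, fun t => (γ t).2, T, ⟨hT, ?_, ?_, ?_, ?_, t₁, t₂, ?_⟩, ?_⟩
  · intro t
    have h1 := hγ t
    rw [← Prod.mk.eta (p := γ t), shiField_eq] at h1
    exact (hasFDerivAt_fst.comp_hasDerivAt t h1)
  · intro t
    have h1 := hγ t
    rw [← Prod.mk.eta (p := γ t), shiField_eq] at h1
    exact (hasFDerivAt_snd.comp_hasDerivAt t h1)
  · intro t; simp only [hp]
  · intro t; simp only [hp]
  · simpa using hne
  · simpa using hC

theorem sign_of_ne_zero {h : ℝ → ℝ} (hc : Continuous h) (hne : ∀ t, h t ≠ 0) :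
    (∀ t, 0 < h t) ∨ (∀ t, h t < 0) := by
  by_contra hcon
  push Not at hcon
  obtain ⟨⟨a, ha⟩, ⟨b, hb⟩⟩ := hcon
  obtain ⟨t, ht⟩ := mem_range_of_exists_le_of_exists_ge hc ⟨a, ha⟩ ⟨b, hb⟩
  exact hne t ht

theorem pe_lt : pe < -24 := by norm_num [pe]

theorem fP_neg_of_fL {x y : ℝ} (h : fL x y = 0) : fP x y < 0 := by
  have hx : x = -1 - pe * y := by unfold fL at h; linarith
  have e : fP x y = (-10 * pe ^ 2 - pb * pe + 1) * y ^ 2 + (-20 * pe - pb - 1 - lam * pe) * y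
      + (-10 - lam) := by
    rw [hx]; unfold fP; ring
  have hA : -10 * pe ^ 2 - pb * pe + 1 < -6123 := by norm_num [pe, pb]
  have hB1 : -20 * pe - pb - 1 - lam * pe < 4941 / 10 := by norm_num [pe, pb, lam]
  have hB2 : 4939 / 10 < -20 * pe - pb - 1 - lam * pe := by norm_num [pe, pb, lam]
  have hC : -10 - lam < -999 / 100 := by norm_num [lam]
  rw [e]
  generalize -10 * pe ^ 2 - pb * pe + 1 = A at *
  generalize -20 * pe - pb - 1 - lam * pe = B at *
  generalize -10 - lam = C at *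
  nlinarith [sq_nonneg (y - 1 / 25), mul_nonneg (sub_nonneg.2 hA.le) (sq_nonneg y), sq_nonneg (y - B / (2 * 6123)),
    mul_pos (sub_pos.2 hB1) (sub_pos.2 hB2)]

/-- the line `1 + x + e y = 0` is transversal -/
theorem PerSol.fL_ne {x y : ℝ → ℝ} {T : ℝ} (h : PerSol x y T) :
    (∀ t, 0 < fL (x t) (y t)) ∨ (∀ t, fL (x t) (y t) < 0) := by
  have hd : ∀ t, HasDerivAt (fun t => fL (x t) (y t))
      (fP (x t) (y t) + pe * (x t * fL (x t) (y t))) t := by
    intro t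
    unfold fL
    exact ((h.hx t).const_add 1).add ((h.hy t).const_mul pe)
  have hc : Continuous (fun t => fL (x t) (y t)) :=
    continuous_iff_continuousAt.2 fun t => (hd t).continuousAt
  refine sign_of_ne_zero hc (periodic_ne_zero h.T_pos (fun t => ?_) hd (fun t ht => ?_))
  · simp only [h.px t, h.py t]
  · rw [ht, mul_zero, mul_zero, add_zero]
    exact fP_neg_of_fL ht

theorem PerSol.rotB {x y : ℝ → ℝ} {T : ℝ} (h : PerSol x y T) (hL : ∀ t, 0 < fL (x t) (y t)) :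
    Rot x y (fun t => fP (x t) (y t)) (fun t => x t * fL (x t) (y t)) where
  hx := h.hx
  hy := h.hy
  pos t ht := mul_pos ht (hL t)
  neg t ht := mul_neg_of_neg_of_pos ht (hL t)
  cross t ht := by
    have h1 := hL t
    have h2 := (h.not_equil t).1
    have h3 : y t ≠ 0 := fun h0 => h2 ⟨ht, h0⟩
    have h4 := pe_lt
    have h5 : y t < 1 := by
      by_contra hc
      push Not at hc
      unfold fL at h1
      rw [ht] at h1
      nlinarith
    have h6 : 0 < y t ^ 2 := by positivity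
    have e : fP (x t) (y t) * y t = y t ^ 2 * (y t - 1) := by rw [ht]; unfold fP; ring
    rw [e]
    nlinarith

theorem PerSol.ovalB {x y : ℝ → ℝ} {T : ℝ} (h : PerSol x y T) (hL : ∀ t, 0 < fL (x t) (y t)) :
    ∃ c d φ ψ, IsOval fP (fun x y => x * fL x y) (range fun t => (x t, y t)) c d φ ψ :=
  exists_oval h.T_pos h.px h.py (h.rotB hL) (h.meet h)

theorem PerSol.rotA {x y : ℝ → ℝ} {T : ℝ} (h : PerSol x y T) (hL : ∀ t, fL (x t) (y t) < 0) :
    Rot (fun t => -x t) (fun t => y t - 1) (fun t => -fP (x t) (y t))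
      (fun t => x t * fL (x t) (y t)) where
  hx t := (h.hx t).neg
  hy t := (h.hy t).sub_const 1
  pos t ht := mul_pos_of_neg_of_neg (by simpa using ht) (hL t)
  neg t ht := mul_neg_of_pos_of_neg (by simpa using ht) (hL t)
  cross t ht := by
    have hx0 : x t = 0 := by simpa using ht
    have h1 := hL t
    have h2 := (h.not_equil t).2
    have h3 : y t - 1 ≠ 0 := fun h0 => h2 ⟨hx0, by linarith⟩
    have h4 := pe_lt
    have h5 : 0 < y t := by
      by_contra hc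
      push Not at hc
      unfold fL at h1
      rw [hx0] at h1
      nlinarith
    have h6 : 0 < (y t - 1) ^ 2 := by positivity
    have e : -fP (x t) (y t) * (y t - 1) = -(y t * (y t - 1) ^ 2) := by
      rw [hx0]; unfold fP; ring
    rw [e]
    nlinarith [mul_pos h5 h6]

theorem PerSol.ovalA {x y : ℝ → ℝ} {T : ℝ} (h : PerSol x y T) (hL : ∀ t, fL (x t) (y t) < 0) :
    ∃ c d φ ψ, IsOval (fun x y => -fP (-x) (y + 1)) (fun x y => -x * fL (-x) (y + 1))
      (range fun t => (-x t, y t - 1)) c d φ ψ := by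
  have hr := h.rotA hL
  refine exists_oval (f := fun x y => -fP (-x) (y + 1)) (g := fun x y => -x * fL (-x) (y + 1))
    (x := fun t => -x t) (y := fun t => y t - 1) h.T_pos (fun t => by simp only [h.px t])
    (fun t => by simp only [h.py t]) ?_ ?_
  · simpa only [neg_neg, sub_add_cancel] using hr
  · intro t₁ t₂ h1 h2 t
    have h1' : x t₁ = x t₂ := by simpa using h1
    have h2' : y t₁ = y t₂ := by simpa using h2
    obtain ⟨e1, e2⟩ := h.meet h t₁ t₂ h1' h2' t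
    simp only [e1, e2, and_self]

theorem PerSol.exists_min {x y : ℝ → ℝ} {T : ℝ} (h : PerSol x y T) : ∃ t₀, ∀ t, y t₀ ≤ y t := by
  have hp : Function.Periodic y T := h.py
  have hK := hp.compact_of_continuous h.T_pos.ne' h.conty
  obtain ⟨m, ⟨t₀, ht₀⟩, hm⟩ := hK.exists_isLeast (range_nonempty y)
  exact ⟨t₀, fun t => ht₀ ▸ hm ⟨t, rfl⟩⟩

theorem PerSol.exists_max {x y : ℝ → ℝ} {T : ℝ} (h : PerSol x y T) : ∃ t₀, ∀ t, y t ≤ y t₀ := by
  have hp : Function.Periodic y T := h.py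
  have hK := hp.compact_of_continuous h.T_pos.ne' h.conty
  obtain ⟨m, ⟨t₀, ht₀⟩, hm⟩ := hK.exists_isGreatest (range_nonempty y)
  exact ⟨t₀, fun t => ht₀ ▸ hm ⟨t, rfl⟩⟩

theorem regA_aux {x y : ℝ} (h : y - 65 / 1000 * x - 396 / 10000 = 0) :
    -(x * fL x y - 65 / 1000 * fP x y) < 0 := by
  have hy : y = 396 / 10000 + 65 / 1000 * x := by linarith
  have e : x * fL x y - 65 / 1000 * fP x y =
      (1 + 65 / 1000 * pe + 65 / 100 - (65 / 1000) ^ 2 * pb - (65 / 1000) ^ 3) * x ^ 2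
      + (1 + 396 / 10000 * pe - 65 / 1000 * lam + (65 / 1000) ^ 2 - 65 / 1000 * (396 / 10000) * pb
        - 2 * (65 / 1000) ^ 2 * (396 / 10000)) * x
      + (65 / 1000 * (396 / 10000) - 65 / 1000 * (396 / 10000) ^ 2) := by
    rw [hy]; unfold fP fL; ring
  have hA : 3600 / 1000000 < 1 + 65 / 1000 * pe + 65 / 100 - (65 / 1000) ^ 2 * pb - (65 / 1000) ^ 3 := by
    norm_num [pe, pb]
  have hB1 : 1 + 396 / 10000 * pe - 65 / 1000 * lam + (65 / 1000) ^ 2 - 65 / 1000 * (396 / 10000) * pb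
        - 2 * (65 / 1000) ^ 2 * (396 / 10000) < 103 / 100000 := by norm_num [pe, pb, lam]
  have hB2 : 101 / 100000 < 1 + 396 / 10000 * pe - 65 / 1000 * lam + (65 / 1000) ^ 2 - 65 / 1000 * (396 / 10000) * pb
        - 2 * (65 / 1000) ^ 2 * (396 / 10000) := by norm_num [pe, pb, lam]
  have hC : (247 / 100000 : ℝ) < 65 / 1000 * (396 / 10000) - 65 / 1000 * (396 / 10000) ^ 2 := by norm_num
  rw [e]
  generalize 1 + 65 / 1000 * pe + 65 / 100 - (65 / 1000) ^ 2 * pb - (65 / 1000) ^ 3 = A at *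
  generalize 1 + 396 / 10000 * pe - 65 / 1000 * lam + (65 / 1000) ^ 2 - 65 / 1000 * (396 / 10000) * pb
        - 2 * (65 / 1000) ^ 2 * (396 / 10000) = B at *
  generalize (65 / 1000 * (396 / 10000) - 65 / 1000 * (396 / 10000) ^ 2 : ℝ) = C at *
  have h1 : |B| ≤ 103 / 100000 := by rw [abs_le]; constructor <;> linarith
  have h2 : |B * x| ≤ 103 / 100000 * |x| := by
    rw [abs_mul]; exact mul_le_mul_of_nonneg_right h1 (abs_nonneg x)
  have h3 := neg_abs_le (B * x)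
  have h4 : 3600 / 1000000 * x ^ 2 ≤ A * x ^ 2 := mul_le_mul_of_nonneg_right hA.le (sq_nonneg x)
  have h5 := sq_abs x
  nlinarith [sq_nonneg (|x| - 1 / 7)]

/-- where the periodic orbits of the `A` region live -/
theorem PerSol.regionA {x y : ℝ → ℝ} {T : ℝ} (h : PerSol x y T) (hL : ∀ t, fL (x t) (y t) < 0)
    (t : ℝ) : 1 + pe * y t < 0 ∧ 396 / 10000 + 65 / 1000 * x t < y t := by
  obtain ⟨t₀, ht₀⟩ := h.exists_min
  have hpe := pe_lt
  have hmin : IsLocalMin y t₀ := Filter.Eventually.of_forall ht₀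
  have h0 := hmin.hasDerivAt_eq_zero (h.hy t₀)
  have hx0 : x t₀ = 0 := by
    rcases mul_eq_zero.1 h0 with h1 | h1
    · exact h1
    · exact absurd h1 (hL t₀).ne
  have h1 := hL t₀
  unfold fL at h1
  rw [hx0] at h1
  have h2 := ht₀ t
  refine ⟨by nlinarith, ?_⟩
  have hd : ∀ t, HasDerivAt (fun t => -(y t - 65 / 1000 * x t - 396 / 10000))
      (-(x t * fL (x t) (y t) - 65 / 1000 * fP (x t) (y t))) t := by
    intro t
    exact (((h.hy t).sub ((h.hx t).const_mul (65 / 1000))).sub_const (396 / 10000)).neg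
  have hc : Continuous (fun t => -(y t - 65 / 1000 * x t - 396 / 10000)) :=
    continuous_iff_continuousAt.2 fun t => (hd t).continuousAt
  have hne := periodic_ne_zero h.T_pos (h := fun t => -(y t - 65 / 1000 * x t - 396 / 10000))
    (fun t => by simp only [h.px t, h.py t]) hd (fun t ht => regA_aux (neg_eq_zero.1 ht))
  rcases sign_of_ne_zero hc hne with hs | hs
  · exfalso
    have := hs t₀
    rw [hx0] at this
    have h3 : pe > -25 - 1 / 1000 := by norm_num [pe]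
    nlinarith
  · have := hs t
    linarith

/-- where the periodic orbits of the `B` region live -/
theorem PerSol.regionB {x y : ℝ → ℝ} {T : ℝ} (h : PerSol x y T) (hL : ∀ t, 0 < fL (x t) (y t))
    (t : ℝ) : 0 < 1 + pe * y t := by
  obtain ⟨t₀, ht₀⟩ := h.exists_max
  have hpe := pe_lt
  have hmax : IsLocalMax y t₀ := Filter.Eventually.of_forall ht₀
  have h0 := hmax.hasDerivAt_eq_zero (h.hy t₀)
  have hx0 : x t₀ = 0 := by
    rcases mul_eq_zero.1 h0 with h1 | h1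
    · exact h1
    · exact absurd h1 (hL t₀).ne'
  have h1 := hL t₀
  unfold fL at h1
  rw [hx0] at h1
  have h2 := ht₀ t
  nlinarith

end Pool.Agent.H.MP_732d27_an
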