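import Pool.Agent.H.MP_732d27_an.CurveDefs

/-!
# Ovals: nested ovals, and the Dulac argument in the annulus between two ovals
-/

namespace Pool.Agent.H.MP_732d27_an

open Set

theorem pos_of_ne_zero_Icc {h : ℝ → ℝ} {a b : ℝ} (hab : a ≤ b) (hc : ContinuousOn h (Icc a b))
    (h0 : 0 < h a) (hne : ∀ v ∈ Icc a b, h v ≠ 0) : 0 < h b := by
  by_contra hb
  have hb' : h b ≤ 0 := not_lt.1 hb
  have h1 := intermediate_value_Icc' hab hc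
  obtain ⟨v, hv, hv0⟩ := h1 ⟨hb', h0.le⟩
  exact hne v hv hv0

theorem IsOval.mem_φ {f g : ℝ → ℝ → ℝ} {C : Set (ℝ × ℝ)} {c d : ℝ} {φ ψ : ℝ → ℝ}
    (h : IsOval f g C c d φ ψ) {v : ℝ} (hv : v ∈ Icc c d) : (φ v, v) ∈ C := by
  rw [h.eq]; exact ⟨hv, Or.inl rfl⟩

theorem IsOval.mem_ψ {f g : ℝ → ℝ → ℝ} {C : Set (ℝ × ℝ)} {c d : ℝ} {φ ψ : ℝ → ℝ}
    (h : IsOval f g C c d φ ψ) {v : ℝ} (hv : v ∈ Icc c d) : (ψ v, v) ∈ C := by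
  rw [h.eq]; exact ⟨hv, Or.inr rfl⟩

theorem IsOval.c_lt_d {f g : ℝ → ℝ → ℝ} {C : Set (ℝ × ℝ)} {c d : ℝ} {φ ψ : ℝ → ℝ}
    (h : IsOval f g C c d φ ψ) : c < d := h.c_neg.trans h.d_pos

theorem IsOval.φ_nonneg {f g : ℝ → ℝ → ℝ} {C : Set (ℝ × ℝ)} {c d : ℝ} {φ ψ : ℝ → ℝ}
    (h : IsOval f g C c d φ ψ) {v : ℝ} (hv : v ∈ Icc c d) : 0 ≤ φ v := by
  rcases eq_or_lt_of_le hv.1 with h1 | h1
  · rw [← h1, h.φ_c]
  · rcases eq_or_lt_of_le hv.2 with h2 | h2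
    · rw [h2, h.φ_d]
    · exact (h.φ_pos v ⟨h1, h2⟩).le

theorem IsOval.ψ_nonpos {f g : ℝ → ℝ → ℝ} {C : Set (ℝ × ℝ)} {c d : ℝ} {φ ψ : ℝ → ℝ}
    (h : IsOval f g C c d φ ψ) {v : ℝ} (hv : v ∈ Icc c d) : ψ v ≤ 0 := by
  rcases eq_or_lt_of_le hv.1 with h1 | h1
  · rw [← h1, h.ψ_c]
  · rcases eq_or_lt_of_le hv.2 with h2 | h2
    · rw [h2, h.ψ_d]
    · exact (h.ψ_neg v ⟨h1, h2⟩).le

/-- job C3 -/
theorem oval_nested {f g : ℝ → ℝ → ℝ} {C₁ C₂ : Set (ℝ × ℝ)} {c₁ d₁ c₂ d₂ : ℝ} {φ₁ ψ₁ φ₂ ψ₂ : ℝ → ℝ}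
    (h₁ : IsOval f g C₁ c₁ d₁ φ₁ ψ₁) (h₂ : IsOval f g C₂ c₂ d₂ φ₂ ψ₂) (hdis : Disjoint C₁ C₂)
    (hc : c₁ ≤ c₂) :
    c₁ < c₂ ∧ d₂ < d₁ ∧ (∀ v ∈ Icc c₂ d₂, φ₂ v < φ₁ v) ∧ (∀ v ∈ Icc c₂ d₂, ψ₁ v < ψ₂ v) := by
  have hdis' : ∀ z, z ∈ C₁ → z ∈ C₂ → False := fun z hz1 hz2 =>
    (Set.disjoint_left.1 hdis) hz1 hz2
  have hcc : c₁ < c₂ := by
    refine lt_of_le_of_ne hc fun h => ?_
    subst h
    have a1 := h₁.mem_φ (left_mem_Icc.2 h₁.c_lt_d.le)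
    have a2 := h₂.mem_φ (left_mem_Icc.2 h₂.c_lt_d.le)
    rw [h₁.φ_c] at a1
    rw [h₂.φ_c] at a2
    exact hdis' _ a1 a2
  have hc2d1 : c₂ < d₁ := h₂.c_neg.trans h₁.d_pos
  have hφne : ∀ v, v ∈ Icc c₁ d₁ → v ∈ Icc c₂ d₂ → φ₁ v - φ₂ v ≠ 0 := by
    intro v hv1 hv2 h
    have a1 := h₁.mem_φ hv1
    have a2 := h₂.mem_φ hv2
    rw [sub_eq_zero.1 h] at a1
    exact hdis' _ a1 a2
  have hψne : ∀ v, v ∈ Icc c₁ d₁ → v ∈ Icc c₂ d₂ → ψ₂ v - ψ₁ v ≠ 0 := by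
    intro v hv1 hv2 h
    have a1 := h₁.mem_ψ hv1
    have a2 := h₂.mem_ψ hv2
    rw [sub_eq_zero.1 h] at a2
    exact hdis' _ a1 a2
  have hφpos : ∀ v, v ∈ Icc c₂ d₂ → v ≤ d₁ → φ₂ v < φ₁ v := by
    intro v hv hvd
    have hsub1 : Icc c₂ v ⊆ Icc c₁ d₁ := Icc_subset_Icc hcc.le hvd
    have hsub2 : Icc c₂ v ⊆ Icc c₂ d₂ := Icc_subset_Icc le_rfl hv.2
    have := pos_of_ne_zero_Icc (h := fun v => φ₁ v - φ₂ v) hv.1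
      ((h₁.φ_cont.mono hsub1).sub (h₂.φ_cont.mono hsub2)) ?_ ?_
    · exact sub_pos.1 this
    · simp only [h₂.φ_c, sub_zero]
      exact h₁.φ_pos _ ⟨hcc, hc2d1⟩
    · intro w hw
      exact hφne w (hsub1 hw) (hsub2 hw)
  have hdd : d₂ < d₁ := by
    by_contra h
    have h' : d₁ ≤ d₂ := not_lt.1 h
    have h1 := hφpos d₁ ⟨hc2d1.le, h'⟩ le_rfl
    rw [h₁.φ_d] at h1
    have h2 := h₂.φ_nonneg (v := d₁) ⟨hc2d1.le, h'⟩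
    linarith
  refine ⟨hcc, hdd, fun v hv => hφpos v hv (hv.2.trans hdd.le), fun v hv => ?_⟩
  have hvd : v ≤ d₁ := hv.2.trans hdd.le
  have hsub1 : Icc c₂ v ⊆ Icc c₁ d₁ := Icc_subset_Icc hcc.le hvd
  have hsub2 : Icc c₂ v ⊆ Icc c₂ d₂ := Icc_subset_Icc le_rfl hv.2
  have := pos_of_ne_zero_Icc (h := fun v => ψ₂ v - ψ₁ v) hv.1
    ((h₂.ψ_cont.mono hsub2).sub (h₁.ψ_cont.mono hsub1)) ?_ ?_
  · exact sub_pos.1 this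
  · simp only [h₂.ψ_c, zero_sub, Left.neg_pos_iff]
    exact h₁.ψ_neg _ ⟨hcc, hc2d1⟩
  · intro w hw
    exact hψne w (hsub1 hw) (hsub2 hw)

theorem hasDerivAt_graph {f g D B m : ℝ → ℝ → ℝ} {φ : ℝ → ℝ} {v : ℝ}
    (hB : ∀ x y, HasFDerivAt (fun z : ℝ × ℝ => B z.1 z.2)
      ((D x y * g x y) • ContinuousLinearMap.fst ℝ ℝ ℝ + (m x y - D x y * f x y) • ContinuousLinearMap.snd ℝ ℝ ℝ) (x, y))
    (hφ : HasDerivAt φ (f (φ v) v / g (φ v) v) v) (hg : g (φ v) v ≠ 0) :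
    HasDerivAt (fun v => B (φ v) v) (m (φ v) v) v := by
  have h1 : HasDerivAt (fun w => (φ w, w)) (f (φ v) v / g (φ v) v, (1:ℝ)) v :=
    hφ.prodMk (hasDerivAt_id v)
  have h2 := HasFDerivAt.comp_hasDerivAt (f := fun w => (φ w, w)) v (hB (φ v) v) h1
  have h3 : ((D (φ v) v * g (φ v) v) • ContinuousLinearMap.fst ℝ ℝ ℝ +
      (m (φ v) v - D (φ v) v * f (φ v) v) • ContinuousLinearMap.snd ℝ ℝ ℝ)
        (f (φ v) v / g (φ v) v, (1:ℝ)) = m (φ v) v := by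
    simp only [ContinuousLinearMap.add_apply, ContinuousLinearMap.smul_apply,
      ContinuousLinearMap.coe_fst', ContinuousLinearMap.coe_snd', smul_eq_mul, mul_one]
    rw [mul_assoc, mul_div_cancel₀ _ hg]
    ring
  rw [h3] at h2
  exact h2

theorem continuousOn_graph {f g D B m : ℝ → ℝ → ℝ} {φ : ℝ → ℝ} {s : Set ℝ}
    (hB : ∀ x y, HasFDerivAt (fun z : ℝ × ℝ => B z.1 z.2)
      ((D x y * g x y) • ContinuousLinearMap.fst ℝ ℝ ℝ + (m x y - D x y * f x y) • ContinuousLinearMap.snd ℝ ℝ ℝ) (x, y))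
    (hφ : ContinuousOn φ s) : ContinuousOn (fun v => B (φ v) v) s := by
  have hBc : Continuous (fun z : ℝ × ℝ => B z.1 z.2) :=
    continuous_iff_continuousAt.2 fun z => (hB z.1 z.2).continuousAt
  exact hBc.comp_continuousOn (hφ.prodMk continuousOn_id)

theorem lt_of_hasDerivAt_pos {H H' : ℝ → ℝ} {a b : ℝ} (hab : a < b)
    (hc : ContinuousOn H (Icc a b)) (hd : ∀ v ∈ Ioo a b, HasDerivAt H (H' v) v)
    (hp : ∀ v ∈ Ioo a b, 0 < H' v) : H a < H b := by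
  have h := strictMonoOn_of_deriv_pos (convex_Icc a b) hc (fun v hv => by
    rw [interior_Icc] at hv
    rw [(hd v hv).deriv]
    exact hp v hv)
  exact h (left_mem_Icc.2 hab.le) (right_mem_Icc.2 hab.le) hab

/-- job C4 -/
theorem annulus_false {f g : ℝ → ℝ → ℝ} {C₁ C₂ : Set (ℝ × ℝ)} {c₁ d₁ c₂ d₂ : ℝ}
    {φ₁ ψ₁ φ₂ ψ₂ : ℝ → ℝ}
    (h₁ : IsOval f g C₁ c₁ d₁ φ₁ ψ₁) (h₂ : IsOval f g C₂ c₂ d₂ φ₂ ψ₂) (hdis : Disjoint C₁ C₂)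
    (hc : c₁ ≤ c₂) (D B m : ℝ → ℝ → ℝ)
    (hB : ∀ x y, HasFDerivAt (fun z : ℝ × ℝ => B z.1 z.2)
      ((D x y * g x y) • ContinuousLinearMap.fst ℝ ℝ ℝ + (m x y - D x y * f x y) • ContinuousLinearMap.snd ℝ ℝ ℝ) (x, y))
    (hmφ : ∀ v ∈ Ioo c₂ d₂, m (φ₂ v) v < m (φ₁ v) v)
    (hmψ : ∀ v ∈ Ioo c₂ d₂, m (ψ₁ v) v < m (ψ₂ v) v)
    (hm : ∀ v, v ∈ Ioo c₁ c₂ ∨ v ∈ Ioo d₂ d₁ → m (ψ₁ v) v < m (φ₁ v) v) : False := by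
  obtain ⟨hcc, hdd, -, -⟩ := oval_nested h₁ h₂ hdis hc
  have hcd₂ := h₂.c_lt_d
  have hd1 : ∀ v ∈ Ioo c₁ d₁, HasDerivAt (fun v => B (φ₁ v) v - B (ψ₁ v) v)
      (m (φ₁ v) v - m (ψ₁ v) v) v := fun v hv =>
    (hasDerivAt_graph hB (h₁.φ_deriv v hv) (h₁.g_pos v hv).ne').sub
      (hasDerivAt_graph hB (h₁.ψ_deriv v hv) (h₁.g_neg v hv).ne)
  have hd2 : ∀ v ∈ Ioo c₂ d₂, HasDerivAt (fun v => B (φ₂ v) v - B (ψ₂ v) v)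
      (m (φ₂ v) v - m (ψ₂ v) v) v := fun v hv =>
    (hasDerivAt_graph hB (h₂.φ_deriv v hv) (h₂.g_pos v hv).ne').sub
      (hasDerivAt_graph hB (h₂.ψ_deriv v hv) (h₂.g_neg v hv).ne)
  have hc1 : ContinuousOn (fun v => B (φ₁ v) v - B (ψ₁ v) v) (Icc c₁ d₁) :=
    (continuousOn_graph hB h₁.φ_cont).sub (continuousOn_graph hB h₁.ψ_cont)
  have hc2 : ContinuousOn (fun v => B (φ₂ v) v - B (ψ₂ v) v) (Icc c₂ d₂) :=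
    (continuousOn_graph hB h₂.φ_cont).sub (continuousOn_graph hB h₂.ψ_cont)
  have s1 := lt_of_hasDerivAt_pos hcc (hc1.mono (Icc_subset_Icc le_rfl (hcd₂.trans hdd).le))
    (fun v hv => hd1 v ⟨hv.1, hv.2.trans (hcd₂.trans hdd)⟩)
    (fun v hv => sub_pos.2 (hm v (Or.inl hv)))
  have s2 := lt_of_hasDerivAt_pos hcd₂
    ((hc1.mono (Icc_subset_Icc hcc.le hdd.le)).sub hc2)
    (fun v hv => (hd1 v ⟨hcc.trans hv.1, hv.2.trans hdd⟩).sub (hd2 v hv))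
    (fun v hv => by
      have a1 := hmφ v hv
      have a2 := hmψ v hv
      linarith)
  have s3 := lt_of_hasDerivAt_pos hdd (hc1.mono (Icc_subset_Icc (hcc.trans hcd₂).le le_rfl))
    (fun v hv => hd1 v ⟨(hcc.trans hcd₂).trans hv.1, hv.2⟩)
    (fun v hv => sub_pos.2 (hm v (Or.inr hv)))
  simp only [Pi.sub_apply, h₁.φ_c, h₁.ψ_c, h₁.φ_d, h₁.ψ_d, h₂.φ_c, h₂.ψ_c, h₂.φ_d, h₂.ψ_d, sub_self] at s1 s2 s3
  linarith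

/-- job C4 -/
theorem disc_false {f g : ℝ → ℝ → ℝ} {C : Set (ℝ × ℝ)} {c d : ℝ} {φ ψ : ℝ → ℝ}
    (h : IsOval f g C c d φ ψ) (D B m : ℝ → ℝ → ℝ)
    (hB : ∀ x y, HasFDerivAt (fun z : ℝ × ℝ => B z.1 z.2)
      ((D x y * g x y) • ContinuousLinearMap.fst ℝ ℝ ℝ + (m x y - D x y * f x y) • ContinuousLinearMap.snd ℝ ℝ ℝ) (x, y))
    (hm : ∀ v ∈ Ioo c d, m (ψ v) v < m (φ v) v) : False := by
  have s1 := lt_of_hasDerivAt_pos (H := fun v => B (φ v) v - B (ψ v) v)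
    (H' := fun v => m (φ v) v - m (ψ v) v) h.c_lt_d
    ((continuousOn_graph hB h.φ_cont).sub (continuousOn_graph hB h.ψ_cont))
    (fun v hv => (hasDerivAt_graph hB (h.φ_deriv v hv) (h.g_pos v hv).ne').sub
      (hasDerivAt_graph hB (h.ψ_deriv v hv) (h.g_neg v hv).ne))
    (fun v hv => sub_pos.2 (hm v hv))
  simp only [h.φ_c, h.ψ_c, h.φ_d, h.ψ_d, sub_self] at s1
  exact lt_irrefl _ s1

end Pool.Agent.H.MP_732d27_an
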