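import Mathlib

/-!
# Rotating curves and ovals: definitions
-/

namespace Pool.Agent.H.MP_732d27_an

open Set

/-- A plane curve `t ↦ (x t, y t)` turning around the origin: `y` increases where `x > 0`,
decreases where `x < 0`, and `x` crosses `0` with speed of sign opposite to `y`. -/
structure Rot (x y x' y' : ℝ → ℝ) : Prop where
  hx : ∀ t, HasDerivAt x (x' t) t
  hy : ∀ t, HasDerivAt y (y' t) t
  pos : ∀ t, 0 < x t → 0 < y' t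
  neg : ∀ t, x t < 0 → y' t < 0
  cross : ∀ t, x t = 0 → x' t * y t < 0

/-- Two curves that have a common point coincide up to a shift of time. -/
def Meet (x₁ y₁ x₂ y₂ : ℝ → ℝ) : Prop :=
  ∀ t₁ t₂, x₁ t₁ = x₂ t₂ → y₁ t₁ = y₂ t₂ → ∀ t, x₁ (t₁ + t) = x₂ (t₂ + t) ∧ y₁ (t₁ + t) = y₂ (t₂ + t)

/-- `C` is the union of the graphs over `[c, d]` of `φ ≥ 0` and `ψ ≤ 0` (in the `x` direction), which
are orbits of the field `(f, g)`. -/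
structure IsOval (f g : ℝ → ℝ → ℝ) (C : Set (ℝ × ℝ)) (c d : ℝ) (φ ψ : ℝ → ℝ) : Prop where
  c_neg : c < 0
  d_pos : 0 < d
  φ_cont : ContinuousOn φ (Icc c d)
  ψ_cont : ContinuousOn ψ (Icc c d)
  φ_c : φ c = 0
  φ_d : φ d = 0
  ψ_c : ψ c = 0
  ψ_d : ψ d = 0
  φ_pos : ∀ v ∈ Ioo c d, 0 < φ v
  ψ_neg : ∀ v ∈ Ioo c d, ψ v < 0
  φ_deriv : ∀ v ∈ Ioo c d, HasDerivAt φ (f (φ v) v / g (φ v) v) v
  ψ_deriv : ∀ v ∈ Ioo c d, HasDerivAt ψ (f (ψ v) v / g (ψ v) v) v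
  g_pos : ∀ v ∈ Ioo c d, 0 < g (φ v) v
  g_neg : ∀ v ∈ Ioo c d, g (ψ v) v < 0
  eq : C = {z : ℝ × ℝ | z.2 ∈ Icc c d ∧ (z.1 = φ z.2 ∨ z.1 = ψ z.2)}

end Pool.Agent.H.MP_732d27_an
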