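import Mathlib

/-!
# Quadratic system (S) and Shi's coefficients: definitions
-/

namespace Pool.Agent.H.MP_732d27_an

noncomputable section

/-- The quadratic vector field `(S)` with parameters `lam, a, b, c, d, e`. -/
def quadField (lam a b c d e : ℝ) (z : ℝ × ℝ) : ℝ × ℝ :=
  (lam * z.1 - z.2 + a * z.1 ^ 2 + b * z.1 * z.2 + c * z.2 ^ 2, z.1 + d * z.1 ^ 2 + e * z.1 * z.2)

/-- `γ` is a solution, defined for all times, of the planar differential system `z' = X z`. -/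
def IsSolution (X : ℝ × ℝ → ℝ × ℝ) (γ : ℝ → ℝ × ℝ) : Prop :=
  ∀ t, HasDerivAt γ (X (γ t)) t

/-- `C` is a periodic orbit of `z' = X z`: the trace of a non-constant periodic solution. -/
def IsPeriodicOrbit (X : ℝ × ℝ → ℝ × ℝ) (C : Set (ℝ × ℝ)) : Prop :=
  ∃ γ : ℝ → ℝ × ℝ, IsSolution X γ ∧ (∃ T, 0 < T ∧ ∀ t, γ (t + T) = γ t) ∧
    (∃ t₁ t₂, γ t₁ ≠ γ t₂) ∧ C = Set.range γ

/-- `C` is a limit cycle of `z' = X z`: a periodic orbit having a neighbourhood that contains no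
other periodic orbit. -/
def IsLimitCycle (X : ℝ × ℝ → ℝ × ℝ) (C : Set (ℝ × ℝ)) : Prop :=
  IsPeriodicOrbit X C ∧ ∃ U : Set (ℝ × ℝ), IsOpen U ∧ C ⊆ U ∧
    ∀ C' : Set (ℝ × ℝ), IsPeriodicOrbit X C' → C' ⊆ U → C' = C

/-- The coefficient `λ = -10⁻²⁰⁰` of Shi's system. -/
def lam : ℝ := -(1 / 10 ^ 200)

/-- The coefficient `b = 5 - 10⁻¹³` of Shi's system. -/
def pb : ℝ := 5 - 1 / 10 ^ 13

/-- The coefficient `e = -25 + 9·10⁻¹³ - 8·10⁻⁵²` of Shi's system. -/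
def pe : ℝ := -25 + 9 / 10 ^ 13 - 8 / 10 ^ 52

/-- Shi's system: `a = -10`, `c = d = 1`. -/
def shiField : ℝ × ℝ → ℝ × ℝ := quadField lam (-10) pb 1 1 pe

/-- First component of Shi's vector field. -/
def fP (x y : ℝ) : ℝ := lam * x - y - 10 * x ^ 2 + pb * x * y + y ^ 2

/-- Second component of Shi's vector field is `x * fL x y`. -/
def fL (x y : ℝ) : ℝ := 1 + x + pe * y

theorem shiField_eq (x y : ℝ) : shiField (x, y) = (fP x y, x * fL x y) := by
  simp only [shiField, quadField, fP, fL, Prod.mk.injEq]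
  constructor <;> ring

end

end Pool.Agent.H.MP_732d27_an
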