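import Mathlib

/-!
# Inverse function of a strictly monotone function on an interval
-/

namespace Pool.Agent.H.MP_732d27_an

open Set Filter Topology

theorem exists_inverse {F F' : ℝ → ℝ} {a b : ℝ} (hab : a < b) (hcont : ContinuousOn F (Icc a b))
    (hder : ∀ x ∈ Ioo a b, HasDerivAt F (F' x) x) (hpos : ∀ x ∈ Ioo a b, 0 < F' x) :
    ∃ g : ℝ → ℝ, ContinuousOn g (Icc (F a) (F b)) ∧ g (F a) = a ∧ g (F b) = b ∧
      (∀ y ∈ Icc (F a) (F b), g y ∈ Icc a b ∧ F (g y) = y) ∧ (∀ x ∈ Icc a b, g (F x) = x) ∧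
      (∀ y ∈ Ioo (F a) (F b), g y ∈ Ioo a b) ∧
      ∀ y ∈ Ioo (F a) (F b), HasDerivAt g (1 / F' (g y)) y := by
  have hmono : StrictMonoOn F (Icc a b) := by
    apply strictMonoOn_of_deriv_pos (convex_Icc a b) hcont
    intro x hx
    rw [interior_Icc] at hx
    rw [(hder x hx).deriv]
    exact hpos x hx
  have himg : F '' Icc a b = Icc (F a) (F b) := by
    apply Subset.antisymm
    · rintro _ ⟨x, hx, rfl⟩
      exact ⟨hmono.monotoneOn (left_mem_Icc.2 hab.le) hx hx.1,
        hmono.monotoneOn hx (right_mem_Icc.2 hab.le) hx.2⟩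
    · exact intermediate_value_Icc hab.le hcont
  let e := hmono.orderIso F (Icc a b)
  have hmem : ∀ y, y ∈ Icc (F a) (F b) → y ∈ F '' Icc a b := fun y hy => by rw [himg]; exact hy
  classical
  let g : ℝ → ℝ := fun y => if hy : y ∈ F '' Icc a b then (e.symm ⟨y, hy⟩ : ℝ) else a
  have hg1 : ∀ y ∈ Icc (F a) (F b), g y ∈ Icc a b ∧ F (g y) = y := by
    intro y hy
    have h := hmem y hy
    simp only [g, dif_pos h]
    refine ⟨(e.symm ⟨y, h⟩).2, ?_⟩
    have := congrArg Subtype.val (e.apply_symm_apply ⟨y, h⟩)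
    exact this
  have hg2 : ∀ x ∈ Icc a b, g (F x) = x := by
    intro x hx
    have h : F x ∈ Icc (F a) (F b) := by rw [← himg]; exact mem_image_of_mem F hx
    obtain ⟨h1, h2⟩ := hg1 _ h
    exact hmono.injOn h1 hx h2
  have hgc : ContinuousOn g (Icc (F a) (F b)) := by
    rw [← himg, continuousOn_iff_continuous_domRestrict]
    have : OrderTopology (F '' Icc a b) := by
      rw [himg]; infer_instance
    have h3 : (F '' Icc a b).domRestrict g = fun y => ((e.symm y : Icc a b) : ℝ) := by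
      funext y
      have hy : (y : ℝ) ∈ F '' Icc a b := y.2
      change g (y : ℝ) = _
      simp only [g, dif_pos hy]
    rw [h3]
    exact continuous_subtype_val.comp e.symm.continuous
  have hg3 : ∀ y ∈ Ioo (F a) (F b), g y ∈ Ioo a b := by
    intro y hy
    obtain ⟨h1, h2⟩ := hg1 y (Ioo_subset_Icc_self hy)
    refine ⟨lt_of_le_of_ne h1.1 ?_, lt_of_le_of_ne h1.2 ?_⟩
    · intro h; rw [← h] at h2; exact absurd h2 hy.1.ne
    · intro h; rw [h] at h2; exact absurd h2 hy.2.ne'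
  refine ⟨g, hgc, hg2 a (left_mem_Icc.2 hab.le), hg2 b (right_mem_Icc.2 hab.le), hg1, hg2, hg3, ?_⟩
  intro y hy
  rw [one_div]
  apply HasDerivAt.of_local_left_inverse (hgc.continuousAt (Icc_mem_nhds hy.1 hy.2))
    (hder _ (hg3 y hy)) (hpos _ (hg3 y hy)).ne'
  filter_upwards [Icc_mem_nhds hy.1 hy.2] with z hz
  exact (hg1 z hz).2

end Pool.Agent.H.MP_732d27_an
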