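import Pool.Agent.H.MP_732d27_an.LienDefs

/-!
# Numerical enclosures of the constants and approximation of `I = T/(s M³)` by `Ĩ`
-/

namespace Pool.Agent.H.MP_732d27_an

open Set

noncomputable section

theorem bmul {a a0 e b b0 d c f A B : ℝ} (ha : |a - a0| ≤ e) (hb : |b - b0| ≤ d)
    (h : -A ≤ a0 ∧ a0 ≤ A ∧ -B ≤ b0 ∧ b0 ≤ B ∧
      -(f - (A * d + B * e + e * d)) ≤ a0 * b0 - c ∧
      a0 * b0 - c ≤ f - (A * d + B * e + e * d)) : |a * b - c| ≤ f := by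
  obtain ⟨h1, h2, h3, h4, h5, h6⟩ := h
  have e0 : 0 ≤ e := (abs_nonneg _).trans ha
  have d0 : 0 ≤ d := (abs_nonneg _).trans hb
  have hA : |a0| ≤ A := abs_le.mpr ⟨h1, h2⟩
  have hB : |b0| ≤ B := abs_le.mpr ⟨h3, h4⟩
  have hC : |a0 * b0 - c| ≤ f - (A * d + B * e + e * d) := abs_le.mpr ⟨h5, h6⟩
  have h7 : |(a - a0) * (b - b0)| ≤ e * d := by
    rw [abs_mul]; exact mul_le_mul ha hb (abs_nonneg _) e0
  have h8 : |a0 * (b - b0)| ≤ A * d := by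
    rw [abs_mul]; exact mul_le_mul hA hb (abs_nonneg _) ((abs_nonneg _).trans hA)
  have h9 : |b0 * (a - a0)| ≤ B * e := by
    rw [abs_mul]; exact mul_le_mul hB ha (abs_nonneg _) ((abs_nonneg _).trans hB)
  have h10 : a * b - c = (a - a0) * (b - b0) + a0 * (b - b0) + b0 * (a - a0) + (a0 * b0 - c) := by
    ring
  rw [h10]
  rw [abs_le] at *
  constructor <;> linarith [h7.1, h7.2, h8.1, h8.2, h9.1, h9.2, hC.1, hC.2]

theorem badd {a a0 e b b0 d c f : ℝ} (ha : |a - a0| ≤ e) (hb : |b - b0| ≤ d)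
    (h : -(f - (e + d)) ≤ a0 + b0 - c ∧ a0 + b0 - c ≤ f - (e + d)) : |a + b - c| ≤ f := by
  rw [abs_le] at *
  constructor <;> linarith [h.1, h.2, ha.1, ha.2, hb.1, hb.2]

theorem bsub {a a0 e b b0 d c f : ℝ} (ha : |a - a0| ≤ e) (hb : |b - b0| ≤ d)
    (h : -(f - (e + d)) ≤ a0 - b0 - c ∧ a0 - b0 - c ≤ f - (e + d)) : |a - b - c| ≤ f := by
  rw [abs_le] at *
  constructor <;> linarith [h.1, h.2, ha.1, ha.2, hb.1, hb.2]

theorem bcon {c : ℝ} : |c - c| ≤ (0 : ℝ) := by simp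

theorem bdiv {a b x0 e b0 d c f m : ℝ} (hx : |a - c * b - x0| ≤ e) (hb : |b - b0| ≤ d)
    (h : 0 < m ∧ m ≤ b0 - d ∧ -(f * m - e) ≤ x0 ∧ x0 ≤ f * m - e ∧ 0 ≤ f) : |a / b - c| ≤ f := by
  obtain ⟨h1, h2, h3, h4, h5⟩ := h
  rw [abs_le] at hx hb
  have hbm : m ≤ b := by linarith [hb.1]
  have hb0 : 0 < b := by linarith
  have h6 : |a - c * b| ≤ f * m := by
    rw [abs_le]; constructor <;> linarith [hx.1, hx.2]
  have h7 : a / b - c = (a - c * b) / b := by field_simp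
  rw [h7, abs_div, abs_of_pos hb0, div_le_iff₀ hb0]
  exact h6.trans (mul_le_mul_of_nonneg_left hbm h5)

theorem bweak {a a0 e c f : ℝ} (ha : |a - a0| ≤ e)
    (h : -(f - e) ≤ a0 - c ∧ a0 - c ≤ f - e) : |a - c| ≤ f := by
  rw [abs_le] at *
  constructor <;> linarith [h.1, h.2, ha.1, ha.2]

theorem kk_ball : |kk - (65229852213971520235515 / 10 ^ 24 : ℝ)| ≤ (5 / 10 ^ 24) := by
  have h1 := kk_gt
  have h2 := kk_lt
  rw [abs_le]
  constructor <;> linarith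

theorem pb_ball : |pb - (49999999999999 / 10 ^ 13 : ℝ)| ≤ (0) := by
  unfold pb; rw [abs_le]; constructor <;> norm_num

theorem pe_ball : |pe - (-249999999999991000000000000000000000000000000000000008 / 10 ^ 52 : ℝ)| ≤ (0) := by
  unfold pe; rw [abs_le]; constructor <;> norm_num

theorem lam_ball : |lam - (0)| ≤ (1 / 10 ^ 200) := by
  unfold lam; rw [abs_le]; constructor <;> norm_num

theorem NN0_eq : NN 0 = c0 := by
  unfold NN pp c0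
  ring

/-- `N₁` -/
def tN1 : ℝ := pe * c0 - mm + q2 * kk ^ 2

/-- `N₂` -/
def tN2 : ℝ := -(pe * mm) - q2 * kk ^ 2

theorem pp_zero : pp 0 = c0 := by unfold pp; ring

theorem MM_zero : MM 0 = pb * c0 + kap := by unfold MM; rw [pp_zero]; ring

theorem MM_eq (s : ℝ) : MM s = MM 0 + Md * s := by
  rw [MM_zero]; unfold MM pp Md; ring

theorem NN_eq (s : ℝ) : NN s = c0 + tN1 * s + tN2 * s ^ 2 := by
  unfold NN pp tN1 tN2 c0 q2 mm
  ring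

theorem Nd_eq (s : ℝ) : Nd s = tN1 + 2 * tN2 * s := by
  unfold Nd pp tN1 tN2 c0 q2 mm
  ring

theorem ss_pos_aux : 0 < c0 ∧ 0 < mm := by
  have h1 := kk_gt
  have h2 := kk_lt
  constructor
  · unfold c0 lam
    nlinarith [sq_nonneg kk]
  · unfold mm pb pe
    nlinarith [sq_nonneg kk]

theorem pp_ss : pp ss = 0 := by
  have h := ss_pos_aux
  unfold pp ss
  have := h.2.ne'
  field_simp
  ring

theorem rho_eq : rho = kap * (mm - c0) / c0 := by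
  obtain ⟨h1, h2⟩ := ss_pos_aux
  have h1' := h1.ne'
  have h2' := h2.ne'
  unfold rho MM
  rw [pp_ss]
  unfold ss
  field_simp
  ring

/-- `T₀` -/
def tT0 : ℝ := Md * c0 * c0 - (mm + q2) * MM 0 * c0 + MM 0 * c0 * c0 - tN1 * (MM 0 * c0)

/-- the part of `T₀` with `λ` -/
def tE0l : ℝ := c0 * (c0 * (pb * (kk * lam) * (1 - pe - q2))) + c0 * (MM 0 * (q2 * (kk * lam)))

theorem tT0_eq : tT0 = c0 ^ 2 * (-9 * pb - pe + 20) - tE0l := by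
  have h := kk_eq
  unfold tT0 tE0l tN1
  rw [MM_zero]
  unfold Md kap mm q2 c0
  linear_combination (1 + kk ^ 2 - kk * lam) ^ 2 * (20 - pe) * h

theorem mm_ball : |mm - (25334659128308664208672631820166 / 10 ^ 30 : ℝ)| ≤ (3 / 10 ^ 23 : ℝ) := by
  have hk := kk_ball
  have hpb := pb_ball
  have hpe := pe_ball
  have hlam := lam_ball
  have h1 : |(pb * kk) - (326149261069851078192353602848 / 10 ^ 30 : ℝ)| ≤ (26 / 10 ^ 24 : ℝ) :=
    bmul (A := (5 : ℝ)) (B := (66 / 10 ^ 3 : ℝ)) hpb hk (by norm_num)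
  have h2 : |((pb * kk) - pe) - (25326149261068951078192353602848 / 10 ^ 30 : ℝ)| ≤ (27 / 10 ^ 24 : ℝ) :=
    bsub h1 hpe (by norm_num)
  have h3 : |(2 : ℝ) - (2 : ℝ)| ≤ (0 : ℝ) :=
    bcon
  have h4 : |(kk * kk) - (4254933619856565240139108659 / 10 ^ 30 : ℝ)| ≤ (67 / 10 ^ 26 : ℝ) :=
    bmul (A := (66 / 10 ^ 3 : ℝ)) (B := (66 / 10 ^ 3 : ℝ)) hk hk (by norm_num)
  have h5 : |((2 : ℝ) * (kk * kk)) - (8509867239713130480278217318 / 10 ^ 30 : ℝ)| ≤ (21 / 10 ^ 25 : ℝ) :=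
    bmul (A := (3 : ℝ)) (B := (43 / 10 ^ 4 : ℝ)) h3 h4 (by norm_num)
  have h6 : |(((pb * kk) - pe) + ((2 : ℝ) * (kk * kk))) - (25334659128308664208672631820166 / 10 ^ 30 : ℝ)| ≤ (3 / 10 ^ 23 : ℝ) :=
    badd h2 h5 (by norm_num)
  have he : mm = (((pb * kk) - pe) + ((2 : ℝ) * (kk * kk))) := by
    unfold mm; ring
  rw [he]
  exact h6

theorem q2_ball : |q2 - (9669595805310292356567507288493 / 10 ^ 30 : ℝ)| ≤ (27 / 10 ^ 24 : ℝ) := by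
  have hk := kk_ball
  have hpb := pb_ball
  have hpe := pe_ball
  have hlam := lam_ball
  have h1 : |(10 : ℝ) - (10 : ℝ)| ≤ (0 : ℝ) :=
    bcon
  have h2 : |(pb * kk) - (326149261069851078192353602848 / 10 ^ 30 : ℝ)| ≤ (26 / 10 ^ 24 : ℝ) :=
    bmul (A := (5 : ℝ)) (B := (66 / 10 ^ 3 : ℝ)) hpb hk (by norm_num)
  have h3 : |((10 : ℝ) - (pb * kk)) - (9673850738930148921807646397152 / 10 ^ 30 : ℝ)| ≤ (26 / 10 ^ 24 : ℝ) :=
    bsub h1 h2 (by norm_num)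
  have h4 : |(kk * kk) - (4254933619856565240139108659 / 10 ^ 30 : ℝ)| ≤ (67 / 10 ^ 26 : ℝ) :=
    bmul (A := (66 / 10 ^ 3 : ℝ)) (B := (66 / 10 ^ 3 : ℝ)) hk hk (by norm_num)
  have h5 : |(((10 : ℝ) - (pb * kk)) - (kk * kk)) - (9669595805310292356567507288493 / 10 ^ 30 : ℝ)| ≤ (27 / 10 ^ 24 : ℝ) :=
    bsub h3 h4 (by norm_num)
  have he : q2 = (((10 : ℝ) - (pb * kk)) - (kk * kk)) := by
    unfold q2; ring
  rw [he]
  exact h5

theorem c0_ball : |c0 - (1004254933619856565240139108659 / 10 ^ 30 : ℝ)| ≤ (68 / 10 ^ 26 : ℝ) := by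
  have hk := kk_ball
  have hpb := pb_ball
  have hpe := pe_ball
  have hlam := lam_ball
  have h1 : |(1 : ℝ) - (1 : ℝ)| ≤ (0 : ℝ) :=
    bcon
  have h2 : |(kk * kk) - (4254933619856565240139108659 / 10 ^ 30 : ℝ)| ≤ (67 / 10 ^ 26 : ℝ) :=
    bmul (A := (66 / 10 ^ 3 : ℝ)) (B := (66 / 10 ^ 3 : ℝ)) hk hk (by norm_num)
  have h3 : |((1 : ℝ) + (kk * kk)) - (1004254933619856565240139108659 / 10 ^ 30 : ℝ)| ≤ (67 / 10 ^ 26 : ℝ) :=
    badd h1 h2 (by norm_num)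
  have h4 : |(kk * lam) - (0 : ℝ)| ≤ (67 / 10 ^ 203 : ℝ) :=
    bmul (A := (66 / 10 ^ 3 : ℝ)) (B := (0 : ℝ)) hk hlam (by norm_num)
  have h5 : |(((1 : ℝ) + (kk * kk)) - (kk * lam)) - (1004254933619856565240139108659 / 10 ^ 30 : ℝ)| ≤ (68 / 10 ^ 26 : ℝ) :=
    bsub h3 h4 (by norm_num)
  have he : c0 = (((1 : ℝ) + (kk * kk)) - (kk * lam)) := by
    unfold c0; ring
  rw [he]
  exact h5

theorem kap_ball : |kap - (2914068681529377303023848867994 / 10 ^ 30 : ℝ)| ≤ (24 / 10 ^ 23 : ℝ) := by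
  have hk := kk_ball
  have hpb := pb_ball
  have hpe := pe_ball
  have hlam := lam_ball
  have h1 : |(20 : ℝ) - (20 : ℝ)| ≤ (0 : ℝ) :=
    bcon
  have h2 : |((20 : ℝ) - pe) - (449999999999991 / 10 ^ 13 : ℝ)| ≤ (8 / 10 ^ 52 : ℝ) :=
    bsub h1 hpe (by norm_num)
  have h3 : |(((20 : ℝ) - pe) * kk) - (2935343349628659703731182425632 / 10 ^ 30 : ℝ)| ≤ (23 / 10 ^ 23 : ℝ) :=
    bmul (A := (45 : ℝ)) (B := (66 / 10 ^ 3 : ℝ)) h2 hk (by norm_num)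
  have h4 : |(kk * kk) - (4254933619856565240139108659 / 10 ^ 30 : ℝ)| ≤ (67 / 10 ^ 26 : ℝ) :=
    bmul (A := (66 / 10 ^ 3 : ℝ)) (B := (66 / 10 ^ 3 : ℝ)) hk hk (by norm_num)
  have h5 : |(pb * (kk * kk)) - (21274668099282400707333557638 / 10 ^ 30 : ℝ)| ≤ (34 / 10 ^ 25 : ℝ) :=
    bmul (A := (5 : ℝ)) (B := (43 / 10 ^ 4 : ℝ)) hpb h4 (by norm_num)
  have h6 : |((((20 : ℝ) - pe) * kk) - (pb * (kk * kk))) - (2914068681529377303023848867994 / 10 ^ 30 : ℝ)| ≤ (24 / 10 ^ 23 : ℝ) :=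
    bsub h3 h5 (by norm_num)
  have he : kap = ((((20 : ℝ) - pe) * kk) - (pb * (kk * kk))) := by
    unfold kap mm q2; ring
  rw [he]
  exact h6

theorem MM0_ball : |MM 0 - (7935343349628559703731182425632 / 10 ^ 30 : ℝ)| ≤ (24 / 10 ^ 23 : ℝ) := by
  have hk := kk_ball
  have hpb := pb_ball
  have hpe := pe_ball
  have hlam := lam_ball
  have h1 : |(20 : ℝ) - (20 : ℝ)| ≤ (0 : ℝ) :=
    bcon
  have h2 : |((20 : ℝ) - pe) - (449999999999991 / 10 ^ 13 : ℝ)| ≤ (8 / 10 ^ 52 : ℝ) :=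
    bsub h1 hpe (by norm_num)
  have h3 : |(((20 : ℝ) - pe) * kk) - (2935343349628659703731182425632 / 10 ^ 30 : ℝ)| ≤ (23 / 10 ^ 23 : ℝ) :=
    bmul (A := (45 : ℝ)) (B := (66 / 10 ^ 3 : ℝ)) h2 hk (by norm_num)
  have h4 : |(pb + (((20 : ℝ) - pe) * kk)) - (7935343349628559703731182425632 / 10 ^ 30 : ℝ)| ≤ (23 / 10 ^ 23 : ℝ) :=
    badd hpb h3 (by norm_num)
  have h5 : |(kk * lam) - (0 : ℝ)| ≤ (67 / 10 ^ 203 : ℝ) :=
    bmul (A := (66 / 10 ^ 3 : ℝ)) (B := (0 : ℝ)) hk hlam (by norm_num)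
  have h6 : |(pb * (kk * lam)) - (0 : ℝ)| ≤ (34 / 10 ^ 202 : ℝ) :=
    bmul (A := (5 : ℝ)) (B := (0 : ℝ)) hpb h5 (by norm_num)
  have h7 : |((pb + (((20 : ℝ) - pe) * kk)) - (pb * (kk * lam))) - (7935343349628559703731182425632 / 10 ^ 30 : ℝ)| ≤ (24 / 10 ^ 23 : ℝ) :=
    bsub h4 h6 (by norm_num)
  have he : MM 0 = ((pb + (((20 : ℝ) - pe) * kk)) - (pb * (kk * lam))) := by
    unfold MM pp kap c0 mm q2; ring
  rw [he]
  exact h7

theorem Md_ball : |Md - (-129587364323070164880474177102402 / 10 ^ 30 : ℝ)| ≤ (38 / 10 ^ 23 : ℝ) := by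
  have hk := kk_ball
  have hpb := pb_ball
  have hpe := pe_ball
  have hlam := lam_ball
  have h1 : |(pb * pe) - (-12499999999999300000000000009 / 10 ^ 26 : ℝ)| ≤ (4 / 10 ^ 51 : ℝ) :=
    bmul (A := (5 : ℝ)) (B := (25 : ℝ)) hpb hpe (by norm_num)
  have h2 : |(pb * pb) - (2499999999999900000000000001 / 10 ^ 26 : ℝ)| ≤ (0 : ℝ) :=
    bmul (A := (5 : ℝ)) (B := (5 : ℝ)) hpb hpb (by norm_num)
  have h3 : |(20 : ℝ) - (20 : ℝ)| ≤ (0 : ℝ) :=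
    bcon
  have h4 : |((20 : ℝ) - pe) - (449999999999991 / 10 ^ 13 : ℝ)| ≤ (8 / 10 ^ 52 : ℝ) :=
    bsub h3 hpe (by norm_num)
  have h5 : |((pb * pb) + ((20 : ℝ) - pe)) - (6999999999999810000000000001 / 10 ^ 26 : ℝ)| ≤ (8 / 10 ^ 52 : ℝ) :=
    badd h2 h4 (by norm_num)
  have h6 : |(((pb * pb) + ((20 : ℝ) - pe)) * kk) - (4566089654977882479766843454764 / 10 ^ 30 : ℝ)| ≤ (36 / 10 ^ 23 : ℝ) :=
    bmul (A := (70 : ℝ)) (B := (66 / 10 ^ 3 : ℝ)) h5 hk (by norm_num)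
  have h7 : |((pb * pe) - (((pb * pb) + ((20 : ℝ) - pe)) * kk)) - (-129566089654970882479766843544764 / 10 ^ 30 : ℝ)| ≤ (37 / 10 ^ 23 : ℝ) :=
    bsub h1 h6 (by norm_num)
  have h8 : |(kk * kk) - (4254933619856565240139108659 / 10 ^ 30 : ℝ)| ≤ (67 / 10 ^ 26 : ℝ) :=
    bmul (A := (66 / 10 ^ 3 : ℝ)) (B := (66 / 10 ^ 3 : ℝ)) hk hk (by norm_num)
  have h9 : |(pb * (kk * kk)) - (21274668099282400707333557638 / 10 ^ 30 : ℝ)| ≤ (34 / 10 ^ 25 : ℝ) :=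
    bmul (A := (5 : ℝ)) (B := (43 / 10 ^ 4 : ℝ)) hpb h8 (by norm_num)
  have h10 : |(((pb * pe) - (((pb * pb) + ((20 : ℝ) - pe)) * kk)) - (pb * (kk * kk))) - (-129587364323070164880474177102402 / 10 ^ 30 : ℝ)| ≤ (38 / 10 ^ 23 : ℝ) :=
    bsub h7 h9 (by norm_num)
  have he : Md = (((pb * pe) - (((pb * pb) + ((20 : ℝ) - pe)) * kk)) - (pb * (kk * kk))) := by
    unfold Md kap mm q2; ring
  rw [he]
  exact h10

theorem tN1_ball : |tN1 - (-50399888980521735728908150115175 / 10 ^ 30 : ℝ)| ≤ (55 / 10 ^ 24 : ℝ) := by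
  have hk := kk_ball
  have hpb := pb_ball
  have hpe := pe_ball
  have hlam := lam_ball
  have hmm := mm_ball
  have hq2 := q2_ball
  have hc0 := c0_ball
  have hkap := kap_ball
  have hM0 := MM0_ball
  have hMd := Md_ball
  have h1 : |(pe * c0) - (-25106373340495510301563219845566 / 10 ^ 30 : ℝ)| ≤ (18 / 10 ^ 24 : ℝ) :=
    bmul (A := (25 : ℝ)) (B := (2 : ℝ)) hpe hc0 (by norm_num)
  have h2 : |((pe * c0) - mm) - (-50441032468804174510235851665732 / 10 ^ 30 : ℝ)| ≤ (48 / 10 ^ 24 : ℝ) :=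
    bsub h1 hmm (by norm_num)
  have h3 : |(kk * kk) - (4254933619856565240139108659 / 10 ^ 30 : ℝ)| ≤ (67 / 10 ^ 26 : ℝ) :=
    bmul (A := (66 / 10 ^ 3 : ℝ)) (B := (66 / 10 ^ 3 : ℝ)) hk hk (by norm_num)
  have h4 : |(q2 * (kk * kk)) - (41143488282438781327701550557 / 10 ^ 30 : ℝ)| ≤ (69 / 10 ^ 25 : ℝ) :=
    bmul (A := (10 : ℝ)) (B := (43 / 10 ^ 4 : ℝ)) hq2 h3 (by norm_num)
  have h5 : |(((pe * c0) - mm) + (q2 * (kk * kk))) - (-50399888980521735728908150115175 / 10 ^ 30 : ℝ)| ≤ (55 / 10 ^ 24 : ℝ) :=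
    badd h2 h4 (by norm_num)
  have he : tN1 = (((pe * c0) - mm) + (q2 * (kk * kk))) := by
    unfold tN1; ring
  rw [he]
  exact h5

theorem tN2_ball : |tN2 - (633325334719411365242272616155805 / 10 ^ 30 : ℝ)| ≤ (77 / 10 ^ 23 : ℝ) := by
  have hk := kk_ball
  have hpb := pb_ball
  have hpe := pe_ball
  have hlam := lam_ball
  have hmm := mm_ball
  have hq2 := q2_ball
  have hc0 := c0_ball
  have hkap := kap_ball
  have hM0 := MM0_ball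
  have hMd := Md_ball
  have h1 : |(0 : ℝ) - (0 : ℝ)| ≤ (0 : ℝ) :=
    bcon
  have h2 : |(pe * mm) - (-633366478207693804023600317706362 / 10 ^ 30 : ℝ)| ≤ (76 / 10 ^ 23 : ℝ) :=
    bmul (A := (25 : ℝ)) (B := (26 : ℝ)) hpe hmm (by norm_num)
  have h3 : |((0 : ℝ) - (pe * mm)) - (633366478207693804023600317706362 / 10 ^ 30 : ℝ)| ≤ (76 / 10 ^ 23 : ℝ) :=
    bsub h1 h2 (by norm_num)
  have h4 : |(kk * kk) - (4254933619856565240139108659 / 10 ^ 30 : ℝ)| ≤ (67 / 10 ^ 26 : ℝ) :=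
    bmul (A := (66 / 10 ^ 3 : ℝ)) (B := (66 / 10 ^ 3 : ℝ)) hk hk (by norm_num)
  have h5 : |(q2 * (kk * kk)) - (41143488282438781327701550557 / 10 ^ 30 : ℝ)| ≤ (69 / 10 ^ 25 : ℝ) :=
    bmul (A := (10 : ℝ)) (B := (43 / 10 ^ 4 : ℝ)) hq2 h4 (by norm_num)
  have h6 : |(((0 : ℝ) - (pe * mm)) - (q2 * (kk * kk))) - (633325334719411365242272616155805 / 10 ^ 30 : ℝ)| ≤ (77 / 10 ^ 23 : ℝ) :=
    bsub h3 h5 (by norm_num)
  have he : tN2 = (((0 : ℝ) - (pe * mm)) - (q2 * (kk * kk))) := by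
    unfold tN2; ring
  rw [he]
  exact h6

theorem ss_ball : |ss - (39639567618958541902703905605 / 10 ^ 30 : ℝ)| ≤ (79 / 10 ^ 27 : ℝ) := by
  have hk := kk_ball
  have hpb := pb_ball
  have hpe := pe_ball
  have hlam := lam_ball
  have hmm := mm_ball
  have hq2 := q2_ball
  have hc0 := c0_ball
  have hkap := kap_ball
  have hM0 := MM0_ball
  have hMd := Md_ball
  have h1 : |(39639567618958541902703905605 / 10 ^ 30 : ℝ) - (39639567618958541902703905605 / 10 ^ 30 : ℝ)| ≤ (0 : ℝ) :=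
    bcon
  have h2 : |((39639567618958541902703905605 / 10 ^ 30 : ℝ) * mm) - (1004254933619856565240139108656 / 10 ^ 30 : ℝ)| ≤ (13 / 10 ^ 25 : ℝ) :=
    bmul (A := (4 / 10 ^ 2 : ℝ)) (B := (26 : ℝ)) h1 hmm (by norm_num)
  have h3 : |(c0 - ((39639567618958541902703905605 / 10 ^ 30 : ℝ) * mm)) - (3 / 10 ^ 30 : ℝ)| ≤ (2 / 10 ^ 24 : ℝ) :=
    bsub hc0 h2 (by norm_num)
  have h4 : |(c0 / mm) - (39639567618958541902703905605 / 10 ^ 30 : ℝ)| ≤ (79 / 10 ^ 27 : ℝ) :=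
    bdiv (m := (2533 / 10 ^ 2 : ℝ)) h3 hmm (by norm_num)
  have he : ss = (c0 / mm) := by
    rfl
  rw [he]
  exact h4

theorem rr_ball : |rr - (381674596699254357112220391011 / 10 ^ 30 : ℝ)| ≤ (16 / 10 ^ 25 : ℝ) := by
  have hk := kk_ball
  have hpb := pb_ball
  have hpe := pe_ball
  have hlam := lam_ball
  have hmm := mm_ball
  have hq2 := q2_ball
  have hc0 := c0_ball
  have hkap := kap_ball
  have hM0 := MM0_ball
  have hMd := Md_ball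
  have h1 : |(381674596699254357112220391011 / 10 ^ 30 : ℝ) - (381674596699254357112220391011 / 10 ^ 30 : ℝ)| ≤ (0 : ℝ) :=
    bcon
  have h2 : |((381674596699254357112220391011 / 10 ^ 30 : ℝ) * mm) - (9669595805310292356567507288492 / 10 ^ 30 : ℝ)| ≤ (12 / 10 ^ 24 : ℝ) :=
    bmul (A := (39 / 10 ^ 2 : ℝ)) (B := (26 : ℝ)) h1 hmm (by norm_num)
  have h3 : |(q2 - ((381674596699254357112220391011 / 10 ^ 30 : ℝ) * mm)) - (1 / 10 ^ 30 : ℝ)| ≤ (39 / 10 ^ 24 : ℝ) :=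
    bsub hq2 h2 (by norm_num)
  have h4 : |(q2 / mm) - (381674596699254357112220391011 / 10 ^ 30 : ℝ)| ≤ (16 / 10 ^ 25 : ℝ) :=
    bdiv (m := (2533 / 10 ^ 2 : ℝ)) h3 hmm (by norm_num)
  have he : rr = (q2 / mm) := by
    rfl
  rw [he]
  exact h4

theorem rho_ball : |rho - (70600070260179371796859536294065 / 10 ^ 30 : ℝ)| ≤ (62 / 10 ^ 22 : ℝ) := by
  have hk := kk_ball
  have hpb := pb_ball
  have hpe := pe_ball
  have hlam := lam_ball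
  have hmm := mm_ball
  have hq2 := q2_ball
  have hc0 := c0_ball
  have hkap := kap_ball
  have hM0 := MM0_ball
  have hMd := Md_ball
  have h1 : |(mm - c0) - (24330404194688807643432492711507 / 10 ^ 30 : ℝ)| ≤ (31 / 10 ^ 24 : ℝ) :=
    bsub hmm hc0 (by norm_num)
  have h2 : |(kap * (mm - c0)) - (70900468872693644649024542860809 / 10 ^ 30 : ℝ)| ≤ (61 / 10 ^ 22 : ℝ) :=
    bmul (A := (3 : ℝ)) (B := (25 : ℝ)) hkap h1 (by norm_num)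
  have h3 : |(70600070260179371796859536294065 / 10 ^ 30 : ℝ) - (70600070260179371796859536294065 / 10 ^ 30 : ℝ)| ≤ (0 : ℝ) :=
    bcon
  have h4 : |((70600070260179371796859536294065 / 10 ^ 30 : ℝ) * c0) - (70900468872693644649024542860809 / 10 ^ 30 : ℝ)| ≤ (49 / 10 ^ 24 : ℝ) :=
    bmul (A := (71 : ℝ)) (B := (2 : ℝ)) h3 hc0 (by norm_num)
  have h5 : |((kap * (mm - c0)) - ((70600070260179371796859536294065 / 10 ^ 30 : ℝ) * c0)) - (0 : ℝ)| ≤ (62 / 10 ^ 22 : ℝ) :=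
    bsub h2 h4 (by norm_num)
  have h6 : |((kap * (mm - c0)) / c0) - (70600070260179371796859536294065 / 10 ^ 30 : ℝ)| ≤ (62 / 10 ^ 22 : ℝ) :=
    bdiv (m := (1 : ℝ)) h5 hc0 (by norm_num)
  have he : rho = ((kap * (mm - c0)) / c0) := by
    exact rho_eq
  rw [he]
  exact h6

/-- `T₁` -/
def tT1 : ℝ := ((((Md * ((c0 * tN1) - ((c0 + mm) * c0))) - ((mm + q2) * ((MM 0 * tN1) + ((Md - MM 0) * c0)))) + (((MM 0 * c0) * tN1) + (((Md * c0) - (MM 0 * mm)) * c0))) - ((tN1 * (((Md * c0) - (MM 0 * mm)) - (MM 0 * c0))) + ((2 : ℝ) * (tN2 * (MM 0 * c0)))))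

/-- `T₂` -/
def tT2 : ℝ := ((((Md * (((c0 * tN2) - ((c0 + mm) * tN1)) + (mm * c0))) - ((mm + q2) * (((MM 0 * tN2) + ((Md - MM 0) * tN1)) - (Md * c0)))) + ((((MM 0 * c0) * tN2) + (((Md * c0) - (MM 0 * mm)) * tN1)) - ((Md * mm) * c0))) - ((tN1 * (((MM 0 * mm) - (Md * mm)) - (Md * c0))) + ((2 : ℝ) * (tN2 * (((Md * c0) - (MM 0 * mm)) - (MM 0 * c0))))))

/-- `T₃` -/
def tT3 : ℝ := ((((Md * ((mm * tN1) - ((c0 + mm) * tN2))) - ((mm + q2) * (((Md - MM 0) * tN2) - (Md * tN1)))) + ((((Md * c0) - (MM 0 * mm)) * tN2) - ((Md * mm) * tN1))) - ((tN1 * (Md * mm)) + ((2 : ℝ) * (tN2 * (((MM 0 * mm) - (Md * mm)) - (Md * c0))))))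

/-- `T₄` -/
def tT4 : ℝ := (((q2 - mm) * Md) * tN2)

/-- `T₁ - i₀ M₀³` -/
def tE1 : ℝ := tT1 - i0 * MM 0 ^ 3

/-- coefficient of `s²` of the error -/
def tE2 : ℝ := tT2 - 3 * i0 * MM 0 ^ 2 * Md

/-- coefficient of `s³` of the error -/
def tE3 : ℝ := tT3 - 3 * i0 * MM 0 * Md ^ 2 + 3 / 2 * C3 * rho ^ 2 * MM 0

/-- coefficient of `s⁴` of the error -/
def tE4 : ℝ := tT4 - i0 * Md ^ 3 - C3 * rho ^ 3 + 3 / 2 * C3 * rho ^ 2 * Md

theorem e1_ball : |tE1 - (-173676984339 / 10 ^ 30 : ℝ)| ≤ (22 / 10 ^ 19 : ℝ) := by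
  have hk := kk_ball
  have hpb := pb_ball
  have hpe := pe_ball
  have hlam := lam_ball
  have hmm := mm_ball
  have hq2 := q2_ball
  have hc0 := c0_ball
  have hkap := kap_ball
  have hM0 := MM0_ball
  have hMd := Md_ball
  have hN1 := tN1_ball
  have hN2 := tN2_ball
  have hrho := rho_ball
  have h1 : |(mm + q2) - (35004254933618956565240139108659 / 10 ^ 30 : ℝ)| ≤ (57 / 10 ^ 24 : ℝ) :=
    badd hmm hq2 (by norm_num)
  have h2 : |(c0 + mm) - (26338914061928520773912770928825 / 10 ^ 30 : ℝ)| ≤ (31 / 10 ^ 24 : ℝ) :=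
    badd hc0 hmm (by norm_num)
  have h3 : |(Md - MM 0) - (-137522707672698724584205359528034 / 10 ^ 30 : ℝ)| ≤ (62 / 10 ^ 23 : ℝ) :=
    bsub hMd hM0 (by norm_num)
  have h4 : |(MM 0 * c0) - (7969107708831999472858997779599 / 10 ^ 30 : ℝ)| ≤ (49 / 10 ^ 23 : ℝ) :=
    bmul (A := (8 : ℝ)) (B := (2 : ℝ)) hM0 hc0 (by norm_num)
  have h5 : |(Md * c0) - (-130138749956236997334160364553008 / 10 ^ 30 : ℝ)| ≤ (85 / 10 ^ 23 : ℝ) :=
    bmul (A := (130 : ℝ)) (B := (2 : ℝ)) hMd hc0 (by norm_num)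
  have h6 : |(MM 0 * mm) - (201039218828930641983184907413807 / 10 ^ 30 : ℝ)| ≤ (65 / 10 ^ 22 : ℝ) :=
    bmul (A := (8 : ℝ)) (B := (26 : ℝ)) hM0 hmm (by norm_num)
  have h7 : |(Md * mm) - (-328305170246093007493632263320206 / 10 ^ 29 : ℝ)| ≤ (14 / 10 ^ 21 : ℝ) :=
    bmul (A := (130 : ℝ)) (B := (26 : ℝ)) hMd hmm (by norm_num)
  have h8 : |((Md * c0) - (MM 0 * mm)) - (-331177968785167639317345271966815 / 10 ^ 30 : ℝ)| ≤ (74 / 10 ^ 22 : ℝ) :=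
    bsub h5 h6 (by norm_num)
  have h9 : |(((Md * c0) - (MM 0 * mm)) - (MM 0 * c0)) - (-339147076493999638790204269746414 / 10 ^ 30 : ℝ)| ≤ (79 / 10 ^ 22 : ℝ) :=
    bsub h8 h4 (by norm_num)
  have h10 : |((MM 0 * mm) - (Md * mm)) - (3484090921289860716919507540615867 / 10 ^ 30 : ℝ)| ≤ (21 / 10 ^ 21 : ℝ) :=
    bsub h6 h7 (by norm_num)
  have h11 : |(((MM 0 * mm) - (Md * mm)) - (Md * c0)) - (3614229671246097714253667905168875 / 10 ^ 30 : ℝ)| ≤ (22 / 10 ^ 21 : ℝ) :=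
    bsub h10 h5 (by norm_num)
  have h12 : |(c0 * tN1) - (-50614337162581996091428899890123 / 10 ^ 30 : ℝ)| ≤ (15 / 10 ^ 23 : ℝ) :=
    bmul (A := (2 : ℝ)) (B := (51 : ℝ)) hc0 hN1 (by norm_num)
  have h13 : |((c0 + mm) * c0) - (26450984392881133283177091425298 / 10 ^ 30 : ℝ)| ≤ (81 / 10 ^ 24 : ℝ) :=
    bmul (A := (27 : ℝ)) (B := (2 : ℝ)) h2 hc0 (by norm_num)
  have h14 : |((c0 * tN1) - ((c0 + mm) * c0)) - (-77065321555463129374605991315421 / 10 ^ 30 : ℝ)| ≤ (24 / 10 ^ 23 : ℝ) :=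
    bsub h12 h13 (by norm_num)
  have h15 : |(Md * ((c0 * tN1) - ((c0 + mm) * c0))) - (9986691901082352876336392835857877 / 10 ^ 30 : ℝ)| ≤ (61 / 10 ^ 21 : ℝ) :=
    bmul (A := (130 : ℝ)) (B := (78 : ℝ)) hMd h14 (by norm_num)
  have h16 : |(MM 0 * tN1) - (-399940423843600885452008184119516 / 10 ^ 30 : ℝ)| ≤ (13 / 10 ^ 21 : ℝ) :=
    bmul (A := (8 : ℝ)) (B := (51 : ℝ)) hM0 hN1 (by norm_num)
  have h17 : |((Md - MM 0) * c0) - (-138107857665068996807019362332607 / 10 ^ 30 : ℝ)| ≤ (14 / 10 ^ 22 : ℝ) :=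
    bmul (A := (138 : ℝ)) (B := (2 : ℝ)) h3 hc0 (by norm_num)
  have h18 : |((MM 0 * tN1) + ((Md - MM 0) * c0)) - (-538048281508669882259027546452123 / 10 ^ 30 : ℝ)| ≤ (15 / 10 ^ 21 : ℝ) :=
    badd h16 h17 (by norm_num)
  have h19 : |((mm + q2) * ((MM 0 * tN1) + ((Md - MM 0) * c0))) - (-18833979212525058924590059939458614 / 10 ^ 30 : ℝ)| ≤ (58 / 10 ^ 20 : ℝ) :=
    bmul (A := (36 : ℝ)) (B := (539 : ℝ)) h1 h18 (by norm_num)
  have h20 : |((Md * ((c0 * tN1) - ((c0 + mm) * c0))) - ((mm + q2) * ((MM 0 * tN1) + ((Md - MM 0) * c0)))) - (28820671113607411800926452775316491 / 10 ^ 30 : ℝ)| ≤ (65 / 10 ^ 20 : ℝ) :=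
    bsub h15 h19 (by norm_num)
  have h21 : |((MM 0 * c0) * tN1) - (-401642143798952707122727032644142 / 10 ^ 30 : ℝ)| ≤ (26 / 10 ^ 21 : ℝ) :=
    bmul (A := (8 : ℝ)) (B := (51 : ℝ)) h4 hN1 (by norm_num)
  have h22 : |(((Md * c0) - (MM 0 * mm)) * c0) - (-332587109058707457230788759924877 / 10 ^ 30 : ℝ)| ≤ (16 / 10 ^ 21 : ℝ) :=
    bmul (A := (332 : ℝ)) (B := (2 : ℝ)) h8 hc0 (by norm_num)
  have h23 : |(((MM 0 * c0) * tN1) + (((Md * c0) - (MM 0 * mm)) * c0)) - (-734229252857660164353515792569019 / 10 ^ 30 : ℝ)| ≤ (42 / 10 ^ 21 : ℝ) :=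
    badd h21 h22 (by norm_num)
  have h24 : |(((Md * ((c0 * tN1) - ((c0 + mm) * c0))) - ((mm + q2) * ((MM 0 * tN1) + ((Md - MM 0) * c0)))) + (((MM 0 * c0) * tN1) + (((Md * c0) - (MM 0 * mm)) * c0))) - (28086441860749751636572936982747472 / 10 ^ 30 : ℝ)| ≤ (7 / 10 ^ 19 : ℝ) :=
    badd h20 h23 (by norm_num)
  have h25 : |(tN1 * (((Md * c0) - (MM 0 * mm)) - (MM 0 * c0))) - (17092975003366094578348061752496473 / 10 ^ 30 : ℝ)| ≤ (43 / 10 ^ 20 : ℝ) :=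
    bmul (A := (51 : ℝ)) (B := (340 : ℝ)) hN1 h9 (by norm_num)
  have h26 : |(2 : ℝ) - (2 : ℝ)| ≤ (0 : ℝ) :=
    bcon
  have h27 : |(tN2 * (MM 0 * c0)) - (5047037807111067472609796573164689 / 10 ^ 30 : ℝ)| ≤ (32 / 10 ^ 20 : ℝ) :=
    bmul (A := (634 : ℝ)) (B := (8 : ℝ)) hN2 h4 (by norm_num)
  have h28 : |((2 : ℝ) * (tN2 * (MM 0 * c0))) - (10094075614222134945219593146329378 / 10 ^ 30 : ℝ)| ≤ (96 / 10 ^ 20 : ℝ) :=
    bmul (A := (3 : ℝ)) (B := (5048 : ℝ)) h26 h27 (by norm_num)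
  have h29 : |((tN1 * (((Md * c0) - (MM 0 * mm)) - (MM 0 * c0))) + ((2 : ℝ) * (tN2 * (MM 0 * c0)))) - (27187050617588229523567654898825851 / 10 ^ 30 : ℝ)| ≤ (14 / 10 ^ 19 : ℝ) :=
    badd h25 h28 (by norm_num)
  have h30 : |((((Md * ((c0 * tN1) - ((c0 + mm) * c0))) - ((mm + q2) * ((MM 0 * tN1) + ((Md - MM 0) * c0)))) + (((MM 0 * c0) * tN1) + (((Md * c0) - (MM 0 * mm)) * c0))) - ((tN1 * (((Md * c0) - (MM 0 * mm)) - (MM 0 * c0))) + ((2 : ℝ) * (tN2 * (MM 0 * c0))))) - (899391243161522113005282083921621 / 10 ^ 30 : ℝ)| ≤ (21 / 10 ^ 19 : ℝ) :=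
    bsub h24 h29 (by norm_num)
  have h31 : |(1799912887733554459936719658 / 10 ^ 27 : ℝ) - (1799912887733554459936719658 / 10 ^ 27 : ℝ)| ≤ (0 : ℝ) :=
    bcon
  have h32 : |(MM 0 * MM 0) - (62969674076494209930300385191444 / 10 ^ 30 : ℝ)| ≤ (39 / 10 ^ 22 : ℝ) :=
    bmul (A := (8 : ℝ)) (B := (8 : ℝ)) hM0 hM0 (by norm_num)
  have h33 : |((MM 0 * MM 0) * MM 0) - (49968598441118624568898923410858 / 10 ^ 29 : ℝ)| ≤ (47 / 10 ^ 21 : ℝ) :=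
    bmul (A := (63 : ℝ)) (B := (8 : ℝ)) h32 hM0 (by norm_num)
  have h34 : |((1799912887733554459936719658 / 10 ^ 27 : ℝ) * ((MM 0 * MM 0) * MM 0)) - (89939124316152211300545576090596 / 10 ^ 29 : ℝ)| ≤ (95 / 10 ^ 21 : ℝ) :=
    bmul (A := (2 : ℝ)) (B := (500 : ℝ)) h31 h33 (by norm_num)
  have h35 : |(((((Md * ((c0 * tN1) - ((c0 + mm) * c0))) - ((mm + q2) * ((MM 0 * tN1) + ((Md - MM 0) * c0)))) + (((MM 0 * c0) * tN1) + (((Md * c0) - (MM 0 * mm)) * c0))) - ((tN1 * (((Md * c0) - (MM 0 * mm)) - (MM 0 * c0))) + ((2 : ℝ) * (tN2 * (MM 0 * c0))))) - ((1799912887733554459936719658 / 10 ^ 27 : ℝ) * ((MM 0 * MM 0) * MM 0))) - (-173676984339 / 10 ^ 30 : ℝ)| ≤ (22 / 10 ^ 19 : ℝ) :=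
    bsub h30 h34 (by norm_num)
  have he : tE1 = (((((Md * ((c0 * tN1) - ((c0 + mm) * c0))) - ((mm + q2) * ((MM 0 * tN1) + ((Md - MM 0) * c0)))) + (((MM 0 * c0) * tN1) + (((Md * c0) - (MM 0 * mm)) * c0))) - ((tN1 * (((Md * c0) - (MM 0 * mm)) - (MM 0 * c0))) + ((2 : ℝ) * (tN2 * (MM 0 * c0))))) - ((1799912887733554459936719658 / 10 ^ 27 : ℝ) * ((MM 0 * MM 0) * MM 0))) := by
    unfold tE1 tT1 i0; ring
  rw [he]
  exact h35

theorem e2_ball : |tE2 - (-954042183435213755451 / 10 ^ 30 : ℝ)| ≤ (33 / 10 ^ 18 : ℝ) := by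
  have hk := kk_ball
  have hpb := pb_ball
  have hpe := pe_ball
  have hlam := lam_ball
  have hmm := mm_ball
  have hq2 := q2_ball
  have hc0 := c0_ball
  have hkap := kap_ball
  have hM0 := MM0_ball
  have hMd := Md_ball
  have hN1 := tN1_ball
  have hN2 := tN2_ball
  have hrho := rho_ball
  have h1 : |(mm + q2) - (35004254933618956565240139108659 / 10 ^ 30 : ℝ)| ≤ (57 / 10 ^ 24 : ℝ) :=
    badd hmm hq2 (by norm_num)
  have h2 : |(c0 + mm) - (26338914061928520773912770928825 / 10 ^ 30 : ℝ)| ≤ (31 / 10 ^ 24 : ℝ) :=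
    badd hc0 hmm (by norm_num)
  have h3 : |(Md - MM 0) - (-137522707672698724584205359528034 / 10 ^ 30 : ℝ)| ≤ (62 / 10 ^ 23 : ℝ) :=
    bsub hMd hM0 (by norm_num)
  have h4 : |(MM 0 * c0) - (7969107708831999472858997779599 / 10 ^ 30 : ℝ)| ≤ (49 / 10 ^ 23 : ℝ) :=
    bmul (A := (8 : ℝ)) (B := (2 : ℝ)) hM0 hc0 (by norm_num)
  have h5 : |(Md * c0) - (-130138749956236997334160364553008 / 10 ^ 30 : ℝ)| ≤ (85 / 10 ^ 23 : ℝ) :=
    bmul (A := (130 : ℝ)) (B := (2 : ℝ)) hMd hc0 (by norm_num)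
  have h6 : |(MM 0 * mm) - (201039218828930641983184907413807 / 10 ^ 30 : ℝ)| ≤ (65 / 10 ^ 22 : ℝ) :=
    bmul (A := (8 : ℝ)) (B := (26 : ℝ)) hM0 hmm (by norm_num)
  have h7 : |(Md * mm) - (-328305170246093007493632263320206 / 10 ^ 29 : ℝ)| ≤ (14 / 10 ^ 21 : ℝ) :=
    bmul (A := (130 : ℝ)) (B := (26 : ℝ)) hMd hmm (by norm_num)
  have h8 : |((Md * c0) - (MM 0 * mm)) - (-331177968785167639317345271966815 / 10 ^ 30 : ℝ)| ≤ (74 / 10 ^ 22 : ℝ) :=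
    bsub h5 h6 (by norm_num)
  have h9 : |(((Md * c0) - (MM 0 * mm)) - (MM 0 * c0)) - (-339147076493999638790204269746414 / 10 ^ 30 : ℝ)| ≤ (79 / 10 ^ 22 : ℝ) :=
    bsub h8 h4 (by norm_num)
  have h10 : |((MM 0 * mm) - (Md * mm)) - (3484090921289860716919507540615867 / 10 ^ 30 : ℝ)| ≤ (21 / 10 ^ 21 : ℝ) :=
    bsub h6 h7 (by norm_num)
  have h11 : |(((MM 0 * mm) - (Md * mm)) - (Md * c0)) - (3614229671246097714253667905168875 / 10 ^ 30 : ℝ)| ≤ (22 / 10 ^ 21 : ℝ) :=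
    bsub h10 h5 (by norm_num)
  have h12 : |(c0 * tN2) - (636020091978415901059552763957 / 10 ^ 27 : ℝ)| ≤ (2 / 10 ^ 21 : ℝ) :=
    bmul (A := (2 : ℝ)) (B := (634 : ℝ)) hc0 hN2 (by norm_num)
  have h13 : |((c0 + mm) * tN1) - (-1327478344588700244227576736725817 / 10 ^ 30 : ℝ)| ≤ (31 / 10 ^ 22 : ℝ) :=
    bmul (A := (27 : ℝ)) (B := (51 : ℝ)) h2 hN1 (by norm_num)
  have h14 : |((c0 * tN2) - ((c0 + mm) * tN1)) - (1963498436567116145287129500682817 / 10 ^ 30 : ℝ)| ≤ (51 / 10 ^ 22 : ℝ) :=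
    bsub h12 h13 (by norm_num)
  have h15 : |(mm * c0) - (25442456421181310767003177204872 / 10 ^ 30 : ℝ)| ≤ (78 / 10 ^ 24 : ℝ) :=
    bmul (A := (26 : ℝ)) (B := (2 : ℝ)) hmm hc0 (by norm_num)
  have h16 : |(((c0 * tN2) - ((c0 + mm) * tN1)) + (mm * c0)) - (1988940892988297456054132677887689 / 10 ^ 30 : ℝ)| ≤ (52 / 10 ^ 22 : ℝ) :=
    badd h14 h15 (by norm_num)
  have h17 : |(Md * (((c0 * tN2) - ((c0 + mm) * tN1)) + (mm * c0))) - (-257741608116727012413207700301105941 / 10 ^ 30 : ℝ)| ≤ (15 / 10 ^ 19 : ℝ) :=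
    bmul (A := (130 : ℝ)) (B := (1989 : ℝ)) hMd h16 (by norm_num)
  have h18 : |(MM 0 * tN2) - (5025653983016962543126962928782642 / 10 ^ 30 : ℝ)| ≤ (16 / 10 ^ 20 : ℝ) :=
    bmul (A := (8 : ℝ)) (B := (634 : ℝ)) hM0 hN2 (by norm_num)
  have h19 : |((Md - MM 0) * tN1) - (693112919900476040616058469934165 / 10 ^ 29 : ℝ)| ≤ (4 / 10 ^ 20 : ℝ) :=
    bmul (A := (138 : ℝ)) (B := (51 : ℝ)) h3 hN1 (by norm_num)
  have h20 : |((MM 0 * tN2) + ((Md - MM 0) * tN1)) - (11956783182021722949287547628124292 / 10 ^ 30 : ℝ)| ≤ (2 / 10 ^ 19 : ℝ) :=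
    badd h18 h19 (by norm_num)
  have h21 : |(((MM 0 * tN2) + ((Md - MM 0) * tN1)) - (Md * c0)) - (120869219319779599466217079926773 / 10 ^ 28 : ℝ)| ≤ (21 / 10 ^ 20 : ℝ) :=
    bsub h20 h5 (by norm_num)
  have h22 : |((mm + q2) * (((MM 0 * tN2) + ((Md - MM 0) * tN1)) - (Md * c0))) - (423093696669706674592152123091004568 / 10 ^ 30 : ℝ)| ≤ (83 / 10 ^ 19 : ℝ) :=
    bmul (A := (36 : ℝ)) (B := (12087 : ℝ)) h1 h21 (by norm_num)
  have h23 : |((Md * (((c0 * tN2) - ((c0 + mm) * tN1)) + (mm * c0))) - ((mm + q2) * (((MM 0 * tN2) + ((Md - MM 0) * tN1)) - (Md * c0)))) - (-680835304786433687005359823392110509 / 10 ^ 30 : ℝ)| ≤ (98 / 10 ^ 19 : ℝ) :=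
    bsub h17 h22 (by norm_num)
  have h24 : |((MM 0 * c0) * tN2) - (5047037807111067472609796573164689 / 10 ^ 30 : ℝ)| ≤ (32 / 10 ^ 20 : ℝ) :=
    bmul (A := (8 : ℝ)) (B := (634 : ℝ)) h4 hN2 (by norm_num)
  have h25 : |(((Md * c0) - (MM 0 * mm)) * tN1) - (16691332859567141871225334719852331 / 10 ^ 30 : ℝ)| ≤ (4 / 10 ^ 19 : ℝ) :=
    bmul (A := (332 : ℝ)) (B := (51 : ℝ)) h8 hN1 (by norm_num)
  have h26 : |(((MM 0 * c0) * tN2) + (((Md * c0) - (MM 0 * mm)) * tN1)) - (2173837066667820934383513129301702 / 10 ^ 29 : ℝ)| ≤ (72 / 10 ^ 20 : ℝ) :=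
    badd h24 h25 (by norm_num)
  have h27 : |((Md * mm) * c0) - (-329702086952545841931608493773832 / 10 ^ 29 : ℝ)| ≤ (31 / 10 ^ 21 : ℝ) :=
    bmul (A := (3284 : ℝ)) (B := (2 : ℝ)) h7 hc0 (by norm_num)
  have h28 : |((((MM 0 * c0) * tN2) + (((Md * c0) - (MM 0 * mm)) * tN1)) - ((Md * mm) * c0)) - (2503539153620366776315121623075534 / 10 ^ 29 : ℝ)| ≤ (76 / 10 ^ 20 : ℝ) :=
    bsub h26 h27 (by norm_num)
  have h29 : |(((Md * (((c0 * tN2) - ((c0 + mm) * tN1)) + (mm * c0))) - ((mm + q2) * (((MM 0 * tN2) + ((Md - MM 0) * tN1)) - (Md * c0)))) + ((((MM 0 * c0) * tN2) + (((Md * c0) - (MM 0 * mm)) * tN1)) - ((Md * mm) * c0))) - (-655799913250230019242208607161355169 / 10 ^ 30 : ℝ)| ≤ (11 / 10 ^ 18 : ℝ) :=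
    badd h23 h28 (by norm_num)
  have h30 : |(tN1 * (((MM 0 * mm) - (Md * mm)) - (Md * c0))) - (-182156774180910895808585672528616788 / 10 ^ 30 : ℝ)| ≤ (14 / 10 ^ 19 : ℝ) :=
    bmul (A := (51 : ℝ)) (B := (3615 : ℝ)) hN1 h11 (by norm_num)
  have h31 : |(2 : ℝ) - (2 : ℝ)| ≤ (0 : ℝ) :=
    bcon
  have h32 : |(tN2 * (((Md * c0) - (MM 0 * mm)) - (MM 0 * c0))) - (-214790435739672131551159219000735755 / 10 ^ 30 : ℝ)| ≤ (53 / 10 ^ 19 : ℝ) :=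
    bmul (A := (634 : ℝ)) (B := (340 : ℝ)) hN2 h9 (by norm_num)
  have h33 : |((2 : ℝ) * (tN2 * (((Md * c0) - (MM 0 * mm)) - (MM 0 * c0)))) - (-42958087147934426310231843800147151 / 10 ^ 29 : ℝ)| ≤ (16 / 10 ^ 18 : ℝ) :=
    bmul (A := (3 : ℝ)) (B := (214791 : ℝ)) h31 h32 (by norm_num)
  have h34 : |((tN1 * (((MM 0 * mm) - (Md * mm)) - (Md * c0))) + ((2 : ℝ) * (tN2 * (((Md * c0) - (MM 0 * mm)) - (MM 0 * c0))))) - (-611737645660255158910904110530088298 / 10 ^ 30 : ℝ)| ≤ (18 / 10 ^ 18 : ℝ) :=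
    badd h30 h33 (by norm_num)
  have h35 : |((((Md * (((c0 * tN2) - ((c0 + mm) * tN1)) + (mm * c0))) - ((mm + q2) * (((MM 0 * tN2) + ((Md - MM 0) * tN1)) - (Md * c0)))) + ((((MM 0 * c0) * tN2) + (((Md * c0) - (MM 0 * mm)) * tN1)) - ((Md * mm) * c0))) - ((tN1 * (((MM 0 * mm) - (Md * mm)) - (Md * c0))) + ((2 : ℝ) * (tN2 * (((Md * c0) - (MM 0 * mm)) - (MM 0 * c0)))))) - (-44062267589974860331304496631266871 / 10 ^ 30 : ℝ)| ≤ (29 / 10 ^ 18 : ℝ) :=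
    bsub h29 h34 (by norm_num)
  have h36 : |(5399738663200663379810158974 / 10 ^ 27 : ℝ) - (5399738663200663379810158974 / 10 ^ 27 : ℝ)| ≤ (0 : ℝ) :=
    bcon
  have h37 : |(MM 0 * MM 0) - (62969674076494209930300385191444 / 10 ^ 30 : ℝ)| ≤ (39 / 10 ^ 22 : ℝ) :=
    bmul (A := (8 : ℝ)) (B := (8 : ℝ)) hM0 hM0 (by norm_num)
  have h38 : |((MM 0 * MM 0) * Md) - (-8160074095855642012492955557284132 / 10 ^ 30 : ℝ)| ≤ (54 / 10 ^ 20 : ℝ) :=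
    bmul (A := (63 : ℝ)) (B := (130 : ℝ)) h37 hMd (by norm_num)
  have h39 : |((5399738663200663379810158974 / 10 ^ 27 : ℝ) * ((MM 0 * MM 0) * Md)) - (-4406226758997390628912106141751142 / 10 ^ 29 : ℝ)| ≤ (33 / 10 ^ 19 : ℝ) :=
    bmul (A := (6 : ℝ)) (B := (8161 : ℝ)) h36 h38 (by norm_num)
  have h40 : |(((((Md * (((c0 * tN2) - ((c0 + mm) * tN1)) + (mm * c0))) - ((mm + q2) * (((MM 0 * tN2) + ((Md - MM 0) * tN1)) - (Md * c0)))) + ((((MM 0 * c0) * tN2) + (((Md * c0) - (MM 0 * mm)) * tN1)) - ((Md * mm) * c0))) - ((tN1 * (((MM 0 * mm) - (Md * mm)) - (Md * c0))) + ((2 : ℝ) * (tN2 * (((Md * c0) - (MM 0 * mm)) - (MM 0 * c0)))))) - ((5399738663200663379810158974 / 10 ^ 27 : ℝ) * ((MM 0 * MM 0) * Md))) - (-954042183435213755451 / 10 ^ 30 : ℝ)| ≤ (33 / 10 ^ 18 : ℝ) :=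
    bsub h35 h39 (by norm_num)
  have he : tE2 = (((((Md * (((c0 * tN2) - ((c0 + mm) * tN1)) + (mm * c0))) - ((mm + q2) * (((MM 0 * tN2) + ((Md - MM 0) * tN1)) - (Md * c0)))) + ((((MM 0 * c0) * tN2) + (((Md * c0) - (MM 0 * mm)) * tN1)) - ((Md * mm) * c0))) - ((tN1 * (((MM 0 * mm) - (Md * mm)) - (Md * c0))) + ((2 : ℝ) * (tN2 * (((Md * c0) - (MM 0 * mm)) - (MM 0 * c0)))))) - ((5399738663200663379810158974 / 10 ^ 27 : ℝ) * ((MM 0 * MM 0) * Md))) := by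
    unfold tE2 tT2 i0; ring
  rw [he]
  exact h40

theorem e3_ball : |tE3 - (20861665107723810295613 / 10 ^ 30 : ℝ)| ≤ (19 / 10 ^ 17 : ℝ) := by
  have hk := kk_ball
  have hpb := pb_ball
  have hpe := pe_ball
  have hlam := lam_ball
  have hmm := mm_ball
  have hq2 := q2_ball
  have hc0 := c0_ball
  have hkap := kap_ball
  have hM0 := MM0_ball
  have hMd := Md_ball
  have hN1 := tN1_ball
  have hN2 := tN2_ball
  have hrho := rho_ball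
  have h1 : |(mm + q2) - (35004254933618956565240139108659 / 10 ^ 30 : ℝ)| ≤ (57 / 10 ^ 24 : ℝ) :=
    badd hmm hq2 (by norm_num)
  have h2 : |(c0 + mm) - (26338914061928520773912770928825 / 10 ^ 30 : ℝ)| ≤ (31 / 10 ^ 24 : ℝ) :=
    badd hc0 hmm (by norm_num)
  have h3 : |(Md - MM 0) - (-137522707672698724584205359528034 / 10 ^ 30 : ℝ)| ≤ (62 / 10 ^ 23 : ℝ) :=
    bsub hMd hM0 (by norm_num)
  have h4 : |(MM 0 * c0) - (7969107708831999472858997779599 / 10 ^ 30 : ℝ)| ≤ (49 / 10 ^ 23 : ℝ) :=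
    bmul (A := (8 : ℝ)) (B := (2 : ℝ)) hM0 hc0 (by norm_num)
  have h5 : |(Md * c0) - (-130138749956236997334160364553008 / 10 ^ 30 : ℝ)| ≤ (85 / 10 ^ 23 : ℝ) :=
    bmul (A := (130 : ℝ)) (B := (2 : ℝ)) hMd hc0 (by norm_num)
  have h6 : |(MM 0 * mm) - (201039218828930641983184907413807 / 10 ^ 30 : ℝ)| ≤ (65 / 10 ^ 22 : ℝ) :=
    bmul (A := (8 : ℝ)) (B := (26 : ℝ)) hM0 hmm (by norm_num)
  have h7 : |(Md * mm) - (-328305170246093007493632263320206 / 10 ^ 29 : ℝ)| ≤ (14 / 10 ^ 21 : ℝ) :=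
    bmul (A := (130 : ℝ)) (B := (26 : ℝ)) hMd hmm (by norm_num)
  have h8 : |((Md * c0) - (MM 0 * mm)) - (-331177968785167639317345271966815 / 10 ^ 30 : ℝ)| ≤ (74 / 10 ^ 22 : ℝ) :=
    bsub h5 h6 (by norm_num)
  have h9 : |(((Md * c0) - (MM 0 * mm)) - (MM 0 * c0)) - (-339147076493999638790204269746414 / 10 ^ 30 : ℝ)| ≤ (79 / 10 ^ 22 : ℝ) :=
    bsub h8 h4 (by norm_num)
  have h10 : |((MM 0 * mm) - (Md * mm)) - (3484090921289860716919507540615867 / 10 ^ 30 : ℝ)| ≤ (21 / 10 ^ 21 : ℝ) :=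
    bsub h6 h7 (by norm_num)
  have h11 : |(((MM 0 * mm) - (Md * mm)) - (Md * c0)) - (3614229671246097714253667905168875 / 10 ^ 30 : ℝ)| ≤ (22 / 10 ^ 21 : ℝ) :=
    bsub h10 h5 (by norm_num)
  have h12 : |(mm * tN1) - (-1276864007426118248136147836835694 / 10 ^ 30 : ℝ)| ≤ (3 / 10 ^ 21 : ℝ) :=
    bmul (A := (26 : ℝ)) (B := (51 : ℝ)) hmm hN1 (by norm_num)
  have h13 : |((c0 + mm) * tN2) - (1668110156441669122755513341424137 / 10 ^ 29 : ℝ)| ≤ (41 / 10 ^ 21 : ℝ) :=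
    bmul (A := (27 : ℝ)) (B := (634 : ℝ)) h2 hN2 (by norm_num)
  have h14 : |((mm * tN1) - ((c0 + mm) * tN2)) - (-17957965571842809475691281251077064 / 10 ^ 30 : ℝ)| ≤ (44 / 10 ^ 21 : ℝ) :=
    bsub h12 h13 (by norm_num)
  have h15 : |(Md * ((mm * tN1) - ((c0 + mm) * tN2))) - (2327125427059545200522190413943598769 / 10 ^ 30 : ℝ)| ≤ (13 / 10 ^ 18 : ℝ) :=
    bmul (A := (130 : ℝ)) (B := (17958 : ℝ)) hMd h14 (by norm_num)
  have h16 : |((Md - MM 0) * tN2) - (-87096614868331681307296019303259168 / 10 ^ 30 : ℝ)| ≤ (5 / 10 ^ 19 : ℝ) :=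
    bmul (A := (138 : ℝ)) (B := (634 : ℝ)) h3 hN2 (by norm_num)
  have h17 : |(Md * tN1) - (6531188775161159520708576515222134 / 10 ^ 30 : ℝ)| ≤ (27 / 10 ^ 21 : ℝ) :=
    bmul (A := (130 : ℝ)) (B := (51 : ℝ)) hMd hN1 (by norm_num)
  have h18 : |(((Md - MM 0) * tN2) - (Md * tN1)) - (-93627803643492840828004595818481302 / 10 ^ 30 : ℝ)| ≤ (53 / 10 ^ 20 : ℝ) :=
    bsub h16 h17 (by norm_num)
  have h19 : |((mm + q2) * (((Md - MM 0) * tN2) - (Md * tN1))) - (-3277371507611641190658018188399387012 / 10 ^ 30 : ℝ)| ≤ (25 / 10 ^ 18 : ℝ) :=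
    bmul (A := (36 : ℝ)) (B := (93628 : ℝ)) h1 h18 (by norm_num)
  have h20 : |((Md * ((mm * tN1) - ((c0 + mm) * tN2))) - ((mm + q2) * (((Md - MM 0) * tN2) - (Md * tN1)))) - (5604496934671186391180208602342985781 / 10 ^ 30 : ℝ)| ≤ (38 / 10 ^ 18 : ℝ) :=
    bsub h15 h19 (by norm_num)
  have h21 : |(((Md * c0) - (MM 0 * mm)) * tN2) - (-209743397932561064078549422427571066 / 10 ^ 30 : ℝ)| ≤ (5 / 10 ^ 18 : ℝ) :=
    bmul (A := (332 : ℝ)) (B := (634 : ℝ)) h8 hN2 (by norm_num)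
  have h22 : |((Md * mm) * tN1) - (165465441321343753937360337808764456 / 10 ^ 30 : ℝ)| ≤ (9 / 10 ^ 19 : ℝ) :=
    bmul (A := (3284 : ℝ)) (B := (51 : ℝ)) h7 hN1 (by norm_num)
  have h23 : |((((Md * c0) - (MM 0 * mm)) * tN2) - ((Md * mm) * tN1)) - (-375208839253904818015909760236335522 / 10 ^ 30 : ℝ)| ≤ (59 / 10 ^ 19 : ℝ) :=
    bsub h21 h22 (by norm_num)
  have h24 : |(((Md * ((mm * tN1) - ((c0 + mm) * tN2))) - ((mm + q2) * (((Md - MM 0) * tN2) - (Md * tN1)))) + ((((Md * c0) - (MM 0 * mm)) * tN2) - ((Md * mm) * tN1))) - (5229288095417281573164298842106650259 / 10 ^ 30 : ℝ)| ≤ (44 / 10 ^ 18 : ℝ) :=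
    badd h20 h23 (by norm_num)
  have h25 : |(tN1 * (Md * mm)) - (165465441321343753937360337808764456 / 10 ^ 30 : ℝ)| ≤ (9 / 10 ^ 19 : ℝ) :=
    bmul (A := (51 : ℝ)) (B := (3284 : ℝ)) hN1 h7 (by norm_num)
  have h26 : |(2 : ℝ) - (2 : ℝ)| ≤ (0 : ℝ) :=
    bcon
  have h27 : |(tN2 * (((MM 0 * mm) - (Md * mm)) - (Md * c0))) - (2288983216294762933166626072141496397 / 10 ^ 30 : ℝ)| ≤ (17 / 10 ^ 18 : ℝ) :=
    bmul (A := (634 : ℝ)) (B := (3615 : ℝ)) hN2 h11 (by norm_num)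
  have h28 : |((2 : ℝ) * (tN2 * (((MM 0 * mm) - (Md * mm)) - (Md * c0)))) - (4577966432589525866333252144282992794 / 10 ^ 30 : ℝ)| ≤ (51 / 10 ^ 18 : ℝ) :=
    bmul (A := (3 : ℝ)) (B := (2288984 : ℝ)) h26 h27 (by norm_num)
  have h29 : |((tN1 * (Md * mm)) + ((2 : ℝ) * (tN2 * (((MM 0 * mm) - (Md * mm)) - (Md * c0))))) - (474343187391086962027061248209175725 / 10 ^ 29 : ℝ)| ≤ (52 / 10 ^ 18 : ℝ) :=
    badd h25 h28 (by norm_num)
  have h30 : |((((Md * ((mm * tN1) - ((c0 + mm) * tN2))) - ((mm + q2) * (((Md - MM 0) * tN2) - (Md * tN1)))) + ((((Md * c0) - (MM 0 * mm)) * tN2) - ((Md * mm) * tN1))) - ((tN1 * (Md * mm)) + ((2 : ℝ) * (tN2 * (((MM 0 * mm) - (Md * mm)) - (Md * c0)))))) - (485856221506411952893686360014893009 / 10 ^ 30 : ℝ)| ≤ (96 / 10 ^ 18 : ℝ) :=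
    bsub h24 h29 (by norm_num)
  have h31 : |(5399738663200663379810158974 / 10 ^ 27 : ℝ) - (5399738663200663379810158974 / 10 ^ 27 : ℝ)| ≤ (0 : ℝ) :=
    bcon
  have h32 : |(Md * Md) - (16792884992200118212186378797435637 / 10 ^ 30 : ℝ)| ≤ (99 / 10 ^ 21 : ℝ) :=
    bmul (A := (130 : ℝ)) (B := (130 : ℝ)) hMd hMd (by norm_num)
  have h33 : |(MM 0 * (Md * Md)) - (133257308243932455747576077740598353 / 10 ^ 30 : ℝ)| ≤ (49 / 10 ^ 19 : ℝ) :=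
    bmul (A := (8 : ℝ)) (B := (16793 : ℝ)) hM0 h32 (by norm_num)
  have h34 : |((5399738663200663379810158974 / 10 ^ 27 : ℝ) * (MM 0 * (Md * Md))) - (719554639478810578317354762452785258 / 10 ^ 30 : ℝ)| ≤ (3 / 10 ^ 17 : ℝ) :=
    bmul (A := (6 : ℝ)) (B := (133258 : ℝ)) h31 h33 (by norm_num)
  have h35 : |(((((Md * ((mm * tN1) - ((c0 + mm) * tN2))) - ((mm + q2) * (((Md - MM 0) * tN2) - (Md * tN1)))) + ((((Md * c0) - (MM 0 * mm)) * tN2) - ((Md * mm) * tN1))) - ((tN1 * (Md * mm)) + ((2 : ℝ) * (tN2 * (((MM 0 * mm) - (Md * mm)) - (Md * c0)))))) - ((5399738663200663379810158974 / 10 ^ 27 : ℝ) * (MM 0 * (Md * Md)))) - (-233698417972398625423668402437892249 / 10 ^ 30 : ℝ)| ≤ (13 / 10 ^ 17 : ℝ) :=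
    bsub h30 h34 (by norm_num)
  have h36 : |(59085346016900898469941560235 / 10 ^ 28 : ℝ) - (59085346016900898469941560235 / 10 ^ 28 : ℝ)| ≤ (0 : ℝ) :=
    bcon
  have h37 : |(rho * rho) - (4984369920742263790521923593665527 / 10 ^ 30 : ℝ)| ≤ (89 / 10 ^ 20 : ℝ) :=
    bmul (A := (71 : ℝ)) (B := (71 : ℝ)) hrho hrho (by norm_num)
  have h38 : |((rho * rho) * MM 0) - (39552686702650754193990050184293541 / 10 ^ 30 : ℝ)| ≤ (84 / 10 ^ 19 : ℝ) :=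
    bmul (A := (4985 : ℝ)) (B := (8 : ℝ)) h37 hM0 (by norm_num)
  have h39 : |((59085346016900898469941560235 / 10 ^ 28 : ℝ) * ((rho * rho) * MM 0)) - (233698417972419487088776126248187862 / 10 ^ 30 : ℝ)| ≤ (51 / 10 ^ 18 : ℝ) :=
    bmul (A := (6 : ℝ)) (B := (39553 : ℝ)) h36 h38 (by norm_num)
  have h40 : |((((((Md * ((mm * tN1) - ((c0 + mm) * tN2))) - ((mm + q2) * (((Md - MM 0) * tN2) - (Md * tN1)))) + ((((Md * c0) - (MM 0 * mm)) * tN2) - ((Md * mm) * tN1))) - ((tN1 * (Md * mm)) + ((2 : ℝ) * (tN2 * (((MM 0 * mm) - (Md * mm)) - (Md * c0)))))) - ((5399738663200663379810158974 / 10 ^ 27 : ℝ) * (MM 0 * (Md * Md)))) + ((59085346016900898469941560235 / 10 ^ 28 : ℝ) * ((rho * rho) * MM 0))) - (20861665107723810295613 / 10 ^ 30 : ℝ)| ≤ (19 / 10 ^ 17 : ℝ) :=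
    badd h35 h39 (by norm_num)
  have he : tE3 = ((((((Md * ((mm * tN1) - ((c0 + mm) * tN2))) - ((mm + q2) * (((Md - MM 0) * tN2) - (Md * tN1)))) + ((((Md * c0) - (MM 0 * mm)) * tN2) - ((Md * mm) * tN1))) - ((tN1 * (Md * mm)) + ((2 : ℝ) * (tN2 * (((MM 0 * mm) - (Md * mm)) - (Md * c0)))))) - ((5399738663200663379810158974 / 10 ^ 27 : ℝ) * (MM 0 * (Md * Md)))) + ((59085346016900898469941560235 / 10 ^ 28 : ℝ) * ((rho * rho) * MM 0))) := by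
    unfold tE3 tT3 i0 C3; ring
  rw [he]
  exact h40

theorem e4_ball : |tE4 - (-561904160308995 / 10 ^ 30 : ℝ)| ≤ (12 / 10 ^ 16 : ℝ) := by
  have hk := kk_ball
  have hpb := pb_ball
  have hpe := pe_ball
  have hlam := lam_ball
  have hmm := mm_ball
  have hq2 := q2_ball
  have hc0 := c0_ball
  have hkap := kap_ball
  have hM0 := MM0_ball
  have hMd := Md_ball
  have hN1 := tN1_ball
  have hN2 := tN2_ball
  have hrho := rho_ball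
  have h1 : |(q2 - mm) - (-15665063322998371852105124531673 / 10 ^ 30 : ℝ)| ≤ (57 / 10 ^ 24 : ℝ) :=
    bsub hq2 hmm (by norm_num)
  have h2 : |((q2 - mm) * Md) - (2029994267981354175230253643517835 / 10 ^ 30 : ℝ)| ≤ (14 / 10 ^ 21 : ℝ) :=
    bmul (A := (16 : ℝ)) (B := (130 : ℝ)) h1 hMd (by norm_num)
  have h3 : |(((q2 - mm) * Md) * tN2) - (1285646799247777586562448739521626721 / 10 ^ 30 : ℝ)| ≤ (11 / 10 ^ 18 : ℝ) :=
    bmul (A := (2030 : ℝ)) (B := (634 : ℝ)) h2 hN2 (by norm_num)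
  have h4 : |(rho * rho) - (4984369920742263790521923593665527 / 10 ^ 30 : ℝ)| ≤ (89 / 10 ^ 20 : ℝ) :=
    bmul (A := (71 : ℝ)) (B := (71 : ℝ)) hrho hrho (by norm_num)
  have h5 : |(1799912887733554459936719658 / 10 ^ 27 : ℝ) - (1799912887733554459936719658 / 10 ^ 27 : ℝ)| ≤ (0 : ℝ) :=
    bcon
  have h6 : |(Md * Md) - (16792884992200118212186378797435637 / 10 ^ 30 : ℝ)| ≤ (99 / 10 ^ 21 : ℝ) :=
    bmul (A := (130 : ℝ)) (B := (130 : ℝ)) hMd hMd (by norm_num)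
  have h7 : |((Md * Md) * Md) - (-2176145705519654002854558011378289866 / 10 ^ 30 : ℝ)| ≤ (2 / 10 ^ 17 : ℝ) :=
    bmul (A := (16793 : ℝ)) (B := (130 : ℝ)) h6 hMd (by norm_num)
  have h8 : |((1799912887733554459936719658 / 10 ^ 27 : ℝ) * ((Md * Md) * Md)) - (-3916872700950853659275135318332575329 / 10 ^ 30 : ℝ)| ≤ (41 / 10 ^ 18 : ℝ) :=
    bmul (A := (2 : ℝ)) (B := (2176146 : ℝ)) h5 h7 (by norm_num)
  have h9 : |((((q2 - mm) * Md) * tN2) - ((1799912887733554459936719658 / 10 ^ 27 : ℝ) * ((Md * Md) * Md))) - (520251950019863124583758405785420205 / 10 ^ 29 : ℝ)| ≤ (52 / 10 ^ 18 : ℝ) :=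
    bsub h3 h8 (by norm_num)
  have h10 : |(3939023067793393231329437349 / 10 ^ 27 : ℝ) - (3939023067793393231329437349 / 10 ^ 27 : ℝ)| ≤ (0 : ℝ) :=
    bcon
  have h11 : |((rho * rho) * rho) - (351896866607128510351197892142273446 / 10 ^ 30 : ℝ)| ≤ (95 / 10 ^ 18 : ℝ) :=
    bmul (A := (4985 : ℝ)) (B := (71 : ℝ)) h4 hrho (by norm_num)
  have h12 : |((3939023067793393231329437349 / 10 ^ 27 : ℝ) * ((rho * rho) * rho)) - (1386129875049693820998850435546406031 / 10 ^ 30 : ℝ)| ≤ (39 / 10 ^ 17 : ℝ) :=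
    bmul (A := (4 : ℝ)) (B := (351897 : ℝ)) h10 h11 (by norm_num)
  have h13 : |(((((q2 - mm) * Md) * tN2) - ((1799912887733554459936719658 / 10 ^ 27 : ℝ) * ((Md * Md) * Md))) - ((3939023067793393231329437349 / 10 ^ 27 : ℝ) * ((rho * rho) * rho))) - (3816389625148937424838733622307796019 / 10 ^ 30 : ℝ)| ≤ (45 / 10 ^ 17 : ℝ) :=
    bsub h9 h12 (by norm_num)
  have h14 : |(59085346016900898469941560235 / 10 ^ 28 : ℝ) - (59085346016900898469941560235 / 10 ^ 28 : ℝ)| ≤ (0 : ℝ) :=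
    bcon
  have h15 : |((rho * rho) * Md) - (-645911360840180100125863431587211631 / 10 ^ 30 : ℝ)| ≤ (12 / 10 ^ 17 : ℝ) :=
    bmul (A := (4985 : ℝ)) (B := (130 : ℝ)) h4 hMd (by norm_num)
  have h16 : |((59085346016900898469941560235 / 10 ^ 28 : ℝ) * ((rho * rho) * Md)) - (-3816389625148937424839295526468105014 / 10 ^ 30 : ℝ)| ≤ (73 / 10 ^ 17 : ℝ) :=
    bmul (A := (6 : ℝ)) (B := (645912 : ℝ)) h14 h15 (by norm_num)
  have h17 : |((((((q2 - mm) * Md) * tN2) - ((1799912887733554459936719658 / 10 ^ 27 : ℝ) * ((Md * Md) * Md))) - ((3939023067793393231329437349 / 10 ^ 27 : ℝ) * ((rho * rho) * rho))) + ((59085346016900898469941560235 / 10 ^ 28 : ℝ) * ((rho * rho) * Md))) - (-561904160308995 / 10 ^ 30 : ℝ)| ≤ (12 / 10 ^ 16 : ℝ) :=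
    badd h13 h16 (by norm_num)
  have he : tE4 = ((((((q2 - mm) * Md) * tN2) - ((1799912887733554459936719658 / 10 ^ 27 : ℝ) * ((Md * Md) * Md))) - ((3939023067793393231329437349 / 10 ^ 27 : ℝ) * ((rho * rho) * rho))) + ((59085346016900898469941560235 / 10 ^ 28 : ℝ) * ((rho * rho) * Md))) := by
    unfold tE4 tT4 i0 C3; ring
  rw [he]
  exact h17

theorem e0lam_ball : |tE0l - (0 : ℝ)| ≤ (37 / 10 ^ 200 : ℝ) := by
  have hk := kk_ball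
  have hpb := pb_ball
  have hpe := pe_ball
  have hlam := lam_ball
  have hmm := mm_ball
  have hq2 := q2_ball
  have hc0 := c0_ball
  have hkap := kap_ball
  have hM0 := MM0_ball
  have hMd := Md_ball
  have hN1 := tN1_ball
  have hN2 := tN2_ball
  have hrho := rho_ball
  have h1 : |(kk * lam) - (0 : ℝ)| ≤ (67 / 10 ^ 203 : ℝ) :=
    bmul (A := (66 / 10 ^ 3 : ℝ)) (B := (0 : ℝ)) hk hlam (by norm_num)
  have h2 : |(pb * (kk * lam)) - (0 : ℝ)| ≤ (34 / 10 ^ 202 : ℝ) :=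
    bmul (A := (5 : ℝ)) (B := (0 : ℝ)) hpb h1 (by norm_num)
  have h3 : |(1 : ℝ) - (1 : ℝ)| ≤ (0 : ℝ) :=
    bcon
  have h4 : |((1 : ℝ) - pe) - (259999999999991 / 10 ^ 13 : ℝ)| ≤ (8 / 10 ^ 52 : ℝ) :=
    bsub h3 hpe (by norm_num)
  have h5 : |(((1 : ℝ) - pe) - q2) - (16330404194688807643432492711507 / 10 ^ 30 : ℝ)| ≤ (28 / 10 ^ 24 : ℝ) :=
    bsub h4 hq2 (by norm_num)
  have h6 : |((pb * (kk * lam)) * (((1 : ℝ) - pe) - q2)) - (0 : ℝ)| ≤ (58 / 10 ^ 201 : ℝ) :=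
    bmul (A := (0 : ℝ)) (B := (17 : ℝ)) h2 h5 (by norm_num)
  have h7 : |(c0 * ((pb * (kk * lam)) * (((1 : ℝ) - pe) - q2))) - (0 : ℝ)| ≤ (12 / 10 ^ 200 : ℝ) :=
    bmul (A := (2 : ℝ)) (B := (0 : ℝ)) hc0 h6 (by norm_num)
  have h8 : |(c0 * (c0 * ((pb * (kk * lam)) * (((1 : ℝ) - pe) - q2)))) - (0 : ℝ)| ≤ (25 / 10 ^ 200 : ℝ) :=
    bmul (A := (2 : ℝ)) (B := (0 : ℝ)) hc0 h7 (by norm_num)
  have h9 : |(q2 * (kk * lam)) - (0 : ℝ)| ≤ (68 / 10 ^ 202 : ℝ) :=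
    bmul (A := (10 : ℝ)) (B := (0 : ℝ)) hq2 h1 (by norm_num)
  have h10 : |(MM 0 * (q2 * (kk * lam))) - (0 : ℝ)| ≤ (55 / 10 ^ 201 : ℝ) :=
    bmul (A := (8 : ℝ)) (B := (0 : ℝ)) hM0 h9 (by norm_num)
  have h11 : |(c0 * (MM 0 * (q2 * (kk * lam)))) - (0 : ℝ)| ≤ (12 / 10 ^ 200 : ℝ) :=
    bmul (A := (2 : ℝ)) (B := (0 : ℝ)) hc0 h10 (by norm_num)
  have h12 : |((c0 * (c0 * ((pb * (kk * lam)) * (((1 : ℝ) - pe) - q2)))) + (c0 * (MM 0 * (q2 * (kk * lam))))) - (0 : ℝ)| ≤ (37 / 10 ^ 200 : ℝ) :=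
    badd h8 h11 (by norm_num)
  have he : tE0l = ((c0 * (c0 * ((pb * (kk * lam)) * (((1 : ℝ) - pe) - q2)))) + (c0 * (MM 0 * (q2 * (kk * lam))))) := by
    unfold tE0l; ring
  rw [he]
  exact h12

theorem TT_eq (s : ℝ) : TT s = tT0 + tT1 * s + tT2 * s ^ 2 + tT3 * s ^ 3 + tT4 * s ^ 4 := by
  unfold TT
  rw [NN_eq, Nd_eq, MM_eq s]
  unfold pp tT0 tT1 tT2 tT3 tT4
  ring

theorem mm_bd : |mm - 25334659128308664208672 / 10 ^ 21| ≤ 1 / 10 ^ 18 :=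
  bweak mm_ball (by norm_num)
theorem q2_bd : |q2 - 9669595805310292356567 / 10 ^ 21| ≤ 1 / 10 ^ 18 :=
  bweak q2_ball (by norm_num)
theorem rr_bd : |rr - 381674596699254357112 / 10 ^ 21| ≤ 1 / 10 ^ 18 :=
  bweak rr_ball (by norm_num)
theorem c0_bd : |c0 - 1004254933619856565240 / 10 ^ 21| ≤ 1 / 10 ^ 18 :=
  bweak c0_ball (by norm_num)
theorem ss_bd : |ss - 39639567618958541902 / 10 ^ 21| ≤ 1 / 10 ^ 18 :=
  bweak ss_ball (by norm_num)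
theorem kap_bd : |kap - 2914068681529377303023 / 10 ^ 21| ≤ 1 / 10 ^ 18 :=
  bweak kap_ball (by norm_num)
theorem MM0_bd : |MM 0 - 7935343349628559703731 / 10 ^ 21| ≤ 1 / 10 ^ 17 :=
  bweak MM0_ball (by norm_num)
theorem Md_bd : |Md + 129587364323070164880473 / 10 ^ 21| ≤ 1 / 10 ^ 16 := by
  have h : |Md - (-(129587364323070164880473 / 10 ^ 21))| ≤ 1 / 10 ^ 16 :=
    bweak Md_ball (by norm_num)
  rwa [sub_neg_eq_add] at h
theorem rho_bd : |rho - 70600070260179371796856 / 10 ^ 21| ≤ 1 / 10 ^ 14 :=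
  bweak rho_ball (by norm_num)

theorem tT0_bd : |tT0| ≤ 1 / 10 ^ 51 := by
  have h1 := e0lam_ball
  have h2 := c0_bd
  rw [tT0_eq]
  have h3 : -9 * pb - pe + 20 = 8 / 10 ^ 52 := by unfold pb pe; norm_num
  rw [h3]
  rw [abs_le] at h1 h2 ⊢
  have h4 : c0 ^ 2 ≤ 101 / 100 := by nlinarith [h2.1, h2.2]
  have h5 : 0 ≤ c0 ^ 2 := sq_nonneg _
  constructor
  · linarith [h1.2]
  · linarith [h1.1]

theorem TT_sub {s : ℝ} (h : MM s ≠ 0) :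
    TT s - s * MM s ^ 3 * AA s = tT0 + tE1 * s + tE2 * s ^ 2 + tE3 * s ^ 3 + tE4 * s ^ 4 := by
  have h1 : s * MM s ^ 3 * AA s =
      i0 * s * MM s ^ 3 + C3 * (rho ^ 3 * s ^ 4 - 3 / 2 * rho ^ 2 * s ^ 3 * MM s) := by
    unfold AA XX
    field_simp
  rw [h1, TT_eq, MM_eq s]
  unfold tE1 tE2 tE3 tE4
  ring

theorem MM_lower {s : ℝ} (hs : s < ss) : 27 / 10 < MM s := by
  have h1 := MM0_bd
  have h2 := Md_bd
  have h3 := ss_bd
  rw [MM_eq]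
  rw [abs_le] at h1 h2 h3
  have h4 : s < 3964 / 100000 := by linarith [h3.2]
  nlinarith [h1.1, h2.1, h2.2]

/-- the error polynomial -/
theorem err_bd (s : ℝ) : |tT0 + tE1 * s + tE2 * s ^ 2 + tE3 * s ^ 3 + tE4 * s ^ 4| ≤
    1 / 10 ^ 51 + 3 / 10 ^ 18 * |s| + 96 / 10 ^ 11 * |s| ^ 2 + 21 / 10 ^ 9 * |s| ^ 3
      + 1 / 10 ^ 14 * |s| ^ 4 := by
  have h0 := tT0_bd
  have h1 : |tE1| ≤ 3 / 10 ^ 18 := by
    have := bweak (c := 0) (f := 3 / 10 ^ 18) e1_ball (by norm_num)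
    rwa [sub_zero] at this
  have h2 : |tE2| ≤ 96 / 10 ^ 11 := by
    have := bweak (c := 0) (f := 96 / 10 ^ 11) e2_ball (by norm_num)
    rwa [sub_zero] at this
  have h3 : |tE3| ≤ 21 / 10 ^ 9 := by
    have := bweak (c := 0) (f := 21 / 10 ^ 9) e3_ball (by norm_num)
    rwa [sub_zero] at this
  have h4 : |tE4| ≤ 1 / 10 ^ 14 := by
    have := bweak (c := 0) (f := 1 / 10 ^ 14) e4_ball (by norm_num)
    rwa [sub_zero] at this
  have key : ∀ (t u : ℝ) (n : ℕ), |t| ≤ u → |t * s ^ n| ≤ u * |s| ^ n := by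
    intro t u n h
    rw [abs_mul, abs_pow]
    exact mul_le_mul_of_nonneg_right h (by positivity)
  have k1 := key _ _ 1 h1
  have k2 := key _ _ 2 h2
  have k3 := key _ _ 3 h3
  have k4 := key _ _ 4 h4
  rw [pow_one, pow_one] at k1
  rw [abs_le] at h0 k1 k2 k3 k4 ⊢
  constructor <;> linarith [h0.1, h0.2, k1.1, k1.2, k2.1, k2.2, k3.1, k3.2, k4.1, k4.2]

theorem diff_eq {s : ℝ} (h0 : s ≠ 0) (hs : 0 < MM s) :
    |TT s / (s * MM s ^ 3) - AA s| * (|s| * MM s ^ 3) =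
      |tT0 + tE1 * s + tE2 * s ^ 2 + tE3 * s ^ 3 + tE4 * s ^ 4| := by
  rw [← TT_sub hs.ne']
  have h1 : |s| * MM s ^ 3 = |s * MM s ^ 3| := by
    rw [abs_mul, abs_of_pos (pow_pos hs 3)]
  rw [h1, ← abs_mul]
  congr 1
  have h2 : s * MM s ^ 3 ≠ 0 := mul_ne_zero h0 (pow_ne_zero _ hs.ne')
  field_simp

theorem TT_small {s : ℝ} (h0 : s ≠ 0) (hs : |s| ≤ 15 / 10 ^ 4) :
    |TT s / (s * MM s ^ 3) - AA s| ≤ 1 / 10 ^ 20 + 1 / 10 ^ 50 / |s| + 1 / 10 ^ 11 * |s| := by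
  have hs0 : 0 < |s| := abs_pos.mpr h0
  have hM : 77 / 10 ≤ MM s := by
    rw [MM_eq]
    have h1 := MM0_bd
    have h2 := Md_bd
    rw [abs_le] at h1 h2 hs
    nlinarith [h1.1, h2.1, h2.2, hs.1, hs.2]
  have hM0 : 0 < MM s := by linarith
  have hM3 : 450 ≤ MM s ^ 3 := by
    calc (450 : ℝ) ≤ (77 / 10) ^ 3 := by norm_num
      _ ≤ MM s ^ 3 := pow_le_pow_left₀ (by norm_num) hM 3
  have h5 := diff_eq h0 hM0
  have h6 := err_bd s
  have h7 : 0 < |s| * MM s ^ 3 := by positivity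
  rw [← mul_le_mul_iff_left₀ h7, h5]
  refine h6.trans ?_
  have h8 : (1 / 10 ^ 20 + 1 / 10 ^ 50 / |s| + 1 / 10 ^ 11 * |s|) * (|s| * 450) ≤
      (1 / 10 ^ 20 + 1 / 10 ^ 50 / |s| + 1 / 10 ^ 11 * |s|) * (|s| * MM s ^ 3) := by
    apply mul_le_mul_of_nonneg_left _ (by positivity)
    exact mul_le_mul_of_nonneg_left hM3 hs0.le
  refine le_trans ?_ h8
  have h9 : (1 / 10 ^ 20 + 1 / 10 ^ 50 / |s| + 1 / 10 ^ 11 * |s|) * (|s| * 450) =
      450 / 10 ^ 20 * |s| + 450 / 10 ^ 50 + 450 / 10 ^ 11 * |s| ^ 2 := by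
    field_simp
  rw [h9]
  have a3 : |s| ^ 3 ≤ 15 / 10 ^ 4 * |s| ^ 2 := by
    have : |s| ^ 3 = |s| * |s| ^ 2 := by ring
    rw [this]
    exact mul_le_mul_of_nonneg_right hs (by positivity)
  have a4 : |s| ^ 4 ≤ |s| ^ 2 := by
    have : |s| ^ 4 = |s| ^ 2 * |s| ^ 2 := by ring
    rw [this]
    have h1 : |s| ^ 2 ≤ 1 := by
      have : |s| ≤ 1 := by linarith
      exact pow_le_one₀ hs0.le this
    nlinarith [sq_nonneg |s|]
  have a2 : 0 ≤ |s| ^ 2 := by positivity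
  linarith

theorem TT_large {s : ℝ} (h0 : 1 / 10 ^ 3 ≤ |s|) (hs : s < ss) :
    |TT s / (s * MM s ^ 3) - AA s| ≤ 1 / 10 ^ 8 := by
  have hs0 : 0 < |s| := lt_of_lt_of_le (by norm_num) h0
  have hne : s ≠ 0 := abs_pos.mp hs0
  have hM := MM_lower hs
  have hM0 : 0 < MM s := by linarith
  have h5 := diff_eq hne hM0
  have h6 := err_bd s
  have h7 : 0 < |s| * MM s ^ 3 := by positivity
  rw [← mul_le_mul_iff_left₀ h7, h5]
  refine h6.trans ?_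
  have h1 := MM0_bd
  have h2 := Md_bd
  have h3 := ss_bd
  rcases lt_or_gt_of_ne hne with hneg | hpos
  · rw [abs_of_neg hneg] at h0 ⊢
    set t := -s with ht
    have ht' : s = -t := by rw [ht]; ring
    have hMt : 79 / 10 + 129 * t ≤ MM s := by
      rw [MM_eq, ht']
      rw [abs_le] at h1 h2
      nlinarith [h1.1, h2.1, h2.2]
    have ht0 : 0 < t := by linarith
    have hc : (79 / 10 + 129 * t) ^ 3 ≤ MM s ^ 3 := pow_le_pow_left₀ (by positivity) hMt 3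
    have hc2 : 1 / 10 ^ 8 * (t * (79 / 10 + 129 * t) ^ 3) ≤ 1 / 10 ^ 8 * (t * MM s ^ 3) := by
      apply mul_le_mul_of_nonneg_left _ (by norm_num)
      exact mul_le_mul_of_nonneg_left hc ht0.le
    refine le_trans ?_ hc2
    have e2 : 0 < t ^ 2 := by positivity
    have e3 : 0 < t ^ 3 := by positivity
    have e4 : 0 < t ^ 4 := by positivity
    ring_nf
    linarith
  · rw [abs_of_pos hpos] at h0 ⊢
    have hs1 : s ≤ 4 / 100 := by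
      rw [abs_le] at h3
      linarith [h3.2]
    have hc : (19 : ℝ) ≤ MM s ^ 3 := by
      calc (19 : ℝ) ≤ (27 / 10) ^ 3 := by norm_num
        _ ≤ MM s ^ 3 := pow_le_pow_left₀ (by norm_num) hM.le 3
    have hc2 : 1 / 10 ^ 8 * (s * 19) ≤ 1 / 10 ^ 8 * (s * MM s ^ 3) := by
      apply mul_le_mul_of_nonneg_left _ (by norm_num)
      exact mul_le_mul_of_nonneg_left hc hpos.le
    refine le_trans ?_ hc2
    have e2 : s ^ 2 ≤ 4 / 100 * s := by nlinarith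
    have e3 : s ^ 3 ≤ 4 / 100 * s := by
      have : s ^ 3 = s ^ 2 * s := by ring
      rw [this]
      have : s ^ 2 ≤ 4 / 100 := by nlinarith
      exact mul_le_mul_of_nonneg_right this hpos.le
    have e4 : s ^ 4 ≤ 4 / 100 * s := by
      have : s ^ 4 = s ^ 3 * s := by ring
      rw [this]
      have : s ^ 3 ≤ 4 / 100 := by nlinarith
      exact mul_le_mul_of_nonneg_right this hpos.le
    linarith

end

end Pool.Agent.H.MP_732d27_an
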