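import Pool.Agent.H.MP_732d27_an.LienDefs

/-!
# The Liénard form: signs and derivatives
-/

namespace Pool.Agent.H.MP_732d27_an

open Set MeasureTheory

noncomputable section

/-! ### crude bounds -/

theorem ld_kk : 652298 / 10 ^ 7 < kk ∧ kk < 652299 / 10 ^ 7 := by
  have h1 := kk_gt
  have h2 := kk_lt
  constructor <;> norm_num at h1 h2 ⊢ <;> linarith

theorem ld_lam : -(1 / 10 ^ 12) < lam ∧ lam < 0 := by
  unfold lam
  constructor <;> norm_num

theorem ld_pb : 49999 / 10 ^ 4 < pb ∧ pb ≤ 5 := by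
  unfold pb
  constructor <;> norm_num

theorem ld_pe : -25 < pe ∧ pe < -24999 / 1000 := by
  unfold pe
  constructor <;> norm_num

theorem ld_mm : 253345 / 10 ^ 4 < mm ∧ mm < 25335 / 10 ^ 3 := by
  obtain ⟨h1, h2⟩ := ld_kk
  obtain ⟨h3, h4⟩ := ld_pb
  have h5 : -25 < pe ∧ pe < -249999 / 10000 := by
    unfold pe
    constructor <;> norm_num
  obtain ⟨h5, h6⟩ := h5
  have h7 : 4999999 / 10 ^ 6 < pb := by unfold pb; norm_num
  unfold mm
  constructor
  · nlinarith [mul_pos (sub_pos.2 h1) (sub_pos.2 h7), mul_pos (sub_pos.2 h1) (sub_pos.2 h1)]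
  · nlinarith [mul_pos (sub_pos.2 h2) (sub_pos.2 h7), mul_nonneg (sub_nonneg.2 h2.le) (sub_nonneg.2 h4),
      mul_pos (sub_pos.2 h1) (sub_pos.2 h2)]

theorem ld_q2 : 96694 / 10 ^ 4 < q2 ∧ q2 < 96697 / 10 ^ 4 := by
  obtain ⟨h1, h2⟩ := ld_kk
  obtain ⟨h3, h4⟩ := ld_pb
  have h7 : 4999999 / 10 ^ 6 < pb := by unfold pb; norm_num
  unfold q2
  constructor
  · nlinarith [mul_pos (sub_pos.2 h2) (sub_pos.2 h7), mul_nonneg (sub_nonneg.2 h2.le) (sub_nonneg.2 h4),
      mul_pos (sub_pos.2 h1) (sub_pos.2 h2)]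
  · nlinarith [mul_pos (sub_pos.2 h1) (sub_pos.2 h7), mul_pos (sub_pos.2 h1) (sub_pos.2 h1)]

theorem ld_c0 : 10042 / 10 ^ 4 < c0 ∧ c0 < 10043 / 10 ^ 4 := by
  obtain ⟨h1, h2⟩ := ld_kk
  obtain ⟨h3, h4⟩ := ld_lam
  unfold c0
  constructor
  · nlinarith
  · nlinarith

theorem mm_pos' : 0 < mm := lt_trans (by norm_num) ld_mm.1
theorem q2_pos' : 0 < q2 := lt_trans (by norm_num) ld_q2.1
theorem kk_pos' : 0 < kk := lt_trans (by norm_num) ld_kk.1
theorem c0_pos' : 0 < c0 := lt_trans (by norm_num) ld_c0.1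
theorem pb_pos' : 0 < pb := lt_trans (by norm_num) ld_pb.1
theorem kap_pos' : 0 < kap := by
  unfold kap
  have := mm_pos'
  have := q2_pos'
  exact mul_pos (by linarith) kk_pos'
theorem rr_pos' : 0 < rr := div_pos q2_pos' mm_pos'
theorem ss_pos' : 0 < ss := div_pos c0_pos' mm_pos'

theorem mm_mul_ss : mm * ss = c0 := by
  unfold ss
  rw [mul_div_cancel₀ _ mm_pos'.ne']

theorem mm_mul_rr : mm * rr = q2 := by
  unfold rr
  rw [mul_div_cancel₀ _ mm_pos'.ne']

/-! ### signs -/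

theorem pp_eq (s : ℝ) : pp s = mm * (ss - s) := by
  unfold pp
  rw [mul_sub, mm_mul_ss]

theorem pp_pos {s : ℝ} (hs : s < ss) : 0 < pp s := by
  rw [pp_eq]
  exact mul_pos mm_pos' (by linarith)

theorem ss_lt_one : ss < 1 := by
  unfold ss
  rw [div_lt_one mm_pos']
  have h1 := ld_c0.2
  have h2 := ld_mm.1
  norm_num at h1 h2
  linarith

theorem MM_pos {s : ℝ} (hs : s < ss) : 0 < MM s := by
  have h1 := pp_pos hs
  have h2 := ss_lt_one
  unfold MM
  have h3 := mul_pos pb_pos' h1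
  have h4 : 0 < kap * (1 - s) := mul_pos kap_pos' (by linarith)
  linarith

theorem NN_expand (s : ℝ) : NN s = c0 + (-2 * mm * c0 + kk * (pb + 2 * kk) * c0
    - kk * (lam - kk) * mm + q2 * kk ^ 2) * s + (mm ^ 2 - kk * (pb + 2 * kk) * mm - q2 * kk ^ 2) * s ^ 2 := by
  have h0 : c0 ^ 2 + kk * (lam - kk) * c0 = c0 := by
    have : c0 + kk * (lam - kk) = 1 := by unfold c0; ring
    calc c0 ^ 2 + kk * (lam - kk) * c0 = c0 * (c0 + kk * (lam - kk)) := by ring
      _ = c0 := by rw [this, mul_one]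
  unfold NN pp
  linear_combination h0

theorem mul_bd {a b l u l' u' : ℝ} (hl : 0 < l) (hl' : 0 < l') (h1 : l < a) (h2 : a < u) (h3 : l' < b)
    (h4 : b < u') : l * l' < a * b ∧ a * b < u * u' :=
  ⟨mul_lt_mul'' h1 h3 hl.le hl'.le, mul_lt_mul'' h2 h4 (hl.trans h1).le (hl'.trans h3).le⟩

theorem N1_bd : -(5041 / 10 ^ 2) < -2 * mm * c0 + kk * (pb + 2 * kk) * c0 - kk * (lam - kk) * mm + q2 * kk ^ 2 ∧
    -2 * mm * c0 + kk * (pb + 2 * kk) * c0 - kk * (lam - kk) * mm + q2 * kk ^ 2 < 0 := by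
  obtain ⟨k1, k2⟩ := ld_kk
  obtain ⟨m1, m2⟩ := ld_mm
  obtain ⟨q1, q3⟩ := ld_q2
  obtain ⟨c1, c2⟩ := ld_c0
  obtain ⟨l1, l2⟩ := ld_lam
  have b1 : 4999999 / 10 ^ 6 < pb := by unfold pb; norm_num
  have b2 : pb < 5000001 / 10 ^ 6 := by unfold pb; norm_num
  have a1 := mul_bd (by norm_num) (by norm_num) m1 m2 c1 c2
  have a2 := mul_bd (by norm_num) (by norm_num) k1 k2
    (show (4999999 / 10 ^ 6 + 2 * (652298 / 10 ^ 7) : ℝ) < pb + 2 * kk by linarith)
    (show pb + 2 * kk < (5000001 / 10 ^ 6 + 2 * (652299 / 10 ^ 7) : ℝ) by linarith)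
  have a3 := mul_bd (by norm_num) (by norm_num) a2.1 a2.2 c1 c2
  have a4 := mul_bd (by norm_num) (by norm_num) k1 k2
    (show (652297 / 10 ^ 7 : ℝ) < kk - lam by norm_num at k1 l2 ⊢; linarith)
    (show kk - lam < (652300 / 10 ^ 7 : ℝ) by norm_num at k2 l1 ⊢; linarith)
  have a5 := mul_bd (by norm_num) (by norm_num) a4.1 a4.2 m1 m2
  have a6 := mul_bd (by norm_num) (by norm_num) k1 k2 k1 k2
  have a7 := mul_bd (by norm_num) (by norm_num) q1 q3 a6.1 a6.2
  have e : -2 * mm * c0 + kk * (pb + 2 * kk) * c0 - kk * (lam - kk) * mm + q2 * kk ^ 2 =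
      -2 * (mm * c0) + kk * (pb + 2 * kk) * c0 + kk * (kk - lam) * mm + q2 * (kk * kk) := by ring
  rw [e]
  obtain ⟨a11, a12⟩ := a1
  obtain ⟨a31, a32⟩ := a3
  obtain ⟨a51, a52⟩ := a5
  obtain ⟨a71, a72⟩ := a7
  clear e a2 a4 a6
  norm_num at a11 a12 a31 a32 a51 a52 a71 a72 ⊢
  constructor <;> linarith

theorem N2_bd : 6332 / 10 < mm ^ 2 - kk * (pb + 2 * kk) * mm - q2 * kk ^ 2 := by
  obtain ⟨k1, k2⟩ := ld_kk
  obtain ⟨m1, m2⟩ := ld_mm
  obtain ⟨q1, q3⟩ := ld_q2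
  have b1 : 4999999 / 10 ^ 6 < pb := by unfold pb; norm_num
  have b2 : pb < 5000001 / 10 ^ 6 := by unfold pb; norm_num
  have a1 := mul_bd (by norm_num) (by norm_num) m1 m2 m1 m2
  have a2 := mul_bd (by norm_num) (by norm_num) k1 k2
    (show (4999999 / 10 ^ 6 + 2 * (652298 / 10 ^ 7) : ℝ) < pb + 2 * kk by linarith)
    (show pb + 2 * kk < (5000001 / 10 ^ 6 + 2 * (652299 / 10 ^ 7) : ℝ) by linarith)
  have a3 := mul_bd (by norm_num) (by norm_num) a2.1 a2.2 m1 m2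
  have a6 := mul_bd (by norm_num) (by norm_num) k1 k2 k1 k2
  have a7 := mul_bd (by norm_num) (by norm_num) q1 q3 a6.1 a6.2
  have e : mm ^ 2 - kk * (pb + 2 * kk) * mm - q2 * kk ^ 2 =
      mm * mm - kk * (pb + 2 * kk) * mm - q2 * (kk * kk) := by ring
  rw [e]
  obtain ⟨a11, a12⟩ := a1
  obtain ⟨a31, a32⟩ := a3
  obtain ⟨a71, a72⟩ := a7
  clear e a2 a6
  norm_num at a11 a12 a31 a32 a71 a72 ⊢
  linarith

theorem NN_pos (s : ℝ) : 0 < NN s := by
  rw [NN_expand]
  obtain ⟨h1, h2⟩ := N1_bd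
  have h3 := N2_bd
  have c1 := ld_c0.1
  set N1 := -2 * mm * c0 + kk * (pb + 2 * kk) * c0 - kk * (lam - kk) * mm + q2 * kk ^ 2 with hN1
  set N2 := mm ^ 2 - kk * (pb + 2 * kk) * mm - q2 * kk ^ 2 with hN2
  clear_value N1 N2
  have h4 : N1 ^ 2 < 4 * c0 * N2 := by
    have e1 : N1 ^ 2 < (5041 / 10 ^ 2) ^ 2 := sq_lt_sq' h1 (lt_trans h2 (by norm_num))
    have e2 : (10042 / 10 ^ 4 : ℝ) * (6332 / 10) < c0 * N2 :=
      mul_lt_mul'' c1 h3 (by norm_num) (by norm_num)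
    norm_num at e1 e2 ⊢
    linarith
  have h5 : 0 < N2 := lt_trans (by norm_num) h3
  have h6 : 4 * N2 * (c0 + N1 * s + N2 * s ^ 2) = (2 * N2 * s + N1) ^ 2 + (4 * c0 * N2 - N1 ^ 2) := by ring
  have h7 : 0 < 4 * N2 * (c0 + N1 * s + N2 * s ^ 2) := by
    rw [h6]
    have := sq_nonneg (2 * N2 * s + N1)
    linarith
  exact (mul_pos_iff_of_pos_left (by linarith)).1 h7

/-! ### derivatives of the polynomials -/

theorem hasDerivAt_pp (s : ℝ) : HasDerivAt pp (-mm) s := by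
  have h : HasDerivAt (fun s : ℝ => c0 - mm * s) (0 - mm * 1) s :=
    (hasDerivAt_const s c0).sub ((hasDerivAt_id s).const_mul mm)
  exact h.congr_deriv (by ring)

theorem hasDerivAt_MM (s : ℝ) : HasDerivAt MM Md s := by
  have h : HasDerivAt (fun s : ℝ => pb * pp s + kap * (1 - s)) (pb * (-mm) + kap * (0 - 1)) s :=
    ((hasDerivAt_pp s).const_mul pb).add (((hasDerivAt_const s (1:ℝ)).sub (hasDerivAt_id s)).const_mul kap)
  exact h.congr_deriv (by unfold Md; ring)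

theorem hasDerivAt_NN (s : ℝ) : HasDerivAt NN (Nd s) s := by
  have hid := hasDerivAt_id s
  have h1 : HasDerivAt (fun s : ℝ => pp s ^ 2) (2 * pp s * (-mm)) s :=
    ((hasDerivAt_pp s).pow 2).congr_deriv (by norm_num)
  have h2 : HasDerivAt (fun s : ℝ => kk * (lam - kk + (pb + 2 * kk) * s))
      (kk * (pb + 2 * kk)) s :=
    ((((hid.const_mul (pb + 2 * kk)).const_add (lam - kk))).const_mul kk).congr_deriv (by ring)
  have h3 := h2.mul (hasDerivAt_pp s)
  have h4 : HasDerivAt (fun s : ℝ => q2 * kk ^ 2 * s * (1 - s)) (q2 * kk ^ 2 * (1 - 2 * s)) s :=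
    ((hid.const_mul (q2 * kk ^ 2)).mul ((hasDerivAt_const s (1:ℝ)).sub hid)).congr_deriv
      (by simp only [id, Pi.sub_apply]; ring)
  have h5 := (h1.add h3).add h4
  exact h5.congr_deriv (by unfold Nd; ring)

theorem continuous_pp : Continuous pp := by unfold pp; fun_prop
theorem continuous_MM : Continuous MM := by
  unfold MM
  have := continuous_pp
  fun_prop
theorem continuous_NN : Continuous NN := by
  unfold NN
  have := continuous_pp
  fun_prop

theorem continuousAt_pp_rpow (a : ℝ) {s : ℝ} (hs : s < ss) : ContinuousAt (fun s => pp s ^ a) s :=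
  continuous_pp.continuousAt.rpow_const (Or.inl (pp_pos hs).ne')

theorem hasDerivAt_pp_rpow (a : ℝ) {s : ℝ} (hs : s < ss) :
    HasDerivAt (fun s => pp s ^ a) (-mm * a * pp s ^ (a - 1)) s :=
  (hasDerivAt_pp s).rpow_const (Or.inl (pp_pos hs).ne')

theorem continuousAt_gg {s : ℝ} (hs : s < ss) : ContinuousAt gg s := by
  have h1 := continuousAt_pp_rpow (-(3 + 2 * rr)) hs
  have h2 : ContinuousAt (fun s => s * (1 - s) * NN s) s := by
    have := continuous_NN
    fun_prop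
  exact h2.mul h1

theorem continuousAt_ff {s : ℝ} (hs : s < ss) : ContinuousAt ff s := by
  have h1 := continuousAt_pp_rpow (-(2 + rr)) hs
  have h3 := continuousAt_pp_rpow (-(1 + rr)) hs
  have h2 : ContinuousAt (fun s => s * MM s) s := by
    have := continuous_MM
    fun_prop
  exact (h2.mul h1).neg.sub (h3.const_mul lam)

theorem uIcc_zero_subset {s : ℝ} (hs : s < ss) : uIcc 0 s ⊆ Iio ss := by
  intro t ht
  rw [mem_uIcc] at ht
  have := ss_pos'
  simp only [mem_Iio]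
  rcases ht with ht | ht <;> linarith [ht.1, ht.2]

theorem stronglyMeasurableAt_of_Iio {f : ℝ → ℝ} (hf : ∀ t < ss, ContinuousAt f t) {s : ℝ} (hs : s < ss) :
    StronglyMeasurableAtFilter f (nhds s) volume := by
  have hc : ContinuousOn f (Iio ss) := fun t ht => (hf t ht).continuousWithinAt
  exact hc.stronglyMeasurableAtFilter isOpen_Iio s hs

theorem hasDerivAt_integral_of_Iio {f : ℝ → ℝ} (hf : ∀ t < ss, ContinuousAt f t) {s : ℝ} (hs : s < ss) :
    HasDerivAt (fun u => ∫ t in (0 : ℝ)..u, f t) (f s) s := by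
  have hc : ContinuousOn f (uIcc 0 s) := fun t ht => (hf t (uIcc_zero_subset hs ht)).continuousWithinAt
  exact intervalIntegral.integral_hasDerivAt_right hc.intervalIntegrable
    (stronglyMeasurableAt_of_Iio hf hs) (hf s hs)

theorem hasDerivAt_GG {s : ℝ} (hs : s < ss) : HasDerivAt GG (gg s) s :=
  hasDerivAt_integral_of_Iio (fun _ ht => continuousAt_gg ht) hs

theorem hasDerivAt_FF {s : ℝ} (hs : s < ss) : HasDerivAt FF (ff s) s :=
  hasDerivAt_integral_of_Iio (fun _ ht => continuousAt_ff ht) hs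

theorem one_sub_NN_pos {s : ℝ} (hs : s < ss) : 0 < (1 - s) * NN s :=
  mul_pos (by linarith [ss_lt_one]) (NN_pos s)

theorem gg_pos {s : ℝ} (h0 : 0 < s) (hs : s < ss) : 0 < gg s := by
  have h1 := one_sub_NN_pos hs
  have h2 : 0 < pp s ^ (-(3 + 2 * rr)) := Real.rpow_pos_of_pos (pp_pos hs) _
  have : gg s = s * ((1 - s) * NN s) * pp s ^ (-(3 + 2 * rr)) := by unfold gg; ring
  rw [this]
  positivity

theorem gg_neg {s : ℝ} (h0 : s < 0) : gg s < 0 := by
  have hs : s < ss := lt_trans h0 ss_pos'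
  have h1 := one_sub_NN_pos hs
  have h2 : 0 < pp s ^ (-(3 + 2 * rr)) := Real.rpow_pos_of_pos (pp_pos hs) _
  have : gg s = s * (((1 - s) * NN s) * pp s ^ (-(3 + 2 * rr))) := by unfold gg; ring
  rw [this]
  exact mul_neg_of_neg_of_pos h0 (mul_pos h1 h2)

theorem hh_pos {s : ℝ} (hs : s < ss) : 0 < hh s := by
  unfold hh
  exact div_pos (mul_pos (MM_pos hs) (Real.rpow_pos_of_pos (pp_pos hs) _)) (one_sub_NN_pos hs)

theorem ff_eq {s : ℝ} (hs : s < ss) : ff s = -(gg s * hh s) - lam * pp s ^ (-(1 + rr)) := by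
  have h1 := one_sub_NN_pos hs
  have h2 : pp s ^ (-(2 + rr)) = pp s ^ (-(3 + 2 * rr)) * pp s ^ (1 + rr) := by
    rw [← Real.rpow_add (pp_pos hs)]
    congr 1
    ring
  have h3 : gg s * hh s = s * MM s * pp s ^ (-(2 + rr)) := by
    unfold gg hh
    rw [h2]
    have h4 : (1 - s) ≠ 0 := by linarith [ss_lt_one]
    have h5 : NN s ≠ 0 := (NN_pos s).ne'
    field_simp
  rw [h3]
  rfl

theorem chi_pos {s : ℝ} (hs : s < ss) : 0 < chi s := by
  unfold chi
  have h1 := one_sub_NN_pos hs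
  have h2 := MM_pos hs
  have h3 : 0 < pp s ^ (-(2 + 2 * rr)) := Real.rpow_pos_of_pos (pp_pos hs) _
  positivity

theorem chi_eq {s : ℝ} (hs : s < ss) : chi s = 1 / hh s ^ 2 := by
  have h1 := one_sub_NN_pos hs
  have h2 := MM_pos hs
  have h3 : 0 < pp s ^ (1 + rr) := Real.rpow_pos_of_pos (pp_pos hs) _
  have h4 : pp s ^ (-(2 + 2 * rr)) = 1 / (pp s ^ (1 + rr)) ^ 2 := by
    rw [Real.rpow_neg (pp_pos hs).le, one_div]
    congr 1
    rw [← Real.rpow_natCast, ← Real.rpow_mul (pp_pos hs).le]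
    congr 1
    push_cast
    ring
  unfold chi hh
  rw [h4]
  field_simp

theorem hh_eq {s : ℝ} (hs : s < ss) : hh s = 1 / √(chi s) := by
  have h1 := hh_pos hs
  rw [chi_eq hs, Real.sqrt_div zero_le_one, Real.sqrt_one, Real.sqrt_sq h1.le]
  field_simp

theorem hasDerivAt_chi {s : ℝ} (hs : s < ss) :
    HasDerivAt chi (-2 * (TT s / MM s ^ 3) * ((1 - s) * NN s * pp s ^ (-(3 + 2 * rr)))) s := by
  have hid := hasDerivAt_id s
  have hA : HasDerivAt (fun s => (1 - s) * NN s) (-NN s + (1 - s) * Nd s) s :=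
    (((hasDerivAt_const s (1:ℝ)).sub hid).mul (hasDerivAt_NN s)).congr_deriv
      (by simp only [id, Pi.sub_apply]; ring)
  have hA2 : HasDerivAt (fun s => ((1 - s) * NN s) ^ 2) (2 * ((1 - s) * NN s) * (-NN s + (1 - s) * Nd s)) s :=
    (hA.pow 2).congr_deriv (by norm_num)
  have hP := hasDerivAt_pp_rpow (-(2 + 2 * rr)) hs
  have hM2 : HasDerivAt (fun s => MM s ^ 2) (2 * MM s * Md) s :=
    ((hasDerivAt_MM s).pow 2).congr_deriv (by norm_num)
  have hM := MM_pos hs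
  have h := (hA2.mul hP).div hM2 (by positivity)
  have e1 : -(2 + 2 * rr) - 1 = -(3 + 2 * rr) := by ring
  have e2 : pp s ^ (-(2 + 2 * rr)) = pp s ^ (-(3 + 2 * rr)) * pp s := by
    conv_rhs => rw [← Real.rpow_one (pp s), ← Real.rpow_mul (pp_pos hs).le, one_mul]
    rw [← Real.rpow_add (pp_pos hs)]
    congr 1
    ring
  refine (h.congr_deriv ?_)
  simp only [Pi.mul_apply]
  rw [e1, e2]
  have hM' := hM.ne'
  have hr : q2 = mm * rr := mm_mul_rr.symm
  unfold TT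
  rw [hr]
  field_simp
  ring

theorem MM_affine (s : ℝ) : MM s = MM 0 + Md * s := by
  unfold MM Md pp
  ring

theorem MM_sub_rho (s : ℝ) : c0 * (MM s - rho * s) = MM 0 * pp s := by
  have h1 : rho * ss = MM ss := by
    unfold rho
    rw [div_mul_cancel₀ _ ss_pos'.ne']
  have h2 := MM_affine ss
  have h3 := MM_affine s
  have h4 := mm_mul_ss
  have h5 := ss_pos'
  have h6 : (Md - rho) * ss = -MM 0 := by linarith
  have h7 : ss * (MM s - rho * s) = MM 0 * (ss - s) := by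
    rw [h3]
    linear_combination s * h6
  rw [pp_eq, ← h4]
  linear_combination mm * h7

theorem hasDerivAt_XX {s : ℝ} (hs : s < ss) : HasDerivAt XX (rho * MM 0 / MM s ^ 2) s := by
  have h := ((hasDerivAt_id s).const_mul rho).div (hasDerivAt_MM s) (MM_pos hs).ne'
  refine h.congr_deriv ?_
  have h3 := MM_affine s
  congr 1
  simp only [id]
  rw [mul_one]
  linear_combination rho * h3

theorem hasDerivAt_AA {s : ℝ} (hs : s < ss) : HasDerivAt AA (-(KK s * gg s)) s := by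
  have hX := hasDerivAt_XX hs
  have h1 : HasDerivAt (fun s => XX s ^ 3) (3 * XX s ^ 2 * (rho * MM 0 / MM s ^ 2)) s :=
    (hX.pow 3).congr_deriv (by norm_num)
  have h2 : HasDerivAt (fun s => XX s ^ 2) (2 * XX s * (rho * MM 0 / MM s ^ 2)) s :=
    (hX.pow 2).congr_deriv (by norm_num)
  have h3 := ((h1.sub (h2.const_mul (3 / 2))).const_mul C3).const_add i0
  refine h3.congr_deriv ?_
  have hM := MM_pos hs
  have hc := c0_pos'
  have hN := NN_pos s
  have hs1 : (1 - s) ≠ 0 := by linarith [ss_lt_one]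
  have h4 := MM_sub_rho s
  have h5 : KK s * gg s = cK * s * pp s / MM s ^ 4 := by
    unfold KK gg
    have e : pp s = pp s ^ (4 + 2 * rr) * pp s ^ (-(3 + 2 * rr)) := by
      rw [← Real.rpow_add (pp_pos hs)]
      conv_lhs => rw [← Real.rpow_one (pp s)]
      congr 1
      ring
    have e' : cK * s * pp s / MM s ^ 4 = cK * s * (pp s ^ (4 + 2 * rr) * pp s ^ (-(3 + 2 * rr))) / MM s ^ 4 := by
      rw [← e]
    rw [e']
    have hN' := hN.ne'
    field_simp
  rw [h5]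
  have h6 : pp s * MM 0 = c0 * (MM s - rho * s) := by rw [h4]; ring
  unfold cK XX
  have hM' := hM.ne'
  have hc' := hc.ne'
  field_simp
  linear_combination (C3 * rho ^ 2 * s * MM 0) * h6

theorem MM0_pos' : 0 < MM 0 := MM_pos ss_pos'

theorem MMss_pos' : 0 < MM ss := by
  have h1 := ss_lt_one
  have h2 : pp ss = 0 := by rw [pp_eq]; ring
  unfold MM
  rw [h2]
  have := mul_pos kap_pos' (sub_pos.2 h1)
  linarith

theorem rho_pos' : 0 < rho := div_pos MMss_pos' ss_pos'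

theorem cK_pos' : 0 < cK := by
  have h1 := rho_pos'
  have h2 := MM0_pos'
  have h3 := c0_pos'
  have h4 : 0 < C3 := by unfold C3; norm_num
  unfold cK
  positivity

theorem KK_pos {s : ℝ} (hs : s < ss) : 0 < KK s := by
  have h1 := one_sub_NN_pos hs
  have h2 := MM_pos hs
  have h3 : 0 < pp s ^ (4 + 2 * rr) := Real.rpow_pos_of_pos (pp_pos hs) _
  have h4 := cK_pos'
  unfold KK
  positivity

end

end Pool.Agent.H.MP_732d27_an
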