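import Pool.Agent.H.MP_732d27_an.CurveA
import Pool.Agent.H.MP_732d27_an.Basic
import Pool.Agent.H.MP_732d27_an.LienConst
import Pool.Agent.H.MP_732d27_an.LienDeriv

/-!
# Liénard coordinates of a type B periodic solution and its arcs
-/

namespace Pool.Agent.H.MP_732d27_an
open Set

noncomputable section

/-- `s = y - k x` -/
def sS (x y : ℝ) : ℝ := y - kk * x

/-- `w` -/
def wW (x y : ℝ) : ℝ :=
  pp (sS x y) ^ (-(1 + rr)) * (kk * sS x y * (1 - sS x y) + pp (sS x y) * x) + FF (sS x y)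

theorem lc_sigma_eq (x y : ℝ) : x * fL x y - kk * fP x y =
    kk * sS x y * (1 - sS x y) + pp (sS x y) * x := by
  have h := kk_eq
  simp only [fL, fP, sS, pp, c0, mm]
  linear_combination (-x ^ 2) * h

theorem lc_fP_eq (x y : ℝ) : fP x y =
    -q2 * x ^ 2 + (lam - kk + (pb + 2 * kk) * sS x y) * x - sS x y * (1 - sS x y) := by
  simp only [fP, sS, q2]
  ring

theorem lc_key_identity (s x : ℝ) :
    (mm + q2) * (kk * s * (1 - s) + pp s * x) ^ 2 +
      pp s * (kk * (1 - 2 * s) * (kk * s * (1 - s) + pp s * x)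
        - mm * x * (kk * s * (1 - s) + pp s * x)
        + pp s * (-q2 * x ^ 2 + (lam - kk + (pb + 2 * kk) * s) * x - s * (1 - s)))
      - s * MM s * (kk * s * (1 - s) + pp s * x) - lam * pp s * (kk * s * (1 - s) + pp s * x) =
    -(s * (1 - s) * NN s) := by
  unfold MM NN kap
  generalize pp s = p
  ring

theorem lc_mm_pos : 0 < mm := by
  have h := abs_le.1 mm_bd
  have h1 := h.1
  norm_num at h1
  linarith

theorem lc_ss_pos : 0 < ss := by
  have h := abs_le.1 ss_bd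
  have h1 := h.1
  norm_num at h1
  linarith

theorem lc_pp_ss : pp ss = 0 := by
  unfold pp ss
  rw [mul_div_cancel₀ _ lc_mm_pos.ne', sub_self]

theorem lc_kk_pos : 0 < kk := lt_trans (by norm_num) kk_gt

theorem PerSol.hasDerivAt_s {x y : ℝ → ℝ} {T : ℝ} (h : PerSol x y T) (t : ℝ) :
    HasDerivAt (fun t => sS (x t) (y t))
      (kk * sS (x t) (y t) * (1 - sS (x t) (y t)) + pp (sS (x t) (y t)) * x t) t := by
  rw [← lc_sigma_eq]
  exact (h.hy t).sub ((h.hx t).const_mul kk)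

theorem PerSol.exists_sS_neg {x y : ℝ → ℝ} {T : ℝ} (h : PerSol x y T)
    (hL : ∀ t, 0 < fL (x t) (y t)) : ∃ t, sS (x t) (y t) < 0 := by
  obtain ⟨c, d, φ, ψ, ho⟩ := h.ovalB hL
  have h1 : ((0:ℝ), c) ∈ range fun t => (x t, y t) := by
    rw [ho.eq]
    exact ⟨left_mem_Icc.2 (ho.c_neg.trans ho.d_pos).le, Or.inl ho.φ_c.symm⟩
  obtain ⟨t, ht⟩ := h1
  have hx : x t = 0 := congrArg Prod.fst ht
  have hy : y t = c := congrArg Prod.snd ht
  refine ⟨t, ?_⟩
  simp only [sS, hx, hy, mul_zero, sub_zero]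
  exact ho.c_neg

theorem PerSol.sS_lt {x y : ℝ → ℝ} {T : ℝ} (h : PerSol x y T) (hL : ∀ t, 0 < fL (x t) (y t)) (t : ℝ) :
    sS (x t) (y t) < ss := by
  have hd : ∀ t, HasDerivAt (fun t => ss - sS (x t) (y t))
      (-(kk * sS (x t) (y t) * (1 - sS (x t) (y t)) + pp (sS (x t) (y t)) * x t)) t := fun t => by
    simpa using (h.hasDerivAt_s t).const_sub ss
  have hne := periodic_ne_zero (h := fun t => ss - sS (x t) (y t))
    (h' := fun t => -(kk * sS (x t) (y t) * (1 - sS (x t) (y t)) + pp (sS (x t) (y t)) * x t))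
    h.T_pos (fun t => by simp only [h.px, h.py]) hd (fun t ht => by
      have h1 : sS (x t) (y t) = ss := by
        linarith
      rw [h1, lc_pp_ss, zero_mul, add_zero]
      have := mul_pos (mul_pos lc_kk_pos lc_ss_pos) (sub_pos.2 ss_lt_one)
      linarith)
  have hc : Continuous (fun t => ss - sS (x t) (y t)) :=
    continuous_iff_continuousAt.2 fun t => (hd t).continuousAt
  by_contra hcon
  have h1 : ss - sS (x t) (y t) ≤ 0 := by
    have := not_lt.1 hcon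
    linarith
  obtain ⟨t', ht'⟩ := h.exists_sS_neg hL
  have h2 : 0 ≤ ss - sS (x t') (y t') := by
    have := lc_ss_pos
    linarith
  obtain ⟨t'', ht''⟩ := mem_range_of_exists_le_of_exists_ge hc ⟨t, h1⟩ ⟨t', h2⟩
  exact hne t'' ht''

theorem PerSol.hasDerivAt_sS {x y : ℝ → ℝ} {T : ℝ} (h : PerSol x y T) (hL : ∀ t, 0 < fL (x t) (y t))
    (t : ℝ) : HasDerivAt (fun t => sS (x t) (y t))
      ((wW (x t) (y t) - FF (sS (x t) (y t))) * pp (sS (x t) (y t)) ^ (1 + rr)) t := by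
  have h1 := h.hasDerivAt_s t
  have hp := pp_pos (h.sS_lt hL t)
  have h2 : (wW (x t) (y t) - FF (sS (x t) (y t))) * pp (sS (x t) (y t)) ^ (1 + rr) =
      kk * sS (x t) (y t) * (1 - sS (x t) (y t)) + pp (sS (x t) (y t)) * x t := by
    unfold wW
    rw [add_sub_cancel_right, Real.rpow_neg hp.le, mul_assoc, mul_comm, mul_assoc,
      mul_inv_cancel₀ (Real.rpow_pos_of_pos hp _).ne', mul_one]
  rw [h2]
  exact h1

theorem PerSol.hasDerivAt_wW {x y : ℝ → ℝ} {T : ℝ} (h : PerSol x y T) (hL : ∀ t, 0 < fL (x t) (y t))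
    (t : ℝ) : HasDerivAt (fun t => wW (x t) (y t))
      (-(sS (x t) (y t) * (1 - sS (x t) (y t)) * NN (sS (x t) (y t)) *
        pp (sS (x t) (y t)) ^ (-(2 + rr)))) t := by
  have hs := h.hasDerivAt_s t
  have hlt := h.sS_lt hL t
  have hp := pp_pos hlt
  have h1 : HasDerivAt (fun t => pp (sS (x t) (y t))) _ t := (hasDerivAt_pp _).comp t hs
  have h2 := h1.rpow_const (p := -(1 + rr)) (Or.inl hp.ne')
  have h3 := ((hs.const_mul kk).mul (hs.const_sub 1)).add (h1.mul (h.hx t))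
  have h40 : HasDerivAt FF (ff (sS (x t) (y t))) (sS (x t) (y t)) := hasDerivAt_FF hlt
  have h4 := HasDerivAt.comp (h₂ := FF) (h := fun t => sS (x t) (y t)) t h40 hs
  have h5 := (h2.mul h3).add h4
  have h6 : HasDerivAt (fun t => wW (x t) (y t)) _ t := h5
  refine h6.congr_deriv ?_
  have hmm := lc_mm_pos
  have hr : rr * mm = q2 := by unfold rr; exact div_mul_cancel₀ _ hmm.ne'
  have e1 : pp (sS (x t) (y t)) ^ (-(1 + rr) - 1) = pp (sS (x t) (y t)) ^ (-(2 + rr)) := by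
    congr 1; ring
  have e2 : pp (sS (x t) (y t)) ^ (-(1 + rr)) =
      pp (sS (x t) (y t)) ^ (-(2 + rr)) * pp (sS (x t) (y t)) := by
    rw [← Real.rpow_add_one hp.ne']
    congr 1; ring
  have hk := lc_key_identity (sS (x t) (y t)) (x t)
  simp only [Pi.mul_apply, Pi.add_apply]
  rw [e1, ff, e2, lc_fP_eq]
  set s := sS (x t) (y t)
  set E := pp s ^ (-(2 + rr))
  linear_combination E * hk + E * (kk * s * (1 - s) + pp s * x t) ^ 2 * hr

/-- the first component of the field in the coordinates `(X, Y) = (-s, w)` -/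
def lcfX (X Y : ℝ) : ℝ := -((Y - FF (-X)) * pp (-X) ^ (1 + rr))

/-- the second component of the field in the coordinates `(X, Y) = (-s, w)` -/
def lcgX (X _Y : ℝ) : ℝ := X * (1 + X) * NN (-X) * pp (-X) ^ (-(2 + rr))

theorem lc_FF_zero : FF 0 = 0 := by
  unfold FF
  exact intervalIntegral.integral_same

theorem lc_pp_zero : pp 0 = c0 := by
  unfold pp
  ring

theorem lc_c0_ge : 1 ≤ c0 := by
  have h := abs_le.1 c0_bd
  have h1 := h.1
  norm_num at h1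
  linarith

theorem lc_c0_le : c0 ≤ 10043 / 10000 := by
  have h := abs_le.1 c0_bd
  have h1 := h.2
  norm_num at h1
  linarith

theorem lc_rr_le : rr ≤ 1 := by
  have h := abs_le.1 rr_bd
  have h1 := h.2
  norm_num at h1
  linarith

theorem lc_wW_of_sS_zero {x y : ℝ} (h : sS x y = 0) : wW x y = c0 ^ (-rr) * x := by
  unfold wW
  have hc : 0 < c0 := lt_of_lt_of_le one_pos lc_c0_ge
  rw [h, lc_FF_zero, lc_pp_zero]
  have e : c0 ^ (-rr) = c0 ^ (-(1 + rr)) * c0 := by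
    rw [← Real.rpow_add_one hc.ne']
    congr 1; ring
  rw [e]
  ring

theorem lc_far_wW {x y : ℝ} (h : sS x y = 0) (hf : 8 / 10 ^ 11 < x ^ 2 + y ^ 2) :
    7 / 10 ^ 11 ≤ wW x y ^ 2 := by
  have hy : y = kk * x := by
    unfold sS at h
    linarith
  have hc : 0 < c0 := lt_of_lt_of_le one_pos lc_c0_ge
  have h1 : (c0:ℝ) ^ (-1 : ℝ) ≤ c0 ^ (-rr) :=
    Real.rpow_le_rpow_of_exponent_le lc_c0_ge (neg_le_neg lc_rr_le)
  rw [Real.rpow_neg_one] at h1
  have h2 : (10000 / 10043 : ℝ) ≤ c0⁻¹ := by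
    rw [le_inv_comm₀ (by norm_num) hc]
    refine lc_c0_le.trans (by norm_num)
  have h3 : (10000 / 10043 : ℝ) ≤ c0 ^ (-rr) := h2.trans h1
  have hk : kk ≤ 66 / 1000 := by
    have := kk_lt
    norm_num at this
    linarith
  have hk2 : kk ^ 2 ≤ (66 / 1000) ^ 2 := pow_le_pow_left₀ lc_kk_pos.le hk 2
  have hx : 8 / 10 ^ 11 < (1 + (66 / 1000) ^ 2) * x ^ 2 := by
    rw [hy] at hf
    nlinarith [sq_nonneg x]
  have h4 : (10000 / 10043 : ℝ) ^ 2 ≤ (c0 ^ (-rr)) ^ 2 := pow_le_pow_left₀ (by norm_num) h3 2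
  rw [lc_wW_of_sS_zero h, mul_pow]
  have h5 : (10000 / 10043 : ℝ) ^ 2 * x ^ 2 ≤ (c0 ^ (-rr)) ^ 2 * x ^ 2 :=
    mul_le_mul_of_nonneg_right h4 (sq_nonneg x)
  refine le_trans ?_ h5
  norm_num at hx ⊢
  linarith

theorem lc_wW_injective {x₁ y₁ x₂ y₂ : ℝ} (hs : sS x₁ y₁ = sS x₂ y₂) (hw : wW x₁ y₁ = wW x₂ y₂)
    (hlt : sS x₁ y₁ < ss) : x₁ = x₂ ∧ y₁ = y₂ := by
  have hp := pp_pos hlt
  unfold wW at hw
  rw [← hs] at hw
  have h1 := add_right_cancel hw
  have h2 := mul_left_cancel₀ (Real.rpow_pos_of_pos hp _).ne' h1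
  have h3 := mul_left_cancel₀ hp.ne' (add_left_cancel h2)
  refine ⟨h3, ?_⟩
  unfold sS at hs
  rw [h3] at hs
  linarith

theorem PerSol.rotX {x y : ℝ → ℝ} {T : ℝ} (h : PerSol x y T) (hL : ∀ t, 0 < fL (x t) (y t))
    (hfar : ∀ t, 8 / 10 ^ 11 < x t ^ 2 + y t ^ 2) :
    Rot (fun t => -sS (x t) (y t)) (fun t => wW (x t) (y t))
      (fun t => lcfX (-sS (x t) (y t)) (wW (x t) (y t)))
      (fun t => lcgX (-sS (x t) (y t)) (wW (x t) (y t))) where
  hx t := by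
    have h1 := (h.hasDerivAt_sS hL t).neg
    unfold lcfX
    rw [neg_neg]
    exact h1
  hy t := by
    have h1 := h.hasDerivAt_wW hL t
    unfold lcgX
    rw [neg_neg]
    refine h1.congr_deriv ?_
    ring
  pos t ht := by
    have hp := pp_pos (h.sS_lt hL t)
    unfold lcgX
    rw [neg_neg]
    exact mul_pos (mul_pos (mul_pos ht (by linarith)) (NN_pos _)) (Real.rpow_pos_of_pos hp _)
  neg t ht := by
    have hlt := h.sS_lt hL t
    have hp := pp_pos hlt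
    have h1 := ss_lt_one
    unfold lcgX
    rw [neg_neg]
    have h2 : 0 < (1 + -sS (x t) (y t)) * NN (sS (x t) (y t)) *
      pp (sS (x t) (y t)) ^ (-(2 + rr)) :=
        mul_pos (mul_pos (by linarith) (NN_pos _)) (Real.rpow_pos_of_pos hp _)
    have h3 := mul_neg_of_neg_of_pos ht h2
    calc _ = -sS (x t) (y t) * ((1 + -sS (x t) (y t)) * NN (sS (x t) (y t)) *
      pp (sS (x t) (y t)) ^ (-(2 + rr))) := by ring
      _ < 0 := h3
  cross t ht := by
    have hs : sS (x t) (y t) = 0 := neg_eq_zero.1 ht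
    have hf := lc_far_wW hs (hfar t)
    unfold lcfX
    rw [neg_neg, hs, lc_FF_zero, sub_zero, lc_pp_zero]
    have hc : 0 < c0 := lt_of_lt_of_le one_pos lc_c0_ge
    have hcp : 0 < c0 ^ (1 + rr) := Real.rpow_pos_of_pos hc _
    have hw : 0 < wW (x t) (y t) ^ 2 := lt_of_lt_of_le (by norm_num) hf
    have := mul_pos hw hcp
    nlinarith

/-- if all the points of the orbit are far from the origin, then it gives arcs in the `(s, w)`
plane with large ends -/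
theorem exists_arcs {x y : ℝ → ℝ} {T : ℝ} (h : PerSol x y T) (hL : ∀ t, 0 < fL (x t) (y t))
    (hfar : ∀ t, 8 / 10 ^ 11 < x t ^ 2 + y t ^ 2) :
    ∃ c d : ℝ, ∃ sR sL : ℝ → ℝ, c < 0 ∧ 0 < d ∧ 7 / 10 ^ 11 ≤ c ^ 2 ∧ 7 / 10 ^ 11 ≤ d ^ 2 ∧
      ContinuousOn sR (Icc c d) ∧ ContinuousOn sL (Icc c d) ∧
      sR c = 0 ∧ sR d = 0 ∧ sL c = 0 ∧ sL d = 0 ∧
      (∀ w ∈ Ioo c d, 0 < sR w ∧ sR w < ss ∧ sL w < 0) ∧
      (∀ w ∈ Ioo c d, HasDerivAt sR (-(w - FF (sR w)) / gg (sR w)) w) ∧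
      (∀ w ∈ Ioo c d, HasDerivAt sL (-(w - FF (sL w)) / gg (sL w)) w) := by
  have hmeet : Meet (fun t => -sS (x t) (y t)) (fun t => wW (x t) (y t))
      (fun t => -sS (x t) (y t)) (fun t => wW (x t) (y t)) := by
    intro t₁ t₂ h1 h2 t
    obtain ⟨h3, h4⟩ := lc_wW_injective (neg_injective h1) h2 (h.sS_lt hL t₁)
    obtain ⟨h5, h6⟩ := h.meet h t₁ t₂ h3 h4 t
    simp only [h5, h6, and_self]
  obtain ⟨c, d, φ, ψ, ho⟩ := exists_oval (f := lcfX) (g := lcgX) h.T_pos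
    (x := fun t => -sS (x t) (y t)) (y := fun t => wW (x t) (y t))
    (fun t => by simp only [h.px, h.py]) (fun t => by simp only [h.px, h.py])
    (h.rotX hL hfar) hmeet
  have hcd : c < d := ho.c_neg.trans ho.d_pos
  have hmem : ∀ z, z ∈ Icc c d → (∃ t, -sS (x t) (y t) = φ z ∧ wW (x t) (y t) = z) ∧
      (∃ t, -sS (x t) (y t) = ψ z ∧ wW (x t) (y t) = z) := by
    intro z hz
    have h1 : (φ z, z) ∈ range fun t => (-sS (x t) (y t), wW (x t) (y t)) := by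
      rw [ho.eq]; exact ⟨hz, Or.inl rfl⟩
    have h2 : (ψ z, z) ∈ range fun t => (-sS (x t) (y t), wW (x t) (y t)) := by
      rw [ho.eq]; exact ⟨hz, Or.inr rfl⟩
    obtain ⟨t₁, ht₁⟩ := h1
    obtain ⟨t₂, ht₂⟩ := h2
    exact ⟨⟨t₁, congrArg Prod.fst ht₁, congrArg Prod.snd ht₁⟩,
      ⟨t₂, congrArg Prod.fst ht₂, congrArg Prod.snd ht₂⟩⟩
  have hend : ∀ z, z ∈ Icc c d → φ z = 0 → 7 / 10 ^ 11 ≤ z ^ 2 := by
    intro z hz h0
    obtain ⟨⟨t, h1, h2⟩, -⟩ := hmem z hz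
    rw [h0] at h1
    rw [← h2]
    exact lc_far_wW (neg_eq_zero.1 h1) (hfar t)
  have hder : ∀ (χ : ℝ → ℝ) (z : ℝ), -χ z < ss → HasDerivAt χ (lcfX (χ z) z / lcgX (χ z) z) z →
      HasDerivAt (fun w => -χ w) (-(z - FF (-χ z)) / gg (-χ z)) z := by
    intro χ z hlt hd
    refine hd.neg.congr_deriv ?_
    have hp := pp_pos hlt
    unfold lcfX lcgX gg
    have e1 : pp (-χ z) ^ (-(2 + rr)) = pp (-χ z) ^ (-(3 + 2 * rr)) * pp (-χ z) ^ (1 + rr) := by
      rw [← Real.rpow_add hp]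
      congr 1; ring
    have e2 : pp (-χ z) ^ (1 + rr) ≠ 0 := (Real.rpow_pos_of_pos hp _).ne'
    rw [e1]
    have e3 : χ z * (1 + χ z) * NN (-χ z) * (pp (-χ z) ^ (-(3 + 2 * rr)) * pp (-χ z) ^ (1 + rr)) =
      (-(-χ z * (1 - -χ z) * NN (-χ z) * pp (-χ z) ^ (-(3 + 2 * rr)))) * pp (-χ z) ^ (1 + rr) := by
      ring
    rw [e3, ← neg_mul, mul_div_mul_right _ _ e2, div_neg, neg_neg]
  refine ⟨c, d, fun w => -ψ w, fun w => -φ w, ho.c_neg, ho.d_pos,
    hend c (left_mem_Icc.2 hcd.le) ho.φ_c, hend d (right_mem_Icc.2 hcd.le) ho.φ_d,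
    ho.ψ_cont.neg, ho.φ_cont.neg, by simp [ho.ψ_c], by simp [ho.ψ_d], by simp [ho.φ_c],
    by simp [ho.φ_d], ?_, ?_, ?_⟩
  · intro w hw
    have hw' : w ∈ Icc c d := ⟨hw.1.le, hw.2.le⟩
    obtain ⟨-, ⟨t, h1, -⟩⟩ := hmem w hw'
    refine ⟨neg_pos.2 (ho.ψ_neg w hw), ?_, neg_neg_of_pos (ho.φ_pos w hw)⟩
    show -ψ w < ss
    rw [← h1, neg_neg]
    exact h.sS_lt hL t
  · intro w hw
    have hw' : w ∈ Icc c d := ⟨hw.1.le, hw.2.le⟩
    obtain ⟨-, ⟨t, h1, -⟩⟩ := hmem w hw'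
    refine hder ψ w ?_ (ho.ψ_deriv w hw)
    rw [← h1, neg_neg]
    exact h.sS_lt hL t
  · intro w hw
    refine hder φ w ?_ (ho.φ_deriv w hw)
    have := ho.φ_pos w hw
    have := lc_ss_pos
    linarith

end

end Pool.Agent.H.MP_732d27_an
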