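import Pool.Agent.H.MP_732d27_an.PerDefs

/-!
# The Liénard form of Shi's system on the half plane `y - k x < s*`: definitions
-/

namespace Pool.Agent.H.MP_732d27_an

open Set

noncomputable section

theorem exists_kk : ∃ k : ℝ, 6522985221397152023551 / 10 ^ 23 < k ∧
    k < 6522985221397152023552 / 10 ^ 23 ∧ k ^ 3 + pb * k ^ 2 + (-10 - pe) * k - 1 = 0 := by
  have hc : ContinuousOn (fun k : ℝ => k ^ 3 + pb * k ^ 2 + (-10 - pe) * k - 1)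
      (Icc (6522985221397152023551 / 10 ^ 23) (6522985221397152023552 / 10 ^ 23)) := by
    fun_prop
  have h1 : ((6522985221397152023551 / 10 ^ 23 : ℝ)) ^ 3 + pb * (6522985221397152023551 / 10 ^ 23) ^ 2
      + (-10 - pe) * (6522985221397152023551 / 10 ^ 23) - 1 < 0 := by
    unfold pb pe; norm_num
  have h2 : 0 < ((6522985221397152023552 / 10 ^ 23 : ℝ)) ^ 3 + pb * (6522985221397152023552 / 10 ^ 23) ^ 2
      + (-10 - pe) * (6522985221397152023552 / 10 ^ 23) - 1 := by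
    unfold pb pe; norm_num
  obtain ⟨k, hk, hk0⟩ := intermediate_value_Ioo (by norm_num) hc ⟨h1, h2⟩
  exact ⟨k, hk.1, hk.2, hk0⟩

/-- The direction `k`: the root of `k³ + b k² + (a - e) k - 1` near `0.0652`. -/
def kk : ℝ := Classical.choose exists_kk

theorem kk_gt : 6522985221397152023551 / 10 ^ 23 < kk := (Classical.choose_spec exists_kk).1

theorem kk_lt : kk < 6522985221397152023552 / 10 ^ 23 := (Classical.choose_spec exists_kk).2.1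

theorem kk_eq : kk ^ 3 + pb * kk ^ 2 + (-10 - pe) * kk - 1 = 0 :=
  (Classical.choose_spec exists_kk).2.2

/-- `m₁` -/
def mm : ℝ := -pe + pb * kk + 2 * kk ^ 2

/-- `|q₂|` -/
def q2 : ℝ := 10 - pb * kk - kk ^ 2

/-- the exponent `r` -/
def rr : ℝ := q2 / mm

/-- `p(0)` -/
def c0 : ℝ := 1 + kk ^ 2 - kk * lam

/-- `s*` -/
def ss : ℝ := c0 / mm

def kap : ℝ := (mm + 2 * q2) * kk

/-- `p(s)`: `s' = k s (1 - s) + p(s) x` for `s = y - k x` -/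
def pp (s : ℝ) : ℝ := c0 - mm * s

/-- `M(s)` -/
def MM (s : ℝ) : ℝ := pb * pp s + kap * (1 - s)

/-- `M'` -/
def Md : ℝ := -(pb * mm + kap)

/-- `N(s)` -/
def NN (s : ℝ) : ℝ :=
  pp s ^ 2 + kk * (lam - kk + (pb + 2 * kk) * s) * pp s + q2 * kk ^ 2 * s * (1 - s)

/-- `N'(s)` -/
def Nd (s : ℝ) : ℝ :=
  -2 * mm * pp s + kk * (pb + 2 * kk) * pp s - kk * (lam - kk + (pb + 2 * kk) * s) * mm
    + q2 * kk ^ 2 * (1 - 2 * s)

/-- `T(s)` -/
def TT (s : ℝ) : ℝ :=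
  Md * pp s * (1 - s) * NN s - (mm + q2) * MM s * (1 - s) * NN s + MM s * pp s * NN s
    - Nd s * MM s * pp s * (1 - s)

/-- `g(s)` -/
def gg (s : ℝ) : ℝ := s * (1 - s) * NN s * pp s ^ (-(3 + 2 * rr))

/-- `f(s)` -/
def ff (s : ℝ) : ℝ := -(s * MM s * pp s ^ (-(2 + rr))) - lam * pp s ^ (-(1 + rr))

/-- `G(s)` -/
def GG (s : ℝ) : ℝ := ∫ t in (0 : ℝ)..s, gg t

/-- `F(s)` -/
def FF (s : ℝ) : ℝ := ∫ t in (0 : ℝ)..s, ff t

/-- `h₀(s) = -f⁰/g` -/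
def hh (s : ℝ) : ℝ := MM s * pp s ^ (1 + rr) / ((1 - s) * NN s)

/-- `ρ = M(s*)/s*` -/
def rho : ℝ := MM ss / ss

/-- `X(s)` -/
def XX (s : ℝ) : ℝ := rho * s / MM s

/-- the constant `i₀ = Ĩ(0)` (27 digits) -/
def i0 : ℝ := 1799912887733554459936719658 / 10 ^ 27

/-- the constant `C₃` (27 digits) -/
def C3 : ℝ := 3939023067793393231329437349 / 10 ^ 27

/-- `Ĩ(s) = i₀ + C₃ (X³ - (3/2) X²)` -/
def AA (s : ℝ) : ℝ := i0 + C3 * (XX s ^ 3 - 3 / 2 * XX s ^ 2)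

/-- the constant of `K` -/
def cK : ℝ := 3 * C3 * rho ^ 2 * MM 0 ^ 2 / c0

/-- `K(s)`: minus the derivative of `Ĩ` with respect to `z = G(s)` -/
def KK (s : ℝ) : ℝ := cK * pp s ^ (4 + 2 * rr) / (MM s ^ 4 * ((1 - s) * NN s))

/-- `χ(s) = 1/h₀²` -/
def chi (s : ℝ) : ℝ := ((1 - s) * NN s) ^ 2 * pp s ^ (-(2 + 2 * rr)) / MM s ^ 2

end

end Pool.Agent.H.MP_732d27_an
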