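import Pool.Agent.H.MP_732d27_an.LienConst
import Pool.Agent.H.MP_732d27_an.LienDeriv

/-!
# Enclosures of constants, and the change of variables `X = ρ s / M(s)`
-/

namespace Pool.Agent.H.MP_732d27_an
open Set

noncomputable section

namespace Match2

/-! ### enclosure calculus -/

theorem enc_mul {x y a b p q c d : ℝ} (hx : |x - a| ≤ p) (hy : |y - b| ≤ q)
    (h : |a * b - c| + |a| * q + |b| * p + p * q ≤ d) : |x * y - c| ≤ d := by
  have e : x * y - c = (a * b - c) + a * (y - b) + b * (x - a) + (x - a) * (y - b) := by ring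
  have h1 : |a * (y - b)| ≤ |a| * q := by
    rw [abs_mul]; exact mul_le_mul_of_nonneg_left hy (abs_nonneg a)
  have h2 : |b * (x - a)| ≤ |b| * p := by
    rw [abs_mul]; exact mul_le_mul_of_nonneg_left hx (abs_nonneg b)
  have h3 : |(x - a) * (y - b)| ≤ p * q := by
    rw [abs_mul]
    exact mul_le_mul hx hy (abs_nonneg _) (le_trans (abs_nonneg _) hx)
  rw [e]
  have := abs_add_le (a * b - c + a * (y - b) + b * (x - a)) ((x - a) * (y - b))
  have := abs_add_le (a * b - c + a * (y - b)) (b * (x - a))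
  have := abs_add_le (a * b - c) (a * (y - b))
  linarith

theorem enc_div {x y a b p q c d : ℝ} (hx : |x - a| ≤ p) (hy : |y - b| ≤ q) (hb : 0 < b - q)
    (hd : 0 ≤ d) (h : |a - c * b| + p + |c| * q ≤ d * (b - q)) : |x / y - c| ≤ d := by
  have hy0 : b - q ≤ y := by have := (abs_le.1 hy).1; linarith
  have hyp : 0 < y := lt_of_lt_of_le hb hy0
  have e : x / y - c = (x - c * y) / y := by field_simp
  have e2 : x - c * y = (a - c * b) + (x - a) + (-c) * (y - b) := by ring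
  have h1 : |(-c) * (y - b)| ≤ |c| * q := by
    rw [abs_mul, abs_neg]; exact mul_le_mul_of_nonneg_left hy (abs_nonneg c)
  have h2 : |x - c * y| ≤ d * (b - q) := by
    rw [e2]
    have := abs_add_le (a - c * b + (x - a)) ((-c) * (y - b))
    have := abs_add_le (a - c * b) (x - a)
    linarith
  rw [e, abs_div, abs_of_pos hyp, div_le_iff₀ hyp]
  exact le_trans h2 (mul_le_mul_of_nonneg_left hy0 hd)

theorem enc_add {x y a b p q c d : ℝ} (hx : |x - a| ≤ p) (hy : |y - b| ≤ q)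
    (h : |a + b - c| + p + q ≤ d) : |x + y - c| ≤ d := by
  have e : x + y - c = (a + b - c) + (x - a) + (y - b) := by ring
  rw [e]
  have := abs_add_le (a + b - c + (x - a)) (y - b)
  have := abs_add_le (a + b - c) (x - a)
  linarith

theorem enc_sub {x y a b p q c d : ℝ} (hx : |x - a| ≤ p) (hy : |y - b| ≤ q)
    (h : |a - b - c| + p + q ≤ d) : |x - y - c| ≤ d := by
  have e : x - y - c = (a - b - c) + (x - a) + (-(y - b)) := by ring
  rw [e]
  have := abs_add_le (a - b - c + (x - a)) (-(y - b))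
  have := abs_add_le (a - b - c) (x - a)
  rw [abs_neg] at *
  linarith

theorem kk_bd : |kk - 6522985221397152 / 10 ^ 17| ≤ 1 / 10 ^ 17 := by
  have h1 := kk_gt
  have h2 := kk_lt
  rw [abs_le]
  constructor <;> norm_num at h1 h2 ⊢ <;> linarith

theorem pb_bd : |pb - 5| ≤ 1 / 10 ^ 13 := by
  unfold pb; rw [abs_le]; constructor <;> norm_num

theorem lam_bd : |lam| ≤ 1 / 10 ^ 20 := by
  unfold lam; rw [abs_le]; constructor <;> norm_num

/-- linear coefficient of `N` -/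
def N1 : ℝ := -2 * (mm * c0) + kk * (pb + 2 * kk) * c0 - kk * (lam - kk) * mm + q2 * kk ^ 2

/-- quadratic coefficient of `N` -/
def N2 : ℝ := mm ^ 2 - kk * (pb + 2 * kk) * mm - q2 * kk ^ 2

theorem NN_poly (s : ℝ) : NN s = c0 + N1 * s + N2 * s ^ 2 := by
  have h0 : NN 0 = c0 := NN0_eq
  have : NN s = NN 0 + N1 * s + N2 * s ^ 2 := by
    unfold NN pp N1 N2
    ring
  rw [this, h0]

theorem w_bd : |pb + 2 * kk - 51304597044278 / 10 ^ 13| ≤ 1 / 10 ^ 12 := by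
  have h1 := abs_le.1 pb_bd
  have h2 := abs_le.1 kk_bd
  rw [abs_le]
  constructor <;> norm_num at h1 h2 ⊢ <;> linarith [h1.1, h1.2, h2.1, h2.2]

theorem kw_bd : |kk * (pb + 2 * kk) - 3346591283096 / 10 ^ 13| ≤ 1 / 10 ^ 12 :=
  enc_mul kk_bd w_bd (by norm_num [abs_of_nonneg, abs_of_neg])

theorem kwc_bd : |kk * (pb + 2 * kk) * c0 - 3360830806858 / 10 ^ 13| ≤ 2 / 10 ^ 12 :=
  enc_mul kw_bd c0_bd (by norm_num [abs_of_nonneg, abs_of_neg])

theorem kwm_bd : |kk * (pb + 2 * kk) * mm - 84784749398997 / 10 ^ 13| ≤ 3 / 10 ^ 11 :=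
  enc_mul kw_bd mm_bd (by norm_num [abs_of_nonneg, abs_of_neg])

theorem mc_bd : |mm * c0 - 254424564211813 / 10 ^ 13| ≤ 1 / 10 ^ 12 :=
  enc_mul mm_bd c0_bd (by norm_num [abs_of_nonneg, abs_of_neg])

theorem lk_bd : |lam - kk + 6522985221397 / 10 ^ 14| ≤ 1 / 10 ^ 13 := by
  have h1 := abs_le.1 lam_bd
  have h2 := abs_le.1 kk_bd
  rw [abs_le]
  constructor <;> norm_num at h1 h2 ⊢ <;> linarith [h1.1, h1.2, h2.1, h2.2]

theorem klk_bd : |kk * (lam - kk) + 42549336198566 / 10 ^ 16| ≤ 1 / 10 ^ 13 := by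
  have h := enc_mul (c := -(42549336198566 / 10 ^ 16)) (d := 1 / 10 ^ 13) kk_bd
    (show |lam - kk - (-(6522985221397 / 10 ^ 14))| ≤ 1 / 10 ^ 13 by
      rw [sub_neg_eq_add]; exact lk_bd) (by norm_num [abs_of_nonneg, abs_of_neg])
  rwa [sub_neg_eq_add] at h

theorem klkm_bd : |kk * (lam - kk) * mm - (-(1077972928726 / 10 ^ 13))| ≤ 3 / 10 ^ 12 :=
  enc_mul (show |kk * (lam - kk) - (-(42549336198566 / 10 ^ 16))| ≤ 1 / 10 ^ 13 by
      rw [sub_neg_eq_add]; exact klk_bd) mm_bd (by norm_num [abs_of_nonneg, abs_of_neg])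

theorem kk2_bd : |kk ^ 2 - 42549336198566 / 10 ^ 16| ≤ 1 / 10 ^ 15 := by
  rw [pow_two]
  exact enc_mul kk_bd kk_bd (by norm_num [abs_of_nonneg, abs_of_neg])

theorem qk_bd : |q2 * kk ^ 2 - 411434882824 / 10 ^ 13| ≤ 1 / 10 ^ 13 :=
  enc_mul q2_bd kk2_bd (by norm_num [abs_of_nonneg, abs_of_neg])

theorem mm2_bd : |mm ^ 2 - 6418449531475935 / 10 ^ 13| ≤ 1 / 10 ^ 12 := by
  rw [pow_two]
  exact enc_mul mm_bd mm_bd (by norm_num [abs_of_nonneg, abs_of_neg])

theorem N1_bd : |N1 - (-(503998889805217 / 10 ^ 13))| ≤ 1 / 10 ^ 11 := by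
  have h1 := abs_le.1 mc_bd
  have h2 := abs_le.1 kwc_bd
  have h3 := abs_le.1 klkm_bd
  have h4 := abs_le.1 qk_bd
  unfold N1
  rw [abs_le]
  constructor <;> norm_num at h1 h2 h3 h4 ⊢ <;>
    linarith [h1.1, h1.2, h2.1, h2.2, h3.1, h3.2, h4.1, h4.2]

theorem N2_bd : |N2 - 6333253347194114 / 10 ^ 13| ≤ 1 / 10 ^ 10 := by
  have h1 := abs_le.1 mm2_bd
  have h2 := abs_le.1 kwm_bd
  have h4 := abs_le.1 qk_bd
  unfold N2
  rw [abs_le]
  constructor <;> norm_num at h1 h2 h4 ⊢ <;>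
    linarith [h1.1, h1.2, h2.1, h2.2, h4.1, h4.2]

/-- `M(0) / ρ` -/
def sg : ℝ := MM 0 / rho

/-- `a₀` -/
def a0 : ℝ := -Md / rho

/-- `a₂` -/
def a2 : ℝ := a0 - sg

/-- `ν₁ (1 + a₀)` -/
def v1 : ℝ := N1 * sg / c0

/-- `ν₂ (1 + a₀)²` -/
def v2 : ℝ := N2 * sg ^ 2 / c0

/-- `n₁` -/
def n1 : ℝ := 2 * a0 + v1

/-- `n₂` -/
def n2 : ℝ := a0 ^ 2 + v1 * a0 + v2

theorem sg_bd : |sg - 1123985191570601 / 10 ^ 16| ≤ 1 / 10 ^ 13 :=
  enc_div MM0_bd rho_bd (by norm_num) (by norm_num) (by norm_num [abs_of_nonneg, abs_of_neg])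

theorem a0_bd : |a0 - 18355132487192644 / 10 ^ 16| ≤ 1 / 10 ^ 13 := by
  have h : |-Md - 129587364323070164880473 / 10 ^ 21| ≤ 1 / 10 ^ 16 := by
    have := Md_bd
    rw [← abs_neg, show -(-Md - 129587364323070164880473 / 10 ^ 21 : ℝ) =
      Md + 129587364323070164880473 / 10 ^ 21 by ring]
    exact this
  exact enc_div h rho_bd (by norm_num) (by norm_num) (by norm_num [abs_of_nonneg, abs_of_neg])

theorem a2_bd : |a2 - 17231147295622 / 10 ^ 13| ≤ 1 / 10 ^ 12 :=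
  enc_sub a0_bd sg_bd (by norm_num [abs_of_nonneg, abs_of_neg])

theorem N1sg_bd : |N1 * sg - (-(56648728870908 / 10 ^ 13))| ≤ 1 / 10 ^ 11 :=
  enc_mul N1_bd sg_bd (by norm_num [abs_of_nonneg, abs_of_neg])

theorem v1_bd : |v1 - (-(56408713539217 / 10 ^ 13))| ≤ 2 / 10 ^ 11 :=
  enc_div N1sg_bd c0_bd (by norm_num) (by norm_num) (by norm_num [abs_of_nonneg, abs_of_neg])

theorem sg2_bd : |sg ^ 2 - 126334271087000 / 10 ^ 16| ≤ 1 / 10 ^ 12 := by
  rw [pow_two]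
  exact enc_mul sg_bd sg_bd (by norm_num [abs_of_nonneg, abs_of_neg])

theorem N2sg_bd : |N2 * sg ^ 2 - 80010694522707 / 10 ^ 13| ≤ 1 / 10 ^ 9 :=
  enc_mul N2_bd sg2_bd (by norm_num [abs_of_nonneg, abs_of_neg])

theorem v2_bd : |v2 - 79671696741689 / 10 ^ 13| ≤ 2 / 10 ^ 9 :=
  enc_div N2sg_bd c0_bd (by norm_num) (by norm_num) (by norm_num [abs_of_nonneg, abs_of_neg])

theorem a0sq_bd : |a0 ^ 2 - 33691088862239 / 10 ^ 13| ≤ 1 / 10 ^ 11 := by
  rw [pow_two]
  exact enc_mul a0_bd a0_bd (by norm_num [abs_of_nonneg, abs_of_neg])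

theorem v1a0_bd : |v1 * a0 - (-(103538941044444 / 10 ^ 13))| ≤ 1 / 10 ^ 10 :=
  enc_mul v1_bd a0_bd (by norm_num [abs_of_nonneg, abs_of_neg])

theorem n1_bd : |n1 + 19698448565 / 10 ^ 10| ≤ 1 / 10 ^ 8 := by
  have h1 := abs_le.1 a0_bd
  have h2 := abs_le.1 v1_bd
  unfold n1
  rw [abs_le]
  constructor <;> norm_num at h1 h2 ⊢ <;> linarith [h1.1, h1.2, h2.1, h2.2]

theorem n2_bd : |n2 - 9823844560 / 10 ^ 10| ≤ 1 / 10 ^ 8 := by
  have h1 := abs_le.1 a0sq_bd
  have h2 := abs_le.1 v1a0_bd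
  have h3 := abs_le.1 v2_bd
  unfold n2
  rw [abs_le]
  constructor <;> norm_num at h1 h2 h3 ⊢ <;> linarith [h1.1, h1.2, h2.1, h2.2, h3.1, h3.2]

theorem a0_bd' : |a0 - 18355132487 / 10 ^ 10| ≤ 1 / 10 ^ 8 := by
  have h1 := abs_le.1 a0_bd
  rw [abs_le]
  constructor <;> norm_num at h1 ⊢ <;> linarith [h1.1, h1.2]

theorem a2_bd' : |a2 - 17231147296 / 10 ^ 10| ≤ 1 / 10 ^ 8 := by
  have h1 := abs_le.1 a2_bd
  rw [abs_le]
  constructor <;> norm_num at h1 ⊢ <;> linarith [h1.1, h1.2]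

theorem rr_bd' : |rr - 3816745967 / 10 ^ 10| ≤ 1 / 10 ^ 8 := by
  have h1 := abs_le.1 rr_bd
  rw [abs_le]
  constructor <;> norm_num at h1 ⊢ <;> linarith [h1.1, h1.2]

/-! ### the change of variables -/

theorem c0_pos : 0 < c0 := by
  have h := abs_le.1 c0_bd
  norm_num at h
  linarith [h.1]

theorem mm_pos : 0 < mm := by
  have h := abs_le.1 mm_bd
  norm_num at h
  linarith [h.1]

theorem rho_pos : 0 < rho := by
  have h := abs_le.1 rho_bd
  norm_num at h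
  linarith [h.1]

theorem MM0_pos : 0 < MM 0 := by
  have h := abs_le.1 MM0_bd
  norm_num at h
  linarith [h.1]

theorem ss_pos : 0 < ss := div_pos c0_pos mm_pos

theorem MM_lin (s : ℝ) : MM s = MM 0 + Md * s := by
  unfold MM Md pp; ring

theorem rho_eq : rho * ss = MM 0 + Md * ss := by
  unfold rho
  rw [← MM_lin, div_mul_cancel₀ _ ss_pos.ne']

theorem u_eq {s : ℝ} (hs : s < ss) : 1 + a0 * XX s = MM 0 / MM s := by
  have hM := MM_pos hs
  have hr := rho_pos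
  unfold a0 XX
  field_simp
  rw [MM_lin s]
  ring

theorem oneX_eq {s : ℝ} (hs : s < ss) : 1 - XX s = MM 0 * pp s / (c0 * MM s) := by
  have hM := MM_pos hs
  have hr := rho_pos
  have hc := c0_pos
  have hm := mm_pos
  have e : rho * c0 = MM 0 * mm + Md * c0 := by
    have h := rho_eq
    have e2 : ss * mm = c0 := by unfold ss; field_simp
    have : rho * (ss * mm) = MM 0 * mm + Md * (ss * mm) := by
      rw [← mul_assoc, h]; ring
    rwa [e2] at this
  unfold XX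
  rw [eq_div_iff (by positivity)]
  field_simp
  rw [MM_lin s]
  unfold pp
  linear_combination (-s) * e

theorem a2X_eq {s : ℝ} (hs : s < ss) : 1 + a2 * XX s = (1 - s) * (MM 0 / MM s) := by
  have h := u_eq hs
  have hM := MM_pos hs
  have hr := rho_pos
  have e : sg * XX s = s * (MM 0 / MM s) := by
    unfold sg XX; field_simp
  unfold a2
  rw [← h] at e ⊢
  linear_combination (-1) * e

theorem nX_eq {s : ℝ} (hs : s < ss) :
    1 + n1 * XX s + n2 * XX s ^ 2 = NN s * (MM 0 / MM s) ^ 2 / c0 := by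
  have h := u_eq hs
  have hM := MM_pos hs
  have hr := rho_pos
  have hc := c0_pos
  have e : sg * XX s = s * (MM 0 / MM s) := by
    unfold sg XX; field_simp
  rw [NN_poly, ← h] at *
  rw [eq_div_iff hc.ne']
  have f1 : v1 * c0 = N1 * sg := by unfold v1; field_simp
  have f2 : v2 * c0 = N2 * sg ^ 2 := by unfold v2; field_simp
  unfold n1 n2
  have g1 : N1 * (sg * XX s) = N1 * (s * (1 + a0 * XX s)) := by rw [e]
  have g2 : N2 * (sg * XX s) ^ 2 = N2 * (s * (1 + a0 * XX s)) ^ 2 := by rw [e]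
  linear_combination (XX s + a0 * XX s ^ 2) * f1 + XX s ^ 2 * f2 + (1 + a0 * XX s) * g1 + g2

theorem cK_pos : 0 < cK := by
  have h1 := rho_pos
  have h2 := MM0_pos
  have h3 := c0_pos
  have h4 : (0 : ℝ) < C3 := by unfold C3; norm_num
  unfold cK
  positivity

theorem one_sub_pos {s : ℝ} (hs : s < ss) : 0 < 1 - s := by
  have := ss_lt_one
  linarith

end Match2

end

end Pool.Agent.H.MP_732d27_an
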