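import Pool.Agent.H.MP_732d27_an.LienEnc

/-!
# Local estimates for `G`, `K`, `χ`, and the bound for `Ĩ`
-/

namespace Pool.Agent.H.MP_732d27_an
open Set

noncomputable section

namespace Match2

theorem lt_ss {s : ℝ} (hs : |s| ≤ 15 / 10 ^ 4) : s < ss := by
  have h1 := (abs_le.1 hs).2
  have h2 := (abs_le.1 ss_bd).1
  norm_num at h1 h2
  linarith

/-! ### enclosures on `|s| ≤ 0.0015` -/

theorem pp_enc {s : ℝ} (hs : |s| ≤ 15 / 10 ^ 4) :
    |pp s - (100425493 / 10 ^ 8 - 253346591 / 10 ^ 7 * s)| ≤ 1 / 10 ^ 8 := by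
  have h1 : |mm * s - 253346591 / 10 ^ 7 * s| ≤ 1 / 10 ^ 9 := by
    rw [← sub_mul, abs_mul]
    have hm : |mm - 253346591 / 10 ^ 7| ≤ 1 / 10 ^ 7 := by
      have h := abs_le.1 mm_bd
      rw [abs_le]
      constructor <;> norm_num at h ⊢ <;> linarith [h.1, h.2]
    calc |mm - 253346591 / 10 ^ 7| * |s| ≤ 1 / 10 ^ 7 * (15 / 10 ^ 4) :=
          mul_le_mul hm hs (abs_nonneg _) (by norm_num)
      _ ≤ 1 / 10 ^ 9 := by norm_num
  have h2 := abs_le.1 h1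
  have h3 := abs_le.1 c0_bd
  unfold pp
  rw [abs_le]
  constructor <;> norm_num at h2 h3 ⊢ <;> linarith [h2.1, h2.2, h3.1, h3.2]

theorem MM_enc {s : ℝ} (hs : |s| ≤ 15 / 10 ^ 4) :
    |MM s - (793534335 / 10 ^ 8 - 1295873643 / 10 ^ 7 * s)| ≤ 1 / 10 ^ 8 := by
  have h1 : |Md * s - (-(1295873643 / 10 ^ 7)) * s| ≤ 1 / 10 ^ 9 := by
    rw [← sub_mul, abs_mul]
    have hm : |Md - (-(1295873643 / 10 ^ 7))| ≤ 1 / 10 ^ 7 := by
      have h := abs_le.1 Md_bd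
      rw [abs_le]
      constructor <;> norm_num at h ⊢ <;> linarith [h.1, h.2]
    calc |Md - (-(1295873643 / 10 ^ 7))| * |s| ≤ 1 / 10 ^ 7 * (15 / 10 ^ 4) :=
          mul_le_mul hm hs (abs_nonneg _) (by norm_num)
      _ ≤ 1 / 10 ^ 9 := by norm_num
  have h2 := abs_le.1 h1
  have h3 := abs_le.1 MM0_bd
  rw [MM_lin, abs_le]
  constructor <;> norm_num at h2 h3 ⊢ <;> linarith [h2.1, h2.2, h3.1, h3.2]

theorem NN_enc {s : ℝ} (hs : |s| ≤ 15 / 10 ^ 4) :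
    |NN s - (100425493 / 10 ^ 8 - 503998890 / 10 ^ 7 * s + 633325335 / 10 ^ 6 * s ^ 2)| ≤
      1 / 10 ^ 8 := by
  have h1 : |N1 * s - (-(503998890 / 10 ^ 7)) * s| ≤ 1 / 10 ^ 9 := by
    rw [← sub_mul, abs_mul]
    have hm : |N1 - (-(503998890 / 10 ^ 7))| ≤ 1 / 10 ^ 7 := by
      have h := abs_le.1 N1_bd
      rw [abs_le]
      constructor <;> norm_num at h ⊢ <;> linarith [h.1, h.2]
    calc |N1 - (-(503998890 / 10 ^ 7))| * |s| ≤ 1 / 10 ^ 7 * (15 / 10 ^ 4) :=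
          mul_le_mul hm hs (abs_nonneg _) (by norm_num)
      _ ≤ 1 / 10 ^ 9 := by norm_num
  have h1' : |N2 * s ^ 2 - 633325335 / 10 ^ 6 * s ^ 2| ≤ 1 / 10 ^ 9 := by
    rw [← sub_mul, abs_mul]
    have hm : |N2 - 633325335 / 10 ^ 6| ≤ 1 / 10 ^ 6 := by
      have h := abs_le.1 N2_bd
      rw [abs_le]
      constructor <;> norm_num at h ⊢ <;> linarith [h.1, h.2]
    have hs2 : |s ^ 2| ≤ (15 / 10 ^ 4) ^ 2 := by
      rw [abs_pow]; exact pow_le_pow_left₀ (abs_nonneg _) hs 2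
    calc |N2 - 633325335 / 10 ^ 6| * |s ^ 2| ≤ 1 / 10 ^ 6 * (15 / 10 ^ 4) ^ 2 :=
          mul_le_mul hm hs2 (abs_nonneg _) (by norm_num)
      _ ≤ 1 / 10 ^ 9 := by norm_num
  have h2 := abs_le.1 h1
  have h2' := abs_le.1 h1'
  have h3 := abs_le.1 c0_bd
  rw [NN_poly, abs_le]
  constructor <;> norm_num at h2 h2' h3 ⊢ <;>
    linarith [h2.1, h2.2, h2'.1, h2'.2, h3.1, h3.2]

theorem Nd_lin (s : ℝ) : Nd s = N1 + 2 * N2 * s := by
  unfold Nd pp N1 N2; ring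

theorem Nd_enc {s : ℝ} (hs : |s| ≤ 15 / 10 ^ 4) :
    |Nd s - (-(503998890 / 10 ^ 7) + 1266650669 / 10 ^ 6 * s)| ≤ 1 / 10 ^ 7 := by
  have h1 : |2 * N2 * s - 1266650669 / 10 ^ 6 * s| ≤ 1 / 10 ^ 8 := by
    rw [← sub_mul, abs_mul]
    have hm : |2 * N2 - 1266650669 / 10 ^ 6| ≤ 2 / 10 ^ 6 := by
      have h := abs_le.1 N2_bd
      rw [abs_le]
      constructor <;> norm_num at h ⊢ <;> linarith [h.1, h.2]
    calc |2 * N2 - 1266650669 / 10 ^ 6| * |s| ≤ 2 / 10 ^ 6 * (15 / 10 ^ 4) :=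
          mul_le_mul hm hs (abs_nonneg _) (by norm_num)
      _ ≤ 1 / 10 ^ 8 := by norm_num
  have h2 := abs_le.1 h1
  have h3 := abs_le.1 N1_bd
  rw [Nd_lin, abs_le]
  constructor <;> norm_num at h2 h3 ⊢ <;> linarith [h2.1, h2.2, h3.1, h3.2]

theorem twor_enc : |2 * rr - 76334920 / 10 ^ 8| ≤ 1 / 10 ^ 8 := by
  have h := abs_le.1 rr_bd
  rw [abs_le]
  constructor <;> norm_num at h ⊢ <;> linarith [h.1, h.2]

/-- `P^β ≤ 1 + β (P - 1)` -/
theorem rpow_le {P β : ℝ} (hP : 0 < P) (h0 : 0 ≤ β) (h1 : β ≤ 1) : P ^ β ≤ 1 + β * (P - 1) := by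
  have := rpow_one_add_le_one_add_mul_self (s := P - 1) (by linarith) h0 h1
  rwa [show 1 + (P - 1) = P by ring] at this

/-- `P / (1 + (1 - β)(P - 1)) ≤ P^β` in the form `P ≤ P^β (1 + (1 - β)(P - 1))` -/
theorem le_rpow {P β : ℝ} (hP : 0 < P) (h0 : 0 ≤ β) (h1 : β ≤ 1) :
    P ≤ P ^ β * (1 + (1 - β) * (P - 1)) := by
  have h := rpow_le hP (β := 1 - β) (by linarith) (by linarith)
  have h2 : P ^ β * P ^ (1 - β) = P := by
    rw [← Real.rpow_add hP]; simp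
  calc P = P ^ β * P ^ (1 - β) := h2.symm
    _ ≤ P ^ β * (1 + (1 - β) * (P - 1)) :=
      mul_le_mul_of_nonneg_left h (Real.rpow_nonneg hP.le _)

/-- `φ(s) = g(s) / s` -/
def ph (s : ℝ) : ℝ := (1 - s) * NN s * pp s ^ (-(3 + 2 * rr))

theorem gg_ph (s : ℝ) : gg s = s * ph s := by
  unfold gg ph; ring

theorem ph_eq {s : ℝ} (hs : s < ss) : ph s = (1 - s) * NN s / (pp s ^ 3 * pp s ^ (2 * rr)) := by
  have hp := pp_pos hs
  unfold ph
  rw [Real.rpow_neg hp.le, Real.rpow_add hp, div_eq_mul_inv]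
  norm_cast

theorem ph_pos {s : ℝ} (hs : s < ss) : 0 < ph s := by
  have := one_sub_pos hs
  have := NN_pos s
  have := Real.rpow_pos_of_pos (pp_pos hs) (-(3 + 2 * rr))
  unfold ph; positivity

theorem ph_le {s : ℝ} (hs : s < ss) {B : ℝ}
    (h : (1 - s) * NN s * (1 + (1 - 2 * rr) * (pp s - 1)) ≤ B * pp s ^ 4) : ph s ≤ B := by
  have hp := pp_pos hs
  have h2 := abs_le.1 twor_enc
  norm_num at h2
  have h3 := le_rpow hp (β := 2 * rr) (by linarith [h2.1]) (by linarith [h2.2])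
  have h4 := Real.rpow_pos_of_pos hp (2 * rr)
  have hN := NN_pos s
  have h1 := one_sub_pos hs
  rw [ph_eq hs, div_le_iff₀ (by positivity)]
  have e : 0 < pp s ^ (2 * rr) * (1 + (1 - 2 * rr) * (pp s - 1)) := lt_of_lt_of_le hp h3
  have e1 : 0 < 1 + (1 - 2 * rr) * (pp s - 1) := (pos_iff_pos_of_mul_pos e).1 h4
  have h5 : (1 - s) * NN s * pp s ≤ B * (pp s ^ 3 * pp s ^ (2 * rr)) * pp s := by
    calc (1 - s) * NN s * pp s ≤
          (1 - s) * NN s * (pp s ^ (2 * rr) * (1 + (1 - 2 * rr) * (pp s - 1))) :=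
          mul_le_mul_of_nonneg_left h3 (by positivity)
      _ = pp s ^ (2 * rr) * ((1 - s) * NN s * (1 + (1 - 2 * rr) * (pp s - 1))) := by ring
      _ ≤ pp s ^ (2 * rr) * (B * pp s ^ 4) := mul_le_mul_of_nonneg_left h h4.le
      _ = B * (pp s ^ 3 * pp s ^ (2 * rr)) * pp s := by ring
  exact le_of_mul_le_mul_right h5 hp

theorem le_ph {s : ℝ} (hs : s < ss) {B : ℝ} (hB : 0 ≤ B)
    (h : B * (pp s ^ 3 * (1 + 2 * rr * (pp s - 1))) ≤ (1 - s) * NN s) : B ≤ ph s := by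
  have hp := pp_pos hs
  have h2 := abs_le.1 twor_enc
  norm_num at h2
  have h3 := rpow_le hp (β := 2 * rr) (by linarith [h2.1]) (by linarith [h2.2])
  have h4 := Real.rpow_pos_of_pos hp (2 * rr)
  rw [ph_eq hs, le_div_iff₀ (by positivity)]
  refine le_trans ?_ h
  apply mul_le_mul_of_nonneg_left _ hB
  exact mul_le_mul_of_nonneg_left h3 (by positivity)

theorem abs_pm {s : ℝ} (hs : |s| ≤ 15 / 10 ^ 4) :
    |100425493 / 10 ^ 8 - 253346591 / 10 ^ 7 * s - 1| ≤ 5 / 100 := by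
  have h := abs_le.1 hs
  norm_num at h
  rw [abs_le]
  constructor <;> norm_num <;> linarith [h.1, h.2]

theorem q_hi {s : ℝ} (hs : |s| ≤ 15 / 10 ^ 4) :
    1 + (1 - 2 * rr) * (pp s - 1) ≤
      1 + 23665080 / 10 ^ 8 * (100425493 / 10 ^ 8 - 253346591 / 10 ^ 7 * s - 1) + 2 / 10 ^ 8 := by
  have h1 : |1 - 2 * rr - 23665080 / 10 ^ 8| ≤ 1 / 10 ^ 8 := by
    have h := abs_le.1 twor_enc
    rw [abs_le]
    constructor <;> norm_num at h ⊢ <;> linarith [h.1, h.2]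
  have h2 : |pp s - 1 - (100425493 / 10 ^ 8 - 253346591 / 10 ^ 7 * s - 1)| ≤ 1 / 10 ^ 8 := by
    have h := abs_le.1 (pp_enc hs)
    rw [abs_le]
    constructor <;> linarith [h.1, h.2]
  have h3 := enc_mul (c := 23665080 / 10 ^ 8 * (100425493 / 10 ^ 8 - 253346591 / 10 ^ 7 * s - 1))
    (d := 2 / 10 ^ 8) h1 h2 (by
      rw [sub_self, abs_zero, abs_of_nonneg (show (0 : ℝ) ≤ 23665080 / 10 ^ 8 by norm_num)]
      have := abs_pm hs
      linarith)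
  linarith [(abs_le.1 h3).2]

theorem r_hi {s : ℝ} (hs : |s| ≤ 15 / 10 ^ 4) :
    1 + 2 * rr * (pp s - 1) ≤
      1 + 76334920 / 10 ^ 8 * (100425493 / 10 ^ 8 - 253346591 / 10 ^ 7 * s - 1) + 2 / 10 ^ 8 := by
  have h2 : |pp s - 1 - (100425493 / 10 ^ 8 - 253346591 / 10 ^ 7 * s - 1)| ≤ 1 / 10 ^ 8 := by
    have h := abs_le.1 (pp_enc hs)
    rw [abs_le]
    constructor <;> linarith [h.1, h.2]
  have h3 := enc_mul (c := 76334920 / 10 ^ 8 * (100425493 / 10 ^ 8 - 253346591 / 10 ^ 7 * s - 1))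
    (d := 2 / 10 ^ 8) twor_enc h2 (by
      rw [sub_self, abs_zero, abs_of_nonneg (show (0 : ℝ) ≤ 76334920 / 10 ^ 8 by norm_num)]
      have := abs_pm hs
      linarith)
  linarith [(abs_le.1 h3).2]

theorem ph_up {s B : ℝ} (hs : |s| ≤ 15 / 10 ^ 4) (hB : 0 ≤ B)
    (h : (1 - s) * (100425494 / 10 ^ 8 - 503998890 / 10 ^ 7 * s + 633325335 / 10 ^ 6 * s ^ 2) *
      (1 + 23665080 / 10 ^ 8 * (100425493 / 10 ^ 8 - 253346591 / 10 ^ 7 * s - 1) + 2 / 10 ^ 8) ≤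
      B * (100425492 / 10 ^ 8 - 253346591 / 10 ^ 7 * s) ^ 4) : ph s ≤ B := by
  have hss := lt_ss hs
  have h1 := abs_le.1 hs
  norm_num at h1
  apply ph_le hss
  have hN := (abs_le.1 (NN_enc hs)).2
  have hP := (abs_le.1 (pp_enc hs)).1
  have hq := q_hi hs
  have hNp := NN_pos s
  have hq0 : 0 ≤ 1 + 23665080 / 10 ^ 8 * (100425493 / 10 ^ 8 - 253346591 / 10 ^ 7 * s - 1)
      + 2 / 10 ^ 8 := by
    norm_num; linarith [h1.1, h1.2]
  have hN' : NN s ≤ 100425494 / 10 ^ 8 - 503998890 / 10 ^ 7 * s + 633325335 / 10 ^ 6 * s ^ 2 := by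
    linarith
  have hP' : 100425492 / 10 ^ 8 - 253346591 / 10 ^ 7 * s ≤ pp s := by linarith
  have hP0 : 0 ≤ 100425492 / 10 ^ 8 - 253346591 / 10 ^ 7 * s := by
    norm_num; linarith [h1.1, h1.2]
  have h1s : 0 ≤ 1 - s := by linarith [h1.2]
  calc (1 - s) * NN s * (1 + (1 - 2 * rr) * (pp s - 1)) ≤
        (1 - s) * NN s *
          (1 + 23665080 / 10 ^ 8 * (100425493 / 10 ^ 8 - 253346591 / 10 ^ 7 * s - 1) + 2 / 10 ^ 8) :=
        mul_le_mul_of_nonneg_left hq (mul_nonneg h1s hNp.le)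
    _ ≤ (1 - s) * (100425494 / 10 ^ 8 - 503998890 / 10 ^ 7 * s + 633325335 / 10 ^ 6 * s ^ 2) *
          (1 + 23665080 / 10 ^ 8 * (100425493 / 10 ^ 8 - 253346591 / 10 ^ 7 * s - 1) + 2 / 10 ^ 8) :=
        mul_le_mul_of_nonneg_right (mul_le_mul_of_nonneg_left hN' h1s) hq0
    _ ≤ B * (100425492 / 10 ^ 8 - 253346591 / 10 ^ 7 * s) ^ 4 := h
    _ ≤ B * pp s ^ 4 := mul_le_mul_of_nonneg_left (pow_le_pow_left₀ hP0 hP' 4) hB

theorem ph_lo {s B : ℝ} (hs : |s| ≤ 15 / 10 ^ 4) (hB : 0 ≤ B)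
    (h : B * ((100425494 / 10 ^ 8 - 253346591 / 10 ^ 7 * s) ^ 3 *
      (1 + 76334920 / 10 ^ 8 * (100425493 / 10 ^ 8 - 253346591 / 10 ^ 7 * s - 1) + 2 / 10 ^ 8)) ≤
      (1 - s) * (100425492 / 10 ^ 8 - 503998890 / 10 ^ 7 * s + 633325335 / 10 ^ 6 * s ^ 2)) :
    B ≤ ph s := by
  have hss := lt_ss hs
  have h1 := abs_le.1 hs
  norm_num at h1
  apply le_ph hss hB
  have hN := (abs_le.1 (NN_enc hs)).1
  have hP := (abs_le.1 (pp_enc hs)).2
  have hq := r_hi hs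
  have hPp := pp_pos hss
  have hq0 : 0 ≤ 1 + 76334920 / 10 ^ 8 * (100425493 / 10 ^ 8 - 253346591 / 10 ^ 7 * s - 1)
      + 2 / 10 ^ 8 := by
    norm_num; linarith [h1.1, h1.2]
  have hN' : 100425492 / 10 ^ 8 - 503998890 / 10 ^ 7 * s + 633325335 / 10 ^ 6 * s ^ 2 ≤ NN s := by
    linarith
  have hP' : pp s ≤ 100425494 / 10 ^ 8 - 253346591 / 10 ^ 7 * s := by linarith
  have h1s : 0 ≤ 1 - s := by linarith [h1.2]
  refine le_trans ?_ (le_trans h (mul_le_mul_of_nonneg_left hN' h1s))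
  apply mul_le_mul_of_nonneg_left _ hB
  calc pp s ^ 3 * (1 + 2 * rr * (pp s - 1)) ≤
        pp s ^ 3 * (1 + 76334920 / 10 ^ 8 * (100425493 / 10 ^ 8 - 253346591 / 10 ^ 7 * s - 1)
          + 2 / 10 ^ 8) := mul_le_mul_of_nonneg_left hq (by positivity)
    _ ≤ _ := mul_le_mul_of_nonneg_right (pow_le_pow_left₀ hPp.le hP' 3) hq0

theorem bern5 {t h : ℝ} (h0 : 0 ≤ t) (h1 : t ≤ h) :
    0 ≤ (h - t) ^ 5 ∧ 0 ≤ t * (h - t) ^ 4 ∧ 0 ≤ t ^ 2 * (h - t) ^ 3 ∧ 0 ≤ t ^ 3 * (h - t) ^ 2 ∧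
      0 ≤ t ^ 4 * (h - t) ∧ 0 ≤ t ^ 5 := by
  have h2 : 0 ≤ h - t := by linarith
  refine ⟨?_, ?_, ?_, ?_, ?_, ?_⟩ <;> positivity

theorem ph_up_pos {s : ℝ} (h0 : 0 ≤ s) (h1 : s ≤ 15 / 10 ^ 4) :
    ph s ≤ 9885 / 10 ^ 4 + 47 * s := by
  apply ph_up (by rw [abs_of_nonneg h0]; exact h1) (by positivity)
  obtain ⟨b0, b1, b2, b3, b4, b5⟩ := bern5 h0 h1
  norm_num at b0 b1 b2 b3 b4 b5 ⊢
  linarith

theorem ph_lo_pos {s : ℝ} (h0 : 0 ≤ s) (h1 : s ≤ 15 / 10 ^ 4) :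
    988 / 10 ^ 3 + 40 * s ≤ ph s := by
  apply ph_lo (by rw [abs_of_nonneg h0]; exact h1) (by positivity)
  obtain ⟨b0, b1, b2, b3, b4, b5⟩ := bern5 h0 h1
  norm_num at b0 b1 b2 b3 b4 b5 ⊢
  linarith

theorem ph_up_neg {s : ℝ} (h0 : 0 ≤ s) (h1 : s ≤ 15 / 10 ^ 4) :
    ph (-s) ≤ 9885 / 10 ^ 4 - 40 * s := by
  apply ph_up (by rw [abs_neg, abs_of_nonneg h0]; exact h1) (by norm_num at h1 ⊢; linarith)
  obtain ⟨b0, b1, b2, b3, b4, b5⟩ := bern5 h0 h1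
  norm_num at b0 b1 b2 b3 b4 b5 ⊢
  linarith

theorem ph_lo_neg {s : ℝ} (h0 : 0 ≤ s) (h1 : s ≤ 15 / 10 ^ 4) :
    988 / 10 ^ 3 - 45 * s ≤ ph (-s) := by
  apply ph_lo (by rw [abs_neg, abs_of_nonneg h0]; exact h1) (by norm_num at h1 ⊢; linarith)
  obtain ⟨b0, b1, b2, b3, b4, b5⟩ := bern5 h0 h1
  norm_num at b0 b1 b2 b3 b4 b5 ⊢
  linarith

theorem nonneg_right {f f' : ℝ → ℝ} {h s : ℝ} (h0 : f 0 = 0)
    (hd : ∀ t, 0 ≤ t → t ≤ h → HasDerivAt f (f' t) t) (hf : ∀ t, 0 < t → t ≤ h → 0 ≤ f' t)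
    (hs0 : 0 ≤ s) (hs : s ≤ h) : 0 ≤ f s := by
  rcases hs0.eq_or_lt with rfl | hs0
  · exact h0.ge
  obtain ⟨c, hc, hc2⟩ := exists_hasDerivAt_eq_slope f f' hs0
    (fun t ht => (hd t ht.1 (ht.2.trans hs)).continuousAt.continuousWithinAt)
    (fun t ht => hd t ht.1.le (ht.2.le.trans hs))
  have h1 := hf c hc.1 (hc.2.le.trans hs)
  rw [hc2, h0, sub_zero, sub_zero] at h1
  by_contra hcon
  push Not at hcon
  have := div_neg_of_neg_of_pos hcon hs0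
  linarith

theorem GG_zero : GG 0 = 0 := by unfold GG; simp

end Match2

open Match2 in
theorem GG_local {s : ℝ} (hs : |s| ≤ 15 / 10 ^ 4) : 47 / 100 * s ^ 2 ≤ GG s ∧ GG s ≤ 52 / 100 * s ^ 2 := by
  have key : ∀ t : ℝ, 0 ≤ t → t ≤ 15 / 10 ^ 4 →
      (47 / 100 * t ^ 2 ≤ GG t ∧ GG t ≤ 52 / 100 * t ^ 2) ∧
      (47 / 100 * t ^ 2 ≤ GG (-t) ∧ GG (-t) ≤ 52 / 100 * t ^ 2) := by
    intro t ht0 ht
    have hd : ∀ u : ℝ, 0 ≤ u → u ≤ 15 / 10 ^ 4 → HasDerivAt GG (gg u) u := fun u hu0 hu =>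
      hasDerivAt_GG (lt_ss (by rw [abs_of_nonneg hu0]; exact hu))
    have hd' : ∀ u : ℝ, 0 ≤ u → u ≤ 15 / 10 ^ 4 → HasDerivAt (fun v => GG (-v)) (-gg (-u)) u := by
      intro u hu0 hu
      have h1 := hasDerivAt_GG (s := -u) (lt_ss (by rw [abs_neg, abs_of_nonneg hu0]; exact hu))
      have h2 := HasDerivAt.scomp u h1 (hasDerivAt_neg u)
      exact h2.congr_deriv (by simp)
    have e1 : 0 ≤ GG t - 47 / 100 * t ^ 2 := by
      refine nonneg_right (f := fun u => GG u - 47 / 100 * u ^ 2)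
        (f' := fun u => gg u - 47 / 100 * (2 * u)) (h := 15 / 10 ^ 4) (by simp [GG_zero]) ?_ ?_ ht0 ht
      · intro u hu0 hu
        have := (hd u hu0 hu).sub ((hasDerivAt_pow 2 u).const_mul (47 / 100))
        exact this.congr_deriv (by simp)
      · intro u hu0 hu
        have h1 := ph_lo_pos hu0.le hu
        rw [gg_ph]
        nlinarith
    have e2 : 0 ≤ (9885 / 10 ^ 4 / 2 * t ^ 2 + 47 / 3 * t ^ 3) - GG t := by
      refine nonneg_right (f := fun u => (9885 / 10 ^ 4 / 2 * u ^ 2 + 47 / 3 * u ^ 3) - GG u)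
        (f' := fun u => (9885 / 10 ^ 4 / 2 * (2 * u) + 47 / 3 * (3 * u ^ 2)) - gg u)
        (h := 15 / 10 ^ 4) (by simp [GG_zero]) ?_ ?_ ht0 ht
      · intro u hu0 hu
        have := (((hasDerivAt_pow 2 u).const_mul (9885 / 10 ^ 4 / 2)).add
          ((hasDerivAt_pow 3 u).const_mul (47 / 3))).sub (hd u hu0 hu)
        exact this.congr_deriv (by simp)
      · intro u hu0 hu
        have h1 := ph_up_pos hu0.le hu
        rw [gg_ph]
        nlinarith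
    have e3 : 0 ≤ GG (-t) - (988 / 10 ^ 3 / 2 * t ^ 2 - 45 / 3 * t ^ 3) := by
      refine nonneg_right (f := fun u => GG (-u) - (988 / 10 ^ 3 / 2 * u ^ 2 - 45 / 3 * u ^ 3))
        (f' := fun u => -gg (-u) - (988 / 10 ^ 3 / 2 * (2 * u) - 45 / 3 * (3 * u ^ 2)))
        (h := 15 / 10 ^ 4) (by simp [GG_zero]) ?_ ?_ ht0 ht
      · intro u hu0 hu
        have := (hd' u hu0 hu).sub (((hasDerivAt_pow 2 u).const_mul (988 / 10 ^ 3 / 2)).sub
          ((hasDerivAt_pow 3 u).const_mul (45 / 3)))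
        exact this.congr_deriv (by simp)
      · intro u hu0 hu
        have h1 := ph_lo_neg hu0.le hu
        rw [gg_ph]
        nlinarith
    have e4 : 0 ≤ 52 / 100 * t ^ 2 - GG (-t) := by
      refine nonneg_right (f := fun u => 52 / 100 * u ^ 2 - GG (-u))
        (f' := fun u => 52 / 100 * (2 * u) - (-gg (-u))) (h := 15 / 10 ^ 4) (by simp [GG_zero])
        ?_ ?_ ht0 ht
      · intro u hu0 hu
        have := ((hasDerivAt_pow 2 u).const_mul (52 / 100)).sub (hd' u hu0 hu)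
        exact this.congr_deriv (by simp)
      · intro u hu0 hu
        have h1 := ph_up_neg hu0.le hu
        rw [gg_ph]
        nlinarith
    have ht3 : t ^ 3 ≤ 15 / 10 ^ 4 * t ^ 2 := by
      have : t ^ 3 = t * t ^ 2 := by ring
      rw [this]; exact mul_le_mul_of_nonneg_right ht (by positivity)
    have ht2 : 0 ≤ t ^ 2 := by positivity
    norm_num at e1 e2 e3 e4 ht3
    refine ⟨⟨by linarith, by linarith⟩, ⟨by linarith, by linarith⟩⟩
  rcases le_total 0 s with h0 | h0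
  · exact (key s h0 (by rwa [abs_of_nonneg h0] at hs)).1
  · have := (key (-s) (by linarith) (by rwa [abs_of_nonpos h0] at hs)).2
    rw [neg_neg, neg_sq] at this
    exact this

open Match2 in
theorem AA_bd {s : ℝ} (hs : s < ss) : |AA s| ≤ 2 := by
  have hM := MM_pos hs
  have hM0 := MM0_pos
  have hX1 : XX s < 1 := by
    have h := oneX_eq hs
    have : 0 < MM 0 * pp s / (c0 * MM s) := by
      have := pp_pos hs
      have := c0_pos
      positivity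
    linarith
  have hX0 : 0 < 1 + a0 * XX s := by
    rw [u_eq hs]; positivity
  have ha := (abs_le.1 a0_bd').1
  norm_num at ha
  have hX2 : -(6 / 10) < XX s := by
    by_contra hcon
    push Not at hcon
    nlinarith
  have h1 : XX s ^ 3 - 3 / 2 * XX s ^ 2 ≤ 0 := by
    nlinarith [sq_nonneg (XX s)]
  have h2 : -(9 / 10) ≤ XX s ^ 3 - 3 / 2 * XX s ^ 2 := by
    have e : XX s ^ 3 - 3 / 2 * XX s ^ 2 + 1 / 2 = (1 - XX s) ^ 2 * (XX s + 1 / 2) := by ring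
    have h3 : (1 - XX s) ^ 2 ≤ (16 / 10) ^ 2 := by
      apply pow_le_pow_left₀ <;> linarith
    have h4 : 0 ≤ (1 - XX s) ^ 2 := sq_nonneg _
    nlinarith
  unfold AA
  have hC : (39 / 10 : ℝ) ≤ C3 ∧ C3 ≤ 4 := by unfold C3; constructor <;> norm_num
  have hi : (17 / 10 : ℝ) ≤ i0 ∧ i0 ≤ 18 / 10 := by unfold i0; constructor <;> norm_num
  rw [abs_le]
  constructor
  · nlinarith [hC.1, hC.2, hi.1, hi.2]
  · nlinarith [hC.1, hC.2, hi.1, hi.2]

namespace Match2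

theorem AA_small {s : ℝ} (hs : |s| ≤ 15 / 10 ^ 4) : |AA s| ≤ 18 / 10 := by
  have hss := lt_ss hs
  have hM := MM_pos hss
  have hM' := (abs_le.1 (MM_enc hs)).1
  have h1 := abs_le.1 hs
  norm_num at hM' h1
  have hr := abs_le.1 rho_bd
  norm_num at hr
  have hX : |XX s| ≤ 2 / 100 := by
    unfold XX
    rw [abs_div, abs_of_pos hM, div_le_iff₀ hM, abs_mul, abs_of_pos rho_pos]
    have : rho * |s| ≤ 71 * (15 / 10 ^ 4) := by
      apply mul_le_mul _ hs (abs_nonneg _) (by norm_num)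
      linarith [hr.2]
    norm_num at this
    linarith [h1.1, h1.2]
  have h2 := abs_le.1 hX
  have h3 : XX s ^ 2 ≤ (2 / 100) ^ 2 := by
    rw [← sq_abs]; exact pow_le_pow_left₀ (abs_nonneg _) hX 2
  have h4 : 0 ≤ XX s ^ 2 := sq_nonneg _
  have h5 : XX s ^ 3 - 3 / 2 * XX s ^ 2 ≤ 0 := by
    nlinarith [h2.2]
  have h6 : -(1 / 1000) ≤ XX s ^ 3 - 3 / 2 * XX s ^ 2 := by
    nlinarith [h2.1]
  have hC : (39 / 10 : ℝ) ≤ C3 ∧ C3 ≤ 4 := by unfold C3; constructor <;> norm_num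
  have hi : (17 / 10 : ℝ) ≤ i0 ∧ i0 ≤ 18 / 10 := by unfold i0; constructor <;> norm_num
  unfold AA
  rw [abs_le]
  constructor
  · nlinarith [hC.1, hC.2, hi.1, hi.2]
  · nlinarith [hC.1, hC.2, hi.1, hi.2]

theorem ph_le_106 {s : ℝ} (hs : |s| ≤ 15 / 10 ^ 4) : ph s ≤ 106 / 100 := by
  rcases le_total 0 s with h0 | h0
  · have h1 : s ≤ 15 / 10 ^ 4 := by rwa [abs_of_nonneg h0] at hs
    have := ph_up_pos h0 h1
    norm_num at this h1 ⊢
    linarith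
  · have h1 : -s ≤ 15 / 10 ^ 4 := by rwa [abs_of_nonpos h0] at hs
    have := ph_up_neg (s := -s) (by linarith) h1
    rw [neg_neg] at this
    norm_num at this h1 ⊢
    linarith

theorem chi'_bd {s : ℝ} (h0 : s ≠ 0) (hs : |s| ≤ 15 / 10 ^ 4) :
    |-2 * (TT s / MM s ^ 3) * ((1 - s) * NN s * pp s ^ (-(3 + 2 * rr)))| ≤ 5725 / 10 ^ 6 := by
  have hss := lt_ss hs
  have h1 := TT_small h0 hs
  have h2 := AA_small hs
  have hph : 0 < (1 - s) * NN s * pp s ^ (-(3 + 2 * rr)) := ph_pos hss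
  have hph2 : (1 - s) * NN s * pp s ^ (-(3 + 2 * rr)) ≤ 106 / 100 := ph_le_106 hs
  have hsp : 0 < |s| := abs_pos.2 h0
  have e : TT s / MM s ^ 3 = s * (TT s / (s * MM s ^ 3)) := by
    have := MM_pos hss
    field_simp
  have h3 : |TT s / (s * MM s ^ 3)| ≤ 18 / 10 + (1 / 10 ^ 20 + 1 / 10 ^ 50 / |s| + 1 / 10 ^ 11 * |s|) := by
    have := abs_add_le (TT s / (s * MM s ^ 3) - AA s) (AA s)
    rw [sub_add_cancel] at this
    linarith
  have h4 : |TT s / MM s ^ 3| ≤ 27002 / 10 ^ 7 := by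
    rw [e, abs_mul]
    calc |s| * |TT s / (s * MM s ^ 3)| ≤
          |s| * (18 / 10 + (1 / 10 ^ 20 + 1 / 10 ^ 50 / |s| + 1 / 10 ^ 11 * |s|)) :=
          mul_le_mul_of_nonneg_left h3 hsp.le
      _ = (18 / 10 + 1 / 10 ^ 20) * |s| + 1 / 10 ^ 50 + 1 / 10 ^ 11 * |s| ^ 2 := by
          field_simp
          ring
      _ ≤ (18 / 10 + 1 / 10 ^ 20) * (15 / 10 ^ 4) + 1 / 10 ^ 50 + 1 / 10 ^ 11 * (15 / 10 ^ 4) ^ 2 := by
          gcongr
      _ ≤ 27002 / 10 ^ 7 := by norm_num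
  rw [abs_mul, abs_mul, abs_of_pos hph]
  calc |(-2 : ℝ)| * |TT s / MM s ^ 3| * ((1 - s) * NN s * pp s ^ (-(3 + 2 * rr))) ≤
        2 * (27002 / 10 ^ 7) * (106 / 100) := by
        apply mul_le_mul _ hph2 hph.le (by norm_num)
        rw [abs_neg, abs_two]
        exact mul_le_mul_of_nonneg_left h4 (by norm_num)
    _ ≤ 5725 / 10 ^ 6 := by norm_num

theorem chi_zero : chi 0 * (c0 ^ (2 * rr) * MM 0 ^ 2) = 1 := by
  have hc := c0_pos
  have hM := MM0_pos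
  have hp : pp 0 = c0 := by unfold pp; ring
  have hN : NN 0 = c0 := NN0_eq
  unfold chi
  rw [hp, hN, show -(2 + 2 * rr) = -2 - 2 * rr by ring, Real.rpow_sub hc, Real.rpow_neg hc.le]
  have h1 : 0 < c0 ^ (2 * rr) := Real.rpow_pos_of_pos hc _
  have h2 : c0 ^ (2 : ℝ) = c0 ^ 2 := by norm_cast
  rw [h2]
  field_simp
  ring

theorem chi0_bd : 158291 / 10 ^ 7 ≤ chi 0 ∧ chi 0 ≤ 158295 / 10 ^ 7 := by
  have hc := c0_pos
  have hM := MM0_pos
  have h2 := abs_le.1 twor_enc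
  have hcb := abs_le.1 c0_bd
  have hMb := abs_le.1 MM0_bd
  norm_num at h2 hcb hMb
  have h1 : 0 < c0 ^ (2 * rr) := Real.rpow_pos_of_pos hc _
  have hz := chi_zero
  have hM2 : 6296967 / 10 ^ 5 ≤ MM 0 ^ 2 ∧ MM 0 ^ 2 ≤ 6296968 / 10 ^ 5 := by
    constructor
    · norm_num; nlinarith [hMb.1, hMb.2]
    · norm_num; nlinarith [hMb.1, hMb.2]
  have hup := rpow_le hc (β := 2 * rr) (by linarith [h2.1]) (by linarith [h2.2])
  have hlo := le_rpow hc (β := 2 * rr) (by linarith [h2.1]) (by linarith [h2.2])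
  have hup' : c0 ^ (2 * rr) ≤ 1003249 / 10 ^ 6 := by
    refine hup.trans ?_
    norm_num
    nlinarith [h2.1, h2.2, hcb.1, hcb.2]
  have hlo' : 1003243 / 10 ^ 6 ≤ c0 ^ (2 * rr) := by
    have e1 : 1 + (1 - 2 * rr) * (c0 - 1) ≤ 1001008 / 10 ^ 6 := by
      norm_num
      nlinarith [h2.1, h2.2, hcb.1, hcb.2]
    have e2 : c0 ≤ c0 ^ (2 * rr) * (1001008 / 10 ^ 6) :=
      hlo.trans (mul_le_mul_of_nonneg_left e1 h1.le)
    norm_num at e2 ⊢
    linarith [hcb.1]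
  have hpos : 0 < c0 ^ (2 * rr) * MM 0 ^ 2 := by positivity
  have hchi : chi 0 = 1 / (c0 ^ (2 * rr) * MM 0 ^ 2) := by
    rw [eq_div_iff hpos.ne']; exact hz
  rw [hchi]
  constructor
  · rw [le_div_iff₀ hpos]
    calc 158291 / 10 ^ 7 * (c0 ^ (2 * rr) * MM 0 ^ 2) ≤
          158291 / 10 ^ 7 * (1003249 / 10 ^ 6 * (6296968 / 10 ^ 5)) := by
          apply mul_le_mul_of_nonneg_left _ (by norm_num)
          exact mul_le_mul hup' hM2.2 (by positivity) (by norm_num)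
      _ ≤ 1 := by norm_num
  · rw [div_le_iff₀ hpos]
    calc (1 : ℝ) ≤ 158295 / 10 ^ 7 * (1003243 / 10 ^ 6 * (6296967 / 10 ^ 5)) := by norm_num
      _ ≤ 158295 / 10 ^ 7 * (c0 ^ (2 * rr) * MM 0 ^ 2) := by
          apply mul_le_mul_of_nonneg_left _ (by norm_num)
          exact mul_le_mul hlo' hM2.1 (by norm_num) h1.le

end Match2

open Match2 in
theorem chi_local {s : ℝ} (hs : |s| ≤ 15 / 10 ^ 4) : 1582 / 10 ^ 5 ≤ chi s ∧ chi s ≤ 1584 / 10 ^ 5 := by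
  have h0 := chi0_bd
  have hdiff : |chi s - chi 0| ≤ 5725 / 10 ^ 6 * (15 / 10 ^ 4) := by
    rcases lt_trichotomy s 0 with hs0 | rfl | hs0
    · obtain ⟨c, hc, hc2⟩ := exists_hasDerivAt_eq_slope chi _ hs0
        (fun t ht => (hasDerivAt_chi (lt_ss (s := t) (by
          rw [abs_of_nonpos ht.2]; rw [abs_of_neg hs0] at hs; linarith [ht.1]))).continuousAt.continuousWithinAt)
        (fun t ht => hasDerivAt_chi (lt_ss (s := t) (by
          rw [abs_of_neg ht.2]; rw [abs_of_neg hs0] at hs; linarith [ht.1])))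
      have hb := chi'_bd (s := c) hc.2.ne (by
          rw [abs_of_neg hc.2]; rw [abs_of_neg hs0] at hs; linarith [hc.1])
      rw [hc2, abs_div, div_le_iff₀ (abs_pos.2 (by linarith))] at hb
      have e1 : |chi s - chi 0| = |chi 0 - chi s| := abs_sub_comm _ _
      have e2 : |0 - s| = |s| := by rw [zero_sub, abs_neg]
      rw [e1]
      rw [e2] at hb
      exact hb.trans (mul_le_mul_of_nonneg_left hs (by norm_num))
    · rw [sub_self, abs_zero]; norm_num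
    · obtain ⟨c, hc, hc2⟩ := exists_hasDerivAt_eq_slope chi _ hs0
        (fun t ht => (hasDerivAt_chi (lt_ss (s := t) (by
          rw [abs_of_nonneg ht.1]; rw [abs_of_pos hs0] at hs; linarith [ht.2]))).continuousAt.continuousWithinAt)
        (fun t ht => hasDerivAt_chi (lt_ss (s := t) (by
          rw [abs_of_pos ht.1]; rw [abs_of_pos hs0] at hs; linarith [ht.2])))
      have hb := chi'_bd (s := c) hc.1.ne' (by
          rw [abs_of_pos hc.1]; rw [abs_of_pos hs0] at hs; linarith [hc.2])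
      rw [hc2, abs_div, div_le_iff₀ (abs_pos.2 (by linarith))] at hb
      rw [sub_zero] at hb
      exact hb.trans (mul_le_mul_of_nonneg_left hs (by norm_num))
  have h1 := abs_le.1 hdiff
  norm_num at h1 h0 ⊢
  constructor
  · linarith [h1.1, h1.2, h0.1, h0.2]
  · linarith [h1.1, h1.2, h0.1, h0.2]

namespace Match2

/-- logarithmic derivative of `K` -/
def LK (s : ℝ) : ℝ := -((4 + 2 * rr) * mm / pp s) - 4 * Md / MM s + 1 / (1 - s) - Nd s / NN s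

theorem hasDerivAt_KK {s : ℝ} (hs : s < ss) : HasDerivAt KK (KK s * LK s) s := by
  have hp := pp_pos hs
  have hM := MM_pos hs
  have hN := NN_pos s
  have h1 := one_sub_pos hs
  have d1 : HasDerivAt (fun u => cK * pp u ^ (4 + 2 * rr))
      (cK * (-mm * (4 + 2 * rr) * pp s ^ (4 + 2 * rr - 1))) s :=
    ((hasDerivAt_pp s).rpow_const (Or.inl hp.ne')).const_mul cK
  have d2 : HasDerivAt (fun u => MM u ^ 4) (((4 : ℕ) : ℝ) * MM s ^ (4 - 1) * Md) s :=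
    (hasDerivAt_MM s).pow 4
  have d3 : HasDerivAt (fun u : ℝ => (1 - u) * NN u) ((-1) * NN s + (1 - s) * Nd s) s :=
    ((hasDerivAt_id s).const_sub 1).mul (hasDerivAt_NN s)
  have d4 := d1.div (d2.mul d3) (by
    have : 0 < MM s ^ 4 * ((1 - s) * NN s) := by positivity
    exact this.ne')
  refine HasDerivAt.congr_deriv (f := KK) d4 ?_
  rw [Real.rpow_sub_one hp.ne']
  unfold KK LK
  simp only [Pi.mul_apply, Nat.add_one_sub_one, Nat.cast_ofNat]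
  have hr : 0 < pp s ^ (4 + 2 * rr) := Real.rpow_pos_of_pos hp _
  field_simp
  ring

theorem bern3 {t h : ℝ} (h0 : -h ≤ t) (h1 : t ≤ h) :
    0 ≤ (h - t) ^ 3 ∧ 0 ≤ (h + t) * (h - t) ^ 2 ∧ 0 ≤ (h + t) ^ 2 * (h - t) ∧ 0 ≤ (h + t) ^ 3 := by
  have h2 : 0 ≤ h - t := by linarith
  have h3 : 0 ≤ h + t := by linarith
  refine ⟨?_, ?_, ?_, ?_⟩ <;> positivity

theorem bern4 {t h : ℝ} (h0 : -h ≤ t) (h1 : t ≤ h) :
    0 ≤ (h - t) ^ 4 ∧ 0 ≤ (h + t) * (h - t) ^ 3 ∧ 0 ≤ (h + t) ^ 2 * (h - t) ^ 2 ∧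
      0 ≤ (h + t) ^ 3 * (h - t) ∧ 0 ≤ (h + t) ^ 4 := by
  have h2 : 0 ≤ h - t := by linarith
  have h3 : 0 ≤ h + t := by linarith
  refine ⟨?_, ?_, ?_, ?_, ?_⟩ <;> positivity

theorem LK_le {s : ℝ} (hs : |s| ≤ 15 / 10 ^ 4) : LK s ≤ -(258 / 100) := by
  have hss := lt_ss hs
  have hp := pp_pos hss
  have hM := MM_pos hss
  have hN := NN_pos s
  have h1s := one_sub_pos hss
  obtain ⟨hs1, hs2⟩ := abs_le.1 hs
  have hp' := (abs_le.1 (pp_enc hs)).2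
  have hM' := (abs_le.1 (MM_enc hs)).1
  have hN' := (abs_le.1 (NN_enc hs)).1
  have hD' := (abs_le.1 (Nd_enc hs)).1
  have hmm := abs_le.1 mm_bd
  have hMd := abs_le.1 Md_bd
  have hrr := abs_le.1 rr_bd
  norm_num at hmm hMd hrr
  obtain ⟨b30, b31, b32, b33⟩ := bern3 hs1 hs2
  obtain ⟨b40, b41, b42, b43, b44⟩ := bern4 hs1 hs2
  norm_num at hs1 hs2
  have hA : 120158 / 1000 + 30314 / 10 * s + 76475 * s ^ 2 ≤ (4 + 2 * rr) * mm / pp s := by
    rw [le_div_iff₀ hp]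
    have e1 : (12067782 / 10 ^ 5 : ℝ) ≤ (4 + 2 * rr) * mm := by
      have : (47633491 / 10 ^ 7 : ℝ) * (2533465912 / 10 ^ 8) ≤ (4 + 2 * rr) * mm := by
        apply mul_le_mul
        · norm_num; linarith [hrr.1]
        · norm_num; linarith [hmm.1]
        · norm_num
        · linarith [hrr.1]
      refine le_trans ?_ this
      norm_num
    have e2 : (120158 / 1000 + 30314 / 10 * s + 76475 * s ^ 2) * pp s ≤
        (120158 / 1000 + 30314 / 10 * s + 76475 * s ^ 2) *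
          (100425494 / 10 ^ 8 - 253346591 / 10 ^ 7 * s) := by
      apply mul_le_mul_of_nonneg_left
      · linarith
      · linarith [sq_nonneg s]
    refine e2.trans (le_trans ?_ e1)
    norm_num at b30 b31 b32 b33 ⊢
    linarith
  have hB : -(4 * Md / MM s) ≤ 65323 / 1000 + 10667 / 10 * s + 17425 * s ^ 2 := by
    rw [← neg_div, div_le_iff₀ hM]
    have e1 : -(4 * Md) ≤ 51834945730 / 10 ^ 8 := by
      norm_num; linarith [hMd.1]
    have e2 : (65323 / 1000 + 10667 / 10 * s + 17425 * s ^ 2) *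
        (793534334 / 10 ^ 8 - 1295873643 / 10 ^ 7 * s) ≤
        (65323 / 1000 + 10667 / 10 * s + 17425 * s ^ 2) * MM s := by
      apply mul_le_mul_of_nonneg_left
      · linarith
      · linarith [sq_nonneg s]
    refine e1.trans (le_trans ?_ e2)
    norm_num at b30 b31 b32 b33 ⊢
    linarith
  have hC : 1 / (1 - s) ≤ 10016 / 10000 := by
    rw [div_le_iff₀ h1s]; norm_num; linarith
  have hD : -(Nd s / NN s) ≤ 501900 / 10000 + 12574 / 10 * s + 31550 * s ^ 2 := by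
    rw [← neg_div, div_le_iff₀ hN]
    have e1 : -Nd s ≤ 50399891 / 10 ^ 6 - 1266650669 / 10 ^ 6 * s := by
      norm_num at hD' ⊢; linarith
    have e2 : (501900 / 10000 + 12574 / 10 * s + 31550 * s ^ 2) *
        (100425492 / 10 ^ 8 - 503998890 / 10 ^ 7 * s + 633325335 / 10 ^ 6 * s ^ 2) ≤
        (501900 / 10000 + 12574 / 10 * s + 31550 * s ^ 2) * NN s := by
      apply mul_le_mul_of_nonneg_left
      · linarith
      · linarith [sq_nonneg s]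
    refine e1.trans (le_trans ?_ e2)
    norm_num at b40 b41 b42 b43 b44 ⊢
    linarith
  have hfin : 65323 / 1000 + 10667 / 10 * s + 17425 * s ^ 2 + 10016 / 10000 +
      (501900 / 10000 + 12574 / 10 * s + 31550 * s ^ 2) + 258 / 100 ≤
      120158 / 1000 + 30314 / 10 * s + 76475 * s ^ 2 := by
    linarith [sq_nonneg s]
  unfold LK
  linarith

theorem KK_h : 932 ≤ KK (15 / 10 ^ 4) := by
  have hh : |(15 / 10 ^ 4 : ℝ)| ≤ 15 / 10 ^ 4 := by rw [abs_of_nonneg (by norm_num)]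
  have hss := lt_ss hh
  have hp := pp_pos hss
  have hM := MM_pos hss
  have hN := NN_pos (15 / 10 ^ 4)
  have hp1 := abs_le.1 (pp_enc hh)
  have hM1 := abs_le.1 (MM_enc hh)
  have hN1 := abs_le.1 (NN_enc hh)
  have h2 := abs_le.1 twor_enc
  set P := pp (15 / 10 ^ 4) with hP
  set M := MM (15 / 10 ^ 4) with hMdef
  set N := NN (15 / 10 ^ 4) with hNdef
  norm_num at hp1 hM1 hN1 h2
  have hlo := le_rpow hp (β := 2 * rr) (by linarith [h2.1]) (by linarith [h2.2])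
  have hr := Real.rpow_pos_of_pos hp (2 * rr)
  -- P ^ (2 r) ≥ P / 0.9921
  have e1 : 1 + (1 - 2 * rr) * (P - 1) ≤ 9921 / 10 ^ 4 := by
    norm_num
    nlinarith [h2.1, h2.2, hp1.1, hp1.2]
  have e2 : 9739 / 10 ^ 4 ≤ P ^ (2 * rr) := by
    have := hlo.trans (mul_le_mul_of_nonneg_left e1 hr.le)
    norm_num at this ⊢
    linarith [hp1.1]
  have hcK : 3690000 ≤ cK := by
    have r1 := (abs_le.1 rho_bd).1
    have r2 := (abs_le.1 MM0_bd).1
    have r3 := (abs_le.1 c0_bd).2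
    norm_num at r1 r2 r3
    unfold cK
    rw [le_div_iff₀ c0_pos]
    have s1 : (706 / 10 : ℝ) ^ 2 ≤ rho ^ 2 := by
      apply pow_le_pow_left₀ (by norm_num); linarith
    have s2 : (79353 / 10 ^ 4 : ℝ) ^ 2 ≤ MM 0 ^ 2 := by
      apply pow_le_pow_left₀ (by norm_num); norm_num; linarith
    have s3 : (3939 / 10 ^ 3 : ℝ) ≤ C3 := by unfold C3; norm_num
    calc 3690000 * c0 ≤ 3690000 * (1004255 / 10 ^ 6) := by
          apply mul_le_mul_of_nonneg_left _ (by norm_num); norm_num; linarith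
      _ ≤ 3 * (3939 / 10 ^ 3) * (706 / 10) ^ 2 * (79353 / 10 ^ 4) ^ 2 := by norm_num
      _ ≤ 3 * C3 * rho ^ 2 * MM 0 ^ 2 := by gcongr
  unfold KK
  rw [← hP, ← hMdef, ← hNdef]
  rw [le_div_iff₀ (by have := one_sub_pos hss; positivity), Real.rpow_add hp]
  have e3 : P ^ (4 : ℝ) = P ^ 4 := by norm_cast
  rw [e3]
  have f1 : (96625 / 10 ^ 5 : ℝ) ^ 4 ≤ P ^ 4 := by
    apply pow_le_pow_left₀ (by norm_num); norm_num; linarith [hp1.1]
  have f2 : M ^ 4 ≤ (77410 / 10 ^ 4) ^ 4 := by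
    apply pow_le_pow_left₀ hM.le; norm_num; linarith [hM1.2]
  have f3 : N ≤ 93009 / 10 ^ 5 := by
    norm_num; linarith [hN1.2]
  calc 932 * (M ^ 4 * ((1 - 15 / 10 ^ 4) * N)) ≤
        932 * ((77410 / 10 ^ 4) ^ 4 * ((1 - 15 / 10 ^ 4) * (93009 / 10 ^ 5))) := by
        apply mul_le_mul_of_nonneg_left _ (by norm_num)
        apply mul_le_mul f2 _ (by have := one_sub_pos hss; positivity) (by norm_num)
        exact mul_le_mul_of_nonneg_left f3 (by norm_num)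
    _ ≤ 3690000 * ((96625 / 10 ^ 5) ^ 4 * (9739 / 10 ^ 4)) := by norm_num
    _ ≤ cK * (P ^ 4 * P ^ (2 * rr)) := by
        apply mul_le_mul hcK _ (by positivity) cK_pos.le
        exact mul_le_mul f1 e2 (by norm_num) (by positivity)

theorem KK_ge {s : ℝ} (hs : |s| ≤ 15 / 10 ^ 4) : 932 ≤ KK s := by
  have h1 := (abs_le.1 hs).2
  rcases h1.eq_or_lt with h2 | h2
  · rw [h2]; exact KK_h
  have hd : ∀ t, s ≤ t → t ≤ 15 / 10 ^ 4 → |t| ≤ 15 / 10 ^ 4 := fun t ht ht2 => by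
    rw [abs_le]; exact ⟨le_trans (abs_le.1 hs).1 ht, ht2⟩
  obtain ⟨c, hc, hc2⟩ := exists_hasDerivAt_eq_slope KK (fun t => KK t * LK t) h2
    (fun t ht => (hasDerivAt_KK (lt_ss (hd t ht.1 ht.2))).continuousAt.continuousWithinAt)
    (fun t ht => hasDerivAt_KK (lt_ss (hd t ht.1.le ht.2.le)))
  have hcb := hd c hc.1.le hc.2.le
  have h3 := KK_pos (lt_ss hcb)
  have h4 := LK_le hcb
  have h5 : KK c * LK c ≤ 0 := mul_nonpos_of_nonneg_of_nonpos h3.le (by linarith)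
  rw [hc2] at h5
  have h6 : 0 < 15 / 10 ^ 4 - s := by linarith
  by_contra hcon
  push Not at hcon
  have h7 := KK_h
  have : 0 < (KK (15 / 10 ^ 4) - KK s) / (15 / 10 ^ 4 - s) := div_pos (by linarith) h6
  linarith

end Match2

open Match2 in
theorem KK_local {sL sR : ℝ} (hL : -(15 / 10 ^ 4) ≤ sL) (hR : sR ≤ 15 / 10 ^ 4) (h : sL ≤ sR) :
    2400 * (sR - sL) ≤ KK sL - KK sR := by
  rcases h.eq_or_lt with rfl | hlt
  · simp
  have hd : ∀ t, sL ≤ t → t ≤ sR → |t| ≤ 15 / 10 ^ 4 := fun t ht ht2 => by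
    rw [abs_le]; exact ⟨le_trans hL ht, le_trans ht2 hR⟩
  obtain ⟨c, hc, hc2⟩ := exists_hasDerivAt_eq_slope KK (fun t => KK t * LK t) hlt
    (fun t ht => (hasDerivAt_KK (lt_ss (hd t ht.1 ht.2))).continuousAt.continuousWithinAt)
    (fun t ht => hasDerivAt_KK (lt_ss (hd t ht.1.le ht.2.le)))
  have hcb := hd c hc.1.le hc.2.le
  have h3 := KK_ge hcb
  have h4 := LK_le hcb
  have h5 : KK c * LK c ≤ -2400 := by
    nlinarith
  rw [hc2, div_le_iff₀ (by linarith)] at h5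
  linarith

end

end Pool.Agent.H.MP_732d27_an
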