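import Mathlib

/-!
# The matched inequality (L4) for Shi's system

`matched_log`: with `X > 0 > Y` almost matched by the cubic `t ^ 3 - 3 / 2 * t ^ 2`, the
logarithm of the kernel is smaller at `X` than at `Y`.  The exact match is
`Y₀ = -(1 - v) X`, `X = (3 / 2) v / (1 - v + v²)`, and for it the inequality follows from the
positivity of a polynomial of degree `18` on `[0, 1 / 2]` (Bernstein coefficients).
-/

namespace Pool.Agent.H.MP_732d27_an
open Real Set

noncomputable section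

namespace Matched

/-- `l = 1 - v + v²` -/
def ll (v : ℝ) : ℝ := 1 - v + v ^ 2

/-- `l (1 + a X)` -/
def lA (a v : ℝ) : ℝ := ll v + 3 / 2 * a * v

/-- `l (1 + a Y₀)` -/
def lB (a v : ℝ) : ℝ := ll v - 3 / 2 * a * (v * (1 - v))

/-- `l² (1 + p X + q X²)` -/
def nA (p q v : ℝ) : ℝ := ll v ^ 2 + 3 / 2 * p * v * ll v + 9 / 4 * q * v ^ 2

/-- `l² (1 + p Y₀ + q Y₀²)` -/
def nB (p q v : ℝ) : ℝ :=
  ll v ^ 2 - 3 / 2 * p * (v * (1 - v)) * ll v + 9 / 4 * q * (v * (1 - v)) ^ 2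

def d1 : ℝ := 47633 / 10000
def d2 : ℝ := 22367 / 10000
def b0 : ℝ := 183552 / 100000
def b2 : ℝ := 17231 / 10000
def m1 : ℝ := -(196985 / 100000)
def m2 : ℝ := 98238 / 100000

/-- numerator of `(log lA - log lB)'` -/
def pN (a v : ℝ) : ℝ := 3 / 2 * a * (2 - 2 * v - v ^ 2) - (3 / 2 * a) ^ 2 * v ^ 2

/-- numerator of `(log nA - log nB)'` for `m1`, `m2` -/
def qN (v : ℝ) : ℝ :=
  -118191 / 20000 + 354573 / 20000 * v - 71994695283 / 8000000000 * v ^ 2
    - 46196304717 / 4000000000 * v ^ 3 + 572055637617 / 40000000000 * v ^ 4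
    - 13930194627 / 2500000000 * v ^ 5 + 1510362789 / 2000000000 * v ^ 6

theorem cert_pos (u v : ℝ) (hu : 0 < u) (hv : 0 ≤ v) :
    0 <
      (11248609350450388283179894380663/12207031250000000000000000000) * (u ^ 0 * v ^ 18) +
      (18858009337752858089107440439251/1220703125000000000000000000) * (u ^ 1 * v ^ 17) +
      (4305280382932238774956752822021987/24414062500000000000000000000) * (u ^ 2 * v ^ 16) +
      (67291780611236055649387925339871/47683715820312500000000000) * (u ^ 3 * v ^ 15) +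
      (48749541505121901335970398164258221/6103515625000000000000000000) * (u ^ 4 * v ^ 14) +
      (50517607822891032438926906252975199/1525878906250000000000000000) * (u ^ 5 * v ^ 13) +
      (507489926227500722474717589096703179/4882812500000000000000000000) * (u ^ 6 * v ^ 12) +
      (1544388001873162274770492798120037103/6103515625000000000000000000) * (u ^ 7 * v ^ 11) +
      (2952930011437102199545470094492152663/6103515625000000000000000000) * (u ^ 8 * v ^ 10) +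
      (1112501418847912193573930410170819459/1525878906250000000000000000) * (u ^ 9 * v ^ 9) +
      (164724067466276279573776109231499831/190734863281250000000000000) * (u ^ 10 * v ^ 8) +
      (12187562011901069936029251112071909/15258789062500000000000000) * (u ^ 11 * v ^ 7) +
      (8713617237725740036100823930629247/15258789062500000000000000) * (u ^ 12 * v ^ 6) +
      (380029677716517594078599909901/1220703125000000000000) * (u ^ 13 * v ^ 5) +
      (154925140651407548704279934991/1220703125000000000000) * (u ^ 14 * v ^ 4) +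
      (1146446635707067761/30517578125) * (u ^ 15 * v ^ 3) +
      (5864586668041185522/762939453125) * (u ^ 16 * v ^ 2) +
      (1927056113664/1953125) * (u ^ 17 * v ^ 1) + (119361150976/1953125) * (u ^ 18 * v ^ 0) := by
  positivity

theorem cert_eq (v : ℝ) :
    3 * d1 * (lA b0 v * lB b0 v) * (lA b2 v * lB b2 v) * (nA m1 m2 v * nB m1 m2 v) -
      ((1 - 2 * v) * (1 + v)) * (lA b0 v * lB b0 v) * (lA b2 v * lB b2 v) *
        (nA m1 m2 v * nB m1 m2 v) -
      d2 * pN b0 v * ((1 - 2 * v) * (1 + v)) * (lA b2 v * lB b2 v) * (nA m1 m2 v * nB m1 m2 v) +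
      pN b2 v * ((1 - 2 * v) * (1 + v)) * (lA b0 v * lB b0 v) * (nA m1 m2 v * nB m1 m2 v) +
      qN v * ((1 - 2 * v) * (1 + v)) * (lA b0 v * lB b0 v) * (lA b2 v * lB b2 v) =

      (11248609350450388283179894380663/12207031250000000000000000000) * ((1 / 2 - v) ^ 0 * v ^ 18) +
      (18858009337752858089107440439251/1220703125000000000000000000) * ((1 / 2 - v) ^ 1 * v ^ 17) +
      (4305280382932238774956752822021987/24414062500000000000000000000) * ((1 / 2 - v) ^ 2 * v ^ 16) +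
      (67291780611236055649387925339871/47683715820312500000000000) * ((1 / 2 - v) ^ 3 * v ^ 15) +
      (48749541505121901335970398164258221/6103515625000000000000000000) * ((1 / 2 - v) ^ 4 * v ^ 14) +
      (50517607822891032438926906252975199/1525878906250000000000000000) * ((1 / 2 - v) ^ 5 * v ^ 13) +
      (507489926227500722474717589096703179/4882812500000000000000000000) * ((1 / 2 - v) ^ 6 * v ^ 12) +
      (1544388001873162274770492798120037103/6103515625000000000000000000) * ((1 / 2 - v) ^ 7 * v ^ 11) +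
      (2952930011437102199545470094492152663/6103515625000000000000000000) * ((1 / 2 - v) ^ 8 * v ^ 10) +
      (1112501418847912193573930410170819459/1525878906250000000000000000) * ((1 / 2 - v) ^ 9 * v ^ 9) +
      (164724067466276279573776109231499831/190734863281250000000000000) * ((1 / 2 - v) ^ 10 * v ^ 8) +
      (12187562011901069936029251112071909/15258789062500000000000000) * ((1 / 2 - v) ^ 11 * v ^ 7) +
      (8713617237725740036100823930629247/15258789062500000000000000) * ((1 / 2 - v) ^ 12 * v ^ 6) +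
      (380029677716517594078599909901/1220703125000000000000) * ((1 / 2 - v) ^ 13 * v ^ 5) +
      (154925140651407548704279934991/1220703125000000000000) * ((1 / 2 - v) ^ 14 * v ^ 4) +
      (1146446635707067761/30517578125) * ((1 / 2 - v) ^ 15 * v ^ 3) +
      (5864586668041185522/762939453125) * ((1 / 2 - v) ^ 16 * v ^ 2) +
      (1927056113664/1953125) * ((1 / 2 - v) ^ 17 * v ^ 1) +
      (119361150976/1953125) * ((1 / 2 - v) ^ 18 * v ^ 0) := by
  unfold lA lB nA nB pN qN ll d1 d2 b0 b2 m1 m2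
  ring

theorem cert (v : ℝ) (hv : 0 ≤ v) (hv2 : v < 1 / 2) :
    0 < 3 * d1 * (lA b0 v * lB b0 v) * (lA b2 v * lB b2 v) * (nA m1 m2 v * nB m1 m2 v) -
      ((1 - 2 * v) * (1 + v)) * (lA b0 v * lB b0 v) * (lA b2 v * lB b2 v) *
        (nA m1 m2 v * nB m1 m2 v) -
      d2 * pN b0 v * ((1 - 2 * v) * (1 + v)) * (lA b2 v * lB b2 v) * (nA m1 m2 v * nB m1 m2 v) +
      pN b2 v * ((1 - 2 * v) * (1 + v)) * (lA b0 v * lB b0 v) * (nA m1 m2 v * nB m1 m2 v) +
      qN v * ((1 - 2 * v) * (1 + v)) * (lA b0 v * lB b0 v) * (lA b2 v * lB b2 v) := by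
  rw [cert_eq]
  exact cert_pos (1 / 2 - v) v (by linarith) hv

/-! ### Positivity of the factors -/

theorem ll_pos (v : ℝ) : 0 < ll v := by unfold ll; nlinarith [sq_nonneg (v - 1 / 2)]

theorem lA_pos {a v : ℝ} (ha : 0 ≤ a) (hv : 0 ≤ v) : 0 < lA a v := by
  have := ll_pos v
  unfold lA
  positivity

theorem lB_pos {a v : ℝ} (ha2 : a ≤ 2) (hv : 0 ≤ v) (hv2 : v < 1 / 2) :
    0 < lB a v := by
  have h1 : 0 ≤ (2 - a) * (v * (1 - v)) :=
    mul_nonneg (by linarith) (mul_nonneg hv (by linarith))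
  have h2 : 0 < (1 / 2 - v) ^ 2 := by
    have : 0 < 1 / 2 - v := by linarith
    positivity
  unfold lB ll
  nlinarith

theorem nA_pos {v : ℝ} (hv : 0 ≤ v) : 0 < nA m1 m2 v := by
  have h := ll_pos v
  unfold nA m1 m2
  rcases eq_or_lt_of_le hv with h0 | h0
  · rw [← h0] at h ⊢
    have : 0 < ll 0 ^ 2 := by positivity
    nlinarith
  · nlinarith [sq_nonneg (ll v - 3 / 4 * (196985 / 100000) * v), mul_pos h0 h0]

theorem nB_pos {v : ℝ} (hv : 0 ≤ v) (hv2 : v < 1 / 2) : 0 < nB m1 m2 v := by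
  have h := ll_pos v
  have h1 : 0 < 1 - v := by linarith
  unfold nB m1 m2
  have : 0 < ll v ^ 2 + 3 / 2 * (196985 / 100000) * (v * (1 - v)) * ll v
    + 9 / 4 * (98238 / 100000) * (v * (1 - v)) ^ 2 := by positivity
  linarith

/-! ### The function `EE` and its monotonicity -/

def EE (v : ℝ) : ℝ :=
  d1 * (log (1 - 2 * v) - log (1 + v)) + d2 * (log (lA b0 v) - log (lB b0 v)) -
    (log (lA b2 v) - log (lB b2 v)) - (log (nA m1 m2 v) - log (nB m1 m2 v)) + v

theorem hasDerivAt_ll (v : ℝ) : HasDerivAt ll (2 * v - 1) v := by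
  have h := (((hasDerivAt_const v (1 : ℝ)).sub (hasDerivAt_id v)).add ((hasDerivAt_id v).pow 2))
  refine h.congr_deriv ?_
  simp
  ring

theorem hasDerivAt_lA (a v : ℝ) : HasDerivAt (lA a) (2 * v - 1 + 3 / 2 * a) v := by
  have h := (hasDerivAt_ll v).add ((hasDerivAt_id v).const_mul (3 / 2 * a))
  refine h.congr_deriv ?_
  simp

theorem hasDerivAt_lB (a v : ℝ) : HasDerivAt (lB a) (2 * v - 1 - 3 / 2 * a * (1 - 2 * v)) v := by
  have h := (hasDerivAt_ll v).sub
    (((hasDerivAt_id v).mul ((hasDerivAt_const v (1 : ℝ)).sub (hasDerivAt_id v))).const_mul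
      (3 / 2 * a))
  refine h.congr_deriv ?_
  simp only [Pi.sub_apply, id_eq]
  ring

theorem hasDerivAt_nA (p q v : ℝ) : HasDerivAt (nA p q)
    (2 * ll v * (2 * v - 1) + 3 / 2 * p * (ll v + v * (2 * v - 1)) + 9 / 2 * q * v) v := by
  have h := (((hasDerivAt_ll v).pow 2).add
    (((hasDerivAt_id v).const_mul (3 / 2 * p)).mul (hasDerivAt_ll v))).add
    (((hasDerivAt_id v).pow 2).const_mul (9 / 4 * q))
  refine h.congr_deriv ?_
  simp
  ring

theorem hasDerivAt_nB (p q v : ℝ) : HasDerivAt (nB p q)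
    (2 * ll v * (2 * v - 1) - 3 / 2 * p * ((1 - 2 * v) * ll v + v * (1 - v) * (2 * v - 1))
      + 9 / 2 * q * (v * (1 - v)) * (1 - 2 * v)) v := by
  have hw := (hasDerivAt_id v).mul ((hasDerivAt_const v (1 : ℝ)).sub (hasDerivAt_id v))
  have h := (((hasDerivAt_ll v).pow 2).sub
    ((hw.const_mul (3 / 2 * p)).mul (hasDerivAt_ll v))).add
    ((hw.pow 2).const_mul (9 / 4 * q))
  refine h.congr_deriv ?_
  simp
  ring

theorem sum_neg {c k D1 D2 D3 D4 P2 P3 P4 : ℝ} (h1 : 0 < D1) (h2 : 0 < D2) (h3 : 0 < D3)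
    (h4 : 0 < D4)
    (h : 0 < 3 * c * D2 * D3 * D4 - D1 * D2 * D3 * D4 - k * P2 * D1 * D3 * D4 +
      P3 * D1 * D2 * D4 + P4 * D1 * D2 * D3) :
    c * (-3 / D1) + k * (P2 / D2) - P3 / D3 - P4 / D4 + 1 < 0 := by
  have : c * (-3 / D1) + k * (P2 / D2) - P3 / D3 - P4 / D4 + 1 =
      -((3 * c * D2 * D3 * D4 - D1 * D2 * D3 * D4 - k * P2 * D1 * D3 * D4 +
      P3 * D1 * D2 * D4 + P4 * D1 * D2 * D3) / (D1 * D2 * D3 * D4)) := by
    field_simp
    ring
  rw [this]
  have : 0 < (3 * c * D2 * D3 * D4 - D1 * D2 * D3 * D4 - k * P2 * D1 * D3 * D4 +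
      P3 * D1 * D2 * D4 + P4 * D1 * D2 * D3) / (D1 * D2 * D3 * D4) := by positivity
  linarith

theorem hasDerivAt_EE {v : ℝ} (hv : 0 ≤ v) (hv2 : v < 1 / 2) : ∃ e, e < 0 ∧ HasDerivAt EE e v := by
  have hb0 : (0 : ℝ) ≤ b0 ∧ b0 ≤ 2 := by unfold b0; norm_num
  have hb2 : (0 : ℝ) ≤ b2 ∧ b2 ≤ 2 := by unfold b2; norm_num
  have p1 : 0 < 1 - 2 * v := by linarith
  have p2 : 0 < 1 + v := by linarith
  have p3 := lA_pos hb0.1 hv
  have p4 := lB_pos hb0.2 hv hv2
  have p5 := lA_pos hb2.1 hv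
  have p6 := lB_pos hb2.2 hv hv2
  have p7 := nA_pos hv
  have p8 := nB_pos hv hv2
  have e1 : HasDerivAt (fun v : ℝ => 1 - 2 * v) (-2) v := by
    refine ((hasDerivAt_const v (1 : ℝ)).sub ((hasDerivAt_id v).const_mul 2)).congr_deriv ?_
    simp
  have e2 : HasDerivAt (fun v : ℝ => 1 + v) 1 v := by
    refine ((hasDerivAt_const v (1 : ℝ)).add (hasDerivAt_id v)).congr_deriv ?_
    simp
  have h := (((((e1.log p1.ne').sub (e2.log p2.ne')).const_mul d1).add
    ((((hasDerivAt_lA b0 v).log p3.ne').sub ((hasDerivAt_lB b0 v).log p4.ne')).const_mul d2)).sub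
    (((hasDerivAt_lA b2 v).log p5.ne').sub ((hasDerivAt_lB b2 v).log p6.ne'))).sub
    (((hasDerivAt_nA m1 m2 v).log p7.ne').sub ((hasDerivAt_nB m1 m2 v).log p8.ne')) |>.add
    (hasDerivAt_id v)
  refine ⟨_, ?_, h⟩
  have hc := sum_neg (c := d1) (k := d2) (mul_pos p1 p2) (mul_pos p3 p4) (mul_pos p5 p6)
    (mul_pos p7 p8) (cert v hv hv2)
  have q1 : (-2) / (1 - 2 * v) - 1 / (1 + v) = -3 / ((1 - 2 * v) * (1 + v)) := by
    field_simp
    ring
  have q2 : (2 * v - 1 + 3 / 2 * b0) / lA b0 v - (2 * v - 1 - 3 / 2 * b0 * (1 - 2 * v)) / lB b0 v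
      = pN b0 v / (lA b0 v * lB b0 v) := by
    rw [div_sub_div _ _ p3.ne' p4.ne']
    congr 1
    unfold pN lA lB ll
    ring
  have q3 : (2 * v - 1 + 3 / 2 * b2) / lA b2 v - (2 * v - 1 - 3 / 2 * b2 * (1 - 2 * v)) / lB b2 v
      = pN b2 v / (lA b2 v * lB b2 v) := by
    rw [div_sub_div _ _ p5.ne' p6.ne']
    congr 1
    unfold pN lA lB ll
    ring
  have q4 : (2 * ll v * (2 * v - 1) + 3 / 2 * m1 * (ll v + v * (2 * v - 1)) + 9 / 2 * m2 * v) /
      nA m1 m2 v -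
      (2 * ll v * (2 * v - 1) - 3 / 2 * m1 * ((1 - 2 * v) * ll v + v * (1 - v) * (2 * v - 1))
      + 9 / 2 * m2 * (v * (1 - v)) * (1 - 2 * v)) / nB m1 m2 v
      = qN v / (nA m1 m2 v * nB m1 m2 v) := by
    rw [div_sub_div _ _ p7.ne' p8.ne']
    congr 1
    unfold qN nA nB ll m1 m2
    ring
  rw [q1, q2, q3, q4]
  exact hc

theorem EE_nonpos {v : ℝ} (hv : 0 ≤ v) (hv2 : v < 1 / 2) : EE v ≤ 0 := by
  have h0 : EE 0 = 0 := by
    simp [EE, lA, lB, nA, nB, ll]
  have hanti : AntitoneOn EE (Icc 0 v) := by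
    apply antitoneOn_of_deriv_nonpos (convex_Icc 0 v)
    · intro x hx
      obtain ⟨e, -, he⟩ := hasDerivAt_EE hx.1 (lt_of_le_of_lt hx.2 hv2)
      exact he.continuousAt.continuousWithinAt
    · intro x hx
      rw [interior_Icc] at hx
      obtain ⟨e, -, he⟩ := hasDerivAt_EE hx.1.le (hx.2.trans hv2)
      exact he.differentiableAt.differentiableWithinAt
    · intro x hx
      rw [interior_Icc] at hx
      obtain ⟨e, he0, he⟩ := hasDerivAt_EE hx.1.le (hx.2.trans hv2)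
      rw [he.deriv]
      exact he0.le
  have := hanti (left_mem_Icc.2 hv) (right_mem_Icc.2 hv) hv
  rw [h0] at this
  exact this

/-! ### The exact match -/

/-- Monotonicity in the parameters and the inequality at the exact match. -/
theorem exact_match {r a2 a0 n1 n2 v : ℝ} (hr : |r - 3816745967 / 10 ^ 10| ≤ 1 / 10 ^ 8)
    (h0 : |a0 - 18355132487 / 10 ^ 10| ≤ 1 / 10 ^ 8) (h2 : |a2 - 17231147296 / 10 ^ 10| ≤ 1 / 10 ^ 8)
    (hn1 : |n1 + 19698448565 / 10 ^ 10| ≤ 1 / 10 ^ 8) (hn2 : |n2 - 9823844560 / 10 ^ 10| ≤ 1 / 10 ^ 8)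
    (hv : 0 < v) (hv2 : v < 1 / 2) :
    (4 + 2 * r) * (log (1 - 2 * v) - log (1 + v)) + (3 - 2 * r) * (log (lA a0 v) - log (lB a0 v)) -
      (log (lA a2 v) - log (lB a2 v)) - (log (nA n1 n2 v) - log (nB n1 n2 v)) ≤ -v := by
  rw [abs_le] at hr h0 h2 hn1 hn2
  have hl := ll_pos v
  have hEE := EE_nonpos hv.le hv2
  unfold EE at hEE
  have hb0 : (0 : ℝ) ≤ b0 ∧ b0 ≤ 2 := by unfold b0; norm_num
  have hb2 : (0 : ℝ) ≤ b2 ∧ b2 ≤ 2 := by unfold b2; norm_num
  have h1v : 0 < 1 - v := by linarith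
  have ha0 : 0 ≤ a0 := by linarith [h0.1]
  have ha02 : a0 ≤ 2 := by linarith [h0.2]
  have ha2 : 0 ≤ a2 := by linarith [h2.1]
  have ha22 : a2 ≤ 2 := by linarith [h2.2]
  have hle0 : a0 ≤ b0 := by unfold b0; linarith [h0.2]
  have hle2 : b2 ≤ a2 := by unfold b2; linarith [h2.1]
  -- (1)
  have t1 : (4 + 2 * r) * (log (1 - 2 * v) - log (1 + v)) ≤
      d1 * (log (1 - 2 * v) - log (1 + v)) := by
    have hlog : log (1 - 2 * v) - log (1 + v) ≤ 0 := by
      have := log_le_log (by linarith : (0 : ℝ) < 1 - 2 * v) (by linarith : 1 - 2 * v ≤ 1 + v)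
      linarith
    apply mul_le_mul_of_nonpos_right _ hlog
    unfold d1
    linarith [hr.1]
  -- general comparison of `log lA - log lB`
  have hcmp : ∀ a b : ℝ, 0 ≤ a → a ≤ b → b ≤ 2 →
      log (lA a v) - log (lB a v) ≤ log (lA b v) - log (lB b v) := by
    intro a b ha hab hb
    have p1 := lA_pos (v := v) ha hv.le
    have p2 := lB_pos (hab.trans hb) hv.le hv2
    have p3 := lA_pos (v := v) (ha.trans hab) hv.le
    have p4 := lB_pos hb hv.le hv2
    have hmul : lA a v * lB b v ≤ lA b v * lB a v := by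
      have : lA b v * lB a v - lA a v * lB b v = 3 / 2 * (b - a) * (ll v * (v * (2 - v))) := by
        unfold lA lB
        ring
      have h3 : 0 ≤ 3 / 2 * (b - a) * (ll v * (v * (2 - v))) := by
        have : 0 ≤ b - a := by linarith
        have : 0 ≤ 2 - v := by linarith
        positivity
      linarith
    have := log_le_log (mul_pos p1 p4) hmul
    rw [log_mul p1.ne' p4.ne', log_mul p3.ne' p2.ne'] at this
    linarith
  -- (2)
  have t2 : (3 - 2 * r) * (log (lA a0 v) - log (lB a0 v)) ≤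
      d2 * (log (lA b0 v) - log (lB b0 v)) := by
    have hc := hcmp a0 b0 ha0 hle0 hb0.2
    have hc0 : 0 ≤ log (lA b0 v) - log (lB b0 v) := by
      have := hcmp 0 b0 le_rfl hb0.1 hb0.2
      have h00 : log (lA 0 v) - log (lB 0 v) = 0 := by simp [lA, lB]
      linarith
    have h32 : 0 ≤ 3 - 2 * r := by linarith [hr.2]
    calc (3 - 2 * r) * (log (lA a0 v) - log (lB a0 v))
        ≤ (3 - 2 * r) * (log (lA b0 v) - log (lB b0 v)) := mul_le_mul_of_nonneg_left hc h32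
      _ ≤ d2 * (log (lA b0 v) - log (lB b0 v)) := by
        apply mul_le_mul_of_nonneg_right _ hc0
        unfold d2
        linarith [hr.1]
  -- (3)
  have t3 := hcmp b2 a2 hb2.1 hle2 ha22
  -- (4)
  have hA := nA_pos hv.le
  have hB := nB_pos hv.le hv2
  have e1 : 0 ≤ n1 - m1 := by unfold m1; linarith [hn1.1]
  have e2 : 0 ≤ n2 - m2 := by unfold m2; linarith [hn2.1]
  have g1 : nA n1 n2 v = nA m1 m2 v + (3 / 2 * (n1 - m1) * v * ll v + 9 / 4 * (n2 - m2) * v ^ 2) := by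
    unfold nA
    ring
  have g2 : nB n1 n2 v = nB m1 m2 v + (-(3 / 2 * (n1 - m1) * (v * (1 - v)) * ll v)
      + 9 / 4 * (n2 - m2) * (v * (1 - v)) ^ 2) := by
    unfold nB
    ring
  have hA' : 0 < nA n1 n2 v := by
    rw [g1]
    positivity
  have hB' : 0 < nB n1 n2 v := by
    unfold nB
    have : 0 < -n1 := by linarith [hn1.2]
    have : 0 < n2 := by linarith [hn2.1]
    have h5 : 0 < ll v ^ 2 + 3 / 2 * (-n1) * (v * (1 - v)) * ll v
      + 9 / 4 * n2 * (v * (1 - v)) ^ 2 := by positivity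
    linarith
  have hAB : (1 - v) ^ 2 * nA m1 m2 v ≤ nB m1 m2 v := by
    have : nB m1 m2 v - (1 - v) ^ 2 * nA m1 m2 v =
        ll v * (ll v * (v * (2 - v)) + 3 / 2 * (-m1) * (v * (1 - v) * (2 - v))) := by
      unfold nA nB
      ring
    have h6 : 0 ≤ ll v * (ll v * (v * (2 - v)) + 3 / 2 * (-m1) * (v * (1 - v) * (2 - v))) := by
      have : 0 ≤ 2 - v := by linarith
      have : 0 ≤ -m1 := by unfold m1; norm_num
      positivity
    linarith
  have t4 : log (nA m1 m2 v) - log (nB m1 m2 v) ≤ log (nA n1 n2 v) - log (nB n1 n2 v) := by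
    have hmul : nA m1 m2 v * nB n1 n2 v ≤ nA n1 n2 v * nB m1 m2 v := by
      rw [g1, g2]
      have h7 : 0 ≤ 3 / 2 * (n1 - m1) * v * ll v * nB m1 m2 v := by positivity
      have h8 : 0 ≤ nA m1 m2 v * (3 / 2 * (n1 - m1) * (v * (1 - v)) * ll v) := by positivity
      have h9 : 0 ≤ 9 / 4 * (n2 - m2) * v ^ 2 * (nB m1 m2 v - (1 - v) ^ 2 * nA m1 m2 v) := by
        have : 0 ≤ nB m1 m2 v - (1 - v) ^ 2 * nA m1 m2 v := by linarith
        positivity
      nlinarith [h7, h8, h9]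
    have := log_le_log (mul_pos hA hB') hmul
    rw [log_mul hA.ne' hB'.ne', log_mul hA'.ne' hB.ne'] at this
    linarith
  linarith

theorem aux2 {a Y Z : ℝ} (ha : 0 < a) (ha2 : a ≤ 184 / 100) (hYZ : Y ≤ Z)
    (h : 2 / 25 ≤ 1 + a * Y) : log (1 + a * Z) - log (1 + a * Y) ≤ 23 * (Z - Y) := by
  have h0 : a * Y ≤ a * Z := mul_le_mul_of_nonneg_left hYZ ha.le
  have h8 : log ((1 + a * Z) / (1 + a * Y)) ≤ (1 + a * Z) / (1 + a * Y) - 1 :=
    log_le_sub_one_of_pos (div_pos (by linarith) (by linarith))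
  rw [log_div (by linarith) (by linarith)] at h8
  have h9 : (1 + a * Z) / (1 + a * Y) - 1 = a * (Z - Y) / (1 + a * Y) := by
    rw [div_sub_one (by linarith)]
    congr 1
    ring
  have h11 : 0 ≤ Z - Y := by linarith
  have h10 : a * (Z - Y) / (1 + a * Y) ≤ 23 * (Z - Y) := by
    rw [div_le_iff₀ (by linarith)]
    have h12 : a * (Z - Y) ≤ 184 / 100 * (Z - Y) := mul_le_mul_of_nonneg_right ha2 h11
    have h13 : 23 * (Z - Y) * (2 / 25) ≤ 23 * (Z - Y) * (1 + a * Y) :=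
      mul_le_mul_of_nonneg_left h (by linarith)
    linarith
  linarith

theorem aux_ge_one {p q Y : ℝ} (hp : p ≤ 0) (hq : 0 ≤ q) (hY : Y ≤ 0) :
    1 ≤ 1 + p * Y + q * Y ^ 2 := by
  have h1 : 0 ≤ p * Y := mul_nonneg_of_nonpos_of_nonpos hp hY
  have h2 : 0 ≤ q * Y ^ 2 := mul_nonneg hq (sq_nonneg Y)
  linarith

theorem aux4 {p q Y Z : ℝ} (hp : -2 ≤ p) (hp0 : p ≤ 0) (hq : 0 ≤ q) (hq1 : q ≤ 1) (hYZ : Y ≤ Z)
    (hY : -(51 / 100) ≤ Y) (hZ : Z ≤ 0) :
    log (1 + p * Y + q * Y ^ 2) - log (1 + p * Z + q * Z ^ 2) ≤ 4 * (Z - Y) := by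
  have pY := aux_ge_one (Y := Y) hp0 hq (hYZ.trans hZ)
  have pZ := aux_ge_one hp0 hq hZ
  have h8 : log ((1 + p * Y + q * Y ^ 2) / (1 + p * Z + q * Z ^ 2)) ≤
      (1 + p * Y + q * Y ^ 2) / (1 + p * Z + q * Z ^ 2) - 1 :=
    log_le_sub_one_of_pos (div_pos (by linarith) (by linarith))
  rw [log_div (by linarith) (by linarith)] at h8
  have h9 : (1 + p * Y + q * Y ^ 2) / (1 + p * Z + q * Z ^ 2) - 1 =
      (Z - Y) * (-p - q * (Y + Z)) / (1 + p * Z + q * Z ^ 2) := by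
    rw [div_sub_one (by linarith)]
    congr 1
    ring
  have h11 : 0 ≤ Z - Y := by linarith
  have h10 : (Z - Y) * (-p - q * (Y + Z)) / (1 + p * Z + q * Z ^ 2) ≤ 4 * (Z - Y) := by
    rw [div_le_iff₀ (by linarith)]
    have h13 : q * (-(Y + Z)) ≤ 1 * (-(Y + Z)) := mul_le_mul_of_nonneg_right hq1 (by linarith)
    have h12 : -p - q * (Y + Z) ≤ 4 := by linarith
    have h14 : (Z - Y) * (-p - q * (Y + Z)) ≤ (Z - Y) * 4 := mul_le_mul_of_nonneg_left h12 h11
    have h15 : 4 * (Z - Y) * 1 ≤ 4 * (Z - Y) * (1 + p * Z + q * Z ^ 2) :=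
      mul_le_mul_of_nonneg_left pZ (by linarith)
    linarith
  linarith

theorem aux_lin {a Y : ℝ} (ha : 0 < a) (ha2 : a ≤ 1836 / 1000) (hY : -(50001 / 100000) ≤ Y) :
    2 / 25 ≤ 1 + a * Y := by
  rcases le_total 0 Y with h | h
  · have := mul_nonneg ha.le h
    linarith
  · have : 1836 / 1000 * Y ≤ a * Y := mul_le_mul_of_nonpos_right ha2 h
    linarith

theorem aux_pos {p q X : ℝ} (hp : -(197 / 100) ≤ p) (hq : 982 / 1000 ≤ q) (hX : 0 < X) :
    0 < 1 + p * X + q * X ^ 2 := by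
  have h1 : -(197 / 100) * X ≤ p * X := mul_le_mul_of_nonneg_right hp hX.le
  have h2 : 982 / 1000 * X ^ 2 ≤ q * X ^ 2 := mul_le_mul_of_nonneg_right hq (sq_nonneg X)
  nlinarith [sq_nonneg (X - 1)]

theorem aux_Z1 {v Z : ℝ} (h : Z * (1 - v * (1 - v)) = -(3 / 2 * (v * (1 - v))))
    (hw1 : 7226 / 1000000 ≤ v * (1 - v)) (hw2 : v * (1 - v) ≤ 1 / 4) : Z ≤ -(109 / 10000) := by
  generalize v * (1 - v) = w at *
  nlinarith

theorem aux_Z2 {v Z : ℝ} (h : Z * (1 - v * (1 - v)) = -(3 / 2 * (v * (1 - v))))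
    (hw2 : v * (1 - v) ≤ 1 / 4) : -(1 / 2) ≤ Z := by
  generalize v * (1 - v) = w at *
  nlinarith

theorem aux_dist {Y Z : ℝ} (hYZ : Y ≤ Z) (hZ1 : Z ≤ -(109 / 10000))
    (h : (Z - Y) * (Z ^ 2 + Z * Y + Y ^ 2 - 3 / 2 * (Z + Y)) ≤ 26 / 10 ^ 8) :
    Z - Y ≤ 8 / 10 ^ 6 := by
  have h5 : (Z - Y) * (33 / 1000) ≤
      (Z - Y) * (Z ^ 2 + Z * Y + Y ^ 2 - 3 / 2 * (Z + Y)) := by
    apply mul_le_mul_of_nonneg_left _ (by linarith)
    nlinarith
  norm_num at h ⊢
  linarith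

end Matched

open Matched in
theorem matched_log {r a2 a0 n1 n2 X Y : ℝ} (hr : |r - 3816745967 / 10 ^ 10| ≤ 1 / 10 ^ 8)
    (h0 : |a0 - 18355132487 / 10 ^ 10| ≤ 1 / 10 ^ 8) (h2 : |a2 - 17231147296 / 10 ^ 10| ≤ 1 / 10 ^ 8)
    (hn1 : |n1 + 19698448565 / 10 ^ 10| ≤ 1 / 10 ^ 8) (hn2 : |n2 - 9823844560 / 10 ^ 10| ≤ 1 / 10 ^ 8)
    (hX : 11 / 1000 ≤ X) (hX1 : X < 1) (hY : Y < 0) (hY1 : 0 < 1 + a0 * Y)
    (hm1 : Y ^ 3 - 3 / 2 * Y ^ 2 ≤ X ^ 3 - 3 / 2 * X ^ 2)
    (hm2 : X ^ 3 - 3 / 2 * X ^ 2 - (Y ^ 3 - 3 / 2 * Y ^ 2) ≤ 26 / 10 ^ 8) :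
    (4 + 2 * r) * Real.log (1 - X) + (3 - 2 * r) * Real.log (1 + a0 * X)
        - Real.log (1 + a2 * X) - Real.log (1 + n1 * X + n2 * X ^ 2) <
      (4 + 2 * r) * Real.log (1 - Y) + (3 - 2 * r) * Real.log (1 + a0 * Y)
        - Real.log (1 + a2 * Y) - Real.log (1 + n1 * Y + n2 * Y ^ 2) := by
  -- the parameter `v`
  obtain ⟨v, hv, hvX⟩ : ∃ v ∈ Ioo (0 : ℝ) (1 / 2), 3 / 2 * v - X * ll v = 0 := by
    have hc : ContinuousOn (fun v : ℝ => 3 / 2 * v - X * ll v) (Icc 0 (1 / 2)) := by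
      unfold ll
      fun_prop
    have := intermediate_value_Ioo (by norm_num : (0 : ℝ) ≤ 1 / 2) hc
    have h3 : (0 : ℝ) ∈ Ioo ((fun v : ℝ => 3 / 2 * v - X * ll v) 0)
        ((fun v : ℝ => 3 / 2 * v - X * ll v) (1 / 2)) := by
      constructor
      · simp [ll]; linarith
      · simp only [ll]; linarith
    obtain ⟨v, hv, hv0⟩ := this h3
    exact ⟨v, hv, hv0⟩
  obtain ⟨hv0, hv2⟩ := hv
  have hl := ll_pos v
  have h1v : 0 < 1 - v := by linarith
  have hXv : 3 / 2 * v = X * ll v := by linarith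
  have hvlow : 7279 / 1000000 ≤ v := by
    unfold ll at hXv
    nlinarith [sq_nonneg v]
  have hex := exact_match hr h0 h2 hn1 hn2 hv0 hv2
  rw [abs_le] at hr h0 h2 hn1 hn2
  -- the exact match `Z`
  obtain ⟨Z, hZ⟩ : ∃ Z, Z = -((1 - v) * X) := ⟨_, rfl⟩
  have hXpos : 0 < X := by linarith
  have hZneg : Z < 0 := by rw [hZ]; have := mul_pos h1v hXpos; linarith
  have hZl : Z * ll v = -(3 / 2 * (v * (1 - v))) := by
    rw [hZ]
    linear_combination (1 - v) * hXv
  -- the value of the cubic at `Z`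
  have hmZ : Z ^ 3 - 3 / 2 * Z ^ 2 = X ^ 3 - 3 / 2 * X ^ 2 := by
    have h3 : X ^ 3 - 3 / 2 * X ^ 2 - (Z ^ 3 - 3 / 2 * Z ^ 2) =
        X ^ 2 * (2 - v) * (X * ll v - 3 / 2 * v) := by
      rw [hZ]
      unfold ll
      ring
    rw [← hXv] at h3
    linarith [h3]
  have hfac : ∀ A B : ℝ, A ^ 3 - 3 / 2 * A ^ 2 - (B ^ 3 - 3 / 2 * B ^ 2) =
      (A - B) * (A ^ 2 + A * B + B ^ 2 - 3 / 2 * (A + B)) := by
    intro A B
    ring
  have hYZ : Y ≤ Z := by
    by_contra hcon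
    push Not at hcon
    have h4 := hfac Y Z
    have h5 : 0 < (Y - Z) * (Y ^ 2 + Y * Z + Z ^ 2 - 3 / 2 * (Y + Z)) := by
      apply mul_pos (by linarith)
      have : 0 < Y * Z := mul_pos_of_neg_of_neg hY hZneg
      nlinarith [sq_nonneg Y, sq_nonneg Z]
    linarith
  -- bounds for `Z`
  have hw1 : 7226 / 1000000 ≤ v * (1 - v) := by nlinarith only [hvlow, hv2]
  have hw2 : v * (1 - v) ≤ 1 / 4 := by nlinarith only [sq_nonneg (v - 1 / 2)]
  have hllw : ll v = 1 - v * (1 - v) := by unfold ll; ring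
  have hZ1 : Z ≤ -(109 / 10000) := aux_Z1 (by rw [← hllw]; exact hZl) hw1 hw2
  have hZ2 : -(1 / 2) ≤ Z := aux_Z2 (by rw [← hllw]; exact hZl) hw2
  have hdist : Z - Y ≤ 8 / 10 ^ 6 := by
    apply aux_dist hYZ hZ1
    rw [← hfac, hmZ]
    exact hm2
  have hY2 : -(50001 / 100000) ≤ Y := by norm_num at hdist; linarith only [hdist, hZ2]
  clear hm1 hm2 hfac
  norm_num at hr h0 h2 hn1 hn2
  -- logarithms at `X` and `Z`
  have hsub : 0 < 1 - v / 2 := by linarith only [hv2]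
  have h12v : 0 < 1 - 2 * v := by linarith only [hv2]
  have lX : log (1 - X) = log (1 - 2 * v) + log (1 - v / 2) - log (ll v) := by
    have : (1 - X) * ll v = (1 - 2 * v) * (1 - v / 2) := by
      unfold ll at hXv ⊢
      linear_combination hXv
    have hp : 0 < 1 - X := by linarith only [hX1]
    rw [← log_mul h12v.ne' hsub.ne', ← this, log_mul hp.ne' hl.ne']
    ring
  have h1v' : 0 < 1 + v := by linarith only [hv0]
  have lZ : log (1 - Z) = log (1 + v) + log (1 - v / 2) - log (ll v) := by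
    have : (1 - Z) * ll v = (1 + v) * (1 - v / 2) := by
      unfold ll at hZl ⊢
      linear_combination -hZl
    have hp : 0 < 1 - Z := by linarith only [hZneg]
    rw [← log_mul h1v'.ne' hsub.ne', ← this, log_mul hp.ne' hl.ne']
    ring
  have hmulX : ∀ a : ℝ, (1 + a * X) * ll v = lA a v := by
    intro a
    unfold lA
    linear_combination -a * hXv
  have hmulZ : ∀ a : ℝ, (1 + a * Z) * ll v = lB a v := by
    intro a
    unfold lB
    linear_combination a * hZl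
  have a0pos : 0 < a0 := by linarith only [h0.1]
  have a2pos : 0 < a2 := by linarith only [h2.1]
  have a0le : a0 ≤ 1836 / 1000 := by linarith only [h0.2]
  have a2le : a2 ≤ 1836 / 1000 := by linarith only [h2.2]
  have l0X : log (1 + a0 * X) = log (lA a0 v) - log (ll v) := by
    have : 0 < 1 + a0 * X := by positivity
    rw [← hmulX, log_mul this.ne' hl.ne']
    ring
  have l2X : log (1 + a2 * X) = log (lA a2 v) - log (ll v) := by
    have : 0 < 1 + a2 * X := by positivity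
    rw [← hmulX, log_mul this.ne' hl.ne']
    ring
  have pa0 : 2 / 25 ≤ 1 + a0 * Y := aux_lin a0pos a0le hY2
  have pa0Z : 2 / 25 ≤ 1 + a0 * Z := aux_lin a0pos a0le (hY2.trans hYZ)
  have pa2 : 2 / 25 ≤ 1 + a2 * Y := aux_lin a2pos a2le hY2
  have pa2Z : 2 / 25 ≤ 1 + a2 * Z := aux_lin a2pos a2le (hY2.trans hYZ)
  have l0Z : log (1 + a0 * Z) = log (lB a0 v) - log (ll v) := by
    have hp : 0 < 1 + a0 * Z := by linarith only [pa0Z]
    rw [← hmulZ, log_mul hp.ne' hl.ne']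
    ring
  have l2Z : log (1 + a2 * Z) = log (lB a2 v) - log (ll v) := by
    have hp : 0 < 1 + a2 * Z := by linarith only [pa2Z]
    rw [← hmulZ, log_mul hp.ne' hl.ne']
    ring
  have hNX : (1 + n1 * X + n2 * X ^ 2) * ll v ^ 2 = nA n1 n2 v := by
    unfold nA
    have h7 : X ^ 2 * ll v ^ 2 = (3 / 2 * v) ^ 2 := by rw [hXv]; ring
    linear_combination n2 * h7 - n1 * ll v * hXv
  have hNZ : (1 + n1 * Z + n2 * Z ^ 2) * ll v ^ 2 = nB n1 n2 v := by
    unfold nB
    have h7 : Z ^ 2 * ll v ^ 2 = (3 / 2 * (v * (1 - v))) ^ 2 := by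
      have : Z ^ 2 * ll v ^ 2 = (Z * ll v) ^ 2 := by ring
      rw [this, hZl]
      ring
    linear_combination n2 * h7 + n1 * ll v * hZl
  have n1le : n1 ≤ 0 := by linarith only [hn1.2]
  have n2ge : 0 ≤ n2 := by linarith only [hn2.1]
  have pNX : 0 < 1 + n1 * X + n2 * X ^ 2 :=
    aux_pos (by linarith only [hn1.1]) (by linarith only [hn2.1]) hXpos
  have pNZ : 1 ≤ 1 + n1 * Z + n2 * Z ^ 2 := aux_ge_one n1le n2ge hZneg.le
  have hll2 : 0 < ll v ^ 2 := by positivity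
  have lNX : log (1 + n1 * X + n2 * X ^ 2) = log (nA n1 n2 v) - 2 * log (ll v) := by
    rw [← hNX, log_mul pNX.ne' hll2.ne', log_pow]
    push_cast
    ring
  have lNZ : log (1 + n1 * Z + n2 * Z ^ 2) = log (nB n1 n2 v) - 2 * log (ll v) := by
    have hp : 0 < 1 + n1 * Z + n2 * Z ^ 2 := by linarith only [pNZ]
    rw [← hNZ, log_mul hp.ne' hll2.ne', log_pow]
    push_cast
    ring
  -- comparison of `Z` and `Y`
  have c1 : log (1 - Z) ≤ log (1 - Y) :=
    log_le_log (by linarith only [hZneg]) (by linarith only [hYZ])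
  have c2 : log (1 + a0 * Z) - log (1 + a0 * Y) ≤ 23 * (Z - Y) :=
    aux2 a0pos (by linarith only [a0le]) hYZ pa0
  have c3 : log (1 + a2 * Y) ≤ log (1 + a2 * Z) :=
    log_le_log (by linarith only [pa2])
      (by linarith only [mul_le_mul_of_nonneg_left hYZ a2pos.le])
  have c4 : log (1 + n1 * Y + n2 * Y ^ 2) - log (1 + n1 * Z + n2 * Z ^ 2) ≤ 4 * (Z - Y) :=
    aux4 (by linarith only [hn1.1]) n1le n2ge (by linarith only [hn2.2]) hYZ
      (by linarith only [hY2]) hZneg.le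
  have h11 : 0 ≤ Z - Y := by linarith only [hYZ]
  have k1 : (4 + 2 * r) * log (1 - Z) ≤ (4 + 2 * r) * log (1 - Y) :=
    mul_le_mul_of_nonneg_left c1 (by linarith only [hr.1])
  have k2 : (3 - 2 * r) * (log (1 + a0 * Z) - log (1 + a0 * Y)) ≤ (3 - 2 * r) * (23 * (Z - Y)) :=
    mul_le_mul_of_nonneg_left c2 (by linarith only [hr.2])
  have k3 : (3 - 2 * r) * (23 * (Z - Y)) ≤ 5 / 2 * (23 * (Z - Y)) :=
    mul_le_mul_of_nonneg_right (by linarith only [hr.1]) (by linarith only [h11])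
  rw [lX, l0X, l2X, lNX]
  rw [lZ] at k1
  rw [l0Z] at k2
  rw [l2Z] at c3
  rw [lNZ] at c4
  norm_num at hdist
  linarith only [hex, k1, k2, k3, c3, c4, hdist, hvlow, h11]

end

end Pool.Agent.H.MP_732d27_an
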