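import Pool.Agent.H.MP_732d27_an.LienEnc
import Pool.Agent.H.MP_732d27_an.LienMatch

/-!
# The matched inequality for `K`
-/

namespace Pool.Agent.H.MP_732d27_an
open Set

noncomputable section

namespace Match2

/-- the logarithm of `K` up to a constant, in terms of `X` -/
def lE (X : ℝ) : ℝ :=
  (4 + 2 * rr) * Real.log (1 - X) + (3 - 2 * rr) * Real.log (1 + a0 * X)
    - Real.log (1 + a2 * X) - Real.log (1 + n1 * X + n2 * X ^ 2)

theorem log_KK {s : ℝ} (hs : s < ss) :
    Real.log (KK s) = lE (XX s) + (Real.log cK - 4 * Real.log (MM 0) + (4 + 2 * rr) * Real.log c0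
      - Real.log c0) := by
  have hM := MM_pos hs
  have hM0 := MM0_pos
  have hc := c0_pos
  have hp := pp_pos hs
  have hN := NN_pos s
  have h1 := one_sub_pos hs
  have hcK := cK_pos
  unfold lE
  rw [oneX_eq hs, a2X_eq hs, nX_eq hs, u_eq hs]
  have hpr : (0 : ℝ) < pp s ^ (4 + 2 * rr) := Real.rpow_pos_of_pos hp _
  unfold KK
  rw [Real.log_div (by positivity) (by positivity), Real.log_mul (by positivity) (by positivity),
    Real.log_rpow hp, Real.log_mul (by positivity) (by positivity),
    Real.log_mul (by positivity) (by positivity), Real.log_pow,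
    Real.log_div (x := MM 0 * pp s) (by positivity) (by positivity),
    Real.log_mul (x := MM 0) (by positivity) (by positivity),
    Real.log_mul (x := c0) (by positivity) (by positivity),
    Real.log_div (x := MM 0) (y := MM s) (by positivity) (by positivity),
    Real.log_mul (x := 1 - s) (y := MM 0 / MM s) (by positivity) (by positivity),
    Real.log_div (x := MM 0) (y := MM s) (by positivity) (by positivity),
    Real.log_div (x := NN s * (MM 0 / MM s) ^ 2) (by positivity) (by positivity),
    Real.log_mul (x := NN s) (by positivity) (by positivity),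
    Real.log_pow,
    Real.log_div (x := MM 0) (y := MM s) (by positivity) (by positivity)]
  push_cast
  ring

end Match2

open Match2 in
theorem KK_matched {sL sR : ℝ} (hL : sL < 0) (hR : 13 / 10 ^ 4 ≤ sR) (hs : sR < ss)
    (h0 : 0 ≤ AA sR - AA sL) (h1 : AA sR - AA sL ≤ 1 / 10 ^ 6) : KK sR < KK sL := by
  have hLs : sL < ss := by linarith [ss_pos]
  have hMR := MM_pos hs
  have hML := MM_pos hLs
  have hr := rho_pos
  have hM0 := MM0_pos
  have hC : (0 : ℝ) < C3 := by unfold C3; norm_num
  have hAA : AA sR - AA sL = C3 * ((XX sR ^ 3 - 3 / 2 * XX sR ^ 2) - (XX sL ^ 3 - 3 / 2 * XX sL ^ 2)) := by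
    unfold AA; ring
  have hm1 : XX sL ^ 3 - 3 / 2 * XX sL ^ 2 ≤ XX sR ^ 3 - 3 / 2 * XX sR ^ 2 := by
    rw [hAA] at h0
    have := nonneg_of_mul_nonneg_right h0 hC
    linarith
  have hm2 : XX sR ^ 3 - 3 / 2 * XX sR ^ 2 - (XX sL ^ 3 - 3 / 2 * XX sL ^ 2) ≤ 26 / 10 ^ 8 := by
    rw [hAA] at h1
    by_contra hcon
    push Not at hcon
    have h2 : C3 * (26 / 10 ^ 8) < 1 / 10 ^ 6 :=
      lt_of_lt_of_le (mul_lt_mul_of_pos_left hcon hC) h1
    unfold C3 at h2
    norm_num at h2
  have hX : 11 / 1000 ≤ XX sR := by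
    unfold XX
    rw [le_div_iff₀ hMR, MM_lin]
    have a1 := (abs_le.1 MM0_bd).2
    have a2 := (abs_le.1 Md_bd).2
    have a3 := (abs_le.1 rho_bd).1
    norm_num at a1 a2 a3
    have b1 : Md * sR ≤ 0 := by
      apply mul_nonpos_of_nonpos_of_nonneg <;> linarith
    have b2 : 70 * (13 / 10 ^ 4) ≤ rho * sR := by
      apply mul_le_mul <;> linarith
    norm_num at b2
    linarith
  have hX1 : XX sR < 1 := by
    have h := oneX_eq hs
    have : 0 < MM 0 * pp sR / (c0 * MM sR) := by
      have := pp_pos hs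
      have := c0_pos
      positivity
    linarith
  have hY : XX sL < 0 := by
    unfold XX
    exact div_neg_of_neg_of_pos (mul_neg_of_pos_of_neg hr hL) hML
  have hY1 : 0 < 1 + a0 * XX sL := by
    rw [u_eq hLs]; positivity
  have key := matched_log rr_bd' a0_bd' a2_bd' n1_bd n2_bd hX hX1 hY hY1 hm1 hm2
  have key2 : lE (XX sR) < lE (XX sL) := key
  have h3 : Real.log (KK sR) < Real.log (KK sL) := by
    rw [log_KK hs, log_KK hLs]; linarith
  exact (Real.log_lt_log_iff (KK_pos hs) (KK_pos hLs)).1 h3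

end

end Pool.Agent.H.MP_732d27_an
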