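import Mathlib

/-!
# Differentiability of a parametric interval integral
-/

namespace Pool.Agent.H.MP_732d27_an

open MeasureTheory intervalIntegral

/-- derivative under the integral sign, jointly continuous case -/
theorem hasDerivAt_parInt_snd {h hy : ℝ → ℝ → ℝ} (hc : Continuous (Function.uncurry h))
    (hyc : Continuous (Function.uncurry hy)) (hd : ∀ x y, HasDerivAt (fun v => h x v) (hy x y) y)
    (x y : ℝ) :
    HasDerivAt (fun v => ∫ u in (0:ℝ)..x, h u v) (∫ u in (0:ℝ)..x, hy u y) y := by
  have hK : IsCompact (Set.uIcc (0:ℝ) x ×ˢ Set.Icc (y - 1) (y + 1)) :=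
    isCompact_uIcc.prod isCompact_Icc
  obtain ⟨C, hC⟩ := hK.exists_bound_of_continuousOn (f := Function.uncurry hy) hyc.continuousOn
  have hcont : ∀ v, Continuous (fun u => h u v) := fun v => by
    have : (fun u => h u v) = Function.uncurry h ∘ fun u => (u, v) := rfl
    rw [this]; exact hc.comp (by fun_prop)
  have hcont' : ∀ v, Continuous (fun u => hy u v) := fun v => by
    have : (fun u => hy u v) = Function.uncurry hy ∘ fun u => (u, v) := rfl
    rw [this]; exact hyc.comp (by fun_prop)
  refine (intervalIntegral.hasDerivAt_integral_of_dominated_loc_of_deriv_le (μ := volume)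
    (F := fun v u => h u v) (F' := fun v u => hy u v) (x₀ := y) (s := Set.Icc (y - 1) (y + 1))
    (bound := fun _ => C) (Icc_mem_nhds (by linarith) (by linarith)) ?_ ?_ ?_ ?_ ?_ ?_).2
  · exact Filter.Eventually.of_forall fun v => (hcont v).aestronglyMeasurable
  · exact (hcont y).intervalIntegrable _ _
  · exact (hcont' y).aestronglyMeasurable
  · refine Filter.Eventually.of_forall fun u hu v hv => ?_
    exact hC (u, v) ⟨Set.uIoc_subset_uIcc hu, hv⟩
  · exact intervalIntegrable_const
  · exact Filter.Eventually.of_forall fun u _ v _ => hd u v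

theorem hasFDerivAt_parInt {h hy : ℝ → ℝ → ℝ} (hc : Continuous (Function.uncurry h))
    (hyc : Continuous (Function.uncurry hy)) (hd : ∀ x y, HasDerivAt (fun v => h x v) (hy x y) y)
    (x y : ℝ) :
    HasFDerivAt (fun z : ℝ × ℝ => ∫ u in (0:ℝ)..z.1, h u z.2)
      (h x y • ContinuousLinearMap.fst ℝ ℝ ℝ
        + (∫ u in (0:ℝ)..x, hy u y) • ContinuousLinearMap.snd ℝ ℝ ℝ) (x, y) := by
  have hcont : ∀ v, Continuous (fun u => h u v) := fun v => by
    have : (fun u => h u v) = Function.uncurry h ∘ fun u => (u, v) := rfl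
    rw [this]; exact hc.comp (by fun_prop)
  have hint : Continuous fun z : ℝ × ℝ => ∫ u in (0:ℝ)..z.1, hy u z.2 := by
    refine continuous_parametric_intervalIntegral_of_continuous (μ := volume)
      (f := fun (z : ℝ × ℝ) u => hy u z.2) ?_ continuous_fst
    have : (Function.uncurry fun (z : ℝ × ℝ) u => hy u z.2)
        = Function.uncurry hy ∘ fun w : (ℝ × ℝ) × ℝ => (w.2, w.1.2) := rfl
    rw [this]; exact hyc.comp (by fun_prop)
  have key := (hasStrictFDerivAt_uncurry_coprod (𝕜 := ℝ) (u := (x, y))
    (f := fun a b => ∫ u in (0:ℝ)..a, h u b)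
    (f₁ := fun a b => h a b • ContinuousLinearMap.id ℝ ℝ)
    (f₂ := fun a b => (∫ u in (0:ℝ)..a, hy u b) • ContinuousLinearMap.id ℝ ℝ) ?_ ?_ ?_ ?_).hasFDerivAt
  · refine key.congr_fderiv ?_
    ext <;> simp [Function.HasUncurry.uncurry]
  · refine Filter.Eventually.of_forall fun v => ?_
    have := (integral_hasDerivAt_right ((hcont v.2).intervalIntegrable 0 v.1)
      ((hcont v.2).stronglyMeasurableAtFilter _ _) (hcont v.2).continuousAt).hasFDerivAt
    refine this.congr_fderiv ?_
    ext; simp [Function.HasUncurry.uncurry]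
  · refine Filter.Eventually.of_forall fun v => ?_
    have := (hasDerivAt_parInt_snd hc hyc hd v.1 v.2).hasFDerivAt
    refine this.congr_fderiv ?_
    ext; simp [Function.HasUncurry.uncurry]
  · exact (hc.smul continuous_const).continuousAt
  · exact (hint.smul continuous_const).continuousAt

end Pool.Agent.H.MP_732d27_an
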