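import Pool.Agent.H.MP_732d27_an.Defs
import Pool.Agent.H.MP_732d27_an.CurveDefs

/-!
# Periodic solutions of Shi's system in components
-/

namespace Pool.Agent.H.MP_732d27_an

/-- `(x, y)` is a non-constant `T`-periodic solution of Shi's system. -/
structure PerSol (x y : ℝ → ℝ) (T : ℝ) : Prop where
  T_pos : 0 < T
  hx : ∀ t, HasDerivAt x (fP (x t) (y t)) t
  hy : ∀ t, HasDerivAt y (x t * fL (x t) (y t)) t
  px : ∀ t, x (t + T) = x t
  py : ∀ t, y (t + T) = y t
  ne : ∃ t₁ t₂, (x t₁, y t₁) ≠ (x t₂, y t₂)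

end Pool.Agent.H.MP_732d27_an
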