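import Mathlib

/-!
# Bivariate polynomials with integer coefficients, as lists of terms `(i, j, c)`

`ev L x y = ∑ c x^i y^j`.  Derivatives, products, collection of like terms, and the bound
`|ev L x y| ≤ ∑ n, wt L n * r ^ n` for `|x|, |y| ≤ r`.
-/

namespace Pool.Agent.H.MP_732d27_an

/-- value of a list of terms -/
noncomputable def ev (L : List (ℕ × ℕ × ℤ)) (x y : ℝ) : ℝ :=
  (L.map fun t => (t.2.2 : ℝ) * x ^ t.1 * y ^ t.2.1).sum

/-- derivative in `x` -/
def plDx (L : List (ℕ × ℕ × ℤ)) : List (ℕ × ℕ × ℤ) := L.map fun t => (t.1 - 1, t.2.1, t.2.2 * t.1)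

/-- derivative in `y` -/
def plDy (L : List (ℕ × ℕ × ℤ)) : List (ℕ × ℕ × ℤ) := L.map fun t => (t.1, t.2.1 - 1, t.2.2 * t.2.1)

/-- multiplication by an integer -/
def plScale (c : ℤ) (L : List (ℕ × ℕ × ℤ)) : List (ℕ × ℕ × ℤ) := L.map fun t => (t.1, t.2.1, c * t.2.2)

/-- product -/
def plMul (L M : List (ℕ × ℕ × ℤ)) : List (ℕ × ℕ × ℤ) :=
  L.flatMap fun t => M.map fun s => (t.1 + s.1, t.2.1 + s.2.1, t.2.2 * s.2.2)

/-- add one term -/
def plIns (t : ℕ × ℕ × ℤ) : List (ℕ × ℕ × ℤ) → List (ℕ × ℕ × ℤ)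
  | [] => [t]
  | s :: L => if t.1 = s.1 ∧ t.2.1 = s.2.1 then (s.1, s.2.1, t.2.2 + s.2.2) :: L else s :: plIns t L

/-- collect like terms -/
def plNorm (L : List (ℕ × ℕ × ℤ)) : List (ℕ × ℕ × ℤ) := L.foldr plIns []

/-- sum of the absolute values of the coefficients of the terms of degree `n` -/
def plWt (L : List (ℕ × ℕ × ℤ)) (n : ℕ) : ℕ :=
  (L.map fun t => if t.1 + t.2.1 = n then t.2.2.natAbs else 0).sum

@[simp] theorem ev_nil (x y : ℝ) : ev [] x y = 0 := by simp [ev]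

@[simp] theorem ev_cons (t : ℕ × ℕ × ℤ) (L : List (ℕ × ℕ × ℤ)) (x y : ℝ) :
    ev (t :: L) x y = (t.2.2 : ℝ) * x ^ t.1 * y ^ t.2.1 + ev L x y := by simp [ev]

theorem ev_append (L M : List (ℕ × ℕ × ℤ)) (x y : ℝ) : ev (L ++ M) x y = ev L x y + ev M x y := by
  simp [ev]

theorem ev_scale (c : ℤ) (L : List (ℕ × ℕ × ℤ)) (x y : ℝ) : ev (plScale c L) x y = c * ev L x y := by
  induction L with
  | nil => simp [plScale]
  | cons t L ih =>
    have : plScale c (t :: L) = (t.1, t.2.1, c * t.2.2) :: plScale c L := rfl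
    rw [this, ev_cons, ev_cons, ih]
    push_cast
    ring

theorem ev_mul (L M : List (ℕ × ℕ × ℤ)) (x y : ℝ) : ev (plMul L M) x y = ev L x y * ev M x y := by
  induction L with
  | nil => simp [plMul]
  | cons t L ih =>
    have h1 : plMul (t :: L) M =
        (M.map fun s => (t.1 + s.1, t.2.1 + s.2.1, t.2.2 * s.2.2)) ++ plMul L M := by
      simp [plMul]
    have h2 : ∀ M : List (ℕ × ℕ × ℤ), ev (M.map fun s => (t.1 + s.1, t.2.1 + s.2.1, t.2.2 * s.2.2)) x y
        = (t.2.2 : ℝ) * x ^ t.1 * y ^ t.2.1 * ev M x y := by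
      intro M
      induction M with
      | nil => simp
      | cons s M ih =>
        rw [List.map_cons, ev_cons, ev_cons, ih]
        push_cast
        ring
    rw [h1, ev_append, h2, ih, ev_cons]
    ring

theorem ev_ins (t : ℕ × ℕ × ℤ) (L : List (ℕ × ℕ × ℤ)) (x y : ℝ) :
    ev (plIns t L) x y = (t.2.2 : ℝ) * x ^ t.1 * y ^ t.2.1 + ev L x y := by
  induction L with
  | nil => simp [plIns]
  | cons s L ih =>
    unfold plIns
    split_ifs with h
    · rw [ev_cons, ev_cons, h.1, h.2]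
      push_cast
      ring
    · rw [ev_cons, ev_cons, ih]
      ring

theorem ev_norm (L : List (ℕ × ℕ × ℤ)) (x y : ℝ) : ev (plNorm L) x y = ev L x y := by
  induction L with
  | nil => simp [plNorm]
  | cons t L ih =>
    have : plNorm (t :: L) = plIns t (plNorm L) := rfl
    rw [this, ev_ins, ih, ev_cons]

theorem ev_eq_zero_of_all {L : List (ℕ × ℕ × ℤ)} (h : (L.all fun t => t.2.2 == 0) = true) (x y : ℝ) :
    ev L x y = 0 := by
  induction L with
  | nil => simp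
  | cons t L ih =>
    rw [List.all_cons, Bool.and_eq_true, beq_iff_eq] at h
    rw [ev_cons, ih h.2, h.1]
    simp

/-- equality of two polynomials, decided by the kernel -/
theorem ev_eq_of_norm {L M : List (ℕ × ℕ × ℤ)}
    (h : ((plNorm (L ++ plScale (-1) M)).all fun t => t.2.2 == 0) = true) (x y : ℝ) :
    ev L x y = ev M x y := by
  have h1 := ev_eq_zero_of_all h x y
  rw [ev_norm, ev_append, ev_scale] at h1
  push_cast at h1
  linarith

theorem hasFDerivAt_ev (L : List (ℕ × ℕ × ℤ)) (x y : ℝ) :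
    HasFDerivAt (fun z : ℝ × ℝ => ev L z.1 z.2)
      (ev (plDx L) x y • ContinuousLinearMap.fst ℝ ℝ ℝ + ev (plDy L) x y • ContinuousLinearMap.snd ℝ ℝ ℝ)
      (x, y) := by
  induction L with
  | nil =>
    have h0 : ∀ z : ℝ × ℝ, ev [] z.1 z.2 = 0 := fun z => ev_nil _ _
    simp only [h0]
    simpa [plDx, plDy] using hasFDerivAt_const (𝕜 := ℝ) (0 : ℝ) ((x, y) : ℝ × ℝ)
  | cons t L ih =>
    have e1 : plDx (t :: L) = (t.1 - 1, t.2.1, t.2.2 * t.1) :: plDx L := rfl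
    have e2 : plDy (t :: L) = (t.1, t.2.1 - 1, t.2.2 * t.2.1) :: plDy L := rfl
    have hx : HasFDerivAt (fun z : ℝ × ℝ => z.1) (ContinuousLinearMap.fst ℝ ℝ ℝ) (x, y) :=
      (ContinuousLinearMap.fst ℝ ℝ ℝ).hasFDerivAt
    have hy : HasFDerivAt (fun z : ℝ × ℝ => z.2) (ContinuousLinearMap.snd ℝ ℝ ℝ) (x, y) :=
      (ContinuousLinearMap.snd ℝ ℝ ℝ).hasFDerivAt
    have h1 := ((hx.pow t.1).const_mul (t.2.2 : ℝ)).mul (hy.pow t.2.1)
    have h2 := h1.add ih
    have e3 : (fun z : ℝ × ℝ => ev (t :: L) z.1 z.2) =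
        (((fun z : ℝ × ℝ => (t.2.2 : ℝ) * z.1 ^ t.1) * fun z : ℝ × ℝ => z.2 ^ t.2.1)
          + fun z : ℝ × ℝ => ev L z.1 z.2) := by
      funext z
      simp [ev_cons]
    rw [e3, e1, e2, ev_cons, ev_cons]
    refine h2.congr_fderiv ?_
    ext
    · simp
      ring
    · simp
      ring

theorem hasDerivAt_ev_fst (L : List (ℕ × ℕ × ℤ)) (x y : ℝ) :
    HasDerivAt (fun x => ev L x y) (ev (plDx L) x y) x := by
  induction L with
  | nil =>
    have h0 : ∀ z : ℝ, ev [] z y = 0 := fun z => ev_nil _ _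
    simp only [h0]
    simpa [plDx] using hasDerivAt_const x (0 : ℝ)
  | cons t L ih =>
    have e1 : plDx (t :: L) = (t.1 - 1, t.2.1, t.2.2 * t.1) :: plDx L := rfl
    have h1 := (((hasDerivAt_pow t.1 x).const_mul (t.2.2 : ℝ)).mul_const (y ^ t.2.1)).add ih
    have e3 : (fun z : ℝ => ev (t :: L) z y) =
        ((fun z : ℝ => (t.2.2 : ℝ) * z ^ t.1 * y ^ t.2.1) + fun z : ℝ => ev L z y) := by
      funext z
      simp [ev_cons]
    rw [e3, e1, ev_cons]
    refine h1.congr_deriv ?_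
    push_cast
    ring

theorem wt_nil (n : ℕ) : plWt [] n = 0 := rfl

theorem wt_cons (t : ℕ × ℕ × ℤ) (L : List (ℕ × ℕ × ℤ)) (n : ℕ) :
    plWt (t :: L) n = (if t.1 + t.2.1 = n then t.2.2.natAbs else 0) + plWt L n := rfl

/-- the bound of a polynomial by the sums of absolute values of its coefficients -/
theorem abs_ev_le (L : List (ℕ × ℕ × ℤ)) (N : ℕ) (hN : (L.all fun t => decide (t.1 + t.2.1 < N)) = true)
    {x y r : ℝ} (hx : |x| ≤ r) (hy : |y| ≤ r) :
    |ev L x y| ≤ ∑ n ∈ Finset.range N, (plWt L n : ℝ) * r ^ n := by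
  have hr : 0 ≤ r := (abs_nonneg x).trans hx
  induction L with
  | nil => simp [wt_nil]
  | cons t L ih =>
    rw [List.all_cons, Bool.and_eq_true, decide_eq_true_eq] at hN
    have h1 := ih hN.2
    have h2 : |(t.2.2 : ℝ) * x ^ t.1 * y ^ t.2.1| ≤ (t.2.2.natAbs : ℝ) * r ^ (t.1 + t.2.1) := by
      rw [abs_mul, abs_mul, abs_pow, abs_pow, pow_add, ← mul_assoc]
      have h3 : |(t.2.2 : ℝ)| = (t.2.2.natAbs : ℝ) := by
        rw [Nat.cast_natAbs, Int.cast_abs]
      rw [h3]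
      gcongr
    have h4 : ∑ n ∈ Finset.range N, (plWt (t :: L) n : ℝ) * r ^ n
        = (t.2.2.natAbs : ℝ) * r ^ (t.1 + t.2.1) + ∑ n ∈ Finset.range N, (plWt L n : ℝ) * r ^ n := by
      have h5 : ∀ n, (plWt (t :: L) n : ℝ) * r ^ n
          = (if t.1 + t.2.1 = n then (t.2.2.natAbs : ℝ) * r ^ (t.1 + t.2.1) else 0)
            + (plWt L n : ℝ) * r ^ n := by
        intro n
        rw [wt_cons]
        push_cast
        split_ifs with h
        · rw [h]; ring
        · ring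
      simp_rw [h5]
      rw [Finset.sum_add_distrib, Finset.sum_ite_eq, if_pos (Finset.mem_range.2 hN.1)]
    rw [ev_cons, h4]
    exact (abs_add_le _ _).trans (add_le_add h2 h1)

/-- the bound with the Euclidean norm as `r` -/
theorem abs_le_sqrt_sq (x y : ℝ) : |x| ≤ √(x ^ 2 + y ^ 2) ∧ |y| ≤ √(x ^ 2 + y ^ 2) :=
  ⟨Real.abs_le_sqrt (by nlinarith [sq_nonneg y]), Real.abs_le_sqrt (by nlinarith [sq_nonneg x])⟩

end Pool.Agent.H.MP_732d27_an
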