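import Pool.Agent.H.MP_732d27_an.RegDefs

/-!
# The Dulac polynomial `J` near the focus `B`
-/

namespace Pool.Agent.H.MP_732d27_an

noncomputable section

namespace PolyJ

/-- polynomials in two variables as lists of monomials `(i, j, c)`, standing for `c x ^ i y ^ j` -/
abbrev Poly := List (ℕ × ℕ × ℝ)

/-- evaluation -/
def ev (l : Poly) (x y : ℝ) : ℝ := (l.map fun t => t.2.2 * x ^ t.1 * y ^ t.2.1).sum

/-- the derivative in `x` -/
def evx (l : Poly) (x y : ℝ) : ℝ :=
  (l.map fun t => t.2.2 * (t.1 * x ^ (t.1 - 1)) * y ^ t.2.1).sum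

/-- the primitive in `x` of `l * x * fL`, vanishing at `x = 0` -/
def evB (l : Poly) (x y : ℝ) : ℝ :=
  (l.map fun t => t.2.2 * (y ^ t.2.1 * (x ^ (t.1 + 2) / (t.1 + 2) + x ^ (t.1 + 3) / (t.1 + 3))
    + pe * (y ^ (t.2.1 + 1) * (x ^ (t.1 + 2) / (t.1 + 2))))).sum

/-- the derivative in `y` of `evB` -/
def evBy (l : Poly) (x y : ℝ) : ℝ :=
  (l.map fun t => t.2.2 * (t.2.1 * y ^ (t.2.1 - 1) *
    (x ^ (t.1 + 2) / (t.1 + 2) + x ^ (t.1 + 3) / (t.1 + 3))
    + pe * ((t.2.1 + 1) * y ^ t.2.1 * (x ^ (t.1 + 2) / (t.1 + 2))))).sum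

/-- the derivative in `x` of `evBy` -/
def evByx (l : Poly) (x y : ℝ) : ℝ :=
  (l.map fun t => t.2.2 * (t.2.1 * y ^ (t.2.1 - 1) * (x ^ (t.1 + 1) + x ^ (t.1 + 2))
    + pe * ((t.2.1 + 1) * y ^ t.2.1 * x ^ (t.1 + 1)))).sum

theorem hasFDerivAt_sum (l : Poly) (F Fx Fy : ℕ × ℕ × ℝ → ℝ → ℝ → ℝ)
    (h : ∀ t x y, HasFDerivAt (fun z : ℝ × ℝ => F t z.1 z.2)
      (Fx t x y • ContinuousLinearMap.fst ℝ ℝ ℝ + Fy t x y • ContinuousLinearMap.snd ℝ ℝ ℝ) (x, y))
    (x y : ℝ) :
    HasFDerivAt (fun z : ℝ × ℝ => (l.map fun t => F t z.1 z.2).sum)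
      ((l.map fun t => Fx t x y).sum • ContinuousLinearMap.fst ℝ ℝ ℝ
        + (l.map fun t => Fy t x y).sum • ContinuousLinearMap.snd ℝ ℝ ℝ) (x, y) := by
  induction l with
  | nil =>
    simp only [List.map_nil, List.sum_nil]
    refine HasFDerivAt.congr_fderiv (hasFDerivAt_const (0 : ℝ) (x, y)) ?_
    ext <;> simp
  | cons t l ih =>
    simp only [List.map_cons, List.sum_cons]
    refine ((h t x y).add ih).congr_fderiv ?_
    module

theorem hasDerivAt_sum (l : Poly) (F F' : ℕ × ℕ × ℝ → ℝ → ℝ)
    (h : ∀ t x, HasDerivAt (fun x => F t x) (F' t x) x) (x : ℝ) :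
    HasDerivAt (fun x => (l.map fun t => F t x).sum) (l.map fun t => F' t x).sum x := by
  induction l with
  | nil =>
    simp only [List.map_nil, List.sum_nil]
    exact hasDerivAt_const _ _
  | cons t l ih =>
    simp only [List.map_cons, List.sum_cons]
    exact (h t x).add ih

theorem hasDerivAt_ev (l : Poly) (x y : ℝ) : HasDerivAt (fun x => ev l x y) (evx l x y) x := by
  refine hasDerivAt_sum l (fun t x => t.2.2 * x ^ t.1 * y ^ t.2.1)
    (fun t x => t.2.2 * (t.1 * x ^ (t.1 - 1)) * y ^ t.2.1) ?_ x
  intro t x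
  exact ((hasDerivAt_pow t.1 x).const_mul _).mul_const _

theorem hasDerivAt_prim (n : ℕ) (x : ℝ) :
    HasDerivAt (fun x : ℝ => x ^ (n + 1) / ((n : ℝ) + 1)) (x ^ n) x := by
  have h := (hasDerivAt_pow (n + 1) x).div_const ((n : ℝ) + 1)
  refine h.congr_deriv ?_
  have : (n : ℝ) + 1 ≠ 0 := by positivity
  rw [Nat.add_sub_cancel]
  push_cast
  field_simp

theorem hasDerivAt_prim2 (n : ℕ) (x : ℝ) :
    HasDerivAt (fun x : ℝ => x ^ (n + 2) / ((n : ℝ) + 2)) (x ^ (n + 1)) x := by
  have h := hasDerivAt_prim (n + 1) x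
  convert h using 2
  push_cast
  ring

theorem hasDerivAt_prim3 (n : ℕ) (x : ℝ) :
    HasDerivAt (fun x : ℝ => x ^ (n + 3) / ((n : ℝ) + 3)) (x ^ (n + 2)) x := by
  have h := hasDerivAt_prim (n + 2) x
  convert h using 2
  push_cast
  ring

theorem hasDerivAt_evBy (l : Poly) (x y : ℝ) :
    HasDerivAt (fun x => evBy l x y) (evByx l x y) x := by
  refine hasDerivAt_sum l (fun t x => t.2.2 * (t.2.1 * y ^ (t.2.1 - 1) *
      (x ^ (t.1 + 2) / (t.1 + 2) + x ^ (t.1 + 3) / (t.1 + 3))
      + pe * ((t.2.1 + 1) * y ^ t.2.1 * (x ^ (t.1 + 2) / (t.1 + 2)))))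
    (fun t x => t.2.2 * (t.2.1 * y ^ (t.2.1 - 1) * (x ^ (t.1 + 1) + x ^ (t.1 + 2))
      + pe * ((t.2.1 + 1) * y ^ t.2.1 * x ^ (t.1 + 1)))) ?_ x
  intro t x
  exact ((((hasDerivAt_prim2 t.1 x).add (hasDerivAt_prim3 t.1 x)).const_mul _).add
    (((hasDerivAt_prim2 t.1 x).const_mul _).const_mul _)).const_mul _

theorem hasFDerivAt_fst_of {f : ℝ → ℝ} {f' : ℝ} {x : ℝ} (y : ℝ) (h : HasDerivAt f f' x) :
    HasFDerivAt (fun z : ℝ × ℝ => f z.1) (f' • ContinuousLinearMap.fst ℝ ℝ ℝ) (x, y) :=
  HasDerivAt.comp_hasFDerivAt (x, y) h hasFDerivAt_fst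

theorem hasFDerivAt_snd_of {f : ℝ → ℝ} {f' : ℝ} {y : ℝ} (x : ℝ) (h : HasDerivAt f f' y) :
    HasFDerivAt (fun z : ℝ × ℝ => f z.2) (f' • ContinuousLinearMap.snd ℝ ℝ ℝ) (x, y) :=
  HasDerivAt.comp_hasFDerivAt (x, y) h hasFDerivAt_snd

theorem hasFDerivAt_evB (l : Poly) (x y : ℝ) :
    HasFDerivAt (fun z : ℝ × ℝ => evB l z.1 z.2)
      ((ev l x y * (x * fL x y)) • ContinuousLinearMap.fst ℝ ℝ ℝ
        + evBy l x y • ContinuousLinearMap.snd ℝ ℝ ℝ) (x, y) := by
  have key := hasFDerivAt_sum l
    (fun t x y => t.2.2 * (y ^ t.2.1 * (x ^ (t.1 + 2) / (t.1 + 2) + x ^ (t.1 + 3) / (t.1 + 3))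
      + pe * (y ^ (t.2.1 + 1) * (x ^ (t.1 + 2) / (t.1 + 2)))))
    (fun t x y => t.2.2 * (y ^ t.2.1 * (x ^ (t.1 + 1) + x ^ (t.1 + 2))
      + pe * (y ^ (t.2.1 + 1) * x ^ (t.1 + 1))))
    (fun t x y => t.2.2 * (t.2.1 * y ^ (t.2.1 - 1) *
      (x ^ (t.1 + 2) / (t.1 + 2) + x ^ (t.1 + 3) / (t.1 + 3))
      + pe * ((t.2.1 + 1) * y ^ t.2.1 * (x ^ (t.1 + 2) / (t.1 + 2))))) ?_ x y
  · have e : ev l x y * (x * fL x y) = (l.map fun t => t.2.2 * (y ^ t.2.1 *
        (x ^ (t.1 + 1) + x ^ (t.1 + 2)) + pe * (y ^ (t.2.1 + 1) * x ^ (t.1 + 1)))).sum := by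
      unfold ev
      rw [← List.sum_map_mul_right]
      congr 1
      apply List.map_congr_left
      intro t _
      simp only [fL]
      ring
    rw [e]
    exact key
  · intro t x y
    have h1 := hasFDerivAt_fst_of y ((hasDerivAt_prim2 t.1 x).add (hasDerivAt_prim3 t.1 x))
    have h2 := hasFDerivAt_snd_of x (hasDerivAt_pow t.2.1 y)
    have h3 := hasFDerivAt_snd_of x (hasDerivAt_pow (t.2.1 + 1) y)
    have h4 := hasFDerivAt_fst_of y (hasDerivAt_prim2 t.1 x)
    have h := ((h2.mul h1).add ((h3.mul h4).const_mul pe)).const_mul t.2.2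
    refine h.congr_fderiv ?_
    change t.2.2 • (y ^ t.2.1 • (x ^ (t.1 + 1) + x ^ (t.1 + 2)) • ContinuousLinearMap.fst ℝ ℝ ℝ +
        (x ^ (t.1 + 2) / ((t.1 : ℝ) + 2) + x ^ (t.1 + 3) / ((t.1 : ℝ) + 3)) •
        ((t.2.1 : ℝ) * y ^ (t.2.1 - 1)) • ContinuousLinearMap.snd ℝ ℝ ℝ +
      pe • (y ^ (t.2.1 + 1) • x ^ (t.1 + 1) • ContinuousLinearMap.fst ℝ ℝ ℝ +
        (x ^ (t.1 + 2) / ((t.1 : ℝ) + 2)) • (((t.2.1 + 1 : ℕ) : ℝ) * y ^ (t.2.1 + 1 - 1)) •
          ContinuousLinearMap.snd ℝ ℝ ℝ)) = _
    push_cast
    try rw [Nat.add_sub_cancel]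
    module

/-- bound of a homogeneous polynomial -/
theorem abs_ev_le (n : ℕ) (l : Poly) (x y r : ℝ) (hx : |x| ≤ r) (hy : |y| ≤ r)
    (hl : ∀ t ∈ l, t.1 + t.2.1 = n) : |ev l x y| ≤ (l.map fun t => |t.2.2|).sum * r ^ n := by
  unfold ev
  induction l with
  | nil => simp
  | cons t l ih =>
    simp only [List.map_cons, List.sum_cons]
    have h1 : |t.2.2 * x ^ t.1 * y ^ t.2.1| ≤ |t.2.2| * r ^ n := by
      rw [abs_mul, abs_mul, abs_pow, abs_pow, mul_assoc]
      apply mul_le_mul_of_nonneg_left _ (abs_nonneg _)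
      rw [← hl t (by simp), pow_add]
      exact mul_le_mul (pow_le_pow_left₀ (abs_nonneg _) hx _)
        (pow_le_pow_left₀ (abs_nonneg _) hy _) (by positivity)
        (pow_nonneg ((abs_nonneg _).trans hx) _)
    have h2 := ih (fun t ht => hl t (by simp [ht]))
    calc |t.2.2 * x ^ t.1 * y ^ t.2.1 + (l.map fun t => t.2.2 * x ^ t.1 * y ^ t.2.1).sum|
        ≤ |t.2.2 * x ^ t.1 * y ^ t.2.1| + |(l.map fun t => t.2.2 * x ^ t.1 * y ^ t.2.1).sum| :=
          abs_add_le _ _
      _ ≤ |t.2.2| * r ^ n + (l.map fun t => |t.2.2|).sum * r ^ n := add_le_add h1 h2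
      _ = _ := by ring

/-- the Dulac polynomial -/
def JL : Poly := [
  (0, 0, 1), (1, 0, 49999999999999 / 10 ^ 13), (0, 1,
  449999999999991000000000000000000000000000000000000008 / 10 ^ 52), (1, 1,
  2299999999999909000000000000900000000000000000000000036 / 10 ^ 52), (0, 2,
  1549999999999929000000000000800000000000000000000000064 / 10 ^ 51), (3, 0,
  219999999999987266666666666800000000000000666667 / 10 ^ 45), (2, 1,
  -22999999999999090000000000009 / 10 ^ 26), (1, 2, 797999999999948090000000001118999999999992 /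
  10 ^ 38), (0, 3, 48163333333329741733333333421599999999999286 / 10 ^ 39), (3, 1,
  1672999999999871915 / 10 ^ 14), (2, 2, -2052999999999869306666667 / 10 ^ 20), (1, 3,
  24879666666664349198333333 / 10 ^ 20), (0, 4, 141479999999985125066666667 / 10 ^ 20), (5, 0,
  -29604000000008 / 10 ^ 9), (4, 1, -16729999999999 / 10 ^ 9), (3, 2, 783019999999901 / 10 ^ 9),
  (2, 3, -1169619999999896 / 10 ^ 9), (1, 4, 7322796666665758 / 10 ^ 9), (0, 5, 40071970666661177
  / 10 ^ 9), (5, 1, (-2760025)), (4, 2, (-1259110)), (3, 3, 2941979333 / 10 ^ 2), (2, 4,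
  -5341697667 / 10 ^ 2), (1, 5, 207647025), (0, 6, 110575205556 / 10 ^ 2), (7, 0, 5778610), (6, 1,
  2760025), (5, 2, (-144117255)), (4, 3, (-52959443)), (3, 4, 987832127), (2, 5, (-2129446695)),
  (1, 6, 5736407303), (0, 7, 29913303021)]

/-- error terms of degree `1` -/
def E1 : Poly := [
  (1, 0, -99999999999998 / 10 ^ 213), (0, 1,
  -449999999999991000000000000000000000000000000000000008 / 10 ^ 252)]

/-- error terms of degree `2` -/
def E2 : Poly := [
  (2, 0, 8 / 10 ^ 65), (1, 1,
  2879999999999999999999999999999999999998719999999999999999999999999999999999999999999999999999999999999999999999999999999999999999999995400000000000181999999999998199999999999999999999999928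
  / 10 ^ 252), (0, 2,
  -8000000000000000000000000000000000000000000000000000000000000000000000000000000000000000000000000000000000000000000000000000000000001549999999999929000000000000800000000000000000000000064
  / 10 ^ 251)]

/-- error terms of degree `3` -/
def E3 : Poly := [
  (3, 0,
  359999999999999999999999999999999999999999999999999999999999999999999999999999999999999999999999999999999999999999999999999999999999999999999999999120000000000050933333333332799999999999997333332
  / 10 ^ 245), (2, 1,
  -10005279999999999789600000000001440000000000000000000000057599999999999999999999999999999999999999999999999999999999999999999999999999999999999999999999931000000000002729999999999973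
  / 10 ^ 226), (1, 2,
  -97639999999996575200000000019200000000000000000000001536000000000000000000000000000000000000000000000000000000000000000000000000000000000000000000001595999999999896180000000002237999999999984
  / 10 ^ 238), (0, 3,
  32359999999999359999999999999999999999999999999999999999999999999999999999999999999999999999999999999999999999999999999999999999999999999999999999951836666666670258266666666578400000000000714
  / 10 ^ 239)]

/-- error terms of degree `4` -/
def E4 : Poly := [
  (4, 0, -100000000215499999999999300000250001753999996999898133333333334400000000000005333336 /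
  10 ^ 97), (3, 1,
  -6612046666666667028666659999632266666800014559999999999856000000000000000000000000000000000000000000000000000000000000000000000000000000000000000000000000000000000000000000000669199999999948766
  / 10 ^ 213), (2, 2,
  -200000123153999999999634999999990193679999999987541600000000268559999999998079999999999999999999999999999999999999999999999999999999999999999999999999999999999999999999999999999999993841000000000392079999999
  / 10 ^ 220), (1, 3,
  -33062199999995995980000001566770666666551735466666669491199999999977152000000000000000000000000000000000000000000000000000000000000000000000000000000000000000000000000000000049759333333328698396666666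
  / 10 ^ 220), (0, 4,
  -99999958549833333333458099999999999286000000000000000000000000000000000000000000000000000000000000000000000000000000000000000000000000000000000000000000000000000000000000000000000141479999999985125066666667
  / 10 ^ 220)]

/-- error terms of degree `5` -/
def E5 : Poly := [
  (5, 0,
  -28084999999999999999999999999999999999999999999999999999999999999999999999999999999999999999999999999999999999999999999999999999999999999999999999999999999999999999999999999999999999999822375999999952
  / 10 ^ 209), (4, 1,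
  281286666665769446999999999999999999997323200000000204936000000000000000000000000000000000000000000000000000000000000000000000000000000000000000000000000000000000000000000000000000000000083649999999995
  / 10 ^ 209), (3, 2,
  43861666704404105999999100000000000004927199999999686336000000799999999999999999999999999999999999999999999999999999999999999999999999999999999999999999999999999999999999999999999999996867920000000396
  / 10 ^ 209), (2, 3,
  -236671666635382094000001100000000000079614933333325917434666665599999999999999999999999999999999999999999999999999999999999999999999999999999999999999999999999999999999999999999999999996491140000000312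
  / 10 ^ 209), (1, 4,
  2769999881192960333334899999999999434080000000059499733333331999999999999999999999999999999999999999999999999999999999999999999999999999999999999999999999999999999999999999999999999985354406666668484
  / 10 ^ 209), (0, 5,
  26531666669487493333333299999999999999999999999999999999999999999999999999999999999999999999999999999999999999999999999999999999999999999999999999999999999999999999999999999999999999959928029333338823
  / 10 ^ 209)]

/-- error terms of degree `6` -/
def E6 : Poly := [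
  (6, 0, 7343563999999928000000000000000000000000236832000000064 / 10 ^ 61), (5, 1,
  -5603515999999933999999999999999999999999732320000000015999999999999999999999999999999999999999999999999999999999999999999999999999999999999999999999999999999999999999999999999999999999998343985
  / 10 ^ 199), (4, 2,
  -99852054810000002678000000000000000000000018792479999997623999999999999999999999999999999999999999999999999999999999999999999999999999999999999999999999999999999999999999999999999999999999999370445
  / 10 ^ 199), (3, 3,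
  -133580278399999995859999999999999999999999962572160000003328000000000000000000000000000000000000000000000000000000000000000000000000000000000000000000000000000000000000000000000000000000000011767917332
  / 10 ^ 202), (2, 4,
  101479614709999958797999999999999999999999707088133333369680000000000000000000000000000000000000000000000000000000000000000000000000000000000000000000000000000000000000000000000000000000000016025093001
  / 10 ^ 202), (1, 5,
  344726220822666372041999999999999999999998076545408000263503999999999999999999999999999999999999999999999999999999999999999999999999999999999999999999999999999999999999999999999999999999999958470595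
  / 10 ^ 199), (0, 6,
  -323641970666661177000000000000000000000000000000000000000000000000000000000000000000000000000000000000000000000000000000000000000000000000000000000000000000000000000000000000000000000000110575205556
  / 10 ^ 202)]

/-- error terms of degree `7` -/
def E7 : Poly := [
  (7, 0, -4622888 / 10 ^ 199), (6, 1,
  -496804499999999999999999999999999999999558396000000000000000000000000000000000000000000000000000000000000000000000000000000000000000000000000000000000000000000000000000000000000000000000019320175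
  / 10 ^ 200), (5, 2,
  9899982564180000000000000000000000000000000030218640000000000000000000000000000000000000000000000000000000000000000000000000000000000000000000000000000000000000000000000000000000000000000000086470353
  / 10 ^ 199), (4, 3,
  182010654081098799999999999999999999999999990585666134400000000000000000000000000000000000000000000000000000000000000000000000000000000000000000000000000000000000000000000000000000000000000000264797215
  / 10 ^ 200), (3, 4,
  -85025214431234699999999999999999999999999978633209332000000000000000000000000000000000000000000000000000000000000000000000000000000000000000000000000000000000000000000000000000000000000000003951328508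
  / 10 ^ 200), (2, 5,
  30113731902800099999999999999999999999999900329428000000000000000000000000000000000000000000000000000000000000000000000000000000000000000000000000000000000000000000000000000000000000000000006388340085
  / 10 ^ 200), (1, 6,
  -53307529145497200000000000000000000000000619221151113600000000000000000000000000000000000000000000000000000000000000000000000000000000000000000000000000000000000000000000000000000000000000011472814606
  / 10 ^ 200), (0, 7,
  -20011057520555600000000000000000000000000000000000000000000000000000000000000000000000000000000000000000000000000000000000000000000000000000000000000000000000000000000000000000000000000000029913303021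
  / 10 ^ 200)]

/-- error terms of degree `8` -/
def E8 : Poly := [
  (8, 0, -661780124999994799251000000000000000000000000000000004622888 / 10 ^ 51), (7, 1,
  -41589335999999965484300000000000000000000000000000000441604 / 10 ^ 50), (6, 2,
  20875174790999608951394000000000000000000000000000000345881412 / 10 ^ 51), (5, 3,
  81178818879998958163582000000000000000000000000000001694702176 / 10 ^ 52), (4, 4,
  -185562428049995528275707000000000000000000000000000003951328508 / 10 ^ 51), (3, 5,
  458558120635988105854996200000000000000000000000000010221344136 / 10 ^ 51), (2, 6,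
  -9955485800119632217999826000000000000000000000000000321238808968 / 10 ^ 52), (1, 7,
  -65278214849797857714997094000000000000000000000000001914451393344 / 10 ^ 52), (0, 8,
  1553029224079970086696979 / 10 ^ 13)]

/-- the derivative in `x` of `m` -/
def dvJ (x y : ℝ) : ℝ :=
  evx JL x y * fP x y + ev JL x y * (lam - 20 * x + pb * y) + evByx JL x y

set_option maxRecDepth 10000 in
theorem dvJ_eq (x y : ℝ) : dvJ x y - gR (x ^ 2 + y ^ 2) =
    ev E1 x y + ev E2 x y + ev E3 x y + ev E4 x y + ev E5 x y + ev E6 x y + ev E7 x y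
      + ev E8 x y := by
  simp only [dvJ, ev, evx, evByx, JL, E1, E2, E3, E4, E5, E6, E7, E8, List.map_cons, List.map_nil,
    List.sum_cons, List.sum_nil, gR, fP, lam, pb, pe]
  push_cast
  ring


theorem sum_E1 : (E1.map fun t => |t.2.2|).sum ≤ 55001 / 10 ^ 203 := by
  simp only [E1, List.map_cons, List.map_nil, List.sum_cons, List.sum_nil]
  norm_num [abs_of_pos, abs_of_neg]

theorem abs_E1 (x y r : ℝ) (hx : |x| ≤ r) (hy : |y| ≤ r) :
    |ev E1 x y| ≤ 55001 / 10 ^ 203 * r ^ 1 := by
  refine (abs_ev_le 1 E1 x y r hx hy ?_).trans ?_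
  · intro t ht
    simp only [E1, List.mem_cons, List.not_mem_nil, or_false] at ht
    rcases ht with rfl | rfl <;> rfl
  · exact mul_le_mul_of_nonneg_right sum_E1 (pow_nonneg ((abs_nonneg _).trans hx) _)

theorem sum_E2 : (E2.map fun t => |t.2.2|).sum ≤ 305 / 10 ^ 65 := by
  simp only [E2, List.map_cons, List.map_nil, List.sum_cons, List.sum_nil]
  norm_num [abs_of_pos, abs_of_neg]

theorem abs_E2 (x y r : ℝ) (hx : |x| ≤ r) (hy : |y| ≤ r) :
    |ev E2 x y| ≤ 305 / 10 ^ 65 * r ^ 2 := by
  refine (abs_ev_le 2 E2 x y r hx hy ?_).trans ?_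
  · intro t ht
    simp only [E2, List.mem_cons, List.not_mem_nil, or_false] at ht
    rcases ht with rfl | rfl | rfl <;> rfl
  · exact mul_le_mul_of_nonneg_right sum_E2 (pow_nonneg ((abs_nonneg _).trans hx) _)

theorem sum_E3 : (E3.map fun t => |t.2.2|).sum ≤ 102 / 10 ^ 47 := by
  simp only [E3, List.map_cons, List.map_nil, List.sum_cons, List.sum_nil]
  norm_num [abs_of_pos, abs_of_neg]

theorem abs_E3 (x y r : ℝ) (hx : |x| ≤ r) (hy : |y| ≤ r) :
    |ev E3 x y| ≤ 102 / 10 ^ 47 * r ^ 3 := by
  refine (abs_ev_le 3 E3 x y r hx hy ?_).trans ?_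
  · intro t ht
    simp only [E3, List.mem_cons, List.not_mem_nil, or_false] at ht
    rcases ht with rfl | rfl | rfl | rfl <;> rfl
  · exact mul_le_mul_of_nonneg_right sum_E3 (pow_nonneg ((abs_nonneg _).trans hx) _)

theorem sum_E4 : (E4.map fun t => |t.2.2|).sum ≤ 401 / 10 ^ 16 := by
  simp only [E4, List.map_cons, List.map_nil, List.sum_cons, List.sum_nil]
  norm_num [abs_of_pos, abs_of_neg]

theorem abs_E4 (x y r : ℝ) (hx : |x| ≤ r) (hy : |y| ≤ r) :
    |ev E4 x y| ≤ 401 / 10 ^ 16 * r ^ 4 := by
  refine (abs_ev_le 4 E4 x y r hx hy ?_).trans ?_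
  · intro t ht
    simp only [E4, List.mem_cons, List.not_mem_nil, or_false] at ht
    rcases ht with rfl | rfl | rfl | rfl | rfl <;> rfl
  · exact mul_le_mul_of_nonneg_right sum_E4 (pow_nonneg ((abs_nonneg _).trans hx) _)

theorem sum_E5 : (E5.map fun t => |t.2.2|).sum ≤ 62 / 10 ^ 10 := by
  simp only [E5, List.map_cons, List.map_nil, List.sum_cons, List.sum_nil]
  norm_num [abs_of_pos, abs_of_neg]

theorem abs_E5 (x y r : ℝ) (hx : |x| ≤ r) (hy : |y| ≤ r) :
    |ev E5 x y| ≤ 62 / 10 ^ 10 * r ^ 5 := by
  refine (abs_ev_le 5 E5 x y r hx hy ?_).trans ?_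
  · intro t ht
    simp only [E5, List.mem_cons, List.not_mem_nil, or_false] at ht
    rcases ht with rfl | rfl | rfl | rfl | rfl | rfl <;> rfl
  · exact mul_le_mul_of_nonneg_right sum_E5 (pow_nonneg ((abs_nonneg _).trans hx) _)

theorem sum_E6 : (E6.map fun t => |t.2.2|).sum ≤ 7 / 10 ^ 2 := by
  simp only [E6, List.map_cons, List.map_nil, List.sum_cons, List.sum_nil]
  norm_num [abs_of_pos, abs_of_neg]

theorem abs_E6 (x y r : ℝ) (hx : |x| ≤ r) (hy : |y| ≤ r) :
    |ev E6 x y| ≤ 7 / 10 ^ 2 * r ^ 6 := by
  refine (abs_ev_le 6 E6 x y r hx hy ?_).trans ?_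
  · intro t ht
    simp only [E6, List.mem_cons, List.not_mem_nil, or_false] at ht
    rcases ht with rfl | rfl | rfl | rfl | rfl | rfl | rfl <;> rfl
  · exact mul_le_mul_of_nonneg_right sum_E6 (pow_nonneg ((abs_nonneg _).trans hx) _)

theorem sum_E7 : (E7.map fun t => |t.2.2|).sum ≤ 47 / 10 := by
  simp only [E7, List.map_cons, List.map_nil, List.sum_cons, List.sum_nil]
  norm_num [abs_of_pos, abs_of_neg]

theorem abs_E7 (x y r : ℝ) (hx : |x| ≤ r) (hy : |y| ≤ r) :
    |ev E7 x y| ≤ 47 / 10 * r ^ 7 := by
  refine (abs_ev_le 7 E7 x y r hx hy ?_).trans ?_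
  · intro t ht
    simp only [E7, List.mem_cons, List.not_mem_nil, or_false] at ht
    rcases ht with rfl | rfl | rfl | rfl | rfl | rfl | rfl | rfl <;> rfl
  · exact mul_le_mul_of_nonneg_right sum_E7 (pow_nonneg ((abs_nonneg _).trans hx) _)

theorem sum_E8 : (E8.map fun t => |t.2.2|).sum ≤ 8353 * 10 ^ 9 := by
  simp only [E8, List.map_cons, List.map_nil, List.sum_cons, List.sum_nil]
  norm_num [abs_of_pos, abs_of_neg]

theorem abs_E8 (x y r : ℝ) (hx : |x| ≤ r) (hy : |y| ≤ r) :
    |ev E8 x y| ≤ 8353 * 10 ^ 9 * r ^ 8 := by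
  refine (abs_ev_le 8 E8 x y r hx hy ?_).trans ?_
  · intro t ht
    simp only [E8, List.mem_cons, List.not_mem_nil, or_false] at ht
    rcases ht with rfl | rfl | rfl | rfl | rfl | rfl | rfl | rfl | rfl <;> rfl
  · exact mul_le_mul_of_nonneg_right sum_E8 (pow_nonneg ((abs_nonneg _).trans hx) _)

theorem hasDerivAt_m (x y : ℝ) :
    HasDerivAt (fun x => ev JL x y * fP x y + evBy JL x y) (dvJ x y) x := by
  have hP : HasDerivAt (fun x => fP x y) (lam - 20 * x + pb * y) x := by
    have h : HasDerivAt (fun x : ℝ => lam * x - y - 10 * x ^ 2 + pb * x * y + y ^ 2)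
        (lam * 1 - 10 * ((2 : ℕ) * x ^ (2 - 1)) + pb * 1 * y) x :=
      ((((((hasDerivAt_id x).const_mul lam).sub_const y).sub
        ((hasDerivAt_pow 2 x).const_mul 10)).add (((hasDerivAt_id x).const_mul pb).mul_const y)).add_const
        (y ^ 2))
    refine h.congr_deriv ?_
    push_cast
    ring
  exact ((hasDerivAt_ev JL x y).mul hP).add (hasDerivAt_evBy JL x y)

theorem dvJ_bound (x y : ℝ) (h : x ^ 2 + y ^ 2 ≤ 1 / 10 ^ 10) :
    |dvJ x y - gR (x ^ 2 + y ^ 2)| ≤ 1 / 40 * gS (x ^ 2 + y ^ 2) := by
  obtain ⟨r, hr0, hr⟩ : ∃ r : ℝ, 0 ≤ r ∧ r ^ 2 = x ^ 2 + y ^ 2 :=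
    ⟨√(x ^ 2 + y ^ 2), Real.sqrt_nonneg _, Real.sq_sqrt (by positivity)⟩
  have hx : |x| ≤ r := abs_le_of_sq_le_sq (by nlinarith [sq_nonneg y]) hr0
  have hy : |y| ≤ r := abs_le_of_sq_le_sq (by nlinarith [sq_nonneg x]) hr0
  have hr1 : r ≤ 1 / 10 ^ 5 := by
    by_contra hcon
    push Not at hcon
    have : (1 / 10 ^ 5 : ℝ) ^ 2 < r ^ 2 := by gcongr
    rw [hr] at this
    norm_num at this h
    linarith
  rw [dvJ_eq]
  have e1 := abs_E1 x y r hx hy
  have e2 := abs_E2 x y r hx hy
  have e3 := abs_E3 x y r hx hy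
  have e4 := abs_E4 x y r hx hy
  have e5 := abs_E5 x y r hx hy
  have e6 := abs_E6 x y r hx hy
  have e7 := abs_E7 x y r hx hy
  have e8 := abs_E8 x y r hx hy
  have hsum : |ev E1 x y + ev E2 x y + ev E3 x y + ev E4 x y + ev E5 x y + ev E6 x y + ev E7 x y
      + ev E8 x y| ≤ |ev E1 x y| + |ev E2 x y| + |ev E3 x y| + |ev E4 x y| + |ev E5 x y|
      + |ev E6 x y| + |ev E7 x y| + |ev E8 x y| := by
    refine (abs_add_le _ _).trans (add_le_add_left ?_ _)
    refine (abs_add_le _ _).trans (add_le_add_left ?_ _)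
    refine (abs_add_le _ _).trans (add_le_add_left ?_ _)
    refine (abs_add_le _ _).trans (add_le_add_left ?_ _)
    refine (abs_add_le _ _).trans (add_le_add_left ?_ _)
    refine (abs_add_le _ _).trans (add_le_add_left ?_ _)
    exact abs_add_le _ _
  have r1 : r ^ 1 ≤ 1 / 10 ^ 5 := by rw [pow_one]; exact hr1
  have p2 : 0 ≤ r ^ 2 := by positivity
  have p4 : 0 ≤ r ^ 4 := by positivity
  have p6 : 0 ≤ r ^ 6 := by positivity
  have r3 : r ^ 3 ≤ (1 / 10 ^ 9 * r ^ 2 + 10 ^ 9 * r ^ 4) / 2 := by
    nlinarith [mul_nonneg p2 (sq_nonneg (1 / 10 ^ 9 - r))]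
  have r5 : r ^ 5 ≤ 1 / 10 ^ 5 * r ^ 4 := by
    have := mul_le_mul_of_nonneg_right hr1 p4
    calc r ^ 5 = r * r ^ 4 := by ring
      _ ≤ _ := this
  have r7 : r ^ 7 ≤ 1 / 10 ^ 5 * r ^ 6 := by
    have := mul_le_mul_of_nonneg_right hr1 p6
    calc r ^ 7 = r * r ^ 6 := by ring
      _ ≤ _ := this
  have r8 : r ^ 8 ≤ 1 / 10 ^ 10 * r ^ 6 := by
    have := mul_le_mul_of_nonneg_right (hr ▸ h) p6
    calc r ^ 8 = r ^ 2 * r ^ 6 := by ring
      _ ≤ _ := this
  have hg : gS (x ^ 2 + y ^ 2) = 1 / 10 ^ 200 + 4 / 10 ^ 52 * r ^ 2 + 3 * (3958 / 10 ^ 14) * r ^ 4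
      + 35625 * r ^ 6 := by
    rw [← hr, gS, lam]
    ring
  rw [hg]
  refine hsum.trans ?_
  generalize |ev E1 x y| = a1 at *
  generalize |ev E2 x y| = a2 at *
  generalize |ev E3 x y| = a3 at *
  generalize |ev E4 x y| = a4 at *
  generalize |ev E5 x y| = a5 at *
  generalize |ev E6 x y| = a6 at *
  generalize |ev E7 x y| = a7 at *
  generalize |ev E8 x y| = a8 at *
  clear hsum hx hy hg h hr hr1
  norm_num at e1 e2 e3 e4 e5 e6 e7 e8 r1 r3 r5 r7 r8 ⊢
  linarith

end PolyJ

/-- job J -/
theorem exists_J : ∃ J B m dv : ℝ → ℝ → ℝ,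
    (∀ x y, HasFDerivAt (fun z : ℝ × ℝ => B z.1 z.2)
      ((J x y * (x * fL x y)) • ContinuousLinearMap.fst ℝ ℝ ℝ
        + (m x y - J x y * fP x y) • ContinuousLinearMap.snd ℝ ℝ ℝ) (x, y)) ∧
    (∀ x y, HasDerivAt (fun x => m x y) (dv x y) x) ∧
    (∀ x y, x ^ 2 + y ^ 2 ≤ 1 / 10 ^ 10 → |dv x y - gR (x ^ 2 + y ^ 2)| ≤ 1 / 40 * gS (x ^ 2 + y ^ 2)) := by
  refine ⟨PolyJ.ev PolyJ.JL, PolyJ.evB PolyJ.JL,
    fun x y => PolyJ.ev PolyJ.JL x y * fP x y + PolyJ.evBy PolyJ.JL x y, PolyJ.dvJ, ?_,
    PolyJ.hasDerivAt_m, PolyJ.dvJ_bound⟩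
  intro x y
  simp only [add_sub_cancel_left]
  exact PolyJ.hasFDerivAt_evB PolyJ.JL x y

end

end Pool.Agent.H.MP_732d27_an
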