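import Pool.Agent.H.MP_732d27_an.RegDefs

/-!
# Region A: the polynomial inequality of the Dulac function
-/

namespace Pool.Agent.H.MP_732d27_an.RegA1

noncomputable section

/-- quadratic form number 0 of the certificate -/
def q0 (x U : ℝ) : ℝ :=
    (48779/20000000)*(U^2*U^2) + (34474443/32000000)*(U^2*(x*U)) +
    (-253135019/2000000000)*(U^2*U) + (78325821/10000000)*(U^2*x^2) +
    (-527684529/2000000000)*(U^2*x) + (62877/500)*((x*U)*(x*U)) + (-74971/2500)*((x*U)*U) +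
    (14920813/8000)*((x*U)*x^2) + (-1397327/25000)*((x*U)*x) + (1969557641/1000000000)*(U*U) +
    (-61403/250)*(U*x^2) + (61157339/20000000)*(U*x) + (78124999999/10000000)*(x^2*x^2) +
    (-11648727/80000)*(x^2*x) + (303479789/10000000)*(x*x)

theorem q0_nonneg (x U : ℝ) : 0 ≤ q0 x U := by
  have h : q0 x U =
    (48779/20000000)*(U^2 + (172372215/780464)*(x*U) + (-253135019/9755800)*U +
    (78325821/48779)*x^2 + (-527684529/9755800)*x)^2 + (67787593996551/9989939200000)*((x*U) +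
    (-1270515726441166/8473449249568875)*U + (3376804765044752/338937969982755)*x^2 +
    (1485231002688694/8473449249568875)*x)^2 +
    (11860834803004367099327/67787593996551000000000)*(U +
    (-749247436678265400065800/11860834803004367099327)*x^2 +
    (-116303487325710058430219/11860834803004367099327)*x)^2 +
    (18059224989480913032438987289073/118608348030043670993270000000)*(x^2 +
    (4458350708426076536700896574299/36118449978961826064877974578146)*x)^2 +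
    (17429016213192615229189233231286561292421/4514806247370228258109746822268250000000)*(x)^2 := by
    unfold q0; ring
  rw [h]; positivity

/-- quadratic form number 1 of the certificate -/
def q1 (x U : ℝ) : ℝ :=
    (49717/50000)*(U*U) + (-32121/5000)*(U*x) + (-871/1000)*(U*1) + (6629/500)*(x*x) +
    (13859/5000)*(x*1) + (640261/3125000)*(1*1)

theorem q1_nonneg (x U : ℝ) : 0 ≤ q1 x U := by
  have h : q1 x U =
    (49717/50000)*(U + (-1935/599)*x + (-21775/49717)*1)^2 + (3452257/1198000)*(x +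
    (-125384/17261285)*1)^2 + (25057032825907/1790858318750000)*(1)^2 := by
    unfold q1; ring
  rw [h]; positivity

/-- quadratic form number 2 of the certificate -/
def q2 (x U : ℝ) : ℝ :=
    (3219/20000000)*(U*U) + (9647/625000)*(U*x) + (-5501/10000000)*(U*1) + (1601/1000)*(x*x) +
    (-2151/25000)*(x*1) + (15819/500000)*(1*1)

theorem q2_nonneg (x U : ℝ) : 0 ≤ q2 x U := by
  have h : q2 x U =
    (3219/20000000)*(U + (154352/3219)*x + (-5501/3219)*1)^2 + (2476495003/2011875000)*(x +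
    (-60016789/2476495003)*1)^2 + (301587707111291/9905980012000000)*(1)^2 := by
    unfold q2; ring
  rw [h]; positivity

/-- quadratic form number 3 of the certificate -/
def q3 (x U : ℝ) : ℝ :=
    (3811/62500)*(U*U) + (-5987/25000)*(U*x) + (27021/10000)*(x*x)

theorem q3_nonneg (x U : ℝ) : 0 ≤ q3 x U := by
  have h : q3 x U =
    (3811/62500)*(U + (-29935/15244)*x)^2 + (75212791/30488000)*(x)^2 := by
    unfold q3; ring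
  rw [h]; positivity

/-- the sum of monomials of the slack -/
def Sg (x U : ℝ) : ℝ := U ^ 4 + x ^ 4 + x ^ 2 * U ^ 2 + U ^ 2 + x ^ 2 + U

/-- `NA` for the limit values `b = 5`, `e = -25`, `lam = 0` -/
def N0 (x U : ℝ) : ℝ :=
  -(513 / 2500) * U - 2827 / 2500 * U ^ 2 - 4641 / 5000 * U ^ 3 - 13 / 5000 * U ^ 4
    - 231 / 40 * (x * U) + 371 / 10 * (x * U ^ 2) - 437 / 400 * (x * U ^ 3) - 243 / 8 * x ^ 2
    + 285 * (x ^ 2 * U) - 10813 / 80 * (x ^ 2 * U ^ 2) + 150 * x ^ 3 - 3725 / 2 * (x ^ 3 * U)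
    - 15625 / 2 * x ^ 4

theorem N0_eq (x U : ℝ) : -N0 x U = q0 x U + U * q1 x U
    + (1 / 100 + U - 13 / 8 * x) * (U * q2 x U + q3 x U) + 1 / 10 ^ 7 * Sg x U := by
  unfold N0 q0 q1 q2 q3 Sg
  ring

/-- coefficient of `e + 25` -/
def P1 (x U : ℝ) : ℝ := -1 / 2 * x * (x - U) * PsiA x U
  - 3 / 2 * U * (-6 * x - 59 / 500 * U + 13 / 2) * x * (x - U) - U * PsiA x U * x
/-- coefficient of `κ - 1/25` -/
def P2 (x U : ℝ) : ℝ := -3 / 2 * U * (-1250 * x - 6 * U + 12) * (1 + U)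
/-- coefficient of `κ² - 1/625` -/
def P3 (x U : ℝ) : ℝ := 3 / 2 * U * (-1250 * x - 6 * U + 12) * (1 + U) ^ 2
/-- coefficient of `bκ - 1/5` -/
def P4 (x U : ℝ) : ℝ := 3 / 2 * U * (-1250 * x - 6 * U + 12) * x * (1 + U) - U * PsiA x U * (1 + U)
/-- coefficient of `lam` -/
def P5 (x U : ℝ) : ℝ := 3 / 2 * U * (-1250 * x - 6 * U + 12) * x - U * PsiA x U

theorem NA_eq {x y κ : ℝ} (hy : y = κ * (1 + UA y)) :
    NA x y = N0 x (UA y) + (pe + 25) * P1 x (UA y) + (κ - 1 / 25) * P2 x (UA y)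
      + (κ ^ 2 - 1 / 625) * P3 x (UA y) + (pb * κ - 1 / 5) * P4 x (UA y) + lam * P5 x (UA y) := by
  have hfL : fL x y = x - UA y := by unfold fL UA; ring
  unfold NA UdA PsidA UdA fP
  rw [hfL]
  generalize UA y = U at *
  rw [hy]
  unfold N0 P1 P2 P3 P4 P5 PsiA
  ring

section bounds
variable {x U : ℝ} (hU : 0 < U)
include hU

theorem Sg_pos : 0 < Sg x U := by unfold Sg; positivity

theorem m_U : -Sg x U ≤ U ∧ U ≤ Sg x U := by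
  have hS : Sg x U = U ^ 4 + x ^ 4 + x ^ 2 * U ^ 2 + U ^ 2 + x ^ 2 + U := rfl
  constructor <;> rw [hS] <;> nlinarith [sq_nonneg x, sq_nonneg U, sq_nonneg (x ^ 2), sq_nonneg (U ^ 2), sq_nonneg (x * U), sq_nonneg (x - U), sq_nonneg (x + U), sq_nonneg (x * U - U), sq_nonneg (x * U + U), sq_nonneg (x * U - x), sq_nonneg (x * U + x), sq_nonneg (U ^ 2 - U), sq_nonneg (U ^ 2 + U), sq_nonneg (x ^ 2 - x), sq_nonneg (x ^ 2 + x), sq_nonneg (x * U - U ^ 2), sq_nonneg (x * U + U ^ 2), sq_nonneg (x * U - x ^ 2), sq_nonneg (x * U + x ^ 2), hU]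

theorem m_U2 : -Sg x U ≤ U ^ 2 ∧ U ^ 2 ≤ Sg x U := by
  have hS : Sg x U = U ^ 4 + x ^ 4 + x ^ 2 * U ^ 2 + U ^ 2 + x ^ 2 + U := rfl
  constructor <;> rw [hS] <;> nlinarith [sq_nonneg x, sq_nonneg U, sq_nonneg (x ^ 2), sq_nonneg (U ^ 2), sq_nonneg (x * U), sq_nonneg (x - U), sq_nonneg (x + U), sq_nonneg (x * U - U), sq_nonneg (x * U + U), sq_nonneg (x * U - x), sq_nonneg (x * U + x), sq_nonneg (U ^ 2 - U), sq_nonneg (U ^ 2 + U), sq_nonneg (x ^ 2 - x), sq_nonneg (x ^ 2 + x), sq_nonneg (x * U - U ^ 2), sq_nonneg (x * U + U ^ 2), sq_nonneg (x * U - x ^ 2), sq_nonneg (x * U + x ^ 2), hU]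

theorem m_U3 : -Sg x U ≤ U ^ 3 ∧ U ^ 3 ≤ Sg x U := by
  have hS : Sg x U = U ^ 4 + x ^ 4 + x ^ 2 * U ^ 2 + U ^ 2 + x ^ 2 + U := rfl
  constructor <;> rw [hS] <;> nlinarith [sq_nonneg x, sq_nonneg U, sq_nonneg (x ^ 2), sq_nonneg (U ^ 2), sq_nonneg (x * U), sq_nonneg (x - U), sq_nonneg (x + U), sq_nonneg (x * U - U), sq_nonneg (x * U + U), sq_nonneg (x * U - x), sq_nonneg (x * U + x), sq_nonneg (U ^ 2 - U), sq_nonneg (U ^ 2 + U), sq_nonneg (x ^ 2 - x), sq_nonneg (x ^ 2 + x), sq_nonneg (x * U - U ^ 2), sq_nonneg (x * U + U ^ 2), sq_nonneg (x * U - x ^ 2), sq_nonneg (x * U + x ^ 2), hU]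

theorem m_U4 : -Sg x U ≤ U ^ 4 ∧ U ^ 4 ≤ Sg x U := by
  have hS : Sg x U = U ^ 4 + x ^ 4 + x ^ 2 * U ^ 2 + U ^ 2 + x ^ 2 + U := rfl
  constructor <;> rw [hS] <;> nlinarith [sq_nonneg x, sq_nonneg U, sq_nonneg (x ^ 2), sq_nonneg (U ^ 2), sq_nonneg (x * U), sq_nonneg (x - U), sq_nonneg (x + U), sq_nonneg (x * U - U), sq_nonneg (x * U + U), sq_nonneg (x * U - x), sq_nonneg (x * U + x), sq_nonneg (U ^ 2 - U), sq_nonneg (U ^ 2 + U), sq_nonneg (x ^ 2 - x), sq_nonneg (x ^ 2 + x), sq_nonneg (x * U - U ^ 2), sq_nonneg (x * U + U ^ 2), sq_nonneg (x * U - x ^ 2), sq_nonneg (x * U + x ^ 2), hU]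

theorem m_xU : -Sg x U ≤ x * U ∧ x * U ≤ Sg x U := by
  have hS : Sg x U = U ^ 4 + x ^ 4 + x ^ 2 * U ^ 2 + U ^ 2 + x ^ 2 + U := rfl
  constructor <;> rw [hS] <;> nlinarith [sq_nonneg x, sq_nonneg U, sq_nonneg (x ^ 2), sq_nonneg (U ^ 2), sq_nonneg (x * U), sq_nonneg (x - U), sq_nonneg (x + U), sq_nonneg (x * U - U), sq_nonneg (x * U + U), sq_nonneg (x * U - x), sq_nonneg (x * U + x), sq_nonneg (U ^ 2 - U), sq_nonneg (U ^ 2 + U), sq_nonneg (x ^ 2 - x), sq_nonneg (x ^ 2 + x), sq_nonneg (x * U - U ^ 2), sq_nonneg (x * U + U ^ 2), sq_nonneg (x * U - x ^ 2), sq_nonneg (x * U + x ^ 2), hU]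

theorem m_xU2 : -Sg x U ≤ x * U ^ 2 ∧ x * U ^ 2 ≤ Sg x U := by
  have hS : Sg x U = U ^ 4 + x ^ 4 + x ^ 2 * U ^ 2 + U ^ 2 + x ^ 2 + U := rfl
  constructor <;> rw [hS] <;> nlinarith [sq_nonneg x, sq_nonneg U, sq_nonneg (x ^ 2), sq_nonneg (U ^ 2), sq_nonneg (x * U), sq_nonneg (x - U), sq_nonneg (x + U), sq_nonneg (x * U - U), sq_nonneg (x * U + U), sq_nonneg (x * U - x), sq_nonneg (x * U + x), sq_nonneg (U ^ 2 - U), sq_nonneg (U ^ 2 + U), sq_nonneg (x ^ 2 - x), sq_nonneg (x ^ 2 + x), sq_nonneg (x * U - U ^ 2), sq_nonneg (x * U + U ^ 2), sq_nonneg (x * U - x ^ 2), sq_nonneg (x * U + x ^ 2), hU]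

theorem m_xU3 : -Sg x U ≤ x * U ^ 3 ∧ x * U ^ 3 ≤ Sg x U := by
  have hS : Sg x U = U ^ 4 + x ^ 4 + x ^ 2 * U ^ 2 + U ^ 2 + x ^ 2 + U := rfl
  constructor <;> rw [hS] <;> nlinarith [sq_nonneg x, sq_nonneg U, sq_nonneg (x ^ 2), sq_nonneg (U ^ 2), sq_nonneg (x * U), sq_nonneg (x - U), sq_nonneg (x + U), sq_nonneg (x * U - U), sq_nonneg (x * U + U), sq_nonneg (x * U - x), sq_nonneg (x * U + x), sq_nonneg (U ^ 2 - U), sq_nonneg (U ^ 2 + U), sq_nonneg (x ^ 2 - x), sq_nonneg (x ^ 2 + x), sq_nonneg (x * U - U ^ 2), sq_nonneg (x * U + U ^ 2), sq_nonneg (x * U - x ^ 2), sq_nonneg (x * U + x ^ 2), hU]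

theorem m_x2 : -Sg x U ≤ x ^ 2 ∧ x ^ 2 ≤ Sg x U := by
  have hS : Sg x U = U ^ 4 + x ^ 4 + x ^ 2 * U ^ 2 + U ^ 2 + x ^ 2 + U := rfl
  constructor <;> rw [hS] <;> nlinarith [sq_nonneg x, sq_nonneg U, sq_nonneg (x ^ 2), sq_nonneg (U ^ 2), sq_nonneg (x * U), sq_nonneg (x - U), sq_nonneg (x + U), sq_nonneg (x * U - U), sq_nonneg (x * U + U), sq_nonneg (x * U - x), sq_nonneg (x * U + x), sq_nonneg (U ^ 2 - U), sq_nonneg (U ^ 2 + U), sq_nonneg (x ^ 2 - x), sq_nonneg (x ^ 2 + x), sq_nonneg (x * U - U ^ 2), sq_nonneg (x * U + U ^ 2), sq_nonneg (x * U - x ^ 2), sq_nonneg (x * U + x ^ 2), hU]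

theorem m_x2U : -Sg x U ≤ x ^ 2 * U ∧ x ^ 2 * U ≤ Sg x U := by
  have hS : Sg x U = U ^ 4 + x ^ 4 + x ^ 2 * U ^ 2 + U ^ 2 + x ^ 2 + U := rfl
  constructor <;> rw [hS] <;> nlinarith [sq_nonneg x, sq_nonneg U, sq_nonneg (x ^ 2), sq_nonneg (U ^ 2), sq_nonneg (x * U), sq_nonneg (x - U), sq_nonneg (x + U), sq_nonneg (x * U - U), sq_nonneg (x * U + U), sq_nonneg (x * U - x), sq_nonneg (x * U + x), sq_nonneg (U ^ 2 - U), sq_nonneg (U ^ 2 + U), sq_nonneg (x ^ 2 - x), sq_nonneg (x ^ 2 + x), sq_nonneg (x * U - U ^ 2), sq_nonneg (x * U + U ^ 2), sq_nonneg (x * U - x ^ 2), sq_nonneg (x * U + x ^ 2), hU]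

theorem m_x2U2 : -Sg x U ≤ x ^ 2 * U ^ 2 ∧ x ^ 2 * U ^ 2 ≤ Sg x U := by
  have hS : Sg x U = U ^ 4 + x ^ 4 + x ^ 2 * U ^ 2 + U ^ 2 + x ^ 2 + U := rfl
  constructor <;> rw [hS] <;> nlinarith [sq_nonneg x, sq_nonneg U, sq_nonneg (x ^ 2), sq_nonneg (U ^ 2), sq_nonneg (x * U), sq_nonneg (x - U), sq_nonneg (x + U), sq_nonneg (x * U - U), sq_nonneg (x * U + U), sq_nonneg (x * U - x), sq_nonneg (x * U + x), sq_nonneg (U ^ 2 - U), sq_nonneg (U ^ 2 + U), sq_nonneg (x ^ 2 - x), sq_nonneg (x ^ 2 + x), sq_nonneg (x * U - U ^ 2), sq_nonneg (x * U + U ^ 2), sq_nonneg (x * U - x ^ 2), sq_nonneg (x * U + x ^ 2), hU]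

theorem m_x3 : -Sg x U ≤ x ^ 3 ∧ x ^ 3 ≤ Sg x U := by
  have hS : Sg x U = U ^ 4 + x ^ 4 + x ^ 2 * U ^ 2 + U ^ 2 + x ^ 2 + U := rfl
  constructor <;> rw [hS] <;> nlinarith [sq_nonneg x, sq_nonneg U, sq_nonneg (x ^ 2), sq_nonneg (U ^ 2), sq_nonneg (x * U), sq_nonneg (x - U), sq_nonneg (x + U), sq_nonneg (x * U - U), sq_nonneg (x * U + U), sq_nonneg (x * U - x), sq_nonneg (x * U + x), sq_nonneg (U ^ 2 - U), sq_nonneg (U ^ 2 + U), sq_nonneg (x ^ 2 - x), sq_nonneg (x ^ 2 + x), sq_nonneg (x * U - U ^ 2), sq_nonneg (x * U + U ^ 2), sq_nonneg (x * U - x ^ 2), sq_nonneg (x * U + x ^ 2), hU]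

theorem m_x3U : -Sg x U ≤ x ^ 3 * U ∧ x ^ 3 * U ≤ Sg x U := by
  have hS : Sg x U = U ^ 4 + x ^ 4 + x ^ 2 * U ^ 2 + U ^ 2 + x ^ 2 + U := rfl
  constructor <;> rw [hS] <;> nlinarith [sq_nonneg x, sq_nonneg U, sq_nonneg (x ^ 2), sq_nonneg (U ^ 2), sq_nonneg (x * U), sq_nonneg (x - U), sq_nonneg (x + U), sq_nonneg (x * U - U), sq_nonneg (x * U + U), sq_nonneg (x * U - x), sq_nonneg (x * U + x), sq_nonneg (U ^ 2 - U), sq_nonneg (U ^ 2 + U), sq_nonneg (x ^ 2 - x), sq_nonneg (x ^ 2 + x), sq_nonneg (x * U - U ^ 2), sq_nonneg (x * U + U ^ 2), sq_nonneg (x * U - x ^ 2), sq_nonneg (x * U + x ^ 2), hU]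

theorem m_x4 : -Sg x U ≤ x ^ 4 ∧ x ^ 4 ≤ Sg x U := by
  have hS : Sg x U = U ^ 4 + x ^ 4 + x ^ 2 * U ^ 2 + U ^ 2 + x ^ 2 + U := rfl
  constructor <;> rw [hS] <;> nlinarith [sq_nonneg x, sq_nonneg U, sq_nonneg (x ^ 2), sq_nonneg (U ^ 2), sq_nonneg (x * U), sq_nonneg (x - U), sq_nonneg (x + U), sq_nonneg (x * U - U), sq_nonneg (x * U + U), sq_nonneg (x * U - x), sq_nonneg (x * U + x), sq_nonneg (U ^ 2 - U), sq_nonneg (U ^ 2 + U), sq_nonneg (x ^ 2 - x), sq_nonneg (x ^ 2 + x), sq_nonneg (x * U - U ^ 2), sq_nonneg (x * U + U ^ 2), sq_nonneg (x * U - x ^ 2), sq_nonneg (x * U + x ^ 2), hU]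

theorem P1_le : |P1 x U| ≤ 10000 * Sg x U := by
  obtain ⟨a_U, b_U⟩ := m_U (x := x) hU
  obtain ⟨a_U2, b_U2⟩ := m_U2 (x := x) hU
  obtain ⟨a_U3, b_U3⟩ := m_U3 (x := x) hU
  obtain ⟨a_U4, b_U4⟩ := m_U4 (x := x) hU
  obtain ⟨a_xU, b_xU⟩ := m_xU (x := x) hU
  obtain ⟨a_xU2, b_xU2⟩ := m_xU2 (x := x) hU
  obtain ⟨a_xU3, b_xU3⟩ := m_xU3 (x := x) hU
  obtain ⟨a_x2, b_x2⟩ := m_x2 (x := x) hU
  obtain ⟨a_x2U, b_x2U⟩ := m_x2U (x := x) hU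
  obtain ⟨a_x2U2, b_x2U2⟩ := m_x2U2 (x := x) hU
  obtain ⟨a_x3, b_x3⟩ := m_x3 (x := x) hU
  obtain ⟨a_x3U, b_x3U⟩ := m_x3U (x := x) hU
  obtain ⟨a_x4, b_x4⟩ := m_x4 (x := x) hU
  rw [abs_le]
  unfold P1
  unfold PsiA
  constructor <;> linarith

theorem P2_le : |P2 x U| ≤ 10000 * Sg x U := by
  obtain ⟨a_U, b_U⟩ := m_U (x := x) hU
  obtain ⟨a_U2, b_U2⟩ := m_U2 (x := x) hU
  obtain ⟨a_U3, b_U3⟩ := m_U3 (x := x) hU
  obtain ⟨a_U4, b_U4⟩ := m_U4 (x := x) hU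
  obtain ⟨a_xU, b_xU⟩ := m_xU (x := x) hU
  obtain ⟨a_xU2, b_xU2⟩ := m_xU2 (x := x) hU
  obtain ⟨a_xU3, b_xU3⟩ := m_xU3 (x := x) hU
  obtain ⟨a_x2, b_x2⟩ := m_x2 (x := x) hU
  obtain ⟨a_x2U, b_x2U⟩ := m_x2U (x := x) hU
  obtain ⟨a_x2U2, b_x2U2⟩ := m_x2U2 (x := x) hU
  obtain ⟨a_x3, b_x3⟩ := m_x3 (x := x) hU
  obtain ⟨a_x3U, b_x3U⟩ := m_x3U (x := x) hU
  obtain ⟨a_x4, b_x4⟩ := m_x4 (x := x) hU
  rw [abs_le]
  unfold P2
  constructor <;> linarith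

theorem P3_le : |P3 x U| ≤ 10000 * Sg x U := by
  obtain ⟨a_U, b_U⟩ := m_U (x := x) hU
  obtain ⟨a_U2, b_U2⟩ := m_U2 (x := x) hU
  obtain ⟨a_U3, b_U3⟩ := m_U3 (x := x) hU
  obtain ⟨a_U4, b_U4⟩ := m_U4 (x := x) hU
  obtain ⟨a_xU, b_xU⟩ := m_xU (x := x) hU
  obtain ⟨a_xU2, b_xU2⟩ := m_xU2 (x := x) hU
  obtain ⟨a_xU3, b_xU3⟩ := m_xU3 (x := x) hU
  obtain ⟨a_x2, b_x2⟩ := m_x2 (x := x) hU
  obtain ⟨a_x2U, b_x2U⟩ := m_x2U (x := x) hU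
  obtain ⟨a_x2U2, b_x2U2⟩ := m_x2U2 (x := x) hU
  obtain ⟨a_x3, b_x3⟩ := m_x3 (x := x) hU
  obtain ⟨a_x3U, b_x3U⟩ := m_x3U (x := x) hU
  obtain ⟨a_x4, b_x4⟩ := m_x4 (x := x) hU
  rw [abs_le]
  unfold P3
  constructor <;> linarith

theorem P4_le : |P4 x U| ≤ 10000 * Sg x U := by
  obtain ⟨a_U, b_U⟩ := m_U (x := x) hU
  obtain ⟨a_U2, b_U2⟩ := m_U2 (x := x) hU
  obtain ⟨a_U3, b_U3⟩ := m_U3 (x := x) hU
  obtain ⟨a_U4, b_U4⟩ := m_U4 (x := x) hU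
  obtain ⟨a_xU, b_xU⟩ := m_xU (x := x) hU
  obtain ⟨a_xU2, b_xU2⟩ := m_xU2 (x := x) hU
  obtain ⟨a_xU3, b_xU3⟩ := m_xU3 (x := x) hU
  obtain ⟨a_x2, b_x2⟩ := m_x2 (x := x) hU
  obtain ⟨a_x2U, b_x2U⟩ := m_x2U (x := x) hU
  obtain ⟨a_x2U2, b_x2U2⟩ := m_x2U2 (x := x) hU
  obtain ⟨a_x3, b_x3⟩ := m_x3 (x := x) hU
  obtain ⟨a_x3U, b_x3U⟩ := m_x3U (x := x) hU
  obtain ⟨a_x4, b_x4⟩ := m_x4 (x := x) hU
  rw [abs_le]
  unfold P4
  unfold PsiA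
  constructor <;> linarith

theorem P5_le : |P5 x U| ≤ 10000 * Sg x U := by
  obtain ⟨a_U, b_U⟩ := m_U (x := x) hU
  obtain ⟨a_U2, b_U2⟩ := m_U2 (x := x) hU
  obtain ⟨a_U3, b_U3⟩ := m_U3 (x := x) hU
  obtain ⟨a_U4, b_U4⟩ := m_U4 (x := x) hU
  obtain ⟨a_xU, b_xU⟩ := m_xU (x := x) hU
  obtain ⟨a_xU2, b_xU2⟩ := m_xU2 (x := x) hU
  obtain ⟨a_xU3, b_xU3⟩ := m_xU3 (x := x) hU
  obtain ⟨a_x2, b_x2⟩ := m_x2 (x := x) hU
  obtain ⟨a_x2U, b_x2U⟩ := m_x2U (x := x) hU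
  obtain ⟨a_x2U2, b_x2U2⟩ := m_x2U2 (x := x) hU
  obtain ⟨a_x3, b_x3⟩ := m_x3 (x := x) hU
  obtain ⟨a_x3U, b_x3U⟩ := m_x3U (x := x) hU
  obtain ⟨a_x4, b_x4⟩ := m_x4 (x := x) hU
  rw [abs_le]
  unfold P5
  unfold PsiA
  constructor <;> linarith

theorem P6_le : (1 + U) * (U * q2 x U + q3 x U) ≤ 100 * Sg x U := by
  obtain ⟨a_U, b_U⟩ := m_U (x := x) hU
  obtain ⟨a_U2, b_U2⟩ := m_U2 (x := x) hU
  obtain ⟨a_U3, b_U3⟩ := m_U3 (x := x) hU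
  obtain ⟨a_U4, b_U4⟩ := m_U4 (x := x) hU
  obtain ⟨a_xU, b_xU⟩ := m_xU (x := x) hU
  obtain ⟨a_xU2, b_xU2⟩ := m_xU2 (x := x) hU
  obtain ⟨a_xU3, b_xU3⟩ := m_xU3 (x := x) hU
  obtain ⟨a_x2, b_x2⟩ := m_x2 (x := x) hU
  obtain ⟨a_x2U, b_x2U⟩ := m_x2U (x := x) hU
  obtain ⟨a_x2U2, b_x2U2⟩ := m_x2U2 (x := x) hU
  obtain ⟨a_x3, b_x3⟩ := m_x3 (x := x) hU
  obtain ⟨a_x3U, b_x3U⟩ := m_x3U (x := x) hU
  obtain ⟨a_x4, b_x4⟩ := m_x4 (x := x) hU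
  unfold q2 q3
  linarith

end bounds

end

end Pool.Agent.H.MP_732d27_an.RegA1

namespace Pool.Agent.H.MP_732d27_an
open RegA1

/-- job A1 -/
theorem NA_neg {x y : ℝ} (hU : 1 + pe * y < 0) (hW : 396 / 10000 + 65 / 1000 * x < y) : NA x y < 0 := by
  have hU' : 0 < UA y := by unfold UA; linarith
  have hpe : pe < 0 := by unfold pe; norm_num
  have hpe25 : 0 ≤ pe + 25 ∧ pe + 25 ≤ 1 / 10 ^ 12 := by unfold pe; norm_num
  obtain ⟨κ, hκ⟩ : ∃ κ : ℝ, κ = -1 / pe := ⟨_, rfl⟩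
  have hκp : κ * pe = -1 := by rw [hκ]; exact div_mul_cancel₀ _ hpe.ne
  have hy : y = κ * (1 + UA y) := by
    have : κ * (1 + UA y) = -(κ * pe) * y := by unfold UA; ring
    rw [this, hκp]; ring
  have hκ1 : 0 ≤ κ - 1 / 25 := by
    rw [hκ]; unfold pe; norm_num
  have hκ2 : κ - 1 / 25 ≤ 1 / 10 ^ 14 := by
    rw [hκ]; unfold pe; norm_num
  have hκ3 : |κ - 1 / 25| ≤ 1 / 10 ^ 14 := by rw [abs_of_nonneg hκ1]; exact hκ2
  have hκ4 : |κ ^ 2 - 1 / 625| ≤ 1 / 10 ^ 14 := by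
    have h1 : κ ^ 2 - 1 / 625 = (κ - 1 / 25) * (κ + 1 / 25) := by ring
    have h2 : κ + 1 / 25 ≤ 1 := by linarith
    have h3 : 0 ≤ κ + 1 / 25 := by linarith
    rw [h1, abs_mul, abs_of_nonneg hκ1, abs_of_nonneg h3]
    calc _ ≤ (κ - 1 / 25) * 1 := mul_le_mul_of_nonneg_left h2 hκ1
      _ ≤ _ := by linarith
  have hκ5 : |pb * κ - 1 / 5| ≤ 1 / 10 ^ 12 := by
    have h1 : pb * κ - 1 / 5 = 5 * (κ - 1 / 25) - 1 / 10 ^ 13 * κ := by unfold pb; ring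
    rw [h1, abs_le]
    constructor <;> nlinarith
  have hlam : |lam| ≤ 1 / 10 ^ 14 := by
    unfold lam
    rw [abs_neg, abs_of_pos (by positivity)]
    exact one_div_le_one_div_of_le (by positivity) (pow_le_pow_right₀ (by norm_num) (by norm_num))
  rw [NA_eq hy]
  have hN0 := N0_eq x (UA y)
  set U := UA y with hUdef
  have hS := Sg_pos (x := x) hU'
  have hq0 := q0_nonneg x U
  have hq1 := mul_nonneg hU'.le (q1_nonneg x U)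
  have hQ : 0 ≤ U * q2 x U + q3 x U :=
    add_nonneg (mul_nonneg hU'.le (q2_nonneg x U)) (q3_nonneg x U)
  have hW' : 0 ≤ 1 / 100 + U - 13 / 8 * x + 25 * (κ - 1 / 25) * (1 + U) := by
    have : 1 / 100 + U - 13 / 8 * x + 25 * (κ - 1 / 25) * (1 + U)
        = 25 * (κ * (1 + U)) - 99 / 100 - 13 / 8 * x := by ring
    rw [this, ← hy]; linarith
  have hWQ := mul_nonneg hW' hQ
  have h6 : (κ - 1 / 25) * ((1 + U) * (U * q2 x U + q3 x U)) ≤ 1 / 10 ^ 14 * (100 * Sg x U) :=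
    mul_le_mul hκ2 (P6_le hU') (mul_nonneg (by linarith) hQ) (by positivity)
  have habs : ∀ a b c d : ℝ, |a| ≤ c → |b| ≤ d → a * b ≤ c * d := by
    intro a b c d h1 h2
    calc a * b ≤ |a * b| := le_abs_self _
      _ = |a| * |b| := abs_mul _ _
      _ ≤ c * d := mul_le_mul h1 h2 (abs_nonneg _) ((abs_nonneg _).trans h1)
  have h1 := habs _ _ _ _ (show |pe + 25| ≤ 1 / 10 ^ 12 by
    rw [abs_of_nonneg hpe25.1]; exact hpe25.2) (P1_le (x := x) hU')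
  have h2 := habs _ _ _ _ hκ3 (P2_le (x := x) hU')
  have h3 := habs _ _ _ _ hκ4 (P3_le (x := x) hU')
  have h4 := habs _ _ _ _ hκ5 (P4_le (x := x) hU')
  have h5 := habs _ _ _ _ hlam (P5_le (x := x) hU')
  have e1 : (1 / 100 + U - 13 / 8 * x) * (U * q2 x U + q3 x U)
      = (1 / 100 + U - 13 / 8 * x + 25 * (κ - 1 / 25) * (1 + U)) * (U * q2 x U + q3 x U)
        - 25 * ((κ - 1 / 25) * ((1 + U) * (U * q2 x U + q3 x U))) := by ring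
  linarith

end Pool.Agent.H.MP_732d27_an
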