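import Pool.Agent.H.MP_732d27_an.PerDefs

/-!
# Definitions for the region A and the inner region B
-/

namespace Pool.Agent.H.MP_732d27_an

noncomputable section

/-- the conic of the Dulac function of the region A -/
def PsiA (x U : ℝ) : ℝ :=
  -625 * x ^ 2 - 6 * x * U - 59 / 1000 * U ^ 2 + 12 * x + 13 / 2 * U - 243 / 100

/-- `U = -(1 + e y)` -/
def UA (y : ℝ) : ℝ := -(1 + pe * y)

/-- derivative of `U` along Shi's field -/
def UdA (x y : ℝ) : ℝ := -pe * (x * fL x y)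

/-- derivative of `PsiA x U` along Shi's field -/
def PsidA (x y : ℝ) : ℝ :=
  (-1250 * x - 6 * UA y + 12) * fP x y + (-6 * x - 59 / 500 * UA y + 13 / 2) * UdA x y

/-- `N = ½ U' Ψ + (3/2) U Ψ' - U Ψ div` along Shi's field, with `U = -(1 + e y)`. -/
def NA (x y : ℝ) : ℝ :=
  1 / 2 * UdA x y * PsiA x (UA y) + 3 / 2 * UA y * PsidA x y
    - UA y * PsiA x (UA y) * (lam + (-20 + pe) * x + pb * y)

/-- main part of the derivative of `V ≈ x² + y²` along Shi's field, as a function of `R = x² + y²` -/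
def fR (R : ℝ) : ℝ := lam * R + 2 / 10 ^ 52 * R ^ 2 - 3958 / 10 ^ 14 * R ^ 3 + 35625 / 4 * R ^ 4

/-- sum of the absolute values of the terms of `fR` -/
def fS (R : ℝ) : ℝ := -lam * R + 2 / 10 ^ 52 * R ^ 2 + 3958 / 10 ^ 14 * R ^ 3 + 35625 / 4 * R ^ 4

/-- main part of the divergence of `J` times Shi's field -/
def gR (R : ℝ) : ℝ := lam + 4 / 10 ^ 52 * R - 3 * (3958 / 10 ^ 14) * R ^ 2 + 35625 * R ^ 3

/-- sum of the absolute values of the terms of `gR` -/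
def gS (R : ℝ) : ℝ := -lam + 4 / 10 ^ 52 * R + 3 * (3958 / 10 ^ 14) * R ^ 2 + 35625 * R ^ 3

/-- the three zones (for `R = x² + y²`) -/
def zone : Fin 3 → ℝ → Prop
  | 0, R => 38 / 10 ^ 150 ≤ R ∧ R ≤ 62 / 10 ^ 150
  | 1, R => 38 / 10 ^ 43 ≤ R ∧ R ≤ 62 / 10 ^ 43
  | 2, R => 38 / 10 ^ 16 ≤ R ∧ R ≤ 52 / 10 ^ 16

end

end Pool.Agent.H.MP_732d27_an
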